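import Mathlib

set_option autoImplicit false

namespace Pool.Agent.V11146.Wheel

open Finset

variable {V : Type} [Fintype V] [DecidableEq V]

/-- edge count between two sets, each pair counted from the left. -/
def ec (N : V → Finset V) (S T : Finset V) : ℕ := ∑ x ∈ S, (N x ∩ T).card

lemma ec_sq (N : V → Finset V) (hsymm : ∀ x y, y ∈ N x ↔ x ∈ N y)
    (U : Finset V)
    (hfree : ∀ y ∈ U, ∀ z ∈ U, y ≠ z → (N y ∩ N z ∩ U).card ≤ 1)
    (S T : Finset V) (hS : S ⊆ U) (hT : T ⊆ U) :
    (ec N S T) ^ 2 ≤ 2 * (Fintype.card V) ^ 3 := by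
  set n := Fintype.card V with hn
  have hSn : S.card ≤ n := Finset.card_le_univ _
  have hTn : T.card ≤ n := Finset.card_le_univ _
  have h1 : (ec N S T) ^ 2 ≤ S.card * ∑ x ∈ S, (N x ∩ T).card ^ 2 := by
    unfold ec
    exact sq_sum_le_card_mul_sum_sq
  have h2 : ∑ x ∈ S, (N x ∩ T).card ^ 2 = ∑ y ∈ T, ∑ z ∈ T, (N y ∩ N z ∩ S).card := by
    have : ∀ x, (N x ∩ T).card ^ 2 = ∑ y ∈ T, ∑ z ∈ T, if y ∈ N x ∧ z ∈ N x then 1 else 0 := by
      intro x
      have : (N x ∩ T).card = ∑ y ∈ T, if y ∈ N x then 1 else 0 := by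
        rw [← Finset.sum_filter, ← Finset.card_eq_sum_ones]
        congr 1
        ext y; simp [and_comm]
      rw [sq, this, Finset.sum_mul_sum]
      refine Finset.sum_congr rfl fun y _ => Finset.sum_congr rfl fun z _ => ?_
      by_cases h1 : y ∈ N x <;> by_cases h2 : z ∈ N x <;> simp [h1, h2]
    simp_rw [this]
    rw [Finset.sum_comm]
    refine Finset.sum_congr rfl fun y _ => ?_
    rw [Finset.sum_comm]
    refine Finset.sum_congr rfl fun z _ => ?_
    rw [← Finset.sum_filter, ← Finset.card_eq_sum_ones]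
    congr 1
    ext x
    simp only [mem_filter, mem_inter]
    rw [hsymm x y, hsymm x z]
    tauto
  have h3 : ∑ y ∈ T, ∑ z ∈ T, (N y ∩ N z ∩ S).card ≤ ∑ y ∈ T, ∑ z ∈ T, (1 + if z = y then n else 0) := by
    refine Finset.sum_le_sum fun y hy => Finset.sum_le_sum fun z hz => ?_
    by_cases h : z = y
    · subst h
      simp only [if_true]
      have : (N z ∩ N z ∩ S).card ≤ n := Finset.card_le_univ _
      omega
    · have h' := hfree y (hT hy) z (hT hz) (fun e => h e.symm)
      have : (N y ∩ N z ∩ S).card ≤ (N y ∩ N z ∩ U).card :=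
        Finset.card_le_card (Finset.inter_subset_inter_left hS)
      simp only [h, if_false]
      omega
  have h4 : ∑ y ∈ T, ∑ z ∈ T, (1 + if z = y then n else 0) ≤ 2 * n ^ 2 := by
    have : ∀ y ∈ T, ∑ z ∈ T, (1 + if z = y then n else 0) = T.card + n := by
      intro y hy
      rw [Finset.sum_add_distrib, Finset.sum_ite_eq' T y]
      simp [hy]
    rw [Finset.sum_congr rfl this]
    simp only [sum_const, smul_eq_mul]
    nlinarith
  calc (ec N S T) ^ 2 ≤ S.card * ∑ x ∈ S, (N x ∩ T).card ^ 2 := h1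
    _ ≤ n * (2 * n ^ 2) := by
        apply Nat.mul_le_mul hSn
        rw [h2]
        exact h3.trans h4
    _ = 2 * n ^ 3 := by ring

lemma ec_le (N : V → Finset V) (hsymm : ∀ x y, y ∈ N x ↔ x ∈ N y)
    (U : Finset V)
    (hfree : ∀ y ∈ U, ∀ z ∈ U, y ≠ z → (N y ∩ N z ∩ U).card ≤ 1)
    (S T : Finset V) (hS : S ⊆ U) (hT : T ⊆ U) (hn : 2000000 ≤ Fintype.card V) :
    (ec N S T : ℝ) ≤ (1/1000) * (Fintype.card V : ℝ) ^ 2 := by
  have h := ec_sq N hsymm U hfree S T hS hT
  have h' : ((ec N S T : ℝ)) ^ 2 ≤ 2 * (Fintype.card V : ℝ) ^ 3 := by exact_mod_cast h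
  have hn' : (2000000 : ℝ) ≤ Fintype.card V := by exact_mod_cast hn
  apply le_of_sq_le_sq _ (by positivity)
  nlinarith [pow_nonneg (by positivity : (0:ℝ) ≤ (Fintype.card V : ℝ)) 3]

lemma card_split (P A B R : Finset V) (hR : R = univ \ (A ∪ B)) :
    P.card ≤ (P ∩ A).card + (P ∩ B).card + R.card := by
  have : P ⊆ (P ∩ A) ∪ (P ∩ B) ∪ R := by
    intro x hx
    subst hR
    simp only [mem_union, mem_inter, mem_sdiff, mem_univ, true_and]
    tauto
  calc P.card ≤ ((P ∩ A) ∪ (P ∩ B) ∪ R).card := Finset.card_le_card this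
    _ ≤ ((P ∩ A) ∪ (P ∩ B)).card + R.card := Finset.card_union_le _ _
    _ ≤ _ := by
      have := Finset.card_union_le (P ∩ A) (P ∩ B)
      omega

omit [Fintype V] in
/-- non-edge count monotone. -/
lemma nonedge_mono (N : V → Finset V) (A B P Q : Finset V) (hP : P ⊆ A) (hQ : Q ⊆ B) :
    (P.card : ℝ) * Q.card - ec N P Q ≤ (A.card : ℝ) * B.card - ec N A B := by
  have e1 : ∀ S T : Finset V, (S.card : ℝ) * T.card - ec N S T = ∑ x ∈ S, ((T \ N x).card : ℝ) := by
    intro S T
    unfold ec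
    push_cast
    rw [← nsmul_eq_mul, ← Finset.sum_const, ← Finset.sum_sub_distrib]
    refine Finset.sum_congr rfl fun x _ => ?_
    have := Finset.card_sdiff_add_card_inter T (N x)
    rw [Finset.inter_comm] at this
    have h : ((T \ N x).card : ℝ) + ((N x ∩ T).card : ℝ) = T.card := by exact_mod_cast this
    linarith
  rw [e1, e1]
  calc ∑ x ∈ P, ((Q \ N x).card : ℝ) ≤ ∑ x ∈ P, ((B \ N x).card : ℝ) := by
        refine Finset.sum_le_sum fun x _ => ?_
        exact_mod_cast Finset.card_le_card (Finset.sdiff_subset_sdiff hQ le_rfl)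
    _ ≤ ∑ x ∈ A, ((B \ N x).card : ℝ) := by
        exact Finset.sum_le_sum_of_subset_of_nonneg hP (fun _ _ _ => by positivity)

/-- Structure: a graph all of whose neighbourhoods span `C_4`-free graphs, with large minimum degree,
splits into two sides each inducing maximum degree at most one. -/
theorem structure_lemma (N : V → Finset V) (hsymm : ∀ x y, y ∈ N x ↔ x ∈ N y)
    (hirr : ∀ x, x ∉ N x)
    (hfree : ∀ c a b a' b', a ∈ N c → b ∈ N c → a' ∈ N c → b' ∈ N c →
      b ∈ N a → b ∈ N a' → b' ∈ N a' → b' ∈ N a → a = a' ∨ b = b')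
    (hn : 2000000 ≤ Fintype.card V)
    (hdeg : ∀ x, (499/1000 : ℝ) * (Fintype.card V : ℝ) ≤ ((N x).card : ℝ)) :
    ∃ side : V → Bool, ∀ x y z, side x = side y → side x = side z → y ∈ N x → z ∈ N x → y = z := by
  classical
  set n : ℝ := (Fintype.card V : ℝ) with hnd
  have hn' : (2000000 : ℝ) ≤ n := by rw [hnd]; exact_mod_cast hn
  have hfree' : ∀ c, ∀ y ∈ N c, ∀ z ∈ N c, y ≠ z → (N y ∩ N z ∩ N c).card ≤ 1 := by
    intro c y hy z hz hyz
    rw [Finset.card_le_one]
    intro b hb b' hb'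
    simp only [mem_inter] at hb hb'
    rcases hfree c y b z b' hy hb.2 hz hb'.2 hb.1.1 hb.1.2 hb'.1.2 hb'.1.1 with h | h
    · exact absurd h hyz
    · exact h
  have hec : ∀ c S T, S ⊆ N c → T ⊆ N c → (ec N S T : ℝ) ≤ (1/1000) * n ^ 2 :=
    fun c S T hS hT => ec_le N hsymm (N c) (hfree' c) S T hS hT hn
  -- pick u
  have hpos : 0 < Fintype.card V := by omega
  obtain ⟨u⟩ : Nonempty V := Fintype.card_pos_iff.mp hpos
  -- pick v
  obtain ⟨v, hv, hcod⟩ : ∃ v ∈ N u, ((N v ∩ N u).card : ℝ) ≤ (3/1000) * n := by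
    by_contra hcon
    push Not at hcon
    have h1 := hec u (N u) (N u) le_rfl le_rfl
    have h2 : ((N u).card : ℝ) * ((3/1000) * n) ≤ ec N (N u) (N u) := by
      unfold ec
      push_cast
      rw [← nsmul_eq_mul, ← Finset.sum_const]
      exact Finset.sum_le_sum fun x hx => (hcon x hx).le
    have h3 := hdeg u
    nlinarith
  set B := N u with hB
  set A := N v \ N u with hA
  have hAB : Disjoint A B := Finset.sdiff_disjoint
  have hBc : (499/1000) * n ≤ B.card := hdeg u
  have hAc : (496/1000) * n ≤ A.card := by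
    have h1 := Finset.card_sdiff_add_card_inter (N v) (N u)
    have h2 : ((N v \ N u).card : ℝ) + ((N v ∩ N u).card : ℝ) = (N v).card := by exact_mod_cast h1
    have h3 := hdeg v
    linarith
  set R := univ \ (A ∪ B) with hR
  have hABR : (A.card : ℝ) + B.card + R.card = n := by
    have h1 : (A ∪ B).card = A.card + B.card := Finset.card_union_of_disjoint hAB
    have h2 := Finset.card_sdiff_add_card_eq_card (Finset.subset_univ (A ∪ B))
    rw [h1, Finset.card_univ] at h2
    rw [hnd, ← h2]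
    push_cast
    ring
  have hRc : (R.card : ℝ) ≤ (5/1000) * n := by linarith
  have hR0 : (0:ℝ) ≤ R.card := by positivity
  -- e(A,B)
  have hnon : (A.card : ℝ) * B.card - ec N A B ≤ (11/1000) * n ^ 2 := by
    have h1 : ∀ x ∈ A, (499/1000 - 5/1000) * n - ((N x ∩ A).card : ℝ) ≤ (N x ∩ B).card := by
      intro x hx
      have h := card_split (N x) A B R hR
      have h' : ((N x).card : ℝ) ≤ (N x ∩ A).card + (N x ∩ B).card + R.card := by exact_mod_cast h
      have := hdeg x
      linarith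
    have h2 : (A.card : ℝ) * ((499/1000 - 5/1000) * n) - ec N A A ≤ ec N A B := by
      have := Finset.sum_le_sum h1
      rw [Finset.sum_sub_distrib, Finset.sum_const, nsmul_eq_mul] at this
      unfold ec
      push_cast
      exact this
    have h3 := hec v A A Finset.sdiff_subset Finset.sdiff_subset
    have h4 : (B.card : ℝ) ≤ (504/1000) * n := by linarith
    have h5 : (A.card : ℝ) ≤ n := by
      have : (0:ℝ) ≤ B.card := by positivity
      linarith
    have h6 : (0:ℝ) ≤ A.card := by positivity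
    nlinarith [mul_le_mul_of_nonneg_left h4 h6, mul_le_mul_of_nonneg_right h5 (by linarith : (0:ℝ) ≤ n)]
  -- for every x
  have hx : ∀ x, ((N x ∩ A).card : ℝ) * (N x ∩ B).card ≤ (12/1000) * n ^ 2 := by
    intro x
    have h1 := nonedge_mono N A B (N x ∩ A) (N x ∩ B) Finset.inter_subset_right
      Finset.inter_subset_right
    have h2 := hec x (N x ∩ A) (N x ∩ B) Finset.inter_subset_left Finset.inter_subset_left
    linarith
  have hsum : ∀ x, (494/1000) * n ≤ ((N x ∩ A).card : ℝ) + (N x ∩ B).card := by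
    intro x
    have h := card_split (N x) A B R hR
    have h' : ((N x).card : ℝ) ≤ (N x ∩ A).card + (N x ∩ B).card + R.card := by exact_mod_cast h
    have := hdeg x
    linarith
  -- large side has few misses
  have key : ∀ p q : ℝ, 0 ≤ p → p ≤ q → (494/1000) * n ≤ p + q → p * q ≤ (12/1000) * n ^ 2 →
      (434/1000) * n ≤ q := by
    intro p q hp hpq hs hm
    have hq : (1/5) * n ≤ q := by linarith
    have : p ≤ (60/1000) * n := by
      by_contra hc
      push Not at hc
      nlinarith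
    linarith
  have missB : ∀ x, (N x ∩ A).card ≤ (N x ∩ B).card → ((B \ N x).card : ℝ) ≤ (70/1000) * n := by
    intro x h
    have h' : ((N x ∩ A).card : ℝ) ≤ (N x ∩ B).card := by exact_mod_cast h
    have hq := key _ _ (by positivity) h' (hsum x) (hx x)
    have h1 := Finset.card_sdiff_add_card_inter B (N x)
    rw [Finset.inter_comm] at h1
    have h2 : ((B \ N x).card : ℝ) + ((N x ∩ B).card : ℝ) = B.card := by exact_mod_cast h1
    linarith
  have missA : ∀ x, (N x ∩ B).card ≤ (N x ∩ A).card → ((A \ N x).card : ℝ) ≤ (70/1000) * n := by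
    intro x h
    have h' : ((N x ∩ B).card : ℝ) ≤ (N x ∩ A).card := by exact_mod_cast h
    have hs := hsum x
    have hxx := hx x
    have hq := key _ _ (by positivity) h' (by linarith) (by linarith)
    have h1 := Finset.card_sdiff_add_card_inter A (N x)
    rw [Finset.inter_comm] at h1
    have h2 : ((A \ N x).card : ℝ) + ((N x ∩ A).card : ℝ) = A.card := by exact_mod_cast h1
    linarith
  -- three vertices with small misses in D have two common neighbours in D
  have common : ∀ D : Finset V, (496/1000) * n ≤ D.card → ∀ x y z,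
      ((D \ N x).card : ℝ) ≤ (70/1000) * n → ((D \ N y).card : ℝ) ≤ (70/1000) * n →
      ((D \ N z).card : ℝ) ≤ (70/1000) * n → y ∈ N x → z ∈ N x → y = z := by
    intro D hD x y z hx hy hz hyx hzx
    have hsub : D ⊆ (D ∩ (N x ∩ N y ∩ N z)) ∪ ((D \ N x) ∪ ((D \ N y) ∪ (D \ N z))) := by
      intro w hw
      simp only [mem_union, mem_inter, mem_sdiff]
      tauto
    have hc := Finset.card_le_card hsub
    have hc1 := Finset.card_union_le (D ∩ (N x ∩ N y ∩ N z)) ((D \ N x) ∪ ((D \ N y) ∪ (D \ N z)))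
    have hc2 := Finset.card_union_le (D \ N x) ((D \ N y) ∪ (D \ N z))
    have hc3 := Finset.card_union_le (D \ N y) (D \ N z)
    have hc4 : D.card ≤ (D ∩ (N x ∩ N y ∩ N z)).card + ((D \ N x).card + ((D \ N y).card + (D \ N z).card)) := by
      omega
    have hc5 : (D.card : ℝ) ≤ (D ∩ (N x ∩ N y ∩ N z)).card + ((D \ N x).card + ((D \ N y).card + (D \ N z).card)) := by
      exact_mod_cast hc4
    have hc6 : (1 : ℝ) < (D ∩ (N x ∩ N y ∩ N z)).card := by linarith
    have hc7 : 1 < (D ∩ (N x ∩ N y ∩ N z)).card := by exact_mod_cast hc6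
    obtain ⟨w, hw, w', hw', hww⟩ := Finset.one_lt_card.mp hc7
    simp only [mem_inter] at hw hw'
    have := hfree x y w z w' hyx hw.2.1.1 hzx hw'.2.1.1 hw.2.1.2 hw.2.2 hw'.2.2 hw'.2.1.2
    tauto
  refine ⟨fun x => decide ((N x ∩ A).card ≤ (N x ∩ B).card), ?_⟩
  intro x y z hxy hxz hyx hzx
  have hxy' : ((N x ∩ A).card ≤ (N x ∩ B).card) ↔ ((N y ∩ A).card ≤ (N y ∩ B).card) := by
    simpa using hxy
  have hxz' : ((N x ∩ A).card ≤ (N x ∩ B).card) ↔ ((N z ∩ A).card ≤ (N z ∩ B).card) := by
    simpa using hxz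
  by_cases h : (N x ∩ A).card ≤ (N x ∩ B).card
  · exact common B (by linarith) x y z (missB x h) (missB y (hxy'.mp h)) (missB z (hxz'.mp h)) hyx hzx
  · have hy := fun h' => h (hxy'.mpr h')
    have hz := fun h' => h (hxz'.mpr h')
    exact common A (by linarith) x y z (missA x (by omega)) (missA y (by omega))
      (missA z (by omega)) hyx hzx

end Pool.Agent.V11146.Wheel
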