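import Mathlib
import Pool.Agent.V11146.Wheel

set_option autoImplicit false

namespace Pool.Agent.V11146.BlowupThr

open Finset SimpleGraph

/-- The minimum degree of the finite graph `G` is at least `α` times its number of vertices. -/
def MinDegGe {V : Type} [Fintype V] (G : SimpleGraph V) (α : ℝ) : Prop :=
  ∀ v : V, α * (Fintype.card V : ℝ) ≤ ((G.neighborSet v).ncard : ℝ)

/-- `G` is a maximal `H`-free graph: it has no copy of `H` (as a subgraph, not necessarily
induced), and adding any edge between two distinct non-adjacent vertices creates a copy of `H`. -/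
def MaximalFree {W V : Type} (H : SimpleGraph W) (G : SimpleGraph V) : Prop :=
  H.Free G ∧ ∀ u v : V, u ≠ v → ¬ G.Adj u v → H.IsContained (G ⊔ SimpleGraph.edge u v)

/-- `G` is a blowup of `F`: the fibres of `f` are the (nonempty, independent) classes, and two
vertices are adjacent exactly when their classes are adjacent in `F`. -/
def IsBlowup {V X : Type} (G : SimpleGraph V) (F : SimpleGraph X) : Prop :=
  ∃ f : V → X, Function.Surjective f ∧ ∀ u v : V, G.Adj u v ↔ F.Adj (f u) (f v)

/-- The set of `α ≥ 0` for which some `C` has the property that every maximal `H`-free finite graph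
`G` with minimum degree at least `α |G|` is a blowup of some graph on at most `C` vertices. -/
def blowupSet {W : Type} (H : SimpleGraph W) : Set ℝ :=
  {α : ℝ | 0 ≤ α ∧ ∃ C : ℕ, ∀ (V : Type) [Fintype V] (G : SimpleGraph V),
    MaximalFree H G → MinDegGe G α →
      ∃ (X : Type) (_ : Fintype X) (F : SimpleGraph X), Fintype.card X ≤ C ∧ IsBlowup G F}

/-- The blowup threshold of `H`. -/
noncomputable def blowupThreshold {W : Type} (H : SimpleGraph W) : ℝ := sInf (blowupSet H)

/-- The wheel with four spokes, that is the complete tripartite graph `K_{1,2,2}`: vertex `0` is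
joined to `1,2,3,4`, which form the 4-cycle `1,2,3,4`. -/
def wheel4 : SimpleGraph (Fin 5) where
  Adj i j := i ≠ j ∧ (i = 0 ∨ j = 0 ∨ i.val % 2 ≠ j.val % 2)
  symm := ⟨by
    rintro i j ⟨h1, h2⟩
    refine ⟨h1.symm, ?_⟩
    rcases h2 with h | h | h
    · exact Or.inr (Or.inl h)
    · exact Or.inl h
    · exact Or.inr (Or.inr h.symm)⟩
  loopless := ⟨fun i h => h.1 rfl⟩

instance : DecidableRel wheel4.Adj := fun i j => by unfold wheel4; infer_instance

lemma contained_iff {V : Type} (G : SimpleGraph V) :
    wheel4.IsContained G ↔ ∃ c a b a' b' : V, G.Adj c a ∧ G.Adj c b ∧ G.Adj c a' ∧ G.Adj c b' ∧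
      G.Adj a b ∧ G.Adj b a' ∧ G.Adj a' b' ∧ G.Adj b' a ∧ a ≠ a' ∧ b ≠ b' := by
  constructor
  · rintro ⟨f⟩
    refine ⟨f 0, f 1, f 2, f 3, f 4, ?_, ?_, ?_, ?_, ?_, ?_, ?_, ?_, ?_, ?_⟩
    any_goals exact f.toHom.map_adj (by decide)
    · intro h; exact absurd (f.injective h) (by decide)
    · intro h; exact absurd (f.injective h) (by decide)
  · rintro ⟨c, a, b, a', b', h1, h2, h3, h4, h5, h6, h7, h8, h9, h10⟩
    refine ⟨⟨⟨![c, a, b, a', b'], ?_⟩, ?_⟩⟩
    · intro i j h
      have key : ∀ i j : Fin 5, wheel4.Adj i j → i.val < j.val →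
          G.Adj (![c, a, b, a', b'] i) (![c, a, b, a', b'] j) := by
        intro i j h hij
        fin_cases i <;> fin_cases j <;>
          first
          | exact absurd hij (by decide)
          | exact absurd h (by decide)
          | exact h1
          | exact h2
          | exact h3
          | exact h4
          | exact h5
          | exact h6
          | exact h7
          | exact h8.symm
      rcases lt_trichotomy i.val j.val with hij | hij | hij
      · exact key i j h hij
      · exact absurd (Fin.ext hij) h.1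
      · exact (key j i h.symm hij).symm
    · intro i j h
      have hca := h1.ne
      have hcb := h2.ne
      have hca' := h3.ne
      have hcb' := h4.ne
      have hab := h5.ne
      have hba' := h6.ne
      have hab' := h7.ne
      have hb'a := h8.ne
      have key : ∀ i j : Fin 5, i.val < j.val →
          (![c, a, b, a', b'] i) ≠ (![c, a, b, a', b'] j) := by
        intro i j hij
        fin_cases i <;> fin_cases j <;>
          first
          | exact absurd hij (by decide)
          | exact hca
          | exact hcb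
          | exact hca'
          | exact hcb'
          | exact hab
          | exact hba'
          | exact hab'
          | exact hb'a.symm
          | exact h9
          | exact h10
      rcases lt_trichotomy i.val j.val with hij | hij | hij
      · exact absurd h (key i j hij)
      · exact Fin.ext hij
      · exact absurd h.symm (key j i hij)

/-- Two sides with at most one neighbour inside the own side: no wheel. -/
lemma free_of_sides {V : Type} (G : SimpleGraph V) (side : V → Bool)
    (h : ∀ x y z, side x = side y → side x = side z → G.Adj x y → G.Adj x z → y = z) :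
    wheel4.Free G := by
  intro hc
  obtain ⟨c, a, b, a', b', h1, h2, h3, h4, h5, h6, h7, h8, h9, h10⟩ := (contained_iff G).mp hc
  have hca := h1.ne
  have hcb := h2.ne
  have hca' := h3.ne
  have hcb' := h4.ne
  have hab := h5.ne
  have hba' := h6.ne
  have hab' := h7.ne
  have hb'a := h8.ne
  have i1 := fun p q => h c a b p q h1 h2
  have i2 := fun p q => h c a a' p q h1 h3
  have i3 := fun p q => h c a b' p q h1 h4
  have i4 := fun p q => h c b a' p q h2 h3
  have i5 := fun p q => h c b b' p q h2 h4
  have i6 := fun p q => h c a' b' p q h3 h4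
  have i7 := fun p q => h a b b' p q h5 h8.symm
  have i8 := fun p q => h b a a' p q h5.symm h6
  have i9 := fun p q => h a' b b' p q h6.symm h7
  have i10 := fun p q => h b' a a' p q h8 h7.symm
  cases e1 : side c <;> cases e2 : side a <;> cases e3 : side b <;> cases e4 : side a' <;>
    cases e5 : side b' <;> simp only [e1, e2, e3, e4, e5] at i1 i2 i3 i4 i5 i6 i7 i8 i9 i10 <;>
    simp_all

/-- The extremal construction: two sides, complete between them, a perfect matching in each. -/
def tw (m : ℕ) : SimpleGraph (Bool × (Fin m × Bool)) where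
  Adj x y := x.1 ≠ y.1 ∨ (x.1 = y.1 ∧ x.2.1 = y.2.1 ∧ x.2.2 ≠ y.2.2)
  symm := ⟨by
    rintro x y (h | ⟨h1, h2, h3⟩)
    · exact Or.inl h.symm
    · exact Or.inr ⟨h1.symm, h2.symm, h3.symm⟩⟩
  loopless := ⟨by
    rintro x (h | ⟨_, _, h⟩)
    · exact h rfl
    · exact h rfl⟩

lemma tw_free (m : ℕ) : wheel4.Free (tw m) := by
  apply free_of_sides (tw m) (fun x => x.1)
  rintro ⟨s, i, b⟩ ⟨s', i', b'⟩ ⟨s'', i'', b''⟩ h1 h2 h3 h4
  simp only at h1 h2
  subst h1 h2
  rcases h3 with h | ⟨_, h3, h3'⟩
  · exact absurd rfl h
  rcases h4 with h | ⟨_, h4, h4'⟩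
  · exact absurd rfl h
  simp only at h3 h4 h3' h4'
  subst h3 h4
  congr 2
  cases b <;> cases b' <;> cases b'' <;> simp_all

lemma tw_maximal (m : ℕ) : MaximalFree wheel4 (tw m) := by
  refine ⟨tw_free m, ?_⟩
  rintro ⟨s, i, b⟩ ⟨s', j, b'⟩ hne hnadj
  have hs : s = s' := by
    by_contra h
    exact hnadj (Or.inl h)
  subst hs
  have hij : i ≠ j := by
    intro hij
    subst hij
    apply hnadj
    refine Or.inr ⟨rfl, rfl, ?_⟩
    intro hb
    simp only at hb
    subst hb
    exact hne rfl
  rw [contained_iff]
  refine ⟨(s, i, b), (s, i, !b), (!s, i, b), (s, j, b'), (!s, i, !b), ?_, ?_, ?_, ?_, ?_, ?_, ?_,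
    ?_, ?_, ?_⟩
  · exact Or.inl (Or.inr ⟨rfl, rfl, by simp⟩)
  · exact Or.inl (Or.inl (by simp))
  · right
    rw [SimpleGraph.edge_adj]
    exact ⟨Or.inl ⟨rfl, rfl⟩, hne⟩
  · exact Or.inl (Or.inl (by simp))
  · exact Or.inl (Or.inl (by simp))
  · exact Or.inl (Or.inl (by simp))
  · exact Or.inl (Or.inl (by simp))
  · exact Or.inl (Or.inl (by simp))
  · intro h
    simp only [Prod.mk.injEq] at h
    exact hij h.2.1
  · intro h
    simp at h

lemma tw_card (m : ℕ) : Fintype.card (Bool × (Fin m × Bool)) = 4 * m := by
  simp; ring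

lemma tw_minDeg (m : ℕ) (α : ℝ) (hα : α ≤ 1 / 2) : MinDegGe (tw m) α := by
  intro x
  rw [tw_card]
  have h1 : 2 * m ≤ ((tw m).neighborSet x).ncard := by
    have hsub : (fun p : Fin m × Bool => (!x.1, p)) '' Set.univ ⊆ (tw m).neighborSet x := by
      rintro _ ⟨p, _, rfl⟩
      left
      simp
    have h2 := Set.ncard_le_ncard hsub (Set.toFinite _)
    rw [Set.ncard_image_of_injective _ (fun p q h => by simpa using h)] at h2
    simpa [Set.ncard_univ, mul_comm] using h2
  have h2 : (2 * m : ℝ) ≤ (((tw m).neighborSet x).ncard : ℝ) := by exact_mod_cast h1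
  push_cast
  have : (0:ℝ) ≤ m := by positivity
  nlinarith

lemma tw_not_blowup (m : ℕ) {X : Type} [Fintype X] (F : SimpleGraph X)
    (h : IsBlowup (tw m) F) : 4 * m ≤ Fintype.card X := by
  obtain ⟨f, _, hf⟩ := h
  rw [← tw_card]
  apply Fintype.card_le_of_injective f
  rintro ⟨s, i, b⟩ ⟨s', j, b'⟩ hxy
  have htw : ∀ z, (tw m).Adj (s, i, b) z ↔ (tw m).Adj (s', j, b') z := by
    intro z
    rw [hf, hf, hxy]
  have hs : s = s' := by
    by_contra hs
    have := (htw (s', j, b')).mp (Or.inl hs)
    exact (tw m).loopless.irrefl _ this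
  subst hs
  have h1 := (htw (s, i, !b)).mp (Or.inr ⟨rfl, rfl, by simp⟩)
  rcases h1 with h1 | ⟨_, h1, h2⟩
  · exact absurd rfl h1
  · simp only at h1 h2
    subst h1
    have : b = b' := by cases b <;> cases b' <;> simp_all
    rw [this]

/-- Degrees above `1` times the order are impossible in a nonempty graph, so the empty graph is the
only graph to test; hence large `α` belong to the set. -/
lemma blowupSet_nonempty {W : Type} (H : SimpleGraph W) : (blowupSet H).Nonempty := by
  refine ⟨2, by norm_num, 0, ?_⟩
  intro V _ G _ hd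
  have hV : IsEmpty V := by
    by_contra hne
    rw [not_isEmpty_iff] at hne
    obtain ⟨v⟩ := hne
    have h1 := hd v
    have h2 : (G.neighborSet v).ncard ≤ Fintype.card V := by
      rw [← Nat.card_eq_fintype_card, ← Set.ncard_univ]
      exact Set.ncard_le_ncard (Set.subset_univ _) (Set.toFinite _)
    have h3 : ((G.neighborSet v).ncard : ℝ) ≤ Fintype.card V := by exact_mod_cast h2
    have h4 : (0:ℝ) < Fintype.card V := by
      have : 0 < Fintype.card V := Fintype.card_pos_iff.mpr ⟨v⟩
      exact_mod_cast this
    linarith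
  refine ⟨V, inferInstance, G, ?_, id, Function.surjective_id, fun u v => Iff.rfl⟩
  rw [Fintype.card_eq_zero]

theorem half_le_blowupThreshold : 1 / 2 ≤ blowupThreshold wheel4 := by
  apply le_csInf (blowupSet_nonempty _)
  rintro α ⟨_, C, hC⟩
  by_contra hα
  push Not at hα
  obtain ⟨X, hX, F, hF, hb⟩ := hC _ (tw (C + 1)) (tw_maximal _) (tw_minDeg _ α hα.le)
  have := tw_not_blowup (C + 1) F hb
  omega

/-- Large graphs: the two-sided structure. -/
theorem exists_sides {V : Type} [Fintype V] (G : SimpleGraph V) (hfree : wheel4.Free G)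
    (hd : MinDegGe G (499 / 1000)) (hn : 2000000 ≤ Fintype.card V) :
    ∃ side : V → Bool, ∀ x y z, side x = side y → side x = side z → G.Adj x y → G.Adj x z →
      y = z := by
  classical
  obtain ⟨side, hside⟩ := Wheel.structure_lemma (fun x => G.neighborFinset x)
    (by intro x y; simp [G.adj_comm]) (by intro x; simp)
    (by
      intro c a b a' b' h1 h2 h3 h4 h5 h6 h7 h8
      simp only [mem_neighborFinset] at *
      by_contra hcon
      push Not at hcon
      apply hfree
      rw [contained_iff]
      exact ⟨c, a, b, a', b', h1, h2, h3, h4, h5, h6.symm, h7, h8.symm, hcon.1, hcon.2⟩) hn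
    (by
      intro x
      have := hd x
      rw [Set.ncard_eq_toFinset_card'] at this
      exact this)
  refine ⟨side, fun x y z h1 h2 h3 h4 => hside x y z h1 h2 ?_ ?_⟩
  · simpa using h3
  · simpa using h4

/-- A graph with such a two-sided structure is 4-colourable. -/
lemma hom_of_sides {V : Type} [Fintype V] (G : SimpleGraph V) (side : V → Bool)
    (h : ∀ x y z, side x = side y → side x = side z → G.Adj x y → G.Adj x z → y = z) :
    Nonempty (G →g (⊤ : SimpleGraph (Bool × Bool))) := by
  classical
  obtain ⟨e⟩ : Nonempty (V ≃ Fin (Fintype.card V)) := ⟨Fintype.equivFin V⟩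
  refine ⟨⟨fun x => (side x, decide (∃ y, G.Adj x y ∧ side x = side y ∧ e x < e y)), ?_⟩⟩
  have key : ∀ x y, G.Adj x y → e x < e y →
      (side x, decide (∃ z, G.Adj x z ∧ side x = side z ∧ e x < e z)) ≠
      (side y, decide (∃ z, G.Adj y z ∧ side y = side z ∧ e y < e z)) := by
    intro x y hxy hlt heq
    simp only [Prod.mk.injEq, decide_eq_decide] at heq
    obtain ⟨hs, hiff⟩ := heq
    obtain ⟨z, hz1, hz2, hz3⟩ := hiff.mp ⟨y, hxy, hs, hlt⟩
    have := h y z x hz2 hs.symm hz1 hxy.symm
    subst this
    exact absurd hz3 (not_lt.mpr hlt.le)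
  intro x y hxy
  rw [SimpleGraph.top_adj]
  rcases lt_trichotomy (e x) (e y) with hlt | heq | hlt
  · exact key x y hxy hlt
  · exact absurd (e.injective heq) hxy.ne
  · exact (key y x hxy.symm hlt).symm

end Pool.Agent.V11146.BlowupThr
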