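import Mathlib

set_option autoImplicit false

namespace Pool.Agent.V11146.Bottle

open Finset SimpleGraph

/-! ### Ordered tilings -/

/-- The ordered graph `G` on `[n]` contains an `(x,H)`-tiling: vertex-disjoint copies of the
ordered graph `H` covering at least `x n` vertices. A copy is an increasing injection
preserving adjacency. -/
def HasTiling (x : ℝ) {h n : ℕ} (H : SimpleGraph (Fin h)) (G : SimpleGraph (Fin n)) : Prop :=
  ∃ T : Finset (Fin h ↪o Fin n),
    (∀ φ ∈ T, ∀ i j, H.Adj i j → G.Adj (φ i) (φ j)) ∧
    (∀ φ ∈ T, ∀ ψ ∈ T, φ ≠ ψ → Disjoint (Set.range φ) (Set.range ψ)) ∧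
    x * (n : ℝ) ≤ (T.card : ℝ) * (h : ℝ)

/-- types of copies: monotone proper colourings by positions. -/
def Ty {h : ℕ} (k : ℕ) (H : SimpleGraph (Fin h)) : Type :=
  {c : Fin h → Fin k // Monotone c ∧ ∀ i j, H.Adj i j → c i ≠ c j}

noncomputable instance {h k : ℕ} (H : SimpleGraph (Fin h)) : Fintype (Ty k H) := by
  classical
  unfold Ty
  exact Fintype.ofFinite _

/-- number of vertices of a copy in position `j`. -/
def cnt {h k : ℕ} (c : Fin h → Fin k) (j : Fin k) : ℕ := (univ.filter (fun i => c i = j)).card

section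
variable {h n k : ℕ} {H : SimpleGraph (Fin h)} {G : SimpleGraph (Fin n)} {pos : Fin n → Fin k}

/-- from a tiling to types. -/
lemma types_of_tiling (hpos : Monotone pos) (hG : ∀ a b, G.Adj a b → pos a ≠ pos b) {x : ℝ}
    (hT : HasTiling x H G) : ∃ N : Ty k H → ℕ,
      (∀ j, ∑ c, N c * cnt c.1 j ≤ (univ.filter (fun a => pos a = j)).card) ∧
      x * (n : ℝ) ≤ (h : ℝ) * ∑ c, (N c : ℝ) := by
  classical
  obtain ⟨T, hT1, hT2, hT3⟩ := hT
  let ty : {φ // φ ∈ T} → Ty k H := fun φ => ⟨fun i => pos (φ.1 i),
    fun i j hij => hpos (φ.1.monotone hij), fun i j hij => hG _ _ (hT1 φ.1 φ.2 i j hij)⟩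
  refine ⟨fun c => ((univ : Finset {φ // φ ∈ T}).filter (fun φ => ty φ = c)).card, ?_, ?_⟩
  · intro j
    have h1 : ∑ c, ((univ : Finset {φ // φ ∈ T}).filter (fun φ => ty φ = c)).card * cnt c.1 j =
        ∑ φ : {φ // φ ∈ T}, cnt (ty φ).1 j := by
      rw [← sum_fiberwise (univ : Finset {φ // φ ∈ T}) ty (fun φ => cnt (ty φ).1 j)]
      apply sum_congr rfl
      intro c _
      rw [sum_congr rfl (g := fun _ => cnt c.1 j)]
      · rw [sum_const, smul_eq_mul]
      · intro φ hφ
        rw [(mem_filter.mp hφ).2]
    rw [h1]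
    have h2 : ∑ φ : {φ // φ ∈ T}, cnt (ty φ).1 j =
        ((univ : Finset ({φ // φ ∈ T} × Fin h)).filter (fun q => pos (q.1.1 q.2) = j)).card := by
      rw [card_filter, Fintype.sum_prod_type]
      apply sum_congr rfl
      intro φ _
      unfold cnt
      rw [card_filter]
    rw [h2]
    apply card_le_card_of_injOn (fun q => q.1.1 q.2)
    · intro q hq
      simp only [coe_filter, mem_univ, true_and, Set.mem_ofPred_eq] at hq ⊢
      exact hq
    · rintro ⟨φ, i⟩ _ ⟨ψ, j⟩ _ heq
      simp only at heq
      have hφψ : φ = ψ := by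
        by_contra hne
        have hne' : φ.1 ≠ ψ.1 := fun h => hne (Subtype.ext h)
        have := hT2 φ.1 φ.2 ψ.1 ψ.2 hne'
        exact Set.disjoint_left.mp this ⟨i, rfl⟩ ⟨j, heq.symm⟩
      subst hφψ
      have := φ.1.injective heq
      rw [this]
  · have h1 : ∑ c, ((univ : Finset {φ // φ ∈ T}).filter (fun φ => ty φ = c)).card = T.card := by
      have := card_eq_sum_card_fiberwise (f := ty) (s := (univ : Finset {φ // φ ∈ T}))
        (t := (univ : Finset (Ty k H))) (fun _ _ => by simp)
      rw [← this, card_univ, Fintype.card_coe]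
    have h2 : ∑ c, ((((univ : Finset {φ // φ ∈ T}).filter (fun φ => ty φ = c)).card : ℕ) : ℝ) =
        (T.card : ℝ) := by
      rw [← h1]; push_cast; rfl
    rw [h2, mul_comm (h:ℝ)]
    exact hT3

/-- lower sets in `Fin n` are initial segments. -/
lemma lower_set {n : ℕ} (S : Finset (Fin n)) (hS : ∀ a b : Fin n, a ≤ b → b ∈ S → a ∈ S)
    (a : Fin n) : a ∈ S ↔ a.val < S.card := by
  classical
  constructor
  · intro ha
    have : (univ.filter (fun b : Fin n => b.val < a.val + 1)) ⊆ S := by
      intro b hb
      rw [mem_filter] at hb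
      exact hS b a (by rw [Fin.le_def]; omega) ha
    have h2 := card_le_card this
    rw [Fin.card_filter_val_lt] at h2
    have := a.isLt
    omega
  · intro ha
    by_contra hcon
    have : S ⊆ (univ.filter (fun b : Fin n => b.val < a.val)) := by
      intro b hb
      rw [mem_filter]
      refine ⟨mem_univ _, ?_⟩
      by_contra hlt
      exact hcon (hS a b (by rw [Fin.le_def]; omega) hb)
    have h2 := card_le_card this
    rw [Fin.card_filter_val_lt] at h2
    omega

lemma pos_iff (hpos : Monotone pos) (a : Fin n) (j : Fin k) :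
    pos a = j ↔ (univ.filter (fun b => pos b < j)).card ≤ a.val ∧
      a.val < (univ.filter (fun b => pos b < j)).card + (univ.filter (fun b => pos b = j)).card := by
  classical
  have h1 := lower_set (univ.filter (fun b => pos b < j))
    (by intro a b hab hb; rw [mem_filter] at hb ⊢; exact ⟨mem_univ _, (hpos hab).trans_lt hb.2⟩) a
  have h2 := lower_set (univ.filter (fun b => pos b ≤ j))
    (by intro a b hab hb; rw [mem_filter] at hb ⊢; exact ⟨mem_univ _, (hpos hab).trans hb.2⟩) a
  have h3 : (univ.filter (fun b => pos b ≤ j)).card =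
      (univ.filter (fun b => pos b < j)).card + (univ.filter (fun b => pos b = j)).card := by
    rw [← card_union_of_disjoint]
    · congr 1
      ext b
      simp only [mem_filter, mem_univ, true_and, mem_union]
      exact le_iff_lt_or_eq
    · rw [Finset.disjoint_left]
      intro b hb1 hb2
      rw [mem_filter] at hb1 hb2
      exact absurd hb2.2 hb1.2.ne
  rw [h3] at h2
  simp only [mem_filter, mem_univ, true_and] at h1 h2
  constructor
  · intro h
    refine ⟨?_, h2.mp h.le⟩
    by_contra hlt
    push Not at hlt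
    exact absurd h (h1.mpr hlt).ne
  · rintro ⟨h4, h5⟩
    have h6 := h2.mpr h5
    rcases h6.lt_or_eq with h7 | h7
    · have := h1.mp h7; omega
    · exact h7

lemma base_add_le (j : Fin k) : (univ.filter (fun b => pos b < j)).card +
    (univ.filter (fun b => pos b = j)).card ≤ n := by
  classical
  rw [← card_union_of_disjoint]
  · exact (card_le_univ _).trans (by rw [Fintype.card_fin])
  · rw [Finset.disjoint_left]
    intro b hb1 hb2
    rw [mem_filter] at hb1 hb2
    exact absurd hb2.2 hb1.2.ne

/-- from types to a tiling. -/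
lemma tiling_of_types (hpos : Monotone pos) (hG : ∀ a b, pos a ≠ pos b → G.Adj a b)
    (hh : 0 < h) (N : Ty k H → ℕ)
    (hN : ∀ j, ∑ c, N c * cnt c.1 j ≤ (univ.filter (fun a => pos a = j)).card) {x : ℝ}
    (hx : x * (n : ℝ) ≤ (h : ℝ) * ∑ c, (N c : ℝ)) : HasTiling x H G := by
  classical
  -- index set of the copies
  let Ω : Type := Σ c : Ty k H, Fin (N c)
  let e : Ω ≃ Fin (Fintype.card Ω) := Fintype.equivFin Ω
  let col : Ω × Fin h → Fin k := fun q => q.1.1.1 q.2
  let code : Ω × Fin h → ℕ := fun q => (e q.1).val * h + q.2.val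
  have code_inj : Function.Injective code := by
    rintro ⟨a, i⟩ ⟨b, j⟩ heq
    simp only [code] at heq
    have h1 : (e a).val = (e b).val := by
      have e1 : ((e a).val * h + i.val) / h = (e a).val := by
        rw [mul_comm, Nat.mul_add_div hh, Nat.div_eq_of_lt i.isLt, add_zero]
      have e2 : ((e b).val * h + j.val) / h = (e b).val := by
        rw [mul_comm, Nat.mul_add_div hh, Nat.div_eq_of_lt j.isLt, add_zero]
      rw [← e1, ← e2, heq]
    have h2 : i.val = j.val := by rw [h1] at heq; omega
    have h3 : a = b := e.injective (Fin.ext h1)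
    rw [h3, Fin.ext h2]
  let slots : Fin k → Finset (Ω × Fin h) := fun j => univ.filter (fun q => col q = j)
  have slots_card : ∀ j, (slots j).card ≤ (univ.filter (fun a => pos a = j)).card := by
    intro j
    refine le_trans (le_of_eq ?_) (hN j)
    change ((univ : Finset (Ω × Fin h)).filter (fun q => col q = j)).card = _
    rw [card_filter, Fintype.sum_prod_type, Fintype.sum_sigma]
    apply sum_congr rfl
    intro c _
    have : ∀ i : Fin (N c), ∑ v : Fin h, (if col ((⟨c, i⟩ : Ω), v) = j then 1 else 0) = cnt c.1 j := by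
      intro i
      unfold cnt
      rw [card_filter]
    simp only [this]
    rw [sum_const, card_univ, Fintype.card_fin, smul_eq_mul]
  let rank : Ω × Fin h → ℕ := fun q =>
    ((slots (col q)).filter (fun q' => code q' < code q)).card
  have rank_lt : ∀ q, rank q < (univ.filter (fun a => pos a = col q)).card := by
    intro q
    refine lt_of_lt_of_le ?_ (slots_card (col q))
    apply card_lt_card
    rw [ssubset_iff_of_subset (filter_subset _ _)]
    refine ⟨q, by simp [slots], ?_⟩
    rw [mem_filter]
    exact fun h => lt_irrefl _ h.2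
  have rank_mono : ∀ q q', col q = col q' → code q < code q' → rank q < rank q' := by
    intro q q' hcol hlt
    apply card_lt_card
    rw [ssubset_iff_of_subset]
    · refine ⟨q, ?_, ?_⟩
      · rw [mem_filter]
        exact ⟨by simp [slots, hcol], hlt⟩
      · rw [mem_filter]
        exact fun h => lt_irrefl _ h.2
    · intro q'' hq
      rw [mem_filter] at hq ⊢
      refine ⟨?_, hq.2.trans hlt⟩
      rw [← hcol]; exact hq.1
  have hlt : ∀ q, (univ.filter (fun b => pos b < col q)).card + rank q < n := by
    intro q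
    have h1 := rank_lt q
    have h2 := base_add_le (pos := pos) (col q)
    omega
  let vert : Ω × Fin h → Fin n := fun q =>
    ⟨(univ.filter (fun b => pos b < col q)).card + rank q, hlt q⟩
  have hvpos : ∀ q, pos (vert q) = col q := by
    intro q
    rw [pos_iff hpos]
    have h1 := rank_lt q
    simp only [vert]
    omega
  have vert_inj : Function.Injective vert := by
    intro q q' heq
    have hcol : col q = col q' := by rw [← hvpos q, ← hvpos q', heq]
    have hr : rank q = rank q' := by
      have := congrArg Fin.val heq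
      simp only [vert] at this
      rw [hcol] at this
      omega
    rcases lt_trichotomy (code q) (code q') with h1 | h1 | h1
    · have := rank_mono q q' hcol h1; omega
    · exact code_inj h1
    · have := rank_mono q' q hcol.symm h1; omega
  have vert_mono : ∀ ω : Ω, StrictMono (fun v : Fin h => vert (ω, v)) := by
    intro ω v v' hvv
    have hc : col (ω, v) ≤ col (ω, v') := ω.1.2.1 hvv.le
    rcases hc.lt_or_eq with h1 | h1
    · by_contra hcon
      push Not at hcon
      have := hpos hcon
      rw [hvpos, hvpos] at this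
      exact absurd this (not_le.mpr h1)
    · have h2 : code (ω, v) < code (ω, v') := by
        simp only [code]
        have : v.val < v'.val := hvv
        omega
      have h3 := rank_mono _ _ h1 h2
      rw [Fin.lt_def]
      simp only [vert]
      rw [h1]
      omega
  let Φ : Ω → (Fin h ↪o Fin n) := fun ω => OrderEmbedding.ofStrictMono _ (vert_mono ω)
  have Φ_inj : Function.Injective Φ := by
    intro ω ω' heq
    have : vert (ω, ⟨0, hh⟩) = vert (ω', ⟨0, hh⟩) := by
      have := congrArg (fun f : Fin h ↪o Fin n => f ⟨0, hh⟩) heq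
      exact this
    exact congrArg Prod.fst (vert_inj this)
  refine ⟨univ.image Φ, ?_, ?_, ?_⟩
  · intro φ hφ i j hij
    rw [mem_image] at hφ
    obtain ⟨ω, _, rfl⟩ := hφ
    apply hG
    change pos (vert (ω, i)) ≠ pos (vert (ω, j))
    rw [hvpos, hvpos]
    exact ω.1.2.2 i j hij
  · intro φ hφ ψ hψ hne
    rw [mem_image] at hφ hψ
    obtain ⟨ω, _, rfl⟩ := hφ
    obtain ⟨ω', _, rfl⟩ := hψ
    rw [Set.disjoint_left]
    rintro a ⟨i, rfl⟩ ⟨j, hj⟩
    apply hne
    have : vert (ω', j) = vert (ω, i) := hj
    have h1 := congrArg Prod.fst (vert_inj this)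
    simp only at h1
    rw [h1]
  · rw [card_image_of_injective _ Φ_inj, card_univ]
    have : (Fintype.card Ω : ℝ) = ∑ c, (N c : ℝ) := by
      have h1 : Fintype.card Ω = ∑ c, N c := by
        rw [Fintype.card_sigma]
        simp
      rw [h1]; push_cast; rfl
    rw [this, mul_comm]
    rw [mul_comm] at hx
    linarith

end

end Pool.Agent.V11146.Bottle
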