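import Mathlib
import Pool.Agent.V11146.Bottle

set_option autoImplicit false

namespace Pool.Agent.V11146.Bottle

open Finset SimpleGraph

/-- the chromatic number, as a natural number. -/
noncomputable def chi {n : ℕ} (F : SimpleGraph (Fin n)) : ℕ := F.chromaticNumber.toNat

/-- the smallest possible size of a colour class over the proper `χ(F)`-colourings of `F`. -/
noncomputable def sig {n : ℕ} (F : SimpleGraph (Fin n)) : ℕ :=
  sInf {s | ∃ (C : F.Coloring (Fin (chi F))) (i : Fin (chi F)), s = (C.colorClass i).ncard}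

/-- `χ_cr(F) = (χ(F) - 1) |F| / (|F| - σ(F))`; for edgeless `F`, where the formula is `0/0`,
`χ_cr(F) = 1`. -/
noncomputable def chiCr {n : ℕ} (F : SimpleGraph (Fin n)) : ℝ :=
  open Classical in
  if F = ⊥ then 1 else ((chi F : ℝ) - 1) * (n : ℝ) / ((n : ℝ) - (sig F : ℝ))

/-- `B` is an `x`-bottlegraph of the ordered graph `H`. The `k+1` parts are the (nonempty)
fibres of `part`; `φ` is an interval labelling of `B` with respect to `σ`, and
`B.comap φ.symm` is the resulting ordered graph. -/
def IsBottlegraph (x : ℝ) {h : ℕ} (H : SimpleGraph (Fin h)) {n : ℕ} (B : SimpleGraph (Fin n)) :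
    Prop :=
  ∃ (k : ℕ) (part : Fin n → Fin (k + 1)) (m : ℕ),
    Function.Surjective part ∧
    (∀ v w, B.Adj v w ↔ part v ≠ part w) ∧
    (univ.filter (fun v => part v = 0)).card ≤ m ∧
    (∀ i, i ≠ 0 → (univ.filter (fun v => part v = i)).card = m) ∧
    ∀ (σ : Equiv.Perm (Fin (k + 1))) (φ : Fin n ≃ Fin n),
      (∀ v w, σ (part v) < σ (part w) → φ v < φ w) → HasTiling x H (B.comap φ.symm)

/-- `χ*_cr(x,H)`. -/
noncomputable def chiStar (x : ℝ) {h : ℕ} (H : SimpleGraph (Fin h)) : ℝ :=
  sInf {r : ℝ | ∃ (n : ℕ) (B : SimpleGraph (Fin n)), IsBottlegraph x H B ∧ r = chiCr B}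

/-- `f(x,H) = 1 - 1/χ*_cr(x,H)`. -/
noncomputable def fthr {h : ℕ} (H : SimpleGraph (Fin h)) (x : ℝ) : ℝ := 1 - 1 / chiStar x H

/-- `g` is piecewise linear on `(0,1)`: the interval `(0,1)` is a union of finitely many
intervals on each of which `g` is affine. -/
def PiecewiseLinear (g : ℝ → ℝ) : Prop :=
  ∃ 𝓘 : Set (Set ℝ), 𝓘.Finite ∧ ⋃₀ 𝓘 = Set.Ioo 0 1 ∧
    ∀ I ∈ 𝓘, I.OrdConnected ∧ ∃ a b : ℝ, ∀ x ∈ I, g x = a * x + b

/-! ### chromatic parameters of a complete multipartite graph -/

section
variable {n k : ℕ} {B : SimpleGraph (Fin n)} {part : Fin n → Fin (k + 1)}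

lemma le_of_coloring (hs : Function.Surjective part) (hB : ∀ v w, B.Adj v w ↔ part v ≠ part w)
    {c : ℕ} (C : B.Coloring (Fin c)) : k + 1 ≤ c := by
  obtain ⟨r, hr⟩ := hs.hasRightInverse
  have : Function.Injective (fun i => C (r i)) := by
    intro i j hij
    by_contra hne
    have hadj : B.Adj (r i) (r j) := by
      rw [hB, hr i, hr j]; exact hne
    exact C.valid hadj hij
  have := Fintype.card_le_of_injective _ this
  simpa using this

lemma chi_eq (hs : Function.Surjective part) (hB : ∀ v w, B.Adj v w ↔ part v ≠ part w) :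
    chi B = k + 1 := by
  unfold chi
  have h1 : B.Colorable (k + 1) := ⟨Coloring.mk part (fun {v w} h => (hB v w).mp h)⟩
  have h2 : B.chromaticNumber = ((k + 1 : ℕ) : ℕ∞) := by
    apply le_antisymm h1.chromaticNumber_le
    rw [SimpleGraph.le_chromaticNumber_iff_colorable]
    rintro c ⟨C⟩
    exact_mod_cast le_of_coloring hs hB C
  rw [h2]
  rfl

lemma class_card (hs : Function.Surjective part) (hB : ∀ v w, B.Adj v w ↔ part v ≠ part w)
    {c : ℕ} (hc : c = k + 1) (C : B.Coloring (Fin c)) (i : Fin c) :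
    ∃ j, (C.colorClass i).ncard = (univ.filter (fun v => part v = j)).card := by
  classical
  subst hc
  obtain ⟨r, hr⟩ := hs.hasRightInverse
  have hinj : Function.Injective (fun i => C (r i)) := by
    intro i j hij
    by_contra hne
    have hadj : B.Adj (r i) (r j) := by
      rw [hB, hr i, hr j]; exact hne
    exact C.valid hadj hij
  have hsurj := Finite.injective_iff_surjective.mp hinj
  obtain ⟨j, hj⟩ := hsurj i
  refine ⟨j, ?_⟩
  rw [← Set.ncard_coe_finset]
  congr 1
  ext v
  simp only [coe_filter, mem_univ, true_and, Set.mem_ofPred_eq]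
  change C v = i ↔ _
  simp only at hj
  constructor
  · intro hv
    by_contra hne
    have hadj : B.Adj v (r j) := by rw [hB, hr j]; exact hne
    exact C.valid hadj (by rw [hv, hj])
  · intro hv
    obtain ⟨j', hj'⟩ := hsurj (C v)
    simp only at hj'
    by_cases hjj : j' = j
    · rw [← hj', hjj, hj]
    · exfalso
      have hadj : B.Adj v (r j') := by rw [hB, hr j', hv]; exact fun h => hjj h.symm
      exact C.valid hadj hj'.symm

lemma class_attained (hB : ∀ v w, B.Adj v w ↔ part v ≠ part w)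
    {c : ℕ} (hc : c = k + 1) (j : Fin (k + 1)) : ∃ (C : B.Coloring (Fin c)) (i : Fin c),
      (univ.filter (fun v => part v = j)).card = (C.colorClass i).ncard := by
  classical
  subst hc
  refine ⟨Coloring.mk part (fun {v w} h => (hB v w).mp h), j, ?_⟩
  rw [← Set.ncard_coe_finset]
  congr 1
  ext v
  simp only [coe_filter, mem_univ, true_and, Set.mem_ofPred_eq]
  rfl

lemma sig_eq (hs : Function.Surjective part) (hB : ∀ v w, B.Adj v w ↔ part v ≠ part w) {m : ℕ}
    (h0 : (univ.filter (fun v => part v = 0)).card ≤ m)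
    (h1 : ∀ i, i ≠ 0 → (univ.filter (fun v => part v = i)).card = m) :
    sig B = (univ.filter (fun v => part v = 0)).card := by
  unfold sig
  apply le_antisymm
  · apply Nat.sInf_le
    obtain ⟨C, i, h⟩ := class_attained hB (chi_eq hs hB) 0
    exact ⟨C, i, h⟩
  · apply le_csInf
    · obtain ⟨C, i, h⟩ := class_attained hB (chi_eq hs hB) 0
      exact ⟨_, C, i, h⟩
    · rintro s ⟨C, i, rfl⟩
      obtain ⟨j, hj⟩ := class_card hs hB (chi_eq hs hB) C i
      rw [hj]
      by_cases hj0 : j = 0
      · rw [hj0]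
      · rw [h1 j hj0]; exact h0

lemma card_eq {m : ℕ} (h1 : ∀ i, i ≠ 0 → (univ.filter (fun v => part v = i)).card = m) :
    n = (univ.filter (fun v => part v = 0)).card + k * m := by
  have h := card_eq_sum_card_fiberwise (f := part) (s := univ) (t := univ) (fun _ _ => by simp)
  rw [card_univ, Fintype.card_fin, Fin.sum_univ_succ] at h
  conv_lhs => rw [h]
  congr 1
  rw [sum_congr rfl (g := fun _ => m) (fun i _ => h1 _ (Fin.succ_ne_zero i))]
  simp

lemma pos_card (hs : Function.Surjective part) (j : Fin (k + 1)) :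
    0 < (univ.filter (fun v => part v = j)).card := by
  rw [Finset.card_pos]
  obtain ⟨v, hv⟩ := hs j
  exact ⟨v, by simp [hv]⟩

lemma chiCr_eq (hs : Function.Surjective part) (hB : ∀ v w, B.Adj v w ↔ part v ≠ part w) {m : ℕ}
    (h0 : (univ.filter (fun v => part v = 0)).card ≤ m)
    (h1 : ∀ i, i ≠ 0 → (univ.filter (fun v => part v = i)).card = m) (hk : 0 < k) :
    chiCr B = (n : ℝ) / (m : ℝ) := by
  have hne : B ≠ ⊥ := by
    intro hbot
    obtain ⟨v, hv⟩ := hs 0
    obtain ⟨w, hw⟩ := hs (⟨1, by omega⟩ : Fin (k + 1))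
    have : B.Adj v w := by
      rw [hB, hv, hw]
      intro h
      have := congrArg Fin.val h
      simp at this
    rw [hbot] at this
    exact this
  unfold chiCr
  rw [if_neg hne, chi_eq hs hB, sig_eq hs hB h0 h1]
  have hn := card_eq h1
  set u := (univ.filter (fun v => part v = 0)).card
  have hm : 0 < m := by
    have := pos_card hs (0 : Fin (k+1))
    omega
  have e1 : (n : ℝ) - (u : ℝ) = (k : ℝ) * (m : ℝ) := by
    have : (n : ℝ) = (u : ℝ) + (k : ℝ) * (m : ℝ) := by exact_mod_cast hn
    linarith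
  rw [e1]
  have hk' : (0 : ℝ) < (k : ℝ) := by exact_mod_cast hk
  have hm' : (0 : ℝ) < (m : ℝ) := by exact_mod_cast hm
  push_cast
  field_simp
  ring

lemma chiCr_one_le (hs : Function.Surjective part) (hB : ∀ v w, B.Adj v w ↔ part v ≠ part w)
    {m : ℕ} (h0 : (univ.filter (fun v => part v = 0)).card ≤ m)
    (h1 : ∀ i, i ≠ 0 → (univ.filter (fun v => part v = i)).card = m) :
    1 ≤ chiCr B := by
  rcases Nat.eq_zero_or_pos k with rfl | hk
  · have : B = ⊥ := by
      ext v w
      rw [hB]
      simp only [bot_adj, iff_false, not_not]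
      apply Fin.ext
      omega
    unfold chiCr
    rw [if_pos this]
  · rw [chiCr_eq hs hB h0 h1 hk]
    have hn := card_eq h1
    have hm : 0 < m := by
      have := pos_card hs (0 : Fin (k+1))
      omega
    rw [one_le_div (by exact_mod_cast hm)]
    have : m ≤ n := by
      have : 1 * m ≤ k * m := Nat.mul_le_mul_right m hk
      omega
    exact_mod_cast this

end

end Pool.Agent.V11146.Bottle
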