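import Mathlib
import Pool.Agent.V11146.BottleDef

set_option autoImplicit false

namespace Pool.Agent.V11146.Bottle

open Finset SimpleGraph

/-- the counting data of an `x`-bottlegraph with parts `u, m, …, m` (`k+1` parts). -/
def Data (x : ℝ) {h : ℕ} (H : SimpleGraph (Fin h)) (k u m : ℕ) : Prop :=
  ∀ p : Fin (k + 1), ∃ N : Ty (k + 1) H → ℕ,
    (∀ j, ∑ c, N c * cnt c.1 j ≤ if j = p then u else m) ∧
    x * ((u : ℝ) + (k : ℝ) * (m : ℝ)) ≤ (h : ℝ) * ∑ c, (N c : ℝ)

lemma pos_filter_card {n k : ℕ} (part : Fin n → Fin (k + 1)) (σ : Equiv.Perm (Fin (k + 1)))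
    (φ : Fin n ≃ Fin n) {m : ℕ}
    (h1 : ∀ i, i ≠ 0 → (univ.filter (fun v => part v = i)).card = m) (j : Fin (k + 1)) :
    (univ.filter (fun a => σ (part (φ.symm a)) = j)).card =
      if j = σ 0 then (univ.filter (fun v => part v = 0)).card else m := by
  have e1 : (univ.filter (fun a => σ (part (φ.symm a)) = j)).card =
      (univ.filter (fun v => part v = σ.symm j)).card := by
    apply Finset.card_equiv φ.symm
    intro a
    simp only [mem_filter, mem_univ, true_and]
    rw [Equiv.eq_symm_apply]
  rw [e1]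
  split_ifs with hj
  · rw [hj, Equiv.symm_apply_apply]
  · apply h1
    intro h0
    apply hj
    rw [← h0, Equiv.apply_symm_apply]

lemma data_of_bottle {x : ℝ} {h : ℕ} {H : SimpleGraph (Fin h)} {n : ℕ} {B : SimpleGraph (Fin n)}
    (hB : IsBottlegraph x H B) : ∃ k u m : ℕ, 1 ≤ u ∧ u ≤ m ∧ Data x H k u m ∧
      1 ≤ chiCr B ∧ (0 < k → chiCr B = ((u : ℝ) + (k : ℝ) * (m : ℝ)) / (m : ℝ)) := by
  obtain ⟨k, part, m, hs, hadj, h0, h1, hT⟩ := hB
  have hn := card_eq h1
  refine ⟨k, (univ.filter (fun v => part v = 0)).card, m, pos_card hs 0, h0, ?_,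
    chiCr_one_le hs hadj h0 h1, ?_⟩
  · intro p
    let σ : Equiv.Perm (Fin (k + 1)) := Equiv.swap 0 p
    let f : Fin n → Fin (k + 1) := fun v => σ (part v)
    let φ : Fin n ≃ Fin n := (Tuple.sort f).symm
    have hmono : Monotone (fun a => σ (part (φ.symm a))) := Tuple.monotone_sort f
    have hlab : ∀ v w, σ (part v) < σ (part w) → φ v < φ w := by
      intro v w hvw
      by_contra hcon
      push Not at hcon
      have := hmono hcon
      simp only [Equiv.symm_apply_apply] at this
      exact absurd hvw (not_lt.mpr this)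
    obtain ⟨N, hN1, hN2⟩ := types_of_tiling hmono (G := B.comap φ.symm)
      (by
        intro a b hab heq
        have : B.Adj (φ.symm a) (φ.symm b) := hab
        rw [hadj] at this
        exact this (σ.injective heq)) (hT σ φ hlab)
    refine ⟨N, ?_, ?_⟩
    · intro j
      have := hN1 j
      rw [pos_filter_card part σ φ h1 j] at this
      have hσ : σ 0 = p := Equiv.swap_apply_left 0 p
      rw [hσ] at this
      exact this
    · have : (n : ℝ) = ((univ.filter (fun v => part v = 0)).card : ℝ) + (k : ℝ) * (m : ℝ) := by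
        exact_mod_cast hn
      rw [← this]
      exact hN2
  · intro hk
    rw [chiCr_eq hs hadj h0 h1 hk]
    have : (n : ℝ) = ((univ.filter (fun v => part v = 0)).card : ℝ) + (k : ℝ) * (m : ℝ) := by
      exact_mod_cast hn
    rw [this]

lemma bottle_of_data {x : ℝ} {h : ℕ} (hh : 0 < h) {H : SimpleGraph (Fin h)} {k u m : ℕ}
    (hu : 1 ≤ u) (hum : u ≤ m) (hD : Data x H k u m) :
    ∃ B : SimpleGraph (Fin (u + k * m)), IsBottlegraph x H B ∧
      (k = 0 → B = ⊥) ∧
      (0 < k → chiCr B = ((u : ℝ) + (k : ℝ) * (m : ℝ)) / (m : ℝ)) := by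
  classical
  let e : Fin (u + k * m) ≃ Fin u ⊕ (Fin k × Fin m) :=
    finSumFinEquiv.symm.trans (Equiv.sumCongr (Equiv.refl _) finProdFinEquiv.symm)
  let g : Fin u ⊕ (Fin k × Fin m) → Fin (k + 1) := Sum.elim (fun _ => 0) (fun q => q.1.succ)
  let part : Fin (u + k * m) → Fin (k + 1) := fun v => g (e v)
  have hcard : ∀ i, (univ.filter (fun v => part v = i)).card =
      (univ.filter (fun s => g s = i)).card := by
    intro i
    apply Finset.card_equiv e
    intro a
    simp only [mem_filter, mem_univ, true_and]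
    rfl
  have hc0 : (univ.filter (fun v => part v = 0)).card = u := by
    rw [hcard, card_filter, Fintype.sum_sum_type]
    simp [g, Fin.succ_ne_zero]
  have hc1 : ∀ i, i ≠ 0 → (univ.filter (fun v => part v = i)).card = m := by
    intro i hi
    obtain ⟨i', rfl⟩ := Fin.exists_succ_eq.mpr hi
    rw [hcard, card_filter, Fintype.sum_sum_type, Fintype.sum_prod_type]
    simp [g, (Fin.succ_ne_zero _).symm]
  have hs : Function.Surjective part := by
    intro i
    have : 0 < (univ.filter (fun v => part v = i)).card := by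
      by_cases hi : i = 0
      · rw [hi, hc0]; exact hu
      · rw [hc1 i hi]; omega
    obtain ⟨v, hv⟩ := Finset.card_pos.mp this
    exact ⟨v, (mem_filter.mp hv).2⟩
  let B : SimpleGraph (Fin (u + k * m)) :=
    { Adj := fun v w => part v ≠ part w
      symm := ⟨fun v w h => h.symm⟩
      loopless := ⟨fun v h => h rfl⟩ }
  have hadj : ∀ v w, B.Adj v w ↔ part v ≠ part w := fun v w => Iff.rfl
  refine ⟨B, ⟨k, part, m, hs, hadj, by rw [hc0]; exact hum, hc1, ?_⟩, ?_, ?_⟩
  · intro σ φ hφ
    obtain ⟨N, hN1, hN2⟩ := hD (σ 0)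
    have hmono : Monotone (fun a => σ (part (φ.symm a))) := by
      intro a b hab
      by_contra hcon
      push Not at hcon
      have := hφ _ _ hcon
      simp only [Equiv.apply_symm_apply] at this
      exact absurd hab (not_le.mpr this)
    apply tiling_of_types hmono (G := B.comap φ.symm) _ hh N
    · intro j
      rw [pos_filter_card part σ φ hc1 j, hc0]
      exact hN1 j
    · push_cast
      exact hN2
    · intro a b hab
      change part (φ.symm a) ≠ part (φ.symm b)
      intro h
      apply hab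
      simp only [h]
  · rintro rfl
    ext v w
    rw [hadj]
    simp only [bot_adj, iff_false, not_not]
    apply Fin.ext
    omega
  · intro hk
    rw [chiCr_eq hs hadj (by rw [hc0]; exact hum) hc1 hk]
    push_cast
    rfl

end Pool.Agent.V11146.Bottle
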