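import Mathlib

set_option autoImplicit false

namespace Pool.Agent.V11146.FM

/-- polyhedra: solution sets of finitely many linear inequalities. -/
def IsPoly {E : Type} [AddCommGroup E] [Module ℝ E] (S : Set E) : Prop :=
  ∃ L : List ((E →ₗ[ℝ] ℝ) × ℝ), S = {v | ∀ p ∈ L, p.1 v ≤ p.2}

section
variable {E F : Type} [AddCommGroup E] [Module ℝ E] [AddCommGroup F] [Module ℝ F]

lemma IsPoly.comap {S : Set F} (h : IsPoly S) (f : E →ₗ[ℝ] F) : IsPoly {v : E | f v ∈ S} := by
  obtain ⟨L, rfl⟩ := h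
  refine ⟨L.map (fun p => (p.1.comp f, p.2)), ?_⟩
  ext v
  simp only [Set.mem_ofPred_eq, List.mem_map]
  constructor
  · rintro h q ⟨p, hp, rfl⟩
    exact h p hp
  · intro h p hp
    exact h _ ⟨p, hp, rfl⟩

lemma IsPoly.inter {S T : Set E} (h : IsPoly S) (h' : IsPoly T) : IsPoly (S ∩ T) := by
  obtain ⟨L, rfl⟩ := h
  obtain ⟨L', rfl⟩ := h'
  refine ⟨L ++ L', ?_⟩
  ext v
  simp only [Set.mem_inter_iff, Set.mem_ofPred_eq, List.mem_append]
  constructor
  · rintro ⟨h1, h2⟩ p (hp | hp)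
    · exact h1 p hp
    · exact h2 p hp
  · intro h
    exact ⟨fun p hp => h p (Or.inl hp), fun p hp => h p (Or.inr hp)⟩

lemma isPoly_le (ℓ : E →ₗ[ℝ] ℝ) (b : ℝ) : IsPoly {v : E | ℓ v ≤ b} :=
  ⟨[(ℓ, b)], by ext v; simp⟩

lemma isPoly_univ : IsPoly (Set.univ : Set E) := ⟨[], by ext v; simp⟩

lemma isPoly_forall {ι : Type} [Finite ι] {S : ι → Set E} (h : ∀ i, IsPoly (S i)) :
    IsPoly {v | ∀ i, v ∈ S i} := by
  classical
  have := Fintype.ofFinite ι
  choose L hL using h
  refine ⟨(Finset.univ : Finset ι).toList.flatMap L, ?_⟩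
  ext v
  simp only [Set.mem_ofPred_eq, List.mem_flatMap, Finset.mem_toList, Finset.mem_univ, true_and]
  constructor
  · rintro h p ⟨i, hp⟩
    have := h i
    rw [hL i] at this
    exact this p hp
  · intro h i
    rw [hL i]
    exact fun p hp => h p ⟨i, hp⟩

lemma exists_between (A B : List ℝ) (h : ∀ a ∈ A, ∀ b ∈ B, a ≤ b) :
    ∃ t : ℝ, (∀ a ∈ A, a ≤ t) ∧ ∀ b ∈ B, t ≤ b := by
  by_cases hA : A = []
  · subst hA
    by_cases hB : B = []
    · subst hB
      exact ⟨0, by simp, by simp⟩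
    · obtain ⟨m, hm, hmin⟩ := B.toFinset.exists_min_image id
        (by rw [List.toFinset_nonempty_iff]; exact hB)
      exact ⟨m, by simp, fun b hb => hmin b (by simpa using hb)⟩
  · obtain ⟨m, hm, hmax⟩ := A.toFinset.exists_max_image id
      (by rw [List.toFinset_nonempty_iff]; exact hA)
    exact ⟨m, fun a ha => hmax a (by simpa using ha), fun b hb => h m (by simpa using hm) b hb⟩

/-- Fourier–Motzkin elimination of one variable. -/
lemma IsPoly.elim {S : Set (E × ℝ)} (h : IsPoly S) : IsPoly {v : E | ∃ t : ℝ, (v, t) ∈ S} := by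
  classical
  obtain ⟨L, rfl⟩ := h
  -- coefficient of `t` and the remaining functional
  let c : ((E × ℝ →ₗ[ℝ] ℝ) × ℝ) → ℝ := fun p => p.1 (0, 1)
  let g : ((E × ℝ →ₗ[ℝ] ℝ) × ℝ) → (E →ₗ[ℝ] ℝ) := fun p => p.1.comp (LinearMap.inl ℝ E ℝ)
  have hval : ∀ p : ((E × ℝ →ₗ[ℝ] ℝ) × ℝ), ∀ v t, p.1 (v, t) = g p v + t * c p := by
    intro p v t
    have : ((v, t) : E × ℝ) = (v, 0) + t • ((0 : E), (1 : ℝ)) := by
      ext <;> simp
    rw [this, map_add, map_smul]
    simp [g, c]
  let Z := L.filter (fun p => decide (c p = 0))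
  let P := L.filter (fun p => decide (0 < c p))
  let N := L.filter (fun p => decide (c p < 0))
  refine ⟨Z.map (fun p => (g p, p.2)) ++
    (N ×ˢ P).map (fun q => (c q.2 • g q.1 - c q.1 • g q.2, c q.2 * q.1.2 - c q.1 * q.2.2)), ?_⟩
  ext v
  simp only [Set.mem_ofPred_eq, List.mem_append, List.mem_map]
  constructor
  · rintro ⟨t, ht⟩ q (⟨p, hp, rfl⟩ | ⟨⟨p, p'⟩, hpp, rfl⟩)
    · rw [List.mem_filter] at hp
      have h1 := ht p hp.1
      rw [hval] at h1
      have h2 : c p = 0 := by simpa using hp.2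
      rw [h2] at h1
      simpa using h1
    · rw [List.mem_product, List.mem_filter, List.mem_filter] at hpp
      obtain ⟨⟨hp, hc⟩, ⟨hp', hc'⟩⟩ := hpp
      have h1 := ht p hp
      have h2 := ht p' hp'
      rw [hval] at h1 h2
      have h3 : c p < 0 := by simpa using hc
      have h4 : 0 < c p' := by simpa using hc'
      simp only [LinearMap.sub_apply, LinearMap.smul_apply, smul_eq_mul]
      nlinarith
  · intro h
    have hA : ∀ a ∈ N.map (fun p => (p.2 - g p v) / c p), ∀ b ∈ P.map (fun p => (p.2 - g p v) / c p),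
        a ≤ b := by
      intro a ha b hb
      rw [List.mem_map] at ha hb
      obtain ⟨p, hp, rfl⟩ := ha
      obtain ⟨p', hp', rfl⟩ := hb
      have h1 := h _ (Or.inr ⟨(p, p'), by rw [List.mem_product]; exact ⟨hp, hp'⟩, rfl⟩)
      simp only [LinearMap.sub_apply, LinearMap.smul_apply, smul_eq_mul] at h1
      have h3 : c p < 0 := by simpa using (List.mem_filter.mp hp).2
      have h4 : 0 < c p' := by simpa using (List.mem_filter.mp hp').2
      rw [div_le_iff_of_neg h3, div_mul_eq_mul_div, div_le_iff₀ h4]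
      nlinarith
    obtain ⟨t, ht1, ht2⟩ := exists_between _ _ hA
    refine ⟨t, ?_⟩
    intro p hp
    rw [hval]
    rcases lt_trichotomy (c p) 0 with hc | hc | hc
    · have h1 := ht1 ((p.2 - g p v) / c p)
        (List.mem_map.mpr ⟨p, List.mem_filter.mpr ⟨hp, by simpa using hc⟩, rfl⟩)
      rw [div_le_iff_of_neg hc] at h1
      linarith
    · have h1 := h _ (Or.inl ⟨p, List.mem_filter.mpr ⟨hp, by simpa using hc⟩, rfl⟩)
      rw [hc]
      simpa using h1
    · have h1 := ht2 ((p.2 - g p v) / c p)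
        (List.mem_map.mpr ⟨p, List.mem_filter.mpr ⟨hp, by simpa using hc⟩, rfl⟩)
      rw [le_div_iff₀ hc] at h1
      linarith

lemma elim_fin (n : ℕ) : ∀ (E : Type) [AddCommGroup E] [Module ℝ E] (S : Set (E × (Fin n → ℝ))),
    IsPoly S → IsPoly {v : E | ∃ w : Fin n → ℝ, (v, w) ∈ S} := by
  induction n with
  | zero =>
    intro E _ _ S hS
    have h1 := hS.comap (LinearMap.inl ℝ E (Fin 0 → ℝ))
    have h2 : {v : E | ∃ w : Fin 0 → ℝ, (v, w) ∈ S} =
        {v : E | (LinearMap.inl ℝ E (Fin 0 → ℝ)) v ∈ S} := by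
      ext v
      simp only [Set.mem_ofPred_eq, LinearMap.inl_apply]
      constructor
      · rintro ⟨w, hw⟩
        have : w = 0 := Subsingleton.elim _ _
        rwa [this] at hw
      · intro h; exact ⟨0, h⟩
    rw [h2]
    exact h1
  | succ n ih =>
    intro E _ _ S hS
    let φ : ((E × ℝ) × (Fin n → ℝ)) →ₗ[ℝ] (E × (Fin (n+1) → ℝ)) :=
      { toFun := fun p => (p.1.1, Fin.cons p.1.2 p.2)
        map_add' := by
          intro p q
          ext i
          · rfl
          · refine Fin.cases ?_ (fun j => ?_) i <;> simp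
        map_smul' := by
          intro c p
          ext i
          · rfl
          · refine Fin.cases ?_ (fun j => ?_) i <;> simp }
    have h1 := ih (E × ℝ) _ (hS.comap φ)
    have h2 := h1.elim
    have h3 : {v : E | ∃ w : Fin (n+1) → ℝ, (v, w) ∈ S} =
        {v : E | ∃ t : ℝ, (v, t) ∈ {v : E × ℝ | ∃ w : Fin n → ℝ, (v, w) ∈ {v | φ v ∈ S}}} := by
      ext v
      simp only [Set.mem_ofPred_eq]
      constructor
      · rintro ⟨w, hw⟩
        refine ⟨w 0, Fin.tail w, ?_⟩
        change (v, Fin.cons (w 0) (Fin.tail w)) ∈ S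
        rw [Fin.cons_self_tail]
        exact hw
      · rintro ⟨t, w, hw⟩
        exact ⟨Fin.cons t w, hw⟩
    rw [h3]
    exact h2

/-- Projections of polyhedra are polyhedra. -/
lemma IsPoly.proj {ι : Type} [Finite ι] {S : Set (E × (ι → ℝ))} (h : IsPoly S) :
    IsPoly {v : E | ∃ w : ι → ℝ, (v, w) ∈ S} := by
  have := Fintype.ofFinite ι
  let e := Fintype.equivFin ι
  let φ : (E × (Fin (Fintype.card ι) → ℝ)) →ₗ[ℝ] (E × (ι → ℝ)) :=
    { toFun := fun p => (p.1, fun i => p.2 (e i))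
      map_add' := by intro p q; rfl
      map_smul' := by intro c p; rfl }
  have h1 := elim_fin _ E _ (h.comap φ)
  have h2 : {v : E | ∃ w : ι → ℝ, (v, w) ∈ S} =
      {v : E | ∃ w : Fin (Fintype.card ι) → ℝ, (v, w) ∈ {v | φ v ∈ S}} := by
    ext v
    simp only [Set.mem_ofPred_eq]
    constructor
    · rintro ⟨w, hw⟩
      refine ⟨fun j => w (e.symm j), ?_⟩
      change (v, fun i => w (e.symm (e i))) ∈ S
      simpa using hw
    · rintro ⟨w, hw⟩
      exact ⟨_, hw⟩
  rw [h2]
  exact h1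

lemma IsPoly.convex {S : Set E} (h : IsPoly S) : Convex ℝ S := by
  obtain ⟨L, rfl⟩ := h
  intro x hx y hy a b ha hb hab p hp
  have h1 := hx p hp
  have h2 := hy p hp
  rw [map_add, map_smul, map_smul, smul_eq_mul, smul_eq_mul]
  have h3 : p.2 = a * p.2 + b * p.2 := by rw [← add_mul, hab, one_mul]
  rw [h3]
  exact add_le_add (mul_le_mul_of_nonneg_left h1 ha) (mul_le_mul_of_nonneg_left h2 hb)

end

/-- the top of the slices of a planar polyhedron is given by finitely many affine functions. -/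
lemma IsPoly.top {Q : Set (ℝ × ℝ)} (h : IsPoly Q) : ∃ A : List (ℝ × ℝ), ∀ x Y : ℝ,
    (x, Y) ∈ Q → (∀ y, (x, y) ∈ Q → y ≤ Y) → ∃ p ∈ A, Y = p.1 * x + p.2 := by
  classical
  obtain ⟨L, rfl⟩ := h
  let α : ((ℝ × ℝ →ₗ[ℝ] ℝ) × ℝ) → ℝ := fun p => p.1 (1, 0)
  let β : ((ℝ × ℝ →ₗ[ℝ] ℝ) × ℝ) → ℝ := fun p => p.1 (0, 1)
  have hval : ∀ p : ((ℝ × ℝ →ₗ[ℝ] ℝ) × ℝ), ∀ x y, p.1 (x, y) = x * α p + y * β p := by
    intro p x y
    have : ((x, y) : ℝ × ℝ) = x • ((1 : ℝ), (0 : ℝ)) + y • ((0 : ℝ), (1 : ℝ)) := by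
      ext <;> simp
    rw [this, map_add, map_smul, map_smul]
    simp [α, β]
  refine ⟨L.map (fun p => (-(α p) / β p, p.2 / β p)), ?_⟩
  intro x Y hY hmax
  by_contra hcon
  push Not at hcon
  -- slack in all constraints with positive coefficient
  have hslack : ∀ p ∈ L, 0 < β p → 0 < p.2 - (x * α p + Y * β p) := by
    intro p hp hb
    have h1 := hY p hp
    rw [hval] at h1
    rcases h1.lt_or_eq with h2 | h2
    · linarith
    · exfalso
      apply hcon _ (List.mem_map.mpr ⟨p, hp, rfl⟩)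
      simp only
      field_simp
      linarith
  obtain ⟨t, ht1, ht2⟩ := exists_between [0]
    ((L.filter (fun p => decide (0 < β p))).map (fun p => (p.2 - (x * α p + Y * β p)) / β p))
    (by
      intro a ha b hb
      rw [List.mem_singleton] at ha
      rw [List.mem_map] at hb
      obtain ⟨p, hp, rfl⟩ := hb
      rw [List.mem_filter] at hp
      have hb : 0 < β p := by simpa using hp.2
      rw [ha]
      exact (div_pos (hslack p hp.1 hb) hb).le)
  -- a positive step
  have hpos : ∃ t : ℝ, 0 < t ∧ ∀ p ∈ L, 0 < β p → t ≤ (p.2 - (x * α p + Y * β p)) / β p := by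
    have : ∀ L' : List ((ℝ × ℝ →ₗ[ℝ] ℝ) × ℝ), (∀ p ∈ L', p ∈ L) →
        ∃ t : ℝ, 0 < t ∧ ∀ p ∈ L', 0 < β p → t ≤ (p.2 - (x * α p + Y * β p)) / β p := by
      intro L'
      induction L' with
      | nil => intro _; exact ⟨1, one_pos, by simp⟩
      | cons q L' ih =>
        intro hsub
        obtain ⟨t, ht0, ht⟩ := ih (fun p hp => hsub p (List.mem_cons_of_mem _ hp))
        by_cases hq : 0 < β q
        · have hq' := div_pos (hslack q (hsub q List.mem_cons_self) hq) hq
          refine ⟨min t ((q.2 - (x * α q + Y * β q)) / β q), lt_min ht0 hq', ?_⟩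
          intro p hp hb
          rcases List.mem_cons.mp hp with rfl | hp
          · exact min_le_right _ _
          · exact (min_le_left _ _).trans (ht p hp hb)
        · refine ⟨t, ht0, ?_⟩
          intro p hp hb
          rcases List.mem_cons.mp hp with rfl | hp
          · exact absurd hb hq
          · exact ht p hp hb
    exact this L (fun p hp => hp)
  obtain ⟨t, ht0, ht⟩ := hpos
  have : (x, Y + t) ∈ {v | ∀ p ∈ L, p.1 v ≤ p.2} := by
    intro p hp
    rw [hval]
    have h1 := hY p hp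
    rw [hval] at h1
    rcases lt_or_ge 0 (β p) with hb | hb
    · have h2 := ht p hp hb
      rw [le_div_iff₀ hb] at h2
      linarith
    · nlinarith
  have := hmax _ this
  linarith

end Pool.Agent.V11146.FM
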