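import Mathlib
import Pool.Agent.V11146.BottleLink
import Pool.Agent.V11146.FM

set_option autoImplicit false

namespace Pool.Agent.V11146.Bottle

open Finset SimpleGraph FM

section
variable {h : ℕ} (H : SimpleGraph (Fin h)) (k : ℕ)

/-- the polyhedron before projecting. -/
def Full : Set ((ℝ × ℝ) × (Fin (k + 1) × Ty (k + 1) H → ℝ)) :=
  {v | (∀ q, 0 ≤ v.2 q) ∧
    (∀ p j, ∑ c, v.2 (p, c) * (cnt c.1 j : ℝ) ≤ if j = p then 1 - (k : ℝ) * v.1.2 else v.1.2) ∧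
    (∀ p, v.1.1 ≤ (h : ℝ) * ∑ c, v.2 (p, c)) ∧
    1 ≤ ((k : ℝ) + 1) * v.1.2 ∧ (k : ℝ) * v.1.2 ≤ 1}

lemma full_poly : IsPoly (Full H k) := by
  classical
  let W := Fin (k + 1) × Ty (k + 1) H → ℝ
  let X : ((ℝ × ℝ) × W) →ₗ[ℝ] ℝ := (LinearMap.fst ℝ ℝ ℝ).comp (LinearMap.fst ℝ (ℝ × ℝ) W)
  let Y : ((ℝ × ℝ) × W) →ₗ[ℝ] ℝ := (LinearMap.snd ℝ ℝ ℝ).comp (LinearMap.fst ℝ (ℝ × ℝ) W)
  let Z : Fin (k + 1) × Ty (k + 1) H → (((ℝ × ℝ) × W) →ₗ[ℝ] ℝ) := fun q =>
    (LinearMap.proj q).comp (LinearMap.snd ℝ (ℝ × ℝ) W)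
  have hX : ∀ v, X v = v.1.1 := fun v => rfl
  have hY : ∀ v, Y v = v.1.2 := fun v => rfl
  have hZ : ∀ q v, Z q v = v.2 q := fun q v => rfl
  have h1 : IsPoly {v : (ℝ × ℝ) × W | ∀ q, v ∈ {v : (ℝ × ℝ) × W | (-(Z q)) v ≤ 0}} :=
    isPoly_forall (fun q => isPoly_le _ _)
  have h2 : IsPoly {v : (ℝ × ℝ) × W | ∀ p : Fin (k + 1) × Fin (k + 1),
      v ∈ {v : (ℝ × ℝ) × W | ((∑ c, (cnt c.1 p.2 : ℝ) • Z (p.1, c)) +
        (if p.2 = p.1 then (k : ℝ) • Y else - Y)) v ≤ (if p.2 = p.1 then 1 else 0)}} :=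
    isPoly_forall (fun p => isPoly_le _ _)
  have h3 : IsPoly {v : (ℝ × ℝ) × W | ∀ p : Fin (k + 1),
      v ∈ {v : (ℝ × ℝ) × W | (X - (h : ℝ) • ∑ c, Z (p, c)) v ≤ 0}} :=
    isPoly_forall (fun p => isPoly_le _ _)
  have h4 : IsPoly {v : (ℝ × ℝ) × W | (-(((k : ℝ) + 1) • Y)) v ≤ -1} := isPoly_le _ _
  have h5 : IsPoly {v : (ℝ × ℝ) × W | ((k : ℝ) • Y) v ≤ 1} := isPoly_le _ _
  have := h1.inter (h2.inter (h3.inter (h4.inter h5)))
  convert this using 1
  ext v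
  have e2 : ∀ p : Fin (k + 1) × Fin (k + 1), (((∑ c, (cnt c.1 p.2 : ℝ) • Z (p.1, c)) +
        (if p.2 = p.1 then (k : ℝ) • Y else - Y)) v ≤ (if p.2 = p.1 then 1 else 0)) ↔
      ∑ c, v.2 (p.1, c) * (cnt c.1 p.2 : ℝ) ≤ if p.2 = p.1 then 1 - (k : ℝ) * v.1.2 else v.1.2 := by
    intro p
    rw [LinearMap.add_apply, LinearMap.sum_apply]
    have : ∑ c, ((cnt c.1 p.2 : ℝ) • Z (p.1, c)) v = ∑ c, v.2 (p.1, c) * (cnt c.1 p.2 : ℝ) := by
      apply sum_congr rfl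
      intro c _
      rw [LinearMap.smul_apply, hZ, smul_eq_mul, mul_comm]
    rw [this]
    split_ifs with hp
    · rw [LinearMap.smul_apply, hY, smul_eq_mul]
      constructor <;> intro h <;> linarith
    · rw [LinearMap.neg_apply, hY]
      constructor <;> intro h <;> linarith
  have e3 : ∀ p : Fin (k + 1), ((X - (h : ℝ) • ∑ c, Z (p, c)) v ≤ 0) ↔
      v.1.1 ≤ (h : ℝ) * ∑ c, v.2 (p, c) := by
    intro p
    rw [LinearMap.sub_apply, LinearMap.smul_apply, LinearMap.sum_apply, hX, smul_eq_mul]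
    have : ∑ c, (Z (p, c)) v = ∑ c, v.2 (p, c) := sum_congr rfl (fun c _ => hZ _ _)
    rw [this]
    constructor <;> intro h <;> linarith
  constructor
  · rintro ⟨a1, a2, a3, a4, a5⟩
    refine ⟨fun q => ?_, fun p => (e2 p).mpr (a2 p.1 p.2), fun p => (e3 p).mpr (a3 p), ?_, a5⟩
    · change -(v.2 q) ≤ 0
      have := a1 q
      linarith
    · change -(((k : ℝ) + 1) * v.1.2) ≤ -1
      linarith
  · rintro ⟨a1, a2, a3, a4, a5⟩
    refine ⟨fun q => ?_, fun p j => (e2 (p, j)).mp (a2 (p, j)), fun p => (e3 p).mp (a3 p), ?_, a5⟩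
    · have : -(v.2 q) ≤ 0 := a1 q
      linarith
    · have : -(((k : ℝ) + 1) * v.1.2) ≤ -1 := a4
      linarith

/-- the planar polyhedron `Q_k`. -/
def QQ : Set (ℝ × ℝ) := {v | ∃ w, (v, w) ∈ Full H k}

lemma qq_poly : IsPoly (QQ H k) := (full_poly H k).proj

end

lemma mem_qq {h : ℕ} {H : SimpleGraph (Fin h)} {k : ℕ} {x y : ℝ} : (x, y) ∈ QQ H k ↔
    ∃ w : Fin (k + 1) × Ty (k + 1) H → ℝ, (∀ q, 0 ≤ w q) ∧
    (∀ p j, ∑ c, w (p, c) * (cnt c.1 j : ℝ) ≤ if j = p then 1 - (k : ℝ) * y else y) ∧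
    (∀ p, x ≤ (h : ℝ) * ∑ c, w (p, c)) ∧ 1 ≤ ((k : ℝ) + 1) * y ∧ (k : ℝ) * y ≤ 1 := Iff.rfl

lemma qq_bounds {h : ℕ} {H : SimpleGraph (Fin h)} {k : ℕ} {x y : ℝ} (hy : (x, y) ∈ QQ H k) :
    1 ≤ ((k : ℝ) + 1) * y ∧ (k : ℝ) * y ≤ 1 := by
  obtain ⟨w, _, _, _, h4, h5⟩ := mem_qq.mp hy
  exact ⟨h4, h5⟩

lemma qq_pos {h : ℕ} {H : SimpleGraph (Fin h)} {k : ℕ} {x y : ℝ} (hy : (x, y) ∈ QQ H k) :
    0 < y := by
  have := (qq_bounds hy).1
  by_contra hcon
  push Not at hcon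
  have hk : (0 : ℝ) < (k : ℝ) + 1 := by positivity
  have := mul_nonpos_of_nonneg_of_nonpos hk.le hcon
  linarith

lemma qq_le_one {h : ℕ} {H : SimpleGraph (Fin h)} {k : ℕ} (hk : 1 ≤ k) {x y : ℝ}
    (hy : (x, y) ∈ QQ H k) : y ≤ 1 := by
  have h1 := (qq_bounds hy).2
  have h2 := qq_pos hy
  have hk' : (1 : ℝ) ≤ (k : ℝ) := by exact_mod_cast hk
  nlinarith

/-- from discrete data to the polyhedron. -/
lemma qq_of_data {x : ℝ} {h : ℕ} {H : SimpleGraph (Fin h)} {k u m : ℕ} (hu : 1 ≤ u)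
    (hum : u ≤ m) (hD : Data x H k u m) :
    (x, (m : ℝ) / ((u : ℝ) + (k : ℝ) * (m : ℝ))) ∈ QQ H k := by
  choose N hN1 hN2 using hD
  have hu' : (1 : ℝ) ≤ (u : ℝ) := by exact_mod_cast hu
  have hum' : (u : ℝ) ≤ (m : ℝ) := by exact_mod_cast hum
  have hk : (0 : ℝ) ≤ (k : ℝ) := Nat.cast_nonneg k
  have hn : 0 < (u : ℝ) + (k : ℝ) * (m : ℝ) := by positivity
  rw [mem_qq]
  refine ⟨fun q => (N q.1 q.2 : ℝ) / ((u : ℝ) + (k : ℝ) * (m : ℝ)), ?_, ?_, ?_, ?_, ?_⟩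
  · intro q; positivity
  · intro p j
    have h1 := hN1 p j
    have h2 : ∑ c, (N p c : ℝ) / ((u : ℝ) + (k : ℝ) * (m : ℝ)) * (cnt c.1 j : ℝ) =
        (∑ c, (N p c : ℝ) * (cnt c.1 j : ℝ)) / ((u : ℝ) + (k : ℝ) * (m : ℝ)) := by
      rw [sum_div]
      apply sum_congr rfl
      intro c _
      ring
    simp only
    rw [h2, div_le_iff₀ hn]
    have h3 : ((∑ c, N p c * cnt c.1 j : ℕ) : ℝ) ≤ ((if j = p then u else m : ℕ) : ℝ) := by
      exact_mod_cast h1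
    push_cast at h3
    refine h3.trans (le_of_eq ?_)
    split_ifs
    · field_simp
      ring
    · field_simp
  · intro p
    simp only
    rw [← sum_div, ← mul_div_assoc, le_div_iff₀ hn]
    exact hN2 p
  · rw [← mul_div_assoc, one_le_div hn]
    nlinarith
  · rw [← mul_div_assoc, div_le_one hn]
    linarith

/-- from an inner rational point of the polyhedron to discrete data. -/
lemma data_of_qq {x x' y : ℝ} {h : ℕ} {H : SimpleGraph (Fin h)} {k : ℕ} (hx : x < x')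
    (hy : (x', y) ∈ QQ H k) (hq : ∃ q : ℚ, y = (q : ℝ)) (hlt : (k : ℝ) * y < 1) :
    ∃ u m : ℕ, 1 ≤ u ∧ u ≤ m ∧ Data x H k u m ∧
      ((u : ℝ) + (k : ℝ) * (m : ℝ)) / (m : ℝ) = 1 / y := by
  obtain ⟨q, rfl⟩ := hq
  have hpos := qq_pos hy
  have hqpos : 0 < q := by exact_mod_cast hpos
  have hnum : 0 < q.num := Rat.num_pos.mpr hqpos
  obtain ⟨a, ha⟩ := Int.eq_ofNat_of_zero_le hnum.le
  have ha' : 0 < a := by
    have : (0 : ℤ) < (a : ℤ) := by rw [← ha]; exact hnum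
    exact_mod_cast this
  have hb : 0 < q.den := q.den_pos
  set b := q.den with hbdef
  have hqab : (q : ℝ) = (a : ℝ) / (b : ℝ) := by
    have h1 : (q : ℝ) = ((q.num : ℤ) : ℝ) / ((q.den : ℕ) : ℝ) := by
      exact_mod_cast (Rat.num_div_den q).symm
    rw [h1, ha]
    simp [hbdef]
  have haR : (0 : ℝ) < (a : ℝ) := by exact_mod_cast ha'
  have hbR : (0 : ℝ) < (b : ℝ) := by exact_mod_cast hb
  obtain ⟨hb1, hb2⟩ := qq_bounds hy
  obtain ⟨w, hw0, hw1, hw2, -, -⟩ := mem_qq.mp hy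
  have hkab : k * a < b := by
    rw [hqab, ← mul_div_assoc, div_lt_one hbR] at hlt
    exact_mod_cast hlt
  have hbk : b ≤ (k + 1) * a := by
    rw [hqab, ← mul_div_assoc, one_le_div hbR] at hb1
    exact_mod_cast hb1
  obtain ⟨N, hN⟩ := exists_nat_ge ((h : ℝ) * (Fintype.card (Ty (k + 1) H) : ℝ) / (x' - x))
  have hxx : 0 < x' - x := by linarith
  rw [div_le_iff₀ hxx] at hN
  -- scaled sizes
  set M := N + 1 with hM
  refine ⟨M * (b - k * a), M * a, ?_, ?_, ?_, ?_⟩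
  · have : 1 ≤ b - k * a := by omega
    exact Nat.one_le_iff_ne_zero.mpr (Nat.mul_ne_zero (by omega) (by omega))
  · apply Nat.mul_le_mul_left
    have : (k + 1) * a = k * a + a := by ring
    omega
  · have hcast : ((M * (b - k * a) : ℕ) : ℝ) = (M : ℝ) * ((b : ℝ) - (k : ℝ) * (a : ℝ)) := by
      rw [Nat.cast_mul, Nat.cast_sub hkab.le, Nat.cast_mul]
    have hcast2 : ((M * a : ℕ) : ℝ) = (M : ℝ) * (a : ℝ) := by push_cast; rfl
    have htot : ((M * (b - k * a) : ℕ) : ℝ) + (k : ℝ) * ((M * a : ℕ) : ℝ) = (M : ℝ) * (b : ℝ) := by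
      rw [hcast, hcast2]; ring
    have hMb : 0 ≤ (M : ℝ) * (b : ℝ) := by positivity
    intro p
    refine ⟨fun c => ⌊(M : ℝ) * (b : ℝ) * w (p, c)⌋₊, ?_, ?_⟩
    · intro j
      have h1 : ((∑ c, ⌊(M : ℝ) * (b : ℝ) * w (p, c)⌋₊ * cnt c.1 j : ℕ) : ℝ) ≤
          (M : ℝ) * (b : ℝ) * ∑ c, w (p, c) * (cnt c.1 j : ℝ) := by
        push_cast
        rw [mul_sum]
        apply sum_le_sum
        intro c _
        rw [← mul_assoc]
        apply mul_le_mul_of_nonneg_right _ (Nat.cast_nonneg _)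
        exact Nat.floor_le (mul_nonneg hMb (hw0 _))
      have h2 := hw1 p j
      have h3 : (M : ℝ) * (b : ℝ) * ∑ c, w (p, c) * (cnt c.1 j : ℝ) ≤
          ((if j = p then M * (b - k * a) else M * a : ℕ) : ℝ) := by
        refine (mul_le_mul_of_nonneg_left h2 hMb).trans (le_of_eq ?_)
        split_ifs
        · rw [hcast, hqab]
          field_simp
        · rw [hcast2, hqab]
          field_simp
      exact_mod_cast h1.trans h3
    · rw [htot]
      have h1 : (M : ℝ) * (b : ℝ) * ∑ c, w (p, c) - (Fintype.card (Ty (k + 1) H) : ℝ) ≤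
          ∑ c, ((⌊(M : ℝ) * (b : ℝ) * w (p, c)⌋₊ : ℕ) : ℝ) := by
        have : (Fintype.card (Ty (k + 1) H) : ℝ) = ∑ c : Ty (k + 1) H, (1 : ℝ) := by
          simp
        rw [this, mul_sum, ← sum_sub_distrib]
        apply sum_le_sum
        intro c _
        have := Nat.lt_floor_add_one ((M : ℝ) * (b : ℝ) * w (p, c))
        linarith
      have h2 := mul_le_mul_of_nonneg_left h1 (Nat.cast_nonneg (α := ℝ) h)
      have h3 := mul_le_mul_of_nonneg_left (hw2 p) hMb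
      have h4 : (N : ℝ) ≤ (M : ℝ) * (b : ℝ) := by
        have : (1 : ℝ) ≤ (b : ℝ) := by exact_mod_cast hb
        have h5 : (M : ℝ) = (N : ℝ) + 1 := by rw [hM]; push_cast; ring
        have h6 : (0 : ℝ) ≤ (N : ℝ) := Nat.cast_nonneg N
        nlinarith
      have h5 := mul_le_mul_of_nonneg_right h4 hxx.le
      nlinarith
  · have hM0 : (0 : ℝ) < (M : ℝ) := by rw [hM]; positivity
    rw [hqab, Nat.cast_mul, Nat.cast_mul, Nat.cast_sub hkab.le, Nat.cast_mul]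
    field_simp
    ring

lemma qq_zero {h : ℕ} {H : SimpleGraph (Fin h)} {k : ℕ} {y : ℝ}
    (h1 : 1 ≤ ((k : ℝ) + 1) * y) (h2 : (k : ℝ) * y ≤ 1) : ((0 : ℝ), y) ∈ QQ H k := by
  rw [mem_qq]
  refine ⟨fun _ => 0, fun _ => le_refl _, ?_, ?_, h1, h2⟩
  · intro p j
    simp only [zero_mul, sum_const_zero]
    split_ifs
    · linarith
    · by_contra hcon
      push Not at hcon
      have hk : (0 : ℝ) < (k : ℝ) + 1 := by positivity
      have := mul_nonpos_of_nonneg_of_nonpos hk.le hcon.le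
      linarith
  · intro p
    simp

/-- the rainbow type. -/
lemma qq_rainbow {k : ℕ} (H : SimpleGraph (Fin (k + 1))) {x : ℝ} (hx : x ≤ 1) :
    (x, 1 / ((k : ℝ) + 1)) ∈ QQ H k := by
  classical
  have hk : (0 : ℝ) < (k : ℝ) + 1 := by positivity
  rw [mem_qq]
  let c0 : Ty (k + 1) H := ⟨id, monotone_id, fun i j hij => hij.ne⟩
  refine ⟨fun q => if q.2 = c0 then 1 / ((k : ℝ) + 1) else 0, ?_, ?_, ?_, ?_, ?_⟩
  · intro q
    simp only
    split_ifs
    · positivity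
    · exact le_refl _
  · intro p j
    simp only [ite_mul, zero_mul, sum_ite_eq', mem_univ, if_true]
    have : cnt c0.1 j = 1 := by
      unfold cnt
      simp [c0, Finset.filter_eq']
    rw [this]
    split_ifs
    · field_simp
      simp
    · simp
  · intro p
    simp only [sum_ite_eq', mem_univ, if_true]
    push_cast
    field_simp
    exact hx
  · field_simp
    exact le_refl _
  · rw [mul_one_div, div_le_one hk]
    linarith

/-- approximation by inner rational points. -/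
lemma qq_approx {h : ℕ} {H : SimpleGraph (Fin h)} {k : ℕ} (hk : 1 ≤ k) {x x' Y Y' δ : ℝ}
    (hx1 : x < 1) (hxx : x < x') (hY : (x, Y) ∈ QQ H k) (hY' : (x', Y') ∈ QQ H k)
    (hδ : 0 < δ) :
    ∃ x'' y : ℝ, x < x'' ∧ (x'', y) ∈ QQ H k ∧ (∃ q : ℚ, y = (q : ℝ)) ∧ (k : ℝ) * y < 1 ∧
      Y - δ < y := by
  have hk0 : (1 : ℝ) ≤ (k : ℝ) := by exact_mod_cast hk
  have hk1 : (0 : ℝ) < (k : ℝ) + 1 := by positivity
  set t := min (δ / 4) (1 / 4) with ht
  have ht0 : 0 < t := lt_min (by linarith) (by norm_num)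
  have ht1 : t ≤ δ / 4 := min_le_left _ _
  have ht2 : t ≤ 1 / 4 := min_le_right _ _
  set r := min 1 ((x' - x) / 2) with hr
  have hr0 : 0 < r := lt_min (by norm_num) (by linarith)
  have hr1 : r ≤ 1 := min_le_left _ _
  have hr2 : r ≤ (x' - x) / 2 := min_le_right _ _
  set s := t * r with hs
  have hs0 : 0 < s := mul_pos ht0 hr0
  have hs1 : s ≤ t := by
    calc s = t * r := rfl
      _ ≤ t * 1 := mul_le_mul_of_nonneg_left hr1 ht0.le
      _ = t := mul_one t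
  have hs2 : s ≤ t * ((x' - x) / 2) := mul_le_mul_of_nonneg_left hr2 ht0.le
  set A := (1 - t - s) * Y + t * Y' with hA
  have hint : A + s * (1 / ((k : ℝ) + 1)) < A + s * (1 / (k : ℝ)) := by
    have : 1 / ((k : ℝ) + 1) < 1 / (k : ℝ) := by
      apply one_div_lt_one_div_of_lt <;> linarith
    nlinarith
  obtain ⟨q, hq1, hq2⟩ := exists_rat_btwn hint
  set z := ((q : ℝ) - A) / s with hz
  have hqz : (q : ℝ) = A + s * z := by
    rw [hz]; field_simp; ring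
  have hz1 : 1 / ((k : ℝ) + 1) < z := by
    rw [hz, lt_div_iff₀ hs0]; linarith
  have hz2 : z < 1 / (k : ℝ) := by
    rw [hz, div_lt_iff₀ hs0]; linarith
  have hz3 : 1 ≤ ((k : ℝ) + 1) * z := by
    rw [div_lt_iff₀ hk1] at hz1
    linarith
  have hz4 : (k : ℝ) * z < 1 := by
    rw [lt_div_iff₀ (by linarith)] at hz2
    linarith
  have hZ : ((0 : ℝ), z) ∈ QQ H k := qq_zero hz3 hz4.le
  have hconv := (qq_poly H k).convex
  refine ⟨(1 - t - s) * x + t * x', (q : ℝ), ?_, ?_, ⟨q, rfl⟩, ?_, ?_⟩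
  · have h1 : s * x < t * (x' - x) := by
      have h2 : s * x ≤ s * 1 := mul_le_mul_of_nonneg_left hx1.le hs0.le
      have h3 : t * ((x' - x) / 2) < t * (x' - x) := by nlinarith
      linarith
    nlinarith
  · -- two-step convex combination
    have h1 : (1 - t / (1 - s)) • ((x, Y) : ℝ × ℝ) + (t / (1 - s)) • ((x', Y') : ℝ × ℝ) ∈ QQ H k := by
      apply hconv hY hY'
      · have : t / (1 - s) ≤ 1 := by
          rw [div_le_one (by linarith)]
          linarith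
        linarith
      · apply div_nonneg ht0.le
        linarith
      · ring
    have h2 := hconv h1 hZ (a := 1 - s) (b := s) (by linarith) hs0.le (by ring)
    have h3 : (1 - s) • ((1 - t / (1 - s)) • ((x, Y) : ℝ × ℝ) + (t / (1 - s)) • ((x', Y') : ℝ × ℝ)) +
        s • (((0 : ℝ), z) : ℝ × ℝ) = ((1 - t - s) * x + t * x', (q : ℝ)) := by
      have hs' : (1 - s) ≠ 0 := by
        have : 0 < 1 - s := by linarith
        exact this.ne'
      ext
      · simp only [Prod.smul_mk, Prod.mk_add_mk, smul_eq_mul]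
        field_simp
        ring
      · simp only [Prod.smul_mk, Prod.mk_add_mk, smul_eq_mul]
        rw [hqz, hA]
        field_simp
        ring
    rw [h3] at h2
    exact h2
  · rw [hqz, hA]
    have h1 := (qq_bounds hY).2
    have h2 := (qq_bounds hY').2
    have h3 : (k : ℝ) * ((1 - t - s) * Y + t * Y' + s * z) =
        (1 - t - s) * ((k : ℝ) * Y) + t * ((k : ℝ) * Y') + s * ((k : ℝ) * z) := by ring
    rw [h3]
    have h4 : (1 - t - s) * ((k : ℝ) * Y) ≤ (1 - t - s) * 1 :=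
      mul_le_mul_of_nonneg_left h1 (by linarith)
    have h5 : t * ((k : ℝ) * Y') ≤ t * 1 := mul_le_mul_of_nonneg_left h2 ht0.le
    have h6 : s * ((k : ℝ) * z) < s * 1 := mul_lt_mul_of_pos_left hz4 hs0
    linarith
  · rw [hqz, hA]
    have h1 := qq_le_one hk hY
    have h2 := qq_pos hY'
    have h3 := qq_pos hZ
    have h4 := qq_pos hY
    have h5 : (t + s) * Y ≤ (t + s) * 1 := mul_le_mul_of_nonneg_left h1 (by linarith)
    have h6 : 0 < t * Y' := mul_pos ht0 h2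
    have h7 : 0 < s * z := mul_pos hs0 h3
    nlinarith

end Pool.Agent.V11146.Bottle
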