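import Mathlib

set_option autoImplicit false

namespace Pool.Agent.V11146.FinInt

/-- finite unions of intervals. -/
def FU (S : Set ℝ) : Prop := ∃ 𝓘 : Set (Set ℝ), 𝓘.Finite ∧ (∀ I ∈ 𝓘, I.OrdConnected) ∧ ⋃₀ 𝓘 = S

lemma FU.of_ordConnected {S : Set ℝ} (h : S.OrdConnected) : FU S :=
  ⟨{S}, Set.finite_singleton S, by simpa using h, by simp⟩

lemma FU.union {S T : Set ℝ} (h : FU S) (h' : FU T) : FU (S ∪ T) := by
  obtain ⟨A, hA, hA', rfl⟩ := h
  obtain ⟨B, hB, hB', rfl⟩ := h'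
  refine ⟨A ∪ B, hA.union hB, ?_, Set.sUnion_union A B⟩
  rintro I (hI | hI)
  · exact hA' I hI
  · exact hB' I hI

lemma FU.inter {S T : Set ℝ} (h : FU S) (h' : FU T) : FU (S ∩ T) := by
  obtain ⟨A, hA, hA', rfl⟩ := h
  obtain ⟨B, hB, hB', rfl⟩ := h'
  refine ⟨Set.image2 (· ∩ ·) A B, hA.image2 _ hB, ?_, ?_⟩
  · rintro _ ⟨I, hI, J, hJ, rfl⟩
    exact (hA' I hI).inter (hB' J hJ)
  · ext x
    simp only [Set.mem_sUnion, Set.mem_image2, Set.mem_inter_iff]
    constructor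
    · rintro ⟨_, ⟨I, hI, J, hJ, rfl⟩, hx⟩
      exact ⟨⟨I, hI, hx.1⟩, ⟨J, hJ, hx.2⟩⟩
    · rintro ⟨⟨I, hI, hx⟩, ⟨J, hJ, hx'⟩⟩
      exact ⟨_, ⟨I, hI, J, hJ, rfl⟩, hx, hx'⟩

lemma FU.compl_interval {I : Set ℝ} (h : I.OrdConnected) : FU Iᶜ := by
  have h1 : Iᶜ = {x | ∀ a ∈ I, x < a} ∪ {x | ∀ a ∈ I, a < x} := by
    ext x
    simp only [Set.mem_compl_iff, Set.mem_union, Set.mem_ofPred_eq]
    constructor
    · intro hx
      by_contra hcon
      push Not at hcon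
      obtain ⟨⟨a, ha, hax⟩, ⟨b, hb, hbx⟩⟩ := hcon
      exact hx (h.out ha hb ⟨hax, hbx⟩)
    · rintro (hx | hx) hmem
      · exact lt_irrefl _ (hx x hmem)
      · exact lt_irrefl _ (hx x hmem)
  rw [h1]
  apply FU.union
  · apply FU.of_ordConnected
    constructor
    intro a ha b hb x hx c hc
    exact lt_of_le_of_lt hx.2 (hb c hc)
  · apply FU.of_ordConnected
    constructor
    intro a ha b hb x hx c hc
    exact lt_of_lt_of_le (ha c hc) hx.1

lemma FU.biUnion {ι : Type} {s : Set ι} (hs : s.Finite) {S : ι → Set ℝ}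
    (h : ∀ i ∈ s, FU (S i)) : FU (⋃ i ∈ s, S i) := by
  induction s, hs using Set.Finite.induction_on with
  | empty => simpa using FU.of_ordConnected (Set.ordConnected_empty)
  | @insert a s _ _ ih =>
    rw [Set.biUnion_insert]
    exact (h a (Set.mem_insert _ _)).union (ih (fun i hi => h i (Set.mem_insert_of_mem _ hi)))

lemma FU.biInter {ι : Type} {s : Set ι} (hs : s.Finite) {S : ι → Set ℝ}
    (h : ∀ i ∈ s, FU (S i)) : FU (⋂ i ∈ s, S i) := by
  induction s, hs using Set.Finite.induction_on with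
  | empty => simpa using FU.of_ordConnected (Set.ordConnected_univ)
  | @insert a s _ _ ih =>
    rw [Set.biInter_insert]
    exact (h a (Set.mem_insert _ _)).inter (ih (fun i hi => h i (Set.mem_insert_of_mem _ hi)))

lemma FU.compl {S : Set ℝ} (h : FU S) : FU Sᶜ := by
  obtain ⟨A, hA, hA', rfl⟩ := h
  have : (⋃₀ A)ᶜ = ⋂ I ∈ A, Iᶜ := by
    rw [Set.sUnion_eq_biUnion, Set.compl_iUnion₂]
  rw [this]
  exact FU.biInter hA (fun I hI => FU.compl_interval (hA' I hI))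

/-- the projection of a convex planar set is an interval. -/
lemma FU.proj {P : Set (ℝ × ℝ)} (h : Convex ℝ P) : FU {x | ∃ y, (x, y) ∈ P} := by
  apply FU.of_ordConnected
  have h1 : {x | ∃ y, (x, y) ∈ P} = (LinearMap.fst ℝ ℝ ℝ) '' P := by
    ext x
    simp only [Set.mem_ofPred_eq, Set.mem_image, Prod.exists, LinearMap.fst_apply]
    constructor
    · rintro ⟨y, hy⟩; exact ⟨x, y, hy, rfl⟩
    · rintro ⟨a, y, hy, rfl⟩; exact ⟨y, hy⟩
  rw [h1]
  exact (h.linear_image _).ordConnected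

end Pool.Agent.V11146.FinInt
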