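import Mathlib
import Pool.Agent.V11146.BottlePoly
import Pool.Agent.V11146.FinInt

set_option autoImplicit false

namespace Pool.Agent.V11146.Bottle

open Finset SimpleGraph FM FinInt

lemma pl_of_cover {ι : Type} {s : Set ι} (hs : s.Finite) {g : ℝ → ℝ} {C : ι → Set ℝ}
    (hFU : ∀ i ∈ s, FU (C i)) (hcov : ⋃ i ∈ s, C i = Set.Ioo 0 1)
    (haff : ∀ i ∈ s, ∃ a b : ℝ, ∀ x ∈ C i, g x = a * x + b) : PiecewiseLinear g := by
  classical
  choose! A hA1 hA2 hA3 using hFU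
  refine ⟨⋃ i ∈ s, A i, hs.biUnion hA1, ?_, ?_⟩
  · rw [← hcov]
    ext x
    simp only [Set.mem_sUnion, Set.mem_iUnion, exists_prop]
    constructor
    · rintro ⟨I, ⟨i, hi, hI⟩, hx⟩
      refine ⟨i, hi, ?_⟩
      rw [← hA3 i hi]
      exact ⟨I, hI, hx⟩
    · rintro ⟨i, hi, hx⟩
      rw [← hA3 i hi] at hx
      obtain ⟨I, hI, hx⟩ := hx
      exact ⟨I, ⟨i, hi, hI⟩, hx⟩
  · intro I hI
    simp only [Set.mem_iUnion, exists_prop] at hI
    obtain ⟨i, hi, hI⟩ := hI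
    refine ⟨hA2 i hi I hI, ?_⟩
    obtain ⟨a, b, hab⟩ := haff i hi
    refine ⟨a, b, fun x hx => hab x ?_⟩
    rw [← hA3 i hi]
    exact ⟨I, hI, hx⟩

lemma pl_const {g : ℝ → ℝ} {c : ℝ} (h : ∀ x ∈ Set.Ioo (0 : ℝ) 1, g x = c) :
    PiecewiseLinear g := by
  refine ⟨{Set.Ioo 0 1}, Set.finite_singleton _, by simp, ?_⟩
  intro I hI
  rw [Set.mem_singleton_iff] at hI
  subst hI
  refine ⟨Set.ordConnected_Ioo, 0, c, fun x hx => ?_⟩
  rw [h x hx]; ring

lemma slice_closed {S : Set (ℝ × ℝ)} (h : IsPoly S) (x : ℝ) : IsClosed {y | (x, y) ∈ S} := by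
  obtain ⟨L, rfl⟩ := h
  have : {y | (x, y) ∈ {v : ℝ × ℝ | ∀ p ∈ L, p.1 v ≤ p.2}} =
      ⋂ p ∈ L, {y | p.1 (x, y) ≤ p.2} := by
    ext y
    simp only [Set.mem_ofPred_eq, Set.mem_iInter]
  rw [this]
  apply isClosed_iInter
  intro p
  apply isClosed_iInter
  intro _
  apply isClosed_le _ continuous_const
  exact (LinearMap.continuous_of_finiteDimensional p.1).comp (by fun_prop)

section edge
variable {k₀ : ℕ} (H : SimpleGraph (Fin (k₀ + 1)))

/-- admissible heights. -/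
def UU (x : ℝ) : Set ℝ := {y | ∃ k, (1 ≤ k ∧ k ≤ k₀) ∧ (x, y) ∈ QQ H k}

lemma uu_compact (x : ℝ) : IsCompact (UU H x) := by
  have : UU H x = ⋃ k ∈ (Set.Icc 1 k₀ : Set ℕ), {y | (x, y) ∈ QQ H k} := by
    ext y
    simp only [UU, Set.mem_ofPred_eq, Set.mem_iUnion, exists_prop, Set.mem_Icc]
  rw [this]
  apply (Set.finite_Icc 1 k₀).isCompact_biUnion
  intro k hk
  apply IsCompact.of_isClosed_subset (isCompact_Icc (a := (0 : ℝ)) (b := 1))
    (slice_closed (qq_poly H k) x)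
  intro y hy
  exact ⟨(qq_pos hy).le, qq_le_one hk.1 hy⟩

/-- the exceptional points. -/
def EE (k : ℕ) : Set ℝ :=
  {x | (∃ y, (x, y) ∈ QQ H k) ∧ ∀ x' y', (x', y') ∈ QQ H k → x' ≤ x}

lemma ee_subsingleton (k : ℕ) : (EE H k).Subsingleton := by
  rintro a ⟨⟨y, hy⟩, ha⟩ b ⟨⟨z, hz⟩, hb⟩
  exact le_antisymm (hb _ _ hy) (ha _ _ hz)

/-- the exceptional set. -/
def EX : Set ℝ := ⋃ k ∈ (Set.Icc 1 k₀ : Set ℕ), EE H k

lemma ex_finite : (EX H).Finite :=
  (Set.finite_Icc 1 k₀).biUnion (fun k _ => (ee_subsingleton H k).finite)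

lemma ex_fu : FU (EX H) := by
  refine FU.biUnion (Set.finite_Icc 1 k₀) (fun k _ => FU.of_ordConnected ⟨?_⟩)
  intro a ha b hb x hx
  have hab := ee_subsingleton H k ha hb
  have : x = a := le_antisymm (by rw [hab]; exact hx.2) hx.1
  rw [this]
  exact ha

lemma chiStar_eq (hk₀ : 1 ≤ k₀) (hH : ∃ i j, H.Adj i j) {x : ℝ} (hx : x ∈ Set.Ioo (0 : ℝ) 1)
    (hE : x ∉ EX H) {T : ℝ} (hT : T ∈ UU H x) (hmax : ∀ y ∈ UU H x, y ≤ T) :
    chiStar x H = 1 / T := by
  obtain ⟨hx0, hx1⟩ := hx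
  have hrain : (x, 1 / ((k₀ : ℝ) + 1)) ∈ QQ H k₀ := qq_rainbow H hx1.le
  have hrainT : 1 / ((k₀ : ℝ) + 1) ≤ T := hmax _ ⟨k₀, ⟨hk₀, le_refl _⟩, hrain⟩
  have hT0 : 0 < T := by
    obtain ⟨k, _, hk⟩ := hT
    exact qq_pos hk
  have hlow : ∀ r ∈ {r : ℝ | ∃ (n : ℕ) (B : SimpleGraph (Fin n)), IsBottlegraph x H B ∧
      r = chiCr B}, 1 / T ≤ r := by
    rintro r ⟨n, B, hB, rfl⟩
    obtain ⟨k, u, m, hu, hum, hD, -, hchi⟩ := data_of_bottle hB
    have hu' : (1 : ℝ) ≤ (u : ℝ) := by exact_mod_cast hu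
    have hum' : (u : ℝ) ≤ (m : ℝ) := by exact_mod_cast hum
    rcases Nat.eq_zero_or_pos k with rfl | hk
    · exfalso
      obtain ⟨i, j, hij⟩ := hH
      obtain ⟨N, -, hN⟩ := hD 0
      have hempty : IsEmpty (Ty (0 + 1) H) := by
        constructor
        rintro ⟨c, hc1, hc2⟩
        apply hc2 i j hij
        apply Fin.ext
        omega
      rw [Finset.univ_eq_empty, sum_empty, mul_zero] at hN
      have : 0 < x * ((u : ℝ) + ((0 : ℕ) : ℝ) * (m : ℝ)) := by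
        apply mul_pos hx0
        push_cast
        linarith
      linarith
    · rw [hchi hk]
      have hmem := qq_of_data hu hum hD
      have hkR : (1 : ℝ) ≤ (k : ℝ) := by exact_mod_cast hk
      have hn : 0 < (u : ℝ) + (k : ℝ) * (m : ℝ) := by nlinarith
      have hy : (m : ℝ) / ((u : ℝ) + (k : ℝ) * (m : ℝ)) ≤ T := by
        by_cases hkk : k ≤ k₀
        · exact hmax _ ⟨k, ⟨hk, hkk⟩, hmem⟩
        · push Not at hkk
          refine le_trans ?_ hrainT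
          have h1 := (qq_bounds hmem).2
          have h2 : (k₀ : ℝ) + 1 ≤ (k : ℝ) := by exact_mod_cast hkk
          have h3 := qq_pos hmem
          rw [le_div_iff₀ (by positivity)]
          nlinarith
      have hy0 := qq_pos hmem
      have : ((u : ℝ) + (k : ℝ) * (m : ℝ)) / (m : ℝ) =
          1 / ((m : ℝ) / ((u : ℝ) + (k : ℝ) * (m : ℝ))) := by
        rw [one_div_div]
      rw [this]
      exact one_div_le_one_div_of_le hy0 hy
  have happ : ∀ t, 1 / T < t → ∃ r ∈ {r : ℝ | ∃ (n : ℕ) (B : SimpleGraph (Fin n)),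
      IsBottlegraph x H B ∧ r = chiCr B}, r < t := by
    intro t ht
    obtain ⟨k, hk, hkT⟩ := hT
    have hnotE : x ∉ EE H k := by
      intro h
      apply hE
      unfold EX
      simp only [Set.mem_iUnion, exists_prop, Set.mem_Icc]
      exact ⟨k, hk, h⟩
    have hex : ∃ x' y', (x', y') ∈ QQ H k ∧ x < x' := by
      by_contra hcon
      push Not at hcon
      exact hnotE ⟨⟨T, hkT⟩, hcon⟩
    obtain ⟨x', y', hxy, hlt⟩ := hex
    have ht0 : 0 < t := lt_trans (by positivity) ht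
    have hgap : 1 / t < T := by
      rw [div_lt_iff₀ ht0]
      rw [div_lt_iff₀ hT0] at ht
      linarith
    obtain ⟨x'', y, h1, h2, h3, h4, h5⟩ := qq_approx hk.1 hx1 hlt hkT hxy
      (δ := T - 1 / t) (by linarith)
    obtain ⟨u, m, hu, hum, hD, heq⟩ := data_of_qq h1 h2 h3 h4
    obtain ⟨B, hB, -, hchi⟩ := bottle_of_data (Nat.succ_pos k₀) hu hum hD
    refine ⟨chiCr B, ⟨_, B, hB, rfl⟩, ?_⟩
    rw [hchi hk.1, heq]
    have hy0 := qq_pos h2
    rw [div_lt_iff₀ hy0]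
    have h6 : 1 / t < y := by linarith
    rw [div_lt_iff₀ ht0] at h6
    linarith
  unfold chiStar
  apply le_antisymm
  · apply le_of_forall_gt
    intro t ht
    obtain ⟨r, hr, hrt⟩ := happ t ht
    exact lt_of_le_of_lt (csInf_le ⟨1 / T, hlow⟩ hr) hrt
  · obtain ⟨r, hr, -⟩ := happ (1 / T + 1) (by linarith)
    exact le_csInf ⟨r, hr⟩ hlow

lemma pl_edge (hk₀ : 1 ≤ k₀) (hH : ∃ i j, H.Adj i j) : PiecewiseLinear (fthr H) := by
  classical
  have hT : ∀ x, x ∈ Set.Ioo (0 : ℝ) 1 → ∃ T, T ∈ UU H x ∧ ∀ y ∈ UU H x, y ≤ T := by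
    intro x hx
    have hne : (UU H x).Nonempty := ⟨_, k₀, ⟨hk₀, le_refl _⟩, qq_rainbow H hx.2.le⟩
    refine ⟨sSup (UU H x), (uu_compact H x).sSup_mem hne, fun y hy => ?_⟩
    exact le_csSup (uu_compact H x).bddAbove hy
  choose A hA using fun k => (qq_poly H k).top
  let AA : Set (ℝ × ℝ) := ⋃ k ∈ (Set.Icc 1 k₀ : Set ℕ), {p | p ∈ A k}
  have hAAfin : AA.Finite := (Set.finite_Icc 1 k₀).biUnion (fun k _ => (A k).finite_toSet)
  let C1 : ℝ × ℝ → Set ℝ := fun p => {x | ∃ y ∈ UU H x, p.1 * x + p.2 ≤ y}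
  let C2 : ℝ × ℝ → Set ℝ := fun p => {x | ∃ y ∈ UU H x, p.1 * x + p.2 < y}
  have hC1 : ∀ p, FU (C1 p) := by
    intro p
    have : C1 p = ⋃ k ∈ (Set.Icc 1 k₀ : Set ℕ),
        {x | ∃ y, (x, y) ∈ QQ H k ∩ {v | p.1 * v.1 + p.2 ≤ v.2}} := by
      ext x
      simp only [C1, UU, Set.mem_ofPred_eq, Set.mem_iUnion, exists_prop, Set.mem_Icc,
        Set.mem_inter_iff]
      constructor
      · rintro ⟨y, ⟨k, hk, hy⟩, hp⟩
        exact ⟨k, hk, y, hy, hp⟩
      · rintro ⟨k, hk, y, hy, hp⟩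
        exact ⟨y, ⟨k, hk, hy⟩, hp⟩
    rw [this]
    apply FU.biUnion (Set.finite_Icc 1 k₀)
    intro k _
    apply FU.proj
    apply (qq_poly H k).convex.inter
    intro v hv w hw a b ha hb hab
    simp only [Set.mem_ofPred_eq, Prod.fst_add, Prod.snd_add, Prod.smul_fst, Prod.smul_snd,
      smul_eq_mul] at hv hw ⊢
    have : p.2 = a * p.2 + b * p.2 := by rw [← add_mul, hab, one_mul]
    rw [this]
    nlinarith [mul_le_mul_of_nonneg_left hv ha, mul_le_mul_of_nonneg_left hw hb]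
  have hC2 : ∀ p, FU (C2 p) := by
    intro p
    have : C2 p = ⋃ k ∈ (Set.Icc 1 k₀ : Set ℕ),
        {x | ∃ y, (x, y) ∈ QQ H k ∩ {v | p.1 * v.1 + p.2 < v.2}} := by
      ext x
      simp only [C2, UU, Set.mem_ofPred_eq, Set.mem_iUnion, exists_prop, Set.mem_Icc,
        Set.mem_inter_iff]
      constructor
      · rintro ⟨y, ⟨k, hk, hy⟩, hp⟩
        exact ⟨k, hk, y, hy, hp⟩
      · rintro ⟨k, hk, y, hy, hp⟩
        exact ⟨y, ⟨k, hk, hy⟩, hp⟩
    rw [this]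
    apply FU.biUnion (Set.finite_Icc 1 k₀)
    intro k _
    apply FU.proj
    apply (qq_poly H k).convex.inter
    intro v hv w hw a b ha hb hab
    simp only [Set.mem_ofPred_eq, Prod.fst_add, Prod.snd_add, Prod.smul_fst, Prod.smul_snd,
      smul_eq_mul] at hv hw ⊢
    have h1 : p.2 = a * p.2 + b * p.2 := by rw [← add_mul, hab, one_mul]
    rcases ha.lt_or_eq with ha' | ha'
    · have h2 := mul_lt_mul_of_pos_left hv ha'
      have h3 := mul_le_mul_of_nonneg_left hw.le hb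
      rw [h1]
      nlinarith
    · have hb1 : b = 1 := by rw [← ha'] at hab; linarith
      rw [← ha', hb1]
      linarith
  let C : (ℝ × ℝ) ⊕ ℝ → Set ℝ := Sum.elim
    (fun p => (Set.Ioo 0 1 ∩ (EX H)ᶜ) ∩ (C1 p ∩ (C2 p)ᶜ)) (fun e => {e})
  have hspec : ∀ p, ∀ x ∈ C (Sum.inl p), fthr H x = -p.1 * x + (1 - p.2) := by
    intro p x hx
    obtain ⟨⟨hx1, hx2⟩, ⟨hx3, hx4⟩⟩ := hx
    obtain ⟨T, hT1, hT2⟩ := hT x hx1
    have h1 := chiStar_eq H hk₀ hH hx1 hx2 hT1 hT2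
    have h2 : T = p.1 * x + p.2 := by
      apply le_antisymm
      · by_contra hcon
        push Not at hcon
        exact hx4 ⟨T, hT1, hcon⟩
      · obtain ⟨y, hy, hpy⟩ := hx3
        exact hpy.trans (hT2 y hy)
    unfold fthr
    rw [h1, one_div_one_div, h2]
    ring
  refine pl_of_cover (s := Sum.inl '' AA ∪ Sum.inr '' (EX H ∩ Set.Ioo 0 1)) (C := C) ?_ ?_ ?_ ?_
  · exact (hAAfin.image _).union (((ex_finite H).inter_of_left _).image _)
  · rintro i (⟨p, _, rfl⟩ | ⟨e, _, rfl⟩)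
    · exact ((FU.of_ordConnected Set.ordConnected_Ioo).inter (ex_fu H).compl).inter
        ((hC1 p).inter (hC2 p).compl)
    · exact FU.of_ordConnected Set.ordConnected_singleton
  · ext x
    simp only [Set.mem_iUnion, exists_prop]
    constructor
    · rintro ⟨i, (⟨p, _, rfl⟩ | ⟨e, he, rfl⟩), hx⟩
      · exact hx.1.1
      · have : x = e := hx
        rw [this]
        exact he.2
    · intro hx
      by_cases hE : x ∈ EX H
      · exact ⟨Sum.inr x, Or.inr ⟨x, ⟨hE, hx⟩, rfl⟩, rfl⟩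
      · obtain ⟨T, hT1, hT2⟩ := hT x hx
        obtain ⟨k, hk, hkT⟩ := hT1
        obtain ⟨p, hp, hTp⟩ := hA k x T hkT (fun y hy => hT2 y ⟨k, hk, hy⟩)
        refine ⟨Sum.inl p, Or.inl ⟨p, ?_, rfl⟩, ⟨hx, hE⟩, ⟨T, ⟨k, hk, hkT⟩, hTp.ge⟩, ?_⟩
        · simp only [AA, Set.mem_iUnion, exists_prop, Set.mem_Icc]
          exact ⟨k, hk, hp⟩
        · rintro ⟨y, hy, hpy⟩
          have := hT2 y hy
          linarith
  · rintro i (⟨p, _, rfl⟩ | ⟨e, _, rfl⟩)
    · exact ⟨-p.1, 1 - p.2, hspec p⟩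
    · refine ⟨0, fthr H e, fun x hx => ?_⟩
      have : x = e := hx
      rw [this]; ring

end edge

lemma data_edgeless {h : ℕ} (H : SimpleGraph (Fin h)) (hH : ¬ ∃ i j, H.Adj i j) {x : ℝ}
    (hx : x ≤ 1) : Data x H 0 h h := by
  classical
  intro p
  let c0 : Ty (0 + 1) H := ⟨fun _ => 0, monotone_const, fun i j hij => absurd ⟨i, j, hij⟩ hH⟩
  refine ⟨fun c => if c = c0 then 1 else 0, ?_, ?_⟩
  · intro j
    simp only [ite_mul, one_mul, zero_mul, sum_ite_eq', mem_univ, if_true, ite_self]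
    unfold cnt
    exact (card_le_univ _).trans (by rw [Fintype.card_fin])
  · push_cast
    simp only [sum_ite_eq', mem_univ, if_true]
    have : (0 : ℝ) ≤ (h : ℝ) := Nat.cast_nonneg h
    nlinarith

theorem pl_all {h : ℕ} (H : SimpleGraph (Fin h)) : PiecewiseLinear (fthr H) := by
  rcases Nat.eq_zero_or_pos h with rfl | hh
  · -- no vertices: there is no bottlegraph
    apply pl_const (c := 1)
    intro x hx
    have : {r : ℝ | ∃ (n : ℕ) (B : SimpleGraph (Fin n)), IsBottlegraph x H B ∧ r = chiCr B} = ∅ := by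
      rw [Set.eq_empty_iff_forall_notMem]
      rintro r ⟨n, B, hB, -⟩
      obtain ⟨k, u, m, hu, hum, hD, -, -⟩ := data_of_bottle hB
      obtain ⟨N, -, hN⟩ := hD 0
      have hu' : (1 : ℝ) ≤ (u : ℝ) := by exact_mod_cast hu
      have : 0 < x * ((u : ℝ) + (k : ℝ) * (m : ℝ)) := mul_pos hx.1 (by positivity)
      simp only [Nat.cast_zero, zero_mul] at hN
      linarith
    unfold fthr chiStar
    rw [this, Real.sInf_empty]
    simp
  · by_cases hH : ∃ i j, H.Adj i j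
    · obtain ⟨k₀, rfl⟩ : ∃ k₀, h = k₀ + 1 := ⟨h - 1, by omega⟩
      obtain ⟨i, j, hij⟩ := hH
      have hne := hij.ne
      have hk₀ : 1 ≤ k₀ := by
        by_contra hcon
        apply hne
        apply Fin.ext
        omega
      exact pl_edge H hk₀ ⟨i, j, hij⟩
    · apply pl_const (c := 0)
      intro x hx
      obtain ⟨B, hB, hbot, -⟩ := bottle_of_data hh hh (le_refl h) (data_edgeless H hH hx.2.le)
      have hchi : chiCr B = 1 := by
        unfold chiCr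
        rw [if_pos (hbot rfl)]
      have hlow : ∀ r ∈ {r : ℝ | ∃ (n : ℕ) (B : SimpleGraph (Fin n)), IsBottlegraph x H B ∧
          r = chiCr B}, 1 ≤ r := by
        rintro r ⟨n, B, hB, rfl⟩
        obtain ⟨k, u, m, _, _, _, h1, _⟩ := data_of_bottle hB
        exact h1
      have : chiStar x H = 1 := by
        unfold chiStar
        apply le_antisymm
        · exact csInf_le ⟨1, hlow⟩ ⟨_, B, hB, hchi.symm⟩
        · exact le_csInf ⟨_, _, B, hB, rfl⟩ hlow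
      unfold fthr
      rw [this]
      norm_num

end Pool.Agent.V11146.Bottle
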