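import Mathlib

set_option autoImplicit false

namespace Pool.Agent.V11146.Mob

open SimpleGraph Finset

/-- number of ordered adjacent pairs. -/
noncomputable def ord {V : Type} [Fintype V] (G : SimpleGraph V) : ℕ := by
  classical exact ∑ x, ∑ y, (if G.Adj x y then 1 else 0)

open Classical in
lemma ord_eq {V : Type} [Fintype V] (G : SimpleGraph V) :
    ord G = ∑ x, ∑ y, (if G.Adj x y then 1 else 0) := rfl

lemma ord_edges {V : Type} [Fintype V] [DecidableEq V] (G : SimpleGraph V) [DecidableRel G.Adj] :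
    ord G = 2 * G.edgeFinset.card := by
  rw [← G.sum_degrees_eq_twice_card_edges, ord_eq]
  apply sum_congr rfl
  intro x _
  rw [← card_neighborFinset_eq_degree, neighborFinset_eq_filter, card_filter]
  apply sum_congr rfl
  intro y _
  congr

open Classical in
/-- number of neighbours of `y` in `Z`. -/
noncomputable def dZ {V : Type} (G : SimpleGraph V) (Z : Finset V) (y : V) : ℕ :=
  ∑ z ∈ Z, (if G.Adj y z then 1 else 0)

lemma ord_split {V : Type} [Fintype V] [DecidableEq V] (G : SimpleGraph V) (Z : Finset V) :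
    ord G = ord (G.comap (Subtype.val : {x // x ∉ Z} → V)) + 2 * ∑ y ∈ univ \ Z, dZ G Z y +
      ∑ z ∈ Z, dZ G Z z := by
  classical
  have hsplit : ∀ f : V → ℕ, ∑ x, f x = ∑ x ∈ univ \ Z, f x + ∑ x ∈ Z, f x := by
    intro f
    rw [sum_sdiff (subset_univ Z)]
  have h1 : ord (G.comap (Subtype.val : {x // x ∉ Z} → V)) =
      ∑ x ∈ univ \ Z, ∑ y ∈ univ \ Z, (if G.Adj x y then 1 else 0) := by
    rw [ord_eq]
    have hs : ∀ f : V → ℕ, ∑ x ∈ univ \ Z, f x = ∑ x : {x // x ∉ Z}, f x.1 := by
      intro f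
      rw [← sum_subtype (univ \ Z) (p := fun x => x ∉ Z) (by intro x; simp) f]
    rw [hs]
    apply sum_congr rfl
    intro x _
    rw [hs]
    apply sum_congr rfl
    intro y _
    rfl
  rw [h1, ord_eq, hsplit]
  have h2 : ∑ x ∈ univ \ Z, ∑ y, (if G.Adj x y then 1 else 0) =
      ∑ x ∈ univ \ Z, ∑ y ∈ univ \ Z, (if G.Adj x y then 1 else 0) +
      ∑ y ∈ univ \ Z, dZ G Z y := by
    rw [← sum_add_distrib]
    apply sum_congr rfl
    intro x _
    rw [hsplit]
    rfl
  have h3 : ∑ x ∈ Z, ∑ y, (if G.Adj x y then 1 else 0) =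
      ∑ y ∈ univ \ Z, dZ G Z y + ∑ z ∈ Z, dZ G Z z := by
    have h4 : ∑ y ∈ univ \ Z, dZ G Z y =
        ∑ x ∈ Z, ∑ y ∈ univ \ Z, (if G.Adj x y then 1 else 0) := by
      unfold dZ
      rw [sum_comm]
      apply sum_congr rfl
      intro x _
      apply sum_congr rfl
      intro y _
      simp only [G.adj_comm]
    rw [h4, ← sum_add_distrib]
    apply sum_congr rfl
    intro x _
    rw [hsplit]
    rfl
  rw [h2, h3]
  ring

/-- The structural property: no `K_5`, and no `K_4` two of whose vertices have twins. -/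
def PP {V : Type} (G : SimpleGraph V) : Prop :=
  (∀ a b c d e : V, G.Adj a b → G.Adj a c → G.Adj a d → G.Adj a e → G.Adj b c → G.Adj b d →
    G.Adj b e → G.Adj c d → G.Adj c e → G.Adj d e → False) ∧
  (∀ a b c d a' d' : V, G.Adj a b → G.Adj a c → G.Adj a d → G.Adj b c → G.Adj b d → G.Adj c d →
    G.Adj a' b → G.Adj a' c → G.Adj a' d → a' ≠ a →
    G.Adj d' a → G.Adj d' b → G.Adj d' c → d' ≠ d → False)

lemma PP.comap {V W : Type} {G : SimpleGraph V} (h : PP G) (φ : W → V)
    (hφ : Function.Injective φ) : PP (G.comap φ) := by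
  constructor
  · intro a b c d e h1 h2 h3 h4 h5 h6 h7 h8 h9 h10
    exact h.1 _ _ _ _ _ h1 h2 h3 h4 h5 h6 h7 h8 h9 h10
  · intro a b c d a' d' h1 h2 h3 h4 h5 h6 h7 h8 h9 h10 h11 h12 h13 h14
    exact h.2 (φ a) (φ b) (φ c) (φ d) (φ a') (φ d') h1 h2 h3 h4 h5 h6 h7 h8 h9 (fun h => h10 (hφ h))
      h11 h12 h13 (fun h => h14 (hφ h))

section
variable {V : Type} [DecidableEq V] {G : SimpleGraph V}

/-- the five-vertex structure: every other vertex has at most three neighbours in it. -/
lemma dZ_five (h : PP G) {a b c d a' : V}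
    (hab : G.Adj a b) (hac : G.Adj a c) (had : G.Adj a d)
    (hbc : G.Adj b c) (hbd : G.Adj b d) (hcd : G.Adj c d)
    (a'b : G.Adj a' b) (a'c : G.Adj a' c) (a'd : G.Adj a' d) (na' : a' ≠ a)
    {y : V} (hy : y ∉ ({a, a', b, c, d} : Finset V)) :
    dZ G {a, a', b, c, d} y ≤ 3 := by
  classical
  simp only [mem_insert, mem_singleton, not_or] at hy
  obtain ⟨ya, ya', yb, yc, yd⟩ := hy
  have sum_eq : dZ G {a, a', b, c, d} y = (if G.Adj y a then 1 else 0) +
      ((if G.Adj y a' then 1 else 0) + ((if G.Adj y b then 1 else 0) +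
      ((if G.Adj y c then 1 else 0) + (if G.Adj y d then 1 else 0)))) := by
    unfold dZ
    rw [sum_insert, sum_insert, sum_insert, sum_insert, sum_singleton]
    · simp only [mem_singleton]; exact hcd.ne
    · simp only [mem_insert, mem_singleton, not_or]; exact ⟨hbc.ne, hbd.ne⟩
    · simp only [mem_insert, mem_singleton, not_or]; exact ⟨a'b.ne, a'c.ne, a'd.ne⟩
    · simp only [mem_insert, mem_singleton, not_or]
      exact ⟨na'.symm, hab.ne, hac.ne, had.ne⟩
  rw [sum_eq]
  -- twins of d, c, b in K and in K'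
  have k1 : G.Adj y a → G.Adj y b → G.Adj y c → False := fun h1 h2 h3 =>
    h.2 a b c d a' y hab hac had hbc hbd hcd a'b a'c a'd na' h1 h2 h3 yd
  have k2 : G.Adj y a → G.Adj y b → G.Adj y d → False := fun h1 h2 h3 =>
    h.2 a b d c a' y hab had hac hbd hbc hcd.symm a'b a'd a'c na' h1 h2 h3 yc
  have k3 : G.Adj y a → G.Adj y c → G.Adj y d → False := fun h1 h2 h3 =>
    h.2 a c d b a' y hac had hab hcd hbc.symm hbd.symm a'c a'd a'b na' h1 h2 h3 yb
  have k1' : G.Adj y a' → G.Adj y b → G.Adj y c → False := fun h1 h2 h3 =>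
    h.2 a' b c d a y a'b a'c a'd hbc hbd hcd hab hac had na'.symm h1 h2 h3 yd
  have k2' : G.Adj y a' → G.Adj y b → G.Adj y d → False := fun h1 h2 h3 =>
    h.2 a' b d c a y a'b a'd a'c hbd hbc hcd.symm hab had hac na'.symm h1 h2 h3 yc
  have k3' : G.Adj y a' → G.Adj y c → G.Adj y d → False := fun h1 h2 h3 =>
    h.2 a' c d b a y a'c a'd a'b hcd hbc.symm hbd.symm hac had hab na'.symm h1 h2 h3 yb
  by_cases e1 : G.Adj y a <;> by_cases e2 : G.Adj y a' <;> by_cases e3 : G.Adj y b <;>
    by_cases e4 : G.Adj y c <;> by_cases e5 : G.Adj y d <;>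
    simp only [e1, e2, e3, e4, e5, if_true, if_false] <;>
    first
    | exact (k1 e1 e3 e4).elim
    | exact (k2 e1 e3 e5).elim
    | exact (k3 e1 e4 e5).elim
    | exact (k1' e2 e3 e4).elim
    | exact (k2' e2 e3 e5).elim
    | exact (k3' e2 e4 e5).elim
    | norm_num

lemma inner_five (h : PP G) {a b c d a' : V}
    (hab : G.Adj a b) (hac : G.Adj a c) (had : G.Adj a d)
    (hbc : G.Adj b c) (hbd : G.Adj b d) (hcd : G.Adj c d)
    (a'b : G.Adj a' b) (a'c : G.Adj a' c) (a'd : G.Adj a' d) (na' : a' ≠ a) :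
    ∑ z ∈ ({a, a', b, c, d} : Finset V), dZ G {a, a', b, c, d} z = 18 := by
  classical
  have hn : ¬ G.Adj a a' := fun h' =>
    h.1 a a' b c d h' hab hac had a'b a'c a'd hbc hbd hcd
  have hn' : ¬ G.Adj a' a := fun h' => hn h'.symm
  have ne1 : a ∉ ({a', b, c, d} : Finset V) := by
    simp only [mem_insert, mem_singleton, not_or]
    exact ⟨na'.symm, hab.ne, hac.ne, had.ne⟩
  have ne2 : a' ∉ ({b, c, d} : Finset V) := by
    simp only [mem_insert, mem_singleton, not_or]; exact ⟨a'b.ne, a'c.ne, a'd.ne⟩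
  have ne3 : b ∉ ({c, d} : Finset V) := by
    simp only [mem_insert, mem_singleton, not_or]; exact ⟨hbc.ne, hbd.ne⟩
  have ne4 : c ∉ ({d} : Finset V) := by simp only [mem_singleton]; exact hcd.ne
  unfold dZ
  simp only [sum_insert ne1, sum_insert ne2, sum_insert ne3, sum_insert ne4, sum_singleton]
  simp [hab, hac, had, hbc, hbd, hcd, a'b, a'c, a'd, hn, hn', hab.symm, hac.symm, had.symm,
    hbc.symm, hbd.symm, hcd.symm, a'b.symm, a'c.symm, a'd.symm]

lemma dZ_four {a b c d : V}
    (hab : G.Adj a b) (hac : G.Adj a c) (had : G.Adj a d)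
    (hbc : G.Adj b c) (hbd : G.Adj b d) (hcd : G.Adj c d)
    (hno : ∀ a b c d a' : V, G.Adj a b → G.Adj a c → G.Adj a d → G.Adj b c → G.Adj b d →
      G.Adj c d → G.Adj a' b → G.Adj a' c → G.Adj a' d → a' ≠ a → False)
    {y : V} (hy : y ∉ ({a, b, c, d} : Finset V)) :
    dZ G {a, b, c, d} y ≤ 2 := by
  classical
  simp only [mem_insert, mem_singleton, not_or] at hy
  obtain ⟨ya, yb, yc, yd⟩ := hy
  have sum_eq : dZ G {a, b, c, d} y = (if G.Adj y a then 1 else 0) +
      ((if G.Adj y b then 1 else 0) +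
      ((if G.Adj y c then 1 else 0) + (if G.Adj y d then 1 else 0))) := by
    unfold dZ
    rw [sum_insert, sum_insert, sum_insert, sum_singleton]
    · simp only [mem_singleton]; exact hcd.ne
    · simp only [mem_insert, mem_singleton, not_or]; exact ⟨hbc.ne, hbd.ne⟩
    · simp only [mem_insert, mem_singleton, not_or]
      exact ⟨hab.ne, hac.ne, had.ne⟩
  rw [sum_eq]
  have k1 : G.Adj y b → G.Adj y c → G.Adj y d → False := fun h1 h2 h3 =>
    hno a b c d y hab hac had hbc hbd hcd h1 h2 h3 ya
  have k2 : G.Adj y a → G.Adj y c → G.Adj y d → False := fun h1 h2 h3 =>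
    hno b a c d y hab.symm hbc hbd hac had hcd h1 h2 h3 yb
  have k3 : G.Adj y a → G.Adj y b → G.Adj y d → False := fun h1 h2 h3 =>
    hno c a b d y hac.symm hbc.symm hcd hab had hbd h1 h2 h3 yc
  have k4 : G.Adj y a → G.Adj y b → G.Adj y c → False := fun h1 h2 h3 =>
    hno d a b c y had.symm hbd.symm hcd.symm hab hac hbc h1 h2 h3 yd
  by_cases e1 : G.Adj y a <;> by_cases e3 : G.Adj y b <;>
    by_cases e4 : G.Adj y c <;> by_cases e5 : G.Adj y d <;>
    simp only [e1, e3, e4, e5, if_true, if_false] <;>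
    first
    | exact (k1 e3 e4 e5).elim
    | exact (k2 e1 e4 e5).elim
    | exact (k3 e1 e3 e5).elim
    | exact (k4 e1 e3 e4).elim
    | norm_num

lemma inner_four {a b c d : V}
    (hab : G.Adj a b) (hac : G.Adj a c) (had : G.Adj a d)
    (hbc : G.Adj b c) (hbd : G.Adj b d) (hcd : G.Adj c d) :
    ∑ z ∈ ({a, b, c, d} : Finset V), dZ G {a, b, c, d} z = 12 := by
  classical
  have ne1 : a ∉ ({b, c, d} : Finset V) := by
    simp only [mem_insert, mem_singleton, not_or]
    exact ⟨hab.ne, hac.ne, had.ne⟩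
  have ne3 : b ∉ ({c, d} : Finset V) := by
    simp only [mem_insert, mem_singleton, not_or]; exact ⟨hbc.ne, hbd.ne⟩
  have ne4 : c ∉ ({d} : Finset V) := by simp only [mem_singleton]; exact hcd.ne
  unfold dZ
  simp only [sum_insert ne1, sum_insert ne3, sum_insert ne4, sum_singleton]
  simp [hab, hac, had, hbc, hbd, hcd, hab.symm, hac.symm, had.symm,
    hbc.symm, hbd.symm, hcd.symm]

end

lemma k4_of_not_cliqueFree {V : Type} {G : SimpleGraph V} (h : ¬ G.CliqueFree 4) :
    ∃ a b c d : V, G.Adj a b ∧ G.Adj a c ∧ G.Adj a d ∧ G.Adj b c ∧ G.Adj b d ∧ G.Adj c d := by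
  let e := SimpleGraph.topEmbeddingOfNotCliqueFree h
  have hadj : ∀ i j : Fin 4, i ≠ j → G.Adj (e i) (e j) := by
    intro i j hij
    rw [e.map_adj_iff]
    exact hij
  exact ⟨e 0, e 1, e 2, e 3, hadj _ _ (by decide), hadj _ _ (by decide), hadj _ _ (by decide),
    hadj _ _ (by decide), hadj _ _ (by decide), hadj _ _ (by decide)⟩

lemma ord_le_of_cliqueFree {V : Type} [Fintype V] (G : SimpleGraph V) (h : G.CliqueFree 4) :
    3 * ord G ≤ 2 * (Fintype.card V) ^ 2 := by
  classical
  rw [ord_edges]
  have h1 := CliqueFree.card_edgeFinset_le (r := 3) h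
  have h2 := mul_card_edgeFinset_turanGraph_le (n := Fintype.card V) (r := 3)
  rw [card_edgeFinset_turanGraph] at h2
  simp only at h1
  omega

lemma card_compl {V : Type} [Fintype V] [DecidableEq V] (Z : Finset V) :
    Fintype.card {x // x ∉ Z} = Fintype.card V - Z.card := by
  rw [Fintype.card_subtype_compl]
  simp

/-- graphs with property `PP` have few edges. -/
lemma phi : ∀ (n : ℕ) (V : Type) [Fintype V] (G : SimpleGraph V), Fintype.card V = n → PP G →
    3 * ord G ≤ 2 * n ^ 2 + 4 ∧ (n ≤ 1 → ord G = 0) := by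
  intro n
  induction n using Nat.strong_induction_on with
  | _ n ih =>
    intro V _ G hn hG
    classical
    have hsmall : n ≤ 1 → ord G = 0 := by
      intro h1
      have hs : Subsingleton V := Fintype.card_le_one_iff_subsingleton.mp (by omega)
      rw [ord_eq]
      apply sum_eq_zero
      intro x _
      apply sum_eq_zero
      intro y _
      rw [if_neg]
      intro h
      exact h.ne (Subsingleton.elim x y)
    refine ⟨?_, hsmall⟩
    by_cases hcf : G.CliqueFree 4
    · have := ord_le_of_cliqueFree G hcf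
      rw [hn] at this
      omega
    · by_cases htw : ∃ a b c d a' : V, G.Adj a b ∧ G.Adj a c ∧ G.Adj a d ∧ G.Adj b c ∧
          G.Adj b d ∧ G.Adj c d ∧ G.Adj a' b ∧ G.Adj a' c ∧ G.Adj a' d ∧ a' ≠ a
      · obtain ⟨a, b, c, d, a', hab, hac, had, hbc, hbd, hcd, a'b, a'c, a'd, na'⟩ := htw
        set Z : Finset V := {a, a', b, c, d} with hZ
        have hZc : Z.card = 5 := by
          rw [hZ, card_insert_of_notMem, card_insert_of_notMem, card_insert_of_notMem,
            card_insert_of_notMem, card_singleton]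
          · simp only [mem_singleton]; exact hcd.ne
          · simp only [mem_insert, mem_singleton, not_or]; exact ⟨hbc.ne, hbd.ne⟩
          · simp only [mem_insert, mem_singleton, not_or]; exact ⟨a'b.ne, a'c.ne, a'd.ne⟩
          · simp only [mem_insert, mem_singleton, not_or]
            exact ⟨na'.symm, hab.ne, hac.ne, had.ne⟩
        have hn5 : 5 ≤ n := by
          have := card_le_univ Z
          omega
        have h1 := ord_split G Z
        have h2 := inner_five hG hab hac had hbc hbd hcd a'b a'c a'd na'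
        rw [← hZ] at h2
        have h3 : ∑ y ∈ univ \ Z, dZ G Z y ≤ 3 * (n - 5) := by
          calc ∑ y ∈ univ \ Z, dZ G Z y ≤ ∑ y ∈ univ \ Z, 3 := by
                apply sum_le_sum
                intro y hy
                rw [mem_sdiff] at hy
                exact dZ_five hG hab hac had hbc hbd hcd a'b a'c a'd na' hy.2
            _ = 3 * (n - 5) := by
                rw [sum_const, card_sdiff_of_subset (subset_univ _), card_univ, hn, hZc,
                  smul_eq_mul, mul_comm]
        have h4 := ih (n - 5) (by omega) {x // x ∉ Z}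
          (G.comap (Subtype.val : {x // x ∉ Z} → V)) (by rw [card_compl, hn, hZc])
          (hG.comap _ Subtype.val_injective)
        set e := ord (G.comap (Subtype.val : {x // x ∉ Z} → V)) with he
        obtain ⟨q, rfl⟩ : ∃ q, n = q + 5 := ⟨n - 5, by omega⟩
        have e5 : q + 5 - 5 = q := by omega
        rw [e5] at h3 h4
        rw [h1, h2]
        by_cases hq : q ≤ 1
        · have := h4.2 hq
          interval_cases q <;> omega
        · have h5 := h4.1
          nlinarith
      · push Not at htw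
        obtain ⟨a, b, c, d, hab, hac, had, hbc, hbd, hcd⟩ := k4_of_not_cliqueFree hcf
        have hno : ∀ a b c d a' : V, G.Adj a b → G.Adj a c → G.Adj a d → G.Adj b c → G.Adj b d →
            G.Adj c d → G.Adj a' b → G.Adj a' c → G.Adj a' d → a' ≠ a → False := by
          intro a b c d a' h1 h2 h3 h4 h5 h6 h7 h8 h9 h10
          exact h10 (htw a b c d a' h1 h2 h3 h4 h5 h6 h7 h8 h9)
        set Z : Finset V := {a, b, c, d} with hZ
        have hZc : Z.card = 4 := by
          rw [hZ, card_insert_of_notMem, card_insert_of_notMem,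
            card_insert_of_notMem, card_singleton]
          · simp only [mem_singleton]; exact hcd.ne
          · simp only [mem_insert, mem_singleton, not_or]; exact ⟨hbc.ne, hbd.ne⟩
          · simp only [mem_insert, mem_singleton, not_or]
            exact ⟨hab.ne, hac.ne, had.ne⟩
        have hn5 : 4 ≤ n := by
          have := card_le_univ Z
          omega
        have h1 := ord_split G Z
        have h2 := inner_four hab hac had hbc hbd hcd
        rw [← hZ] at h2
        have h3 : ∑ y ∈ univ \ Z, dZ G Z y ≤ 2 * (n - 4) := by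
          calc ∑ y ∈ univ \ Z, dZ G Z y ≤ ∑ y ∈ univ \ Z, 2 := by
                apply sum_le_sum
                intro y hy
                rw [mem_sdiff] at hy
                exact dZ_four hab hac had hbc hbd hcd hno hy.2
            _ = 2 * (n - 4) := by
                rw [sum_const, card_sdiff_of_subset (subset_univ _), card_univ, hn, hZc,
                  smul_eq_mul, mul_comm]
        have h4 := ih (n - 4) (by omega) {x // x ∉ Z}
          (G.comap (Subtype.val : {x // x ∉ Z} → V)) (by rw [card_compl, hn, hZc])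
          (hG.comap _ Subtype.val_injective)
        set e := ord (G.comap (Subtype.val : {x // x ∉ Z} → V)) with he
        obtain ⟨q, rfl⟩ : ∃ q, n = q + 4 := ⟨n - 4, by omega⟩
        have e5 : q + 4 - 4 = q := by omega
        rw [e5] at h3 h4
        rw [h1, h2]
        by_cases hq : q ≤ 1
        · have := h4.2 hq
          interval_cases q <;> omega
        · have h5 := h4.1
          nlinarith

end Pool.Agent.V11146.Mob
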