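import Mathlib

set_option autoImplicit false

namespace Pool.Agent.V11146.Mob

open SimpleGraph Finset

variable {V : Type} [DecidableEq V]

/-- `S` is a general position set: every shortest path contains at most two vertices of `S`. -/
def GenPos (G : SimpleGraph V) (S : Finset V) : Prop :=
  ∀ (u v : V) (p : G.Walk u v), p.length = G.dist u v →
    (S.filter (fun x => x ∈ p.support)).card ≤ 2

/-- One robot moves from `u ∈ S` to an unoccupied neighbour `u'`, giving the general position
set `T`. -/
def LegalMove (G : SimpleGraph V) (S T : Finset V) : Prop :=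
  ∃ u u' : V, u ∈ S ∧ u' ∉ S ∧ G.Adj u u' ∧ T = insert u' (S.erase u) ∧ GenPos G T

/-- `S` is a mobile general position set: it is in general position and some finite sequence of
legal moves starting from `S` has every vertex of `G` occupied at some stage. -/
def IsMobile (G : SimpleGraph V) (S : Finset V) : Prop :=
  GenPos G S ∧ ∃ (k : ℕ) (f : ℕ → Finset V), f 0 = S ∧
    (∀ i < k, LegalMove G (f i) (f (i + 1))) ∧ ∀ v : V, ∃ i ≤ k, v ∈ f i

/-- The mobile general position number: the largest size of a mobile general position set. -/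
noncomputable def mob (G : SimpleGraph V) : ℕ :=
  sSup {k : ℕ | ∃ S : Finset V, IsMobile G S ∧ S.card = k}

/-! ### Sequences of moves -/

lemma LegalMove.card {G : SimpleGraph V} {S T : Finset V} (h : LegalMove G S T) :
    T.card = S.card := by
  obtain ⟨u, u', hu, hu', _, rfl, _⟩ := h
  rw [card_insert_of_notMem (fun h => hu' (mem_of_mem_erase h)), card_erase_of_mem hu]
  have : 0 < S.card := card_pos.mpr ⟨u, hu⟩
  omega

lemma LegalMove.symm {G : SimpleGraph V} {S T : Finset V} (h : LegalMove G S T)
    (hS : GenPos G S) : LegalMove G T S := by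
  obtain ⟨u, u', hu, hu', hadj, rfl, _⟩ := h
  refine ⟨u', u, mem_insert_self _ _, ?_, hadj.symm, ?_, hS⟩
  · rw [mem_insert, not_or]
    exact ⟨hadj.ne, fun h => by simp at h⟩
  · rw [erase_insert (fun h => hu' (mem_of_mem_erase h)), insert_erase hu]

lemma LegalMove.genPos {G : SimpleGraph V} {S T : Finset V} (h : LegalMove G S T) :
    GenPos G T := h.choose_spec.choose_spec.2.2.2.2

/-- there is a sequence of legal moves from `S` to `T` that occupies all vertices in `A`. -/
def Path (G : SimpleGraph V) (S T : Finset V) (A : Set V) : Prop :=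
  ∃ (k : ℕ) (f : ℕ → Finset V), f 0 = S ∧ f k = T ∧
    (∀ i < k, LegalMove G (f i) (f (i + 1))) ∧ ∀ v ∈ A, ∃ i ≤ k, v ∈ f i

lemma Path.trans {G : SimpleGraph V} {S T U : Finset V} {A B : Set V} (h1 : Path G S T A)
    (h2 : Path G T U B) : Path G S U (A ∪ B) := by
  obtain ⟨k, f, f0, fk, hf, hA⟩ := h1
  obtain ⟨l, g, g0, gl, hg, hB⟩ := h2
  refine ⟨k + l, fun i => if i ≤ k then f i else g (i - k), ?_, ?_, ?_, ?_⟩
  · simp [f0]
  · by_cases h : l = 0
    · subst h; simp only [add_zero, le_refl, if_true, fk]; rw [← g0, gl]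
    · beta_reduce
      rw [if_neg (by omega)]
      have : k + l - k = l := by omega
      rw [this, gl]
  · intro i hi
    by_cases h : i < k
    · simp only [if_pos h.le, if_pos (show i + 1 ≤ k by omega)]
      exact hf i h
    · by_cases h' : i = k
      · subst h'
        simp only [le_refl, if_true, if_neg (show ¬ i + 1 ≤ i by omega)]
        have : i + 1 - i = 0 + 1 := by omega
        rw [this, fk, ← g0]
        exact hg 0 (by omega)
      · simp only [if_neg (show ¬ i ≤ k by omega), if_neg (show ¬ i + 1 ≤ k by omega)]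
        have : i + 1 - k = (i - k) + 1 := by omega
        rw [this]
        exact hg (i - k) (by omega)
  · rintro v (hv | hv)
    · obtain ⟨i, hi, hvi⟩ := hA v hv
      exact ⟨i, by omega, by beta_reduce; rw [if_pos hi]; exact hvi⟩
    · obtain ⟨i, hi, hvi⟩ := hB v hv
      by_cases h : i = 0
      · subst h
        exact ⟨k, by omega, by beta_reduce; rw [if_pos le_rfl, fk, ← g0]; exact hvi⟩
      · refine ⟨k + i, by omega, ?_⟩
        beta_reduce
        rw [if_neg (by omega)]
        have : k + i - k = i := by omega
        rw [this]; exact hvi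

lemma path_refl (G : SimpleGraph V) (S : Finset V) : Path G S S (S : Set V) :=
  ⟨0, fun _ => S, rfl, rfl, by intro i hi; omega, fun v hv => ⟨0, le_rfl, by simpa using hv⟩⟩

lemma path_of_reach {G : SimpleGraph V} {S T : Finset V}
    (h : Relation.ReflTransGen (LegalMove G) S T) : Path G S T (T : Set V) := by
  induction h with
  | refl => exact path_refl G S
  | @tail b c _ hbc ih =>
    have h2 : Path G b c (c : Set V) := by
      refine ⟨1, fun i => if i = 0 then b else c, by simp, by simp, ?_, ?_⟩
      · intro i hi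
        have : i = 0 := by omega
        subst this
        simpa using hbc
      · intro v hv
        exact ⟨1, le_rfl, by simpa using hv⟩
    have h3 := ih.trans h2
    obtain ⟨k, f, h0, hk, hf, hA⟩ := h3
    exact ⟨k, f, h0, hk, hf, fun v hv => hA v (Or.inr hv)⟩

lemma genPos_of_reach {G : SimpleGraph V} {S T : Finset V} (hS : GenPos G S)
    (h : Relation.ReflTransGen (LegalMove G) S T) : GenPos G T := by
  induction h with
  | refl => exact hS
  | tail _ hbc _ => exact hbc.genPos

lemma reach_symm {G : SimpleGraph V} {S T : Finset V} (hS : GenPos G S)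
    (h : Relation.ReflTransGen (LegalMove G) S T) :
    Relation.ReflTransGen (LegalMove G) T S := by
  induction h with
  | refl => exact Relation.ReflTransGen.refl
  | tail hab hbc ih =>
    exact Relation.ReflTransGen.head (hbc.symm (genPos_of_reach hS hab)) ih

/-- If every vertex is occupied in some reachable position then `S` is mobile. -/
lemma isMobile_of_reach [Fintype V] {G : SimpleGraph V} {S : Finset V} (hS : GenPos G S)
    (h : ∀ v : V, ∃ T, Relation.ReflTransGen (LegalMove G) S T ∧ v ∈ T) : IsMobile G S := by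
  have key : ∀ A : Finset V, ∃ T, Relation.ReflTransGen (LegalMove G) S T ∧
      Path G S T (A : Set V) := by
    intro A
    induction A using Finset.induction_on with
    | empty =>
      refine ⟨S, Relation.ReflTransGen.refl, 0, fun _ => S, rfl, rfl, ?_, ?_⟩
      · intro i hi; omega
      · intro v hv; simp at hv
    | insert a A _ ih =>
      obtain ⟨T, hT, hP⟩ := ih
      obtain ⟨U, hU, haU⟩ := h a
      refine ⟨U, hU, ?_⟩
      have h1 : Path G T U (U : Set V) := path_of_reach ((reach_symm hS hT).trans hU)
      obtain ⟨k, f, h0, hk, hf, hA⟩ := hP.trans h1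
      refine ⟨k, f, h0, hk, hf, ?_⟩
      intro v hv
      rw [coe_insert, Set.mem_insert_iff] at hv
      rcases hv with rfl | hv
      · exact hA _ (Or.inr (by simpa using haU))
      · exact hA v (Or.inl hv)
  obtain ⟨T, _, k, f, h0, _, hf, hA⟩ := key univ
  exact ⟨hS, k, f, h0, hf, fun v => hA v (by simp)⟩

/-! ### The values of `mob` -/

lemma bdd_mob [Fintype V] (G : SimpleGraph V) :
    BddAbove {k : ℕ | ∃ S : Finset V, IsMobile G S ∧ S.card = k} := by
  refine ⟨Fintype.card V, ?_⟩
  rintro k ⟨S, _, rfl⟩
  exact card_le_univ S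

lemma le_mob [Fintype V] {G : SimpleGraph V} {S : Finset V} (h : IsMobile G S) :
    S.card ≤ mob G := le_csSup (bdd_mob G) ⟨S, h, rfl⟩

/-! ### Geodesics -/

lemma shortest_left {G : SimpleGraph V} {u v x : V} (p : G.Walk u v) (hp : p.length = G.dist u v)
    (hx : x ∈ p.support) : (p.takeUntil x hx).length = G.dist u x ∧
      (p.dropUntil x hx).length = G.dist x v := by
  have h1 := congrArg Walk.length (p.take_spec hx)
  rw [Walk.length_append] at h1
  have h2 := dist_le (p.takeUntil x hx)
  have h3 := dist_le (p.dropUntil x hx)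
  have h4 : G.dist u v ≤ G.dist u x + G.dist x v :=
    (Walk.reachable (p.takeUntil x hx)).dist_triangle_left v
  omega

lemma between {G : SimpleGraph V} {u v x : V} (p : G.Walk u v) (hp : p.length = G.dist u v)
    (hx : x ∈ p.support) : G.dist u x + G.dist x v = G.dist u v := by
  have h1 := congrArg Walk.length (p.take_spec hx)
  rw [Walk.length_append] at h1
  have := shortest_left p hp hx
  omega

lemma pair_on {G : SimpleGraph V} {u v s t : V} (p : G.Walk u v) (hp : p.length = G.dist u v)
    (hs : s ∈ p.support) (ht : t ∈ p.support) (hst : G.dist u s ≤ G.dist u t) :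
    G.dist u s + G.dist s t = G.dist u t := by
  have h := shortest_left p hp ht
  have hmem : s ∈ (p.takeUntil t ht).support ∨ s ∈ (p.dropUntil t ht).support := by
    have : s ∈ ((p.takeUntil t ht).append (p.dropUntil t ht)).support := by
      rw [p.take_spec ht]; exact hs
    rwa [Walk.mem_support_append_iff] at this
  rcases hmem with h1 | h1
  · exact between (p.takeUntil t ht) h.1 h1
  · have h2 := between (p.dropUntil t ht) h.2 h1
    have h3 := between p hp ht
    have h4 := between p hp hs
    have h5 : G.dist t s = 0 := by omega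
    have hr : G.Reachable t s := Walk.reachable ((p.dropUntil t ht).takeUntil s h1)
    have : t = s := hr.dist_eq_zero_iff.mp h5
    subst this
    simp

lemma triple_on {G : SimpleGraph V} {u v x y z : V} (p : G.Walk u v)
    (hp : p.length = G.dist u v) (hx : x ∈ p.support) (hy : y ∈ p.support) (hz : z ∈ p.support) :
    G.dist x y + G.dist y z = G.dist x z ∨ G.dist x y + G.dist x z = G.dist y z ∨
      G.dist x z + G.dist y z = G.dist x y := by
  have hxy := pair_on p hp hx hy
  have hyx := pair_on p hp hy hx
  have hxz := pair_on p hp hx hz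
  have hzx := pair_on p hp hz hx
  have hyz := pair_on p hp hy hz
  have hzy := pair_on p hp hz hy
  rw [G.dist_comm (u := y) (v := x)] at hyx
  rw [G.dist_comm (u := z) (v := x)] at hzx
  rw [G.dist_comm (u := z) (v := y)] at hzy
  rcases le_total (G.dist u x) (G.dist u y) with h1 | h1 <;>
    rcases le_total (G.dist u x) (G.dist u z) with h2 | h2 <;>
    rcases le_total (G.dist u y) (G.dist u z) with h3 | h3 <;>
    first
    | (have a1 := hxy h1; have a2 := hxz h2; have a3 := hyz h3; omega)
    | (have a1 := hxy h1; have a2 := hxz h2; have a3 := hzy h3; omega)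
    | (have a1 := hxy h1; have a2 := hzx h2; have a3 := hyz h3; omega)
    | (have a1 := hxy h1; have a2 := hzx h2; have a3 := hzy h3; omega)
    | (have a1 := hyx h1; have a2 := hxz h2; have a3 := hyz h3; omega)
    | (have a1 := hyx h1; have a2 := hxz h2; have a3 := hzy h3; omega)
    | (have a1 := hyx h1; have a2 := hzx h2; have a3 := hyz h3; omega)
    | (have a1 := hyx h1; have a2 := hzx h2; have a3 := hzy h3; omega)

/-- numerical condition for a triple to be in general position. -/
def GP3 (G : SimpleGraph V) (x y z : V) : Prop :=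
  x ≠ y ∧ x ≠ z ∧ y ≠ z ∧ G.dist x y + G.dist y z ≠ G.dist x z ∧
    G.dist x y + G.dist x z ≠ G.dist y z ∧ G.dist x z + G.dist y z ≠ G.dist x y

lemma GP3.genPos {G : SimpleGraph V} {x y z : V} (h : GP3 G x y z) : GenPos G {x, y, z} := by
  intro u v p hp
  by_contra hcon
  push Not at hcon
  obtain ⟨h1, h2, h3, h4, h5, h6⟩ := h
  have hcard : ({x, y, z} : Finset V).card = 3 := by
    rw [card_eq_three]; exact ⟨x, y, z, h1, h2, h3, rfl⟩
  have heq : ({x, y, z} : Finset V).filter (fun t => t ∈ p.support) = {x, y, z} := by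
    apply eq_of_subset_of_card_le (filter_subset _ _)
    omega
  have hmem : ∀ t ∈ ({x, y, z} : Finset V), t ∈ p.support := by
    intro t ht
    rw [← heq] at ht
    exact (mem_filter.mp ht).2
  rcases triple_on p hp (hmem x (by simp)) (hmem y (by simp)) (hmem z (by simp)) with h | h | h
  · exact h4 h
  · exact h5 h
  · exact h6 h

omit [DecidableEq V] in
lemma GP3.rot {G : SimpleGraph V} {x y z : V} (h : GP3 G x y z) : GP3 G y z x := by
  obtain ⟨h1, h2, h3, h4, h5, h6⟩ := h
  unfold GP3
  rw [G.dist_comm (u := y) (v := x), G.dist_comm (u := z) (v := x)]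
  refine ⟨h3, h1.symm, h2.symm, ?_, ?_, ?_⟩ <;> omega

omit [DecidableEq V] in
lemma GP3.swap {G : SimpleGraph V} {x y z : V} (h : GP3 G x y z) : GP3 G y x z := by
  obtain ⟨h1, h2, h3, h4, h5, h6⟩ := h
  unfold GP3
  rw [G.dist_comm (u := y) (v := x)]
  refine ⟨h1.symm, h3, h2, ?_, ?_, ?_⟩ <;> omega

/-- Reachable ordered triples. -/
inductive RC (G : SimpleGraph V) (a b c : V) : V → V → V → Prop
  | base : RC G a b c a b c
  | rot {x y z : V} : RC G a b c x y z → RC G a b c y z x
  | swap {x y z : V} : RC G a b c x y z → RC G a b c y x z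
  | move {x y z x' : V} : RC G a b c x y z → G.Adj x x' → GP3 G x' y z → RC G a b c x' y z

lemma RC.spec {G : SimpleGraph V} {a b c x y z : V} (h0 : GP3 G a b c) (h : RC G a b c x y z) :
    GP3 G x y z ∧ Relation.ReflTransGen (LegalMove G) {a, b, c} {x, y, z} := by
  induction h with
  | base => exact ⟨h0, Relation.ReflTransGen.refl⟩
  | @rot x y z _ ih =>
    refine ⟨ih.1.rot, ?_⟩
    have : ({y, z, x} : Finset V) = {x, y, z} := by ext t; simp; tauto
    rw [this]; exact ih.2
  | @swap x y z _ ih =>
    refine ⟨ih.1.swap, ?_⟩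
    have : ({y, x, z} : Finset V) = {x, y, z} := by ext t; simp; tauto
    rw [this]; exact ih.2
  | @move x y z x' _ hadj hgp ih =>
    refine ⟨hgp, ih.2.tail ?_⟩
    obtain ⟨h1, h2, h3, _⟩ := ih.1
    have h1' := hgp.1
    have h2' := hgp.2.1
    refine ⟨x, x', by simp, ?_, hadj, ?_, hgp.genPos⟩
    · simp only [mem_insert, mem_singleton, not_or]
      exact ⟨hadj.ne.symm, h1', h2'⟩
    · ext t
      simp only [mem_insert, mem_singleton, mem_erase]
      constructor
      · rintro (rfl | rfl | rfl)
        · exact Or.inl rfl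
        · exact Or.inr ⟨h1.symm, Or.inr (Or.inl rfl)⟩
        · exact Or.inr ⟨h2.symm, Or.inr (Or.inr rfl)⟩
      · rintro (rfl | ⟨h, rfl | rfl | rfl⟩)
        · exact Or.inl rfl
        · exact absurd rfl h
        · exact Or.inr (Or.inl rfl)
        · exact Or.inr (Or.inr rfl)

omit [DecidableEq V] in
lemma RC.s23 {G : SimpleGraph V} {a b c x y z : V} (h : RC G a b c x y z) :
    RC G a b c x z y := h.rot.swap.rot.rot

/-- a vertex is reached. -/
def Reached (G : SimpleGraph V) (a b c w : V) : Prop := ∃ p q, RC G a b c w p q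

lemma isMobile_of_reached [Fintype V] {G : SimpleGraph V} {a b c : V} (h0 : GP3 G a b c)
    (h : ∀ w, Reached G a b c w) : IsMobile G {a, b, c} := by
  apply isMobile_of_reach h0.genPos
  intro v
  obtain ⟨p, q, hpq⟩ := h v
  exact ⟨{v, p, q}, (hpq.spec h0).2, by simp⟩

end Pool.Agent.V11146.Mob
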