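import Mathlib
import Pool.Agent.V11146.MobDef

set_option autoImplicit false

namespace Pool.Agent.V11146.Mob

open SimpleGraph Finset

variable {V : Type} [DecidableEq V]

/-- every component contains one or two robots. -/
def QQ (G : SimpleGraph V) (S : Finset V) : Prop :=
  (∀ w, ∃ x ∈ S, G.Reachable x w) ∧
    ∀ w, ∀ T : Finset V, T ⊆ S → (∀ x ∈ T, G.Reachable w x) → T.card ≤ 2

lemma QQ.genPos {G : SimpleGraph V} {S : Finset V} (h : QQ G S) : GenPos G S := by
  intro u v p _
  refine h.2 u _ (filter_subset _ _) ?_
  intro x hx
  rw [mem_filter] at hx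
  exact Walk.reachable (p.takeUntil x hx.2)

lemma QQ.step {G : SimpleGraph V} {S : Finset V} (h : QQ G S) {x x' : V} (hx : x ∈ S)
    (hx' : x' ∉ S) (hadj : G.Adj x x') : QQ G (insert x' (S.erase x)) := by
  constructor
  · intro w
    obtain ⟨y, hy, hyw⟩ := h.1 w
    by_cases hyx : y = x
    · subst hyx
      exact ⟨x', mem_insert_self _ _, hadj.symm.reachable.trans hyw⟩
    · exact ⟨y, mem_insert_of_mem (mem_erase.mpr ⟨hyx, hy⟩), hyw⟩
  · intro w T hT hr
    by_cases hxT : x' ∈ T
    · have h1 : (insert x (T.erase x')).card ≤ 2 := by
        apply h.2 w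
        · intro y hy
          rw [mem_insert, mem_erase] at hy
          rcases hy with rfl | ⟨h1, h2⟩
          · exact hx
          · have := hT h2
            rw [mem_insert, mem_erase] at this
            rcases this with h3 | h3
            · exact absurd h3 h1
            · exact h3.2
        · intro y hy
          rw [mem_insert, mem_erase] at hy
          rcases hy with rfl | ⟨_, h2⟩
          · exact (hr x' hxT).trans hadj.symm.reachable
          · exact hr y h2
      have hxT' : x ∉ T.erase x' := by
        intro h2
        have h3 := hT (mem_of_mem_erase h2)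
        rw [mem_insert, mem_erase] at h3
        rcases h3 with h3 | h3
        · exact hadj.ne h3
        · exact h3.1 rfl
      rw [card_insert_of_notMem hxT', card_erase_of_mem hxT] at h1
      omega
    · apply h.2 w T _ hr
      intro y hy
      have := hT hy
      rw [mem_insert, mem_erase] at this
      rcases this with rfl | h3
      · exact absurd hy hxT
      · exact h3.2

lemma QQ.reach {G : SimpleGraph V} (w : V) (n : ℕ) : ∀ S : Finset V, QQ G S →
    (∃ x ∈ S, G.Reachable x w ∧ G.dist x w ≤ n) →
    ∃ T, Relation.ReflTransGen (LegalMove G) S T ∧ w ∈ T := by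
  classical
  induction n with
  | zero =>
    rintro S _ ⟨x, hx, hr, hd⟩
    have : x = w := hr.dist_eq_zero_iff.mp (by omega)
    subst this
    exact ⟨S, Relation.ReflTransGen.refl, hx⟩
  | succ n ih =>
    rintro S hS ⟨x, hx, hr, hd⟩
    by_cases h : ∃ y ∈ S, G.Reachable y w ∧ G.dist y w ≤ n
    · exact ih S hS h
    · push Not at h
      have hd' := h x hx hr
      obtain ⟨p, hp⟩ := hr.exists_walk_length_eq_dist
      cases p with
      | nil => exact absurd hd' (by simp)
      | @cons _ x' _ hadj q =>
        rw [Walk.length_cons] at hp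
        have h1 : G.dist x' w ≤ n := by
          have := dist_le q
          omega
        have hr' : G.Reachable x' w := q.reachable
        have hx'S : x' ∉ S := by
          intro h2
          have := h x' h2 hr'
          omega
        have hQ := hS.step hx hx'S hadj
        obtain ⟨T, hT, hwT⟩ := ih _ hQ ⟨x', mem_insert_self _ _, hr', h1⟩
        refine ⟨T, Relation.ReflTransGen.head ?_ hT, hwT⟩
        exact ⟨x, x', hx, hx'S, hadj, rfl, hQ.genPos⟩

lemma QQ.isMobile [Fintype V] {G : SimpleGraph V} {S : Finset V} (h : QQ G S) :
    IsMobile G S := by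
  apply isMobile_of_reach h.genPos
  intro w
  obtain ⟨x, hx, hr⟩ := h.1 w
  exact QQ.reach w (G.dist x w) S h ⟨x, hx, hr, le_rfl⟩

/-- two robots suffice in a connected graph. -/
lemma isMobile_pair [Fintype V] {G : SimpleGraph V} (hc : G.Connected) {x y : V} :
    IsMobile G {x, y} := by
  classical
  apply QQ.isMobile
  constructor
  · intro w
    exact ⟨x, by simp, hc.preconnected x w⟩
  · intro w T hT _
    exact (card_le_card hT).trans card_le_two

/-- disconnected graphs have large mobile sets. -/
lemma disconnected [Fintype V] {G : SimpleGraph V} (hc : ¬ G.Connected)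
    (hn : 3 ≤ Fintype.card V) : ∃ S, IsMobile G S ∧ 3 ≤ S.card := by
  classical
  have hne : Nonempty V := Fintype.card_pos_iff.mp (by omega)
  have hnp : ¬ G.Preconnected := fun h => hc ⟨h⟩
  unfold SimpleGraph.Preconnected at hnp
  push Not at hnp
  obtain ⟨u, v, huv⟩ := hnp
  have : Fintype G.ConnectedComponent := Fintype.ofFinite _
  choose r hr using (fun C : G.ConnectedComponent => C.exists_rep)
  have hr' : ∀ w, G.Reachable w (r (G.connectedComponentMk w)) := by
    intro w
    have := hr (G.connectedComponentMk w)
    exact (ConnectedComponent.exact this).symm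
  set S0 : Finset V := univ.image r with hS0
  have hmem : ∀ w, r (G.connectedComponentMk w) ∈ S0 := fun w => mem_image_of_mem r (mem_univ _)
  have hfil : ∀ w, ∀ x ∈ S0, G.Reachable w x → x = r (G.connectedComponentMk w) := by
    intro w x hx0 hx1
    rw [hS0, mem_image] at hx0
    obtain ⟨C, _, rfl⟩ := hx0
    congr 1
    rw [← hr C]
    exact (ConnectedComponent.sound hx1).symm
  have hcard2 : 2 ≤ S0.card := by
    have h1 : ({r (G.connectedComponentMk u), r (G.connectedComponentMk v)} : Finset V) ⊆ S0 := by
      intro x hx
      simp only [mem_insert, mem_singleton] at hx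
      rcases hx with rfl | rfl
      · exact hmem u
      · exact hmem v
    have h2 : r (G.connectedComponentMk u) ≠ r (G.connectedComponentMk v) := by
      intro h
      apply huv
      have e1 := hr' u
      have e2 := hr' v
      rw [h] at e1
      exact e1.trans e2.symm
    have := card_le_card h1
    rwa [card_pair h2] at this
  by_cases h3 : 3 ≤ S0.card
  · refine ⟨S0, QQ.isMobile ⟨fun w => ⟨_, hmem w, (hr' w).symm⟩, fun w T hT hTr => ?_⟩, h3⟩
    have : T ⊆ {r (G.connectedComponentMk w)} := by
      intro x hx
      rw [mem_singleton]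
      exact hfil w x (hT hx) (hTr x hx)
    have h5 := card_le_card this
    rw [card_singleton] at h5
    omega
  · have h4 : ∃ y, y ∉ S0 := by
      by_contra hcon
      push Not at hcon
      have : S0 = univ := by ext y; simp [hcon y]
      rw [this, card_univ] at h3
      exact h3 hn
    obtain ⟨y, hy⟩ := h4
    refine ⟨insert y S0, QQ.isMobile ⟨fun w => ⟨_, mem_insert_of_mem (hmem w), (hr' w).symm⟩,
      fun w T hT hTr => ?_⟩, ?_⟩
    · have hsub : T ⊆ {y, r (G.connectedComponentMk w)} := by
        intro x hx
        rw [mem_insert, mem_singleton]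
        rcases mem_insert.mp (hT hx) with rfl | h5
        · exact Or.inl rfl
        · exact Or.inr (hfil w x h5 (hTr x hx))
      exact (card_le_card hsub).trans card_le_two
    · rw [card_insert_of_notMem hy]
      omega

end Pool.Agent.V11146.Mob
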