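import Mathlib
import Pool.Agent.V11146.MobComp

set_option autoImplicit false

namespace Pool.Agent.V11146.Mob

open SimpleGraph Finset

lemma turan_bad {n : ℕ} {S : Finset (Fin n)} (hS : GenPos (turanGraph n 3) S) {x y z : Fin n}
    (hx : x ∈ S) (hy : y ∈ S) (hz : z ∈ S) (hxy : x ≠ y) (h : x.val % 3 = y.val % 3)
    (hzx : z.val % 3 ≠ x.val % 3) : False := by
  have axz : (turanGraph n 3).Adj x z := turanGraph_adj.mpr (Ne.symm hzx)
  have azy : (turanGraph n 3).Adj z y := turanGraph_adj.mpr (by rw [← h]; exact hzx)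
  have hn : ¬ (turanGraph n 3).Adj x y := fun h' => (turanGraph_adj.mp h') h
  have hd : (turanGraph n 3).dist x y = 2 := by
    have h1 : (turanGraph n 3).dist x y ≤ 2 := by
      have := dist_le (Walk.cons axz (Walk.cons azy Walk.nil))
      simpa using this
    have h2 : (turanGraph n 3).Reachable x y := axz.reachable.trans azy.reachable
    have h3 := h2.pos_dist_of_ne hxy
    have h4 : (turanGraph n 3).dist x y ≠ 1 := fun h => hn (dist_eq_one_iff_adj.mp h)
    omega
  have h1 := hS x y (Walk.cons axz (Walk.cons azy Walk.nil)) (by simp [hd])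
  have h2 : ({x, z, y} : Finset (Fin n)) ⊆
      S.filter (fun t => t ∈ (Walk.cons axz (Walk.cons azy Walk.nil)).support) := by
    intro t ht
    simp only [mem_insert, mem_singleton] at ht
    rw [mem_filter]
    rcases ht with rfl | rfl | rfl
    · exact ⟨hx, by simp⟩
    · exact ⟨hz, by simp⟩
    · exact ⟨hy, by simp⟩
  have h3 := card_le_card h2
  have h4 : ({x, z, y} : Finset (Fin n)).card = 3 := by
    rw [card_eq_three]
    refine ⟨x, z, y, axz.ne, hxy, azy.ne, rfl⟩
  omega

lemma turan_noMove {n : ℕ} {S T : Finset (Fin n)} (hS : GenPos (turanGraph n 3) S)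
    (hcard : 3 ≤ S.card) (h : LegalMove (turanGraph n 3) S T) : False := by
  obtain ⟨u, u', hu, hu', hadj, hT, hgp⟩ := h
  have hadj' := turanGraph_adj.mp hadj
  have h1 : 1 < (S.erase u).card := by rw [card_erase_of_mem hu]; omega
  obtain ⟨p, hp, q, hq, hpq⟩ := one_lt_card.mp h1
  have hpT : p ∈ T := by rw [hT]; exact mem_insert_of_mem hp
  have hqT : q ∈ T := by rw [hT]; exact mem_insert_of_mem hq
  have huT : u' ∈ T := by rw [hT]; exact mem_insert_self _ _
  rw [mem_erase] at hp hq
  have hu'p : u' ≠ p := fun h => hu' (h ▸ hp.2)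
  have hu'q : u' ≠ q := fun h => hu' (h ▸ hq.2)
  by_cases hc : p.val % 3 = q.val % 3
  · by_cases hc2 : u.val % 3 = p.val % 3
    · exact turan_bad hgp hpT hqT huT hpq hc (by rw [← hc2]; exact Ne.symm hadj')
    · exact turan_bad hS hp.2 hq.2 hu hpq hc hc2
  · have e1 : u.val % 3 ≠ p.val % 3 := by
      intro h
      exact turan_bad hS hu hp.2 hq.2 hp.1.symm h (by rw [h]; exact Ne.symm hc)
    have e2 : u.val % 3 ≠ q.val % 3 := by
      intro h
      exact turan_bad hS hu hq.2 hp.2 hq.1.symm h (by rw [h]; exact hc)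
    have e3 : u'.val % 3 = p.val % 3 ∨ u'.val % 3 = q.val % 3 := by omega
    rcases e3 with h | h
    · exact turan_bad hgp huT hpT hqT hu'p h (by rw [h]; exact Ne.symm hc)
    · exact turan_bad hgp huT hqT hpT hu'q h (by rw [h]; exact hc)

lemma turan_mobile_le {n : ℕ} (hn : 4 ≤ n) {S : Finset (Fin n)}
    (h : IsMobile (turanGraph n 3) S) : S.card ≤ 2 := by
  by_contra hcon
  push Not at hcon
  obtain ⟨hgp, k, f, h0, hf, hv⟩ := h
  rcases Nat.eq_zero_or_pos k with hk | hk
  · subst hk
    have hall : ∀ v, v ∈ S := by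
      intro v
      obtain ⟨i, hi, hvi⟩ := hv v
      have : i = 0 := by omega
      rw [this, h0] at hvi
      exact hvi
    exact turan_bad hgp (hall ⟨0, by omega⟩) (hall ⟨3, by omega⟩) (hall ⟨1, by omega⟩)
      (by simp) (by simp) (by simp)
  · have := hf 0 hk
    rw [h0] at this
    exact turan_noMove hgp (by omega) this

lemma turan_connected {n : ℕ} (hn : 4 ≤ n) : (turanGraph n 3).Connected := by
  have key : ∀ x y : Fin n, (turanGraph n 3).Reachable x y := by
    intro x y
    by_cases h : x.val % 3 = y.val % 3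
    · have : ∃ z : Fin n, z.val % 3 ≠ x.val % 3 := by
        by_cases h0 : x.val % 3 = 0
        · exact ⟨⟨1, by omega⟩, by simp [h0]⟩
        · exact ⟨⟨0, by omega⟩, by simpa using Ne.symm h0⟩
      obtain ⟨z, hz⟩ := this
      have a1 : (turanGraph n 3).Adj x z := turanGraph_adj.mpr (Ne.symm hz)
      have a2 : (turanGraph n 3).Adj z y := turanGraph_adj.mpr (by rw [← h]; exact hz)
      exact a1.reachable.trans a2.reachable
    · exact (turanGraph_adj.mpr h : (turanGraph n 3).Adj x y).reachable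
  have : Nonempty (Fin n) := ⟨⟨0, by omega⟩⟩
  exact SimpleGraph.Connected.mk key

lemma mob_turan {n : ℕ} (hn : 4 ≤ n) : mob (turanGraph n 3) = 2 := by
  have h1 : IsMobile (turanGraph n 3) {(⟨0, by omega⟩ : Fin n), (⟨1, by omega⟩ : Fin n)} :=
    isMobile_pair (turan_connected hn)
  have h2 : ({(⟨0, by omega⟩ : Fin n), (⟨1, by omega⟩ : Fin n)} : Finset (Fin n)).card = 2 :=
    card_pair (by simp)
  apply le_antisymm
  · have hne : {k : ℕ | ∃ S : Finset (Fin n), IsMobile (turanGraph n 3) S ∧ S.card = k}.Nonempty :=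
      ⟨2, _, h1, h2⟩
    unfold mob
    apply csSup_le hne
    rintro k ⟨S, hS, rfl⟩
    exact turan_mobile_le hn hS
  · rw [← h2]
    exact le_mob h1

end Pool.Agent.V11146.Mob
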