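import Mathlib
import Pool.Agent.V11146.MobDef

set_option autoImplicit false

namespace Pool.Agent.V11146.Mob

open SimpleGraph Finset

variable {V : Type} {G : SimpleGraph V}

lemma RC.move2 {a b c x y z y' : V} (h : RC G a b c x y z) (hadj : G.Adj y y')
    (hgp : GP3 G x y' z) : RC G a b c x y' z :=
  (RC.move h.swap hadj hgp.swap).swap

lemma GP3.s23 {x y z : V} (h : GP3 G x y z) : GP3 G x z y := h.rot.swap.rot.rot

lemma RC.move3 {a b c x y z z' : V} (h : RC G a b c x y z) (hadj : G.Adj z z')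
    (hgp : GP3 G x y z') : RC G a b c x y z' :=
  (h.s23.move2 hadj hgp.s23).s23

/-- all triples of a clique are reachable once one of them is. -/
lemma clique_reach {a0 b0 c0 a b c : V} (K : Finset V)
    (hK : ∀ p ∈ K, ∀ q ∈ K, p ≠ q → G.Adj p q) (ha : a ∈ K) (hb : b ∈ K) (hc : c ∈ K)
    (hab : a ≠ b) (hac : a ≠ c) (hbc : b ≠ c) (hR : RC G a0 b0 c0 a b c) :
    ∀ x ∈ K, ∀ y ∈ K, ∀ z ∈ K, x ≠ y → x ≠ z → y ≠ z → RC G a0 b0 c0 x y z := by
  have gp : ∀ x ∈ K, ∀ y ∈ K, ∀ z ∈ K, x ≠ y → x ≠ z → y ≠ z → GP3 G x y z := by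
    intro x hx y hy z hz hxy hxz hyz
    have h1 := dist_eq_one_iff_adj.mpr (hK x hx y hy hxy)
    have h2 := dist_eq_one_iff_adj.mpr (hK x hx z hz hxz)
    have h3 := dist_eq_one_iff_adj.mpr (hK y hy z hz hyz)
    refine ⟨hxy, hxz, hyz, ?_, ?_, ?_⟩ <;> omega
  intro x hx y hy z hz hxy hxz hyz
  -- first coordinate
  have s1 : ∃ p ∈ K, ∃ q ∈ K, x ≠ p ∧ x ≠ q ∧ p ≠ q ∧ RC G a0 b0 c0 x p q := by
    by_cases h1 : x = a
    · subst h1; exact ⟨b, hb, c, hc, hab, hac, hbc, hR⟩
    · by_cases h2 : x = b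
      · subst h2; exact ⟨a, ha, c, hc, hab.symm, hbc, hac, hR.swap⟩
      · by_cases h3 : x = c
        · subst h3; exact ⟨a, ha, b, hb, hac.symm, hbc.symm, hab, hR.rot.rot⟩
        · exact ⟨b, hb, c, hc, h2, h3, hbc,
            hR.move (hK a ha x hx (Ne.symm h1)) (gp x hx b hb c hc h2 h3 hbc)⟩
  obtain ⟨p, hp, q, hq, hxp, hxq, hpq, hR1⟩ := s1
  have s2 : ∃ r ∈ K, x ≠ r ∧ y ≠ r ∧ RC G a0 b0 c0 x y r := by
    by_cases h1 : y = p
    · subst h1; exact ⟨q, hq, hxq, hpq, hR1⟩
    · by_cases h2 : y = q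
      · subst h2; exact ⟨p, hp, hxp, h1, hR1.s23⟩
      · exact ⟨q, hq, hxq, h2, hR1.move2 (hK p hp y hy (Ne.symm h1))
          (gp x hx y hy q hq hxy hxq h2)⟩
  obtain ⟨r, hr, hxr, hyr, hR2⟩ := s2
  by_cases h1 : z = r
  · subst h1; exact hR2
  · exact hR2.move3 (hK r hr z hz (Ne.symm h1)) (gp x hx y hy z hz hxy hxz hyz)

lemma gp_eq {v p q : V} (hpq : G.Adj p q) (h : G.dist v p = G.dist v q)
    (h0 : 0 < G.dist v p) : GP3 G v p q := by
  have h1 := dist_eq_one_iff_adj.mpr hpq
  refine ⟨?_, ?_, hpq.ne, ?_, ?_, ?_⟩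
  · rintro rfl; simp at h0
  · rintro rfl; rw [h] at h0; simp at h0
  · omega
  · omega
  · omega

lemma gp_two {v p q : V} (hpq : G.dist p q = 2) (h1 : G.dist v p ≤ G.dist v q + 1)
    (h2 : G.dist v q ≤ G.dist v p + 1) (h3 : G.dist v p + G.dist v q ≠ 2)
    (hp : 0 < G.dist v p) (hq : 0 < G.dist v q) : GP3 G v p q := by
  refine ⟨?_, ?_, ?_, ?_, ?_, ?_⟩
  · rintro rfl; simp at hp
  · rintro rfl; simp at hq
  · rintro rfl; simp at hpq
  · omega
  · omega
  · omega

lemma dist_two {p q r : V} (hpq : p ≠ q) (hn : ¬ G.Adj p q) (hpr : G.Adj p r)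
    (hrq : G.Adj r q) : G.dist p q = 2 := by
  have h1 : G.dist p q ≤ 2 := by
    have := dist_le (Walk.cons hpr (Walk.cons hrq Walk.nil))
    simpa using this
  have h2 : G.Reachable p q := hpr.reachable.trans hrq.reachable
  have h3 := h2.pos_dist_of_ne hpq
  have h4 : G.dist p q ≠ 1 := fun h => hn (dist_eq_one_iff_adj.mp h)
  omega

lemma carry {a0 b0 c0 p q : V} (v : ℕ → V) (i : ℕ) (n : ℕ)
    (hadj : ∀ j, i ≤ j → j < i + n → G.Adj (v j) (v (j + 1)))
    (hgp : ∀ j, i < j → j ≤ i + n → GP3 G (v j) p q) (h : RC G a0 b0 c0 (v i) p q) :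
    RC G a0 b0 c0 (v (i + n)) p q := by
  induction n with
  | zero => exact h
  | succ n ih =>
    have h1 := ih (fun j h1 h2 => hadj j h1 (by omega)) (fun j h1 h2 => hgp j h1 (by omega))
    exact h1.move (hadj (i + n) (by omega) (by omega)) (hgp (i + (n + 1)) (by omega) le_rfl)

/-- geodesics as functions. -/
lemma geo (hc : G.Connected) (x w : V) : ∃ v : ℕ → V, v 0 = x ∧ v (G.dist x w) = w ∧
    (∀ j, j < G.dist x w → G.Adj (v j) (v (j + 1))) ∧
    ∀ i j, i ≤ j → j ≤ G.dist x w → G.dist (v i) (v j) = j - i := by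
  obtain ⟨p, hp⟩ := hc.exists_walk_length_eq_dist x w
  have hadj : ∀ j, j < G.dist x w → G.Adj (p.getVert j) (p.getVert (j + 1)) := by
    intro j hj
    exact p.adj_getVert_succ (by omega)
  have hle : ∀ i n, i + n ≤ G.dist x w → G.dist (p.getVert i) (p.getVert (i + n)) ≤ n := by
    intro i n
    induction n with
    | zero => intro _; simp
    | succ n ih =>
      intro h
      have h1 := ih (by omega)
      have h2 := dist_eq_one_iff_adj.mpr (hadj (i + n) (by omega))
      have h3 := hc.dist_triangle (u := p.getVert i) (v := p.getVert (i + n))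
        (w := p.getVert (i + n + 1))
      have h4 : i + (n + 1) = i + n + 1 := by omega
      rw [h4]
      omega
  refine ⟨p.getVert, p.getVert_zero, ?_, hadj, ?_⟩
  · rw [← hp]; exact p.getVert_length
  · intro i j hij hj
    obtain ⟨n, rfl⟩ : ∃ n, j = i + n := ⟨j - i, by omega⟩
    have h1 := hle i n hj
    have h2 := hle 0 i (by omega)
    obtain ⟨l, hl⟩ : ∃ l, G.dist x w = i + n + l := ⟨G.dist x w - (i + n), by omega⟩
    have h3 := hle (i + n) l (by omega)
    rw [← hl] at h3
    have h4 : p.getVert (G.dist x w) = w := by rw [← hp]; exact p.getVert_length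
    rw [h4] at h3
    rw [Nat.zero_add, p.getVert_zero] at h2
    have h5 := hc.dist_triangle (u := x) (v := p.getVert i) (w := w)
    have h6 := hc.dist_triangle (u := p.getVert i) (v := p.getVert (i + n)) (w := w)
    omega

/-- neighbours of a `K_4` are reached. -/
lemma reach_level1 {a0 b0 c0 a b c d : V} (hab : G.Adj a b) (hac : G.Adj a c) (had : G.Adj a d)
    (hbc : G.Adj b c) (hbd : G.Adj b d) (hcd : G.Adj c d) (hR : RC G a0 b0 c0 a b c) (v : V)
    (hv : G.Adj a v) : Reached G a0 b0 c0 v := by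
  classical
  have hK : ∀ p ∈ ({a, b, c, d} : Finset V), ∀ q ∈ ({a, b, c, d} : Finset V), p ≠ q →
      G.Adj p q := by
    intro p hp q hq hpq
    simp only [mem_insert, mem_singleton] at hp hq
    rcases hp with rfl | rfl | rfl | rfl <;> rcases hq with rfl | rfl | rfl | rfl <;>
      first
      | exact absurd rfl hpq
      | assumption
      | (apply SimpleGraph.Adj.symm; assumption)
  have hcl := clique_reach {a, b, c, d} hK (by simp) (by simp) (by simp) hab.ne hac.ne hbc.ne hR
  by_cases hvK : v ∈ ({a, b, c, d} : Finset V)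
  · have : ∃ p ∈ ({a, b, c, d} : Finset V), ∃ q ∈ ({a, b, c, d} : Finset V),
        v ≠ p ∧ v ≠ q ∧ p ≠ q := by
      simp only [mem_insert, mem_singleton] at hvK
      rcases hvK with rfl | rfl | rfl | rfl
      · exact ⟨b, by simp, c, by simp, hab.ne, hac.ne, hbc.ne⟩
      · exact ⟨a, by simp, c, by simp, hab.ne.symm, hbc.ne, hac.ne⟩
      · exact ⟨a, by simp, b, by simp, hac.ne.symm, hbc.ne.symm, hab.ne⟩
      · exact ⟨a, by simp, b, by simp, had.ne.symm, hbd.ne.symm, hab.ne⟩
    obtain ⟨p, hp, q, hq, h1, h2, h3⟩ := this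
    exact ⟨p, q, hcl v hvK p hp q hq h1 h2 h3⟩
  · simp only [mem_insert, mem_singleton, not_or] at hvK
    obtain ⟨hva, hvb, hvc, hvd⟩ := hvK
    have dva : G.dist v a = 1 := dist_eq_one_iff_adj.mpr hv.symm
    -- far pair
    have far : ∀ p q, p ∈ ({b, c, d} : Finset V) → q ∈ ({b, c, d} : Finset V) → p ≠ q →
        ¬ G.Adj v p → ¬ G.Adj v q → Reached G a0 b0 c0 v := by
      intro p q hp hq hpq hnp hnq
      have hp' : p ∈ ({a, b, c, d} : Finset V) := by simp only [mem_insert] at hp ⊢; tauto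
      have hq' : q ∈ ({a, b, c, d} : Finset V) := by simp only [mem_insert] at hq ⊢; tauto
      have hap : a ≠ p := by
        rintro rfl; exact hnp hv.symm
      have haq : a ≠ q := by
        rintro rfl; exact hnq hv.symm
      have hvp : v ≠ p := by
        rintro rfl; simp only [mem_insert, mem_singleton] at hp; tauto
      have hvq : v ≠ q := by
        rintro rfl; simp only [mem_insert, mem_singleton] at hq; tauto
      have h1 := hcl a (by simp) p hp' q hq' hap haq hpq
      have d1 : G.dist v p = 2 := dist_two hvp hnp hv.symm (hK a (by simp) p hp' hap)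
      have d2 : G.dist v q = 2 := dist_two hvq hnq hv.symm (hK a (by simp) q hq' haq)
      exact ⟨p, q, h1.move hv (gp_eq (hK p hp' q hq' hpq) (by omega) (by omega))⟩
    have near : ∀ p q, p ∈ ({b, c, d} : Finset V) → q ∈ ({b, c, d} : Finset V) → p ≠ q →
        G.Adj v p → G.Adj v q → Reached G a0 b0 c0 v := by
      intro p q hp hq hpq hnp hnq
      have hp' : p ∈ ({a, b, c, d} : Finset V) := by simp only [mem_insert] at hp ⊢; tauto
      have hq' : q ∈ ({a, b, c, d} : Finset V) := by simp only [mem_insert] at hq ⊢; tauto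
      have hap : a ≠ p := by
        rintro rfl
        simp only [mem_insert, mem_singleton] at hp
        rcases hp with h | h | h
        · exact hab.ne h
        · exact hac.ne h
        · exact had.ne h
      have haq : a ≠ q := by
        rintro rfl
        simp only [mem_insert, mem_singleton] at hq
        rcases hq with h | h | h
        · exact hab.ne h
        · exact hac.ne h
        · exact had.ne h
      have h1 := hcl q hq' a (by simp) p hp' haq.symm hpq.symm hap
      have d1 : G.dist v p = 1 := dist_eq_one_iff_adj.mpr hnp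
      exact ⟨a, p, h1.move hnq.symm (gp_eq (hK a (by simp) p hp' hap) (by omega) (by omega))⟩
    by_cases h1 : G.Adj v b
    · by_cases h2 : G.Adj v c
      · exact near b c (by simp) (by simp) hbc.ne h1 h2
      · by_cases h3 : G.Adj v d
        · exact near b d (by simp) (by simp) hbd.ne h1 h3
        · exact far c d (by simp) (by simp) hcd.ne h2 h3
    · by_cases h2 : G.Adj v c
      · by_cases h3 : G.Adj v d
        · exact near c d (by simp) (by simp) hcd.ne h2 h3
        · exact far b d (by simp) (by simp) hbd.ne h1 h3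
      · exact far b c (by simp) (by simp) hbc.ne h1 h2

end Pool.Agent.V11146.Mob
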