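import Mathlib
import Pool.Agent.V11146.MobReach

set_option autoImplicit false

namespace Pool.Agent.V11146.Mob

open SimpleGraph Finset

variable {V : Type} {G : SimpleGraph V}

/-- `b`-case: the nearest vertex of the structure to `w` is `b`. -/
lemma twins_case_b (hc : G.Connected) {a0 b0 c0 a b c d a' d' : V}
    (hab : G.Adj a b) (hac : G.Adj a c) (had : G.Adj a d)
    (hbc : G.Adj b c) (hbd : G.Adj b d) (hcd : G.Adj c d)
    (a'b : G.Adj a' b) (a'c : G.Adj a' c) (a'd : G.Adj a' d) (a'a : ¬ G.Adj a' a) (na' : a' ≠ a)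
    (d'a : G.Adj d' a) (d'b : G.Adj d' b) (d'c : G.Adj d' c) (d'd : ¬ G.Adj d' d) (nd' : d' ≠ d)
    (hR : RC G a0 b0 c0 a b c) (w : V)
    (wa : G.dist b w ≤ G.dist w a) (wc : G.dist b w ≤ G.dist w c) (wd : G.dist b w ≤ G.dist w d)
    (wa' : G.dist b w ≤ G.dist w a') (wd' : G.dist b w ≤ G.dist w d') :
    Reached G a0 b0 c0 w := by
  classical
  have hK : ∀ p ∈ ({a, b, c, d} : Finset V), ∀ q ∈ ({a, b, c, d} : Finset V), p ≠ q →
      G.Adj p q := by
    intro p hp q hq hpq
    simp only [mem_insert, mem_singleton] at hp hq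
    rcases hp with rfl | rfl | rfl | rfl <;> rcases hq with rfl | rfl | rfl | rfl <;>
      first
      | exact absurd rfl hpq
      | assumption
      | (apply SimpleGraph.Adj.symm; assumption)
  have hcl := clique_reach {a, b, c, d} hK (by simp) (by simp) (by simp) hab.ne hac.ne hbc.ne hR
  obtain ⟨v, v0, vm, vadj, vd⟩ := geo hc b w
  set m := G.dist b w with hm
  rcases Nat.eq_zero_or_pos m with h0 | hpos
  · rw [h0] at vm
    rw [v0] at vm
    subst vm
    exact ⟨a, c, hR.swap⟩
  -- bounds
  have bound : ∀ z, G.Adj b z → m ≤ G.dist w z → ∀ j, j ≤ m →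
      j ≤ G.dist (v j) z ∧ G.dist (v j) z ≤ j + 1 := by
    intro z hz hwz j hj
    have h1 := vd 0 j (by omega) hj
    have h2 := vd j m hj le_rfl
    rw [v0] at h1
    rw [vm] at h2
    have h3 := hc.dist_triangle (u := v j) (v := b) (w := z)
    have h4 := hc.dist_triangle (u := w) (v := v j) (w := z)
    rw [G.dist_comm (u := v j) (v := b)] at h3
    rw [G.dist_comm (u := w) (v := v j)] at h4
    have h5 := dist_eq_one_iff_adj.mpr hz
    omega
  have hjb : ∀ j, j ≤ m → G.dist (v j) b = j := by
    intro j hj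
    have h1 := vd 0 j (by omega) hj
    rw [v0, G.dist_comm] at h1
    omega
  have hbu : G.Adj b (v 1) := by
    have := vadj 0 hpos
    rwa [v0] at this
  have hend : ∀ p q, RC G a0 b0 c0 (v m) p q → Reached G a0 b0 c0 w := by
    intro p q h
    rw [vm] at h
    exact ⟨p, q, h⟩
  -- near carry
  have near : ∀ p q, G.Adj b p → G.Adj (v 1) p → G.Adj (v 1) q → m ≤ G.dist w p →
      RC G a0 b0 c0 q b p → Reached G a0 b0 c0 w := by
    intro p q hbp hup huq hwp hr
    have hjp : ∀ j, 1 ≤ j → j ≤ m → G.dist (v j) p = j := by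
      intro j hj1 hj
      have h1 := vd 1 j hj1 hj
      have h2 := hc.dist_triangle (u := v j) (v := v 1) (w := p)
      rw [G.dist_comm (u := v j) (v := v 1)] at h2
      have h3 := dist_eq_one_iff_adj.mpr hup
      have h4 := (bound p hbp hwp j hj).1
      omega
    have hr1 : RC G a0 b0 c0 (v 1) b p := by
      refine hr.move huq.symm (gp_eq hbp ?_ ?_)
      · rw [hjb 1 hpos, hjp 1 le_rfl hpos]
      · rw [hjb 1 hpos]; norm_num
    have hr2 := carry v 1 (m - 1) (fun j _ h2 => vadj j (by omega))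
      (fun j h1 h2 => gp_eq hbp (by rw [hjb j (by omega), hjp j (by omega) (by omega)])
        (by rw [hjb j (by omega)]; omega)) hr1
    have : 1 + (m - 1) = m := by omega
    rw [this] at hr2
    exact hend _ _ hr2
  -- carry of a pair at distance two
  have carry2 : ∀ p q, G.Adj b p → G.Adj b q → G.dist p q = 2 → m ≤ G.dist w p →
      m ≤ G.dist w q → ¬ (G.Adj (v 1) p ∧ G.Adj (v 1) q) → RC G a0 b0 c0 (v 1) p q →
      Reached G a0 b0 c0 w := by
    intro p q hbp hbq hpq hwp hwq _ hr
    have hr2 := carry v 1 (m - 1) (fun j _ h2 => vadj j (by omega))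
      (fun j h1 h2 => by
        have b1 := bound p hbp hwp j (by omega)
        have b2 := bound q hbq hwq j (by omega)
        exact gp_two hpq (by omega) (by omega) (by omega) (by omega) (by omega)) hr
    have : 1 + (m - 1) = m := by omega
    rw [this] at hr2
    exact hend _ _ hr2
  -- facts at v 1
  have d1 : ∀ z, G.Adj b z → m ≤ G.dist w z → ¬ G.Adj (v 1) z → G.dist (v 1) z = 2 := by
    intro z hz hwz hn
    have b1 := bound z hz hwz 1 hpos
    have : G.dist (v 1) z ≠ 1 := fun h => hn (dist_eq_one_iff_adj.mp h)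
    omega
  have daa' : G.dist a a' = 2 := dist_two na'.symm (fun h => a'a h.symm) hab a'b.symm
  have ddd' : G.dist d d' = 2 := dist_two nd'.symm (fun h => d'd h.symm) hbd.symm d'b.symm
  have hba : G.Adj b a := hab.symm
  have hba' : G.Adj b a' := a'b.symm
  have hbd' : G.Adj b d' := d'b.symm
  have nab := hab.ne
  have nac := hac.ne
  have nad := had.ne
  have nbc := hbc.ne
  have nbd := hbd.ne
  have ncd := hcd.ne
  by_cases ua : G.Adj (v 1) a
  · by_cases uc : G.Adj (v 1) c
    · exact near a c hba ua uc wa (hcl c (by simp) b (by simp) a (by simp) nbc.symm nac.symm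
        nab.symm)
    · by_cases ud : G.Adj (v 1) d
      · exact near a d hba ua ud wa (hcl d (by simp) b (by simp) a (by simp) nbd.symm nad.symm
          nab.symm)
      · have e1 := d1 c hbc wc uc
        have e2 := d1 d hbd wd ud
        by_cases ua' : G.Adj (v 1) a'
        · -- use the pair d, d'
          have r1 := hcl b (by simp) c (by simp) d (by simp) nbc nbd ncd
          have r2 : RC G a0 b0 c0 (v 1) c d :=
            r1.move hbu (gp_eq hcd (by omega) (by omega))
          have b1 := bound d' hbd' wd' 1 hpos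
          have r3 : RC G a0 b0 c0 (v 1) d' d := by
            refine r2.move2 d'c.symm (GP3.s23 (gp_two ddd' ?_ ?_ ?_ ?_ ?_)) <;> omega
          exact carry2 d d' hbd hbd' ddd' wd wd' (fun h => ud h.1) r3.s23
        · -- use the pair a, a'
          have e3 := d1 a' hba' wa' ua'
          have e4 : G.dist (v 1) a = 1 := dist_eq_one_iff_adj.mpr ua
          have r1 := hcl b (by simp) c (by simp) d (by simp) nbc nbd ncd
          have g1 : GP3 G b c a' := by
            apply gp_eq a'c.symm
            · rw [dist_eq_one_iff_adj.mpr hbc, dist_eq_one_iff_adj.mpr hba']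
            · rw [dist_eq_one_iff_adj.mpr hbc]; norm_num
          have r2 : RC G a0 b0 c0 b c a' := r1.move3 a'd.symm g1
          have r3 : RC G a0 b0 c0 (v 1) c a' :=
            r2.move hbu (gp_eq a'c.symm (by omega) (by omega))
          have r4 : RC G a0 b0 c0 (v 1) a a' := by
            refine r3.move2 hac.symm (gp_two daa' ?_ ?_ ?_ ?_ ?_) <;> omega
          exact carry2 a a' hba hba' daa' wa wa' (fun h => ua' h.2) r4
  · have e1 := d1 a hba wa ua
    have b1 := bound a' hba' wa' 1 hpos
    by_cases uc : G.Adj (v 1) c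
    · by_cases ud : G.Adj (v 1) d
      · exact near c d hbc uc ud wc (hcl d (by simp) b (by simp) c (by simp) nbd.symm ncd.symm
          nbc)
      · have e2 := d1 d hbd wd ud
        have r1 := hcl b (by simp) d (by simp) a (by simp) nbd nab.symm nad.symm
        have r2 : RC G a0 b0 c0 (v 1) d a :=
          r1.move hbu (gp_eq had.symm (by omega) (by omega))
        have r3 : RC G a0 b0 c0 (v 1) a' a := by
          refine r2.move2 a'd.symm (GP3.s23 (gp_two daa' ?_ ?_ ?_ ?_ ?_)) <;> omega
        exact carry2 a a' hba hba' daa' wa wa' (fun h => ua h.1) r3.s23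
    · have e2 := d1 c hbc wc uc
      have r1 := hcl b (by simp) c (by simp) a (by simp) nbc nab.symm nac.symm
      have r2 : RC G a0 b0 c0 (v 1) c a :=
        r1.move hbu (gp_eq hac.symm (by omega) (by omega))
      have r3 : RC G a0 b0 c0 (v 1) a' a := by
        refine r2.move2 a'c.symm (GP3.s23 (gp_two daa' ?_ ?_ ?_ ?_ ?_)) <;> omega
      exact carry2 a a' hba hba' daa' wa wa' (fun h => ua h.1) r3.s23

/-- A `K_4` two of whose vertices have (non-adjacent) twins reaches everything. -/
lemma reach_twins (hc : G.Connected) {a0 b0 c0 a b c d a' d' : V}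
    (hab : G.Adj a b) (hac : G.Adj a c) (had : G.Adj a d)
    (hbc : G.Adj b c) (hbd : G.Adj b d) (hcd : G.Adj c d)
    (a'b : G.Adj a' b) (a'c : G.Adj a' c) (a'd : G.Adj a' d) (a'a : ¬ G.Adj a' a) (na' : a' ≠ a)
    (d'a : G.Adj d' a) (d'b : G.Adj d' b) (d'c : G.Adj d' c) (d'd : ¬ G.Adj d' d) (nd' : d' ≠ d)
    (hR : RC G a0 b0 c0 a b c) (w : V) : Reached G a0 b0 c0 w := by
  classical
  -- the distance to the structure
  set Z : Finset V := {a, b, c, d, a', d'} with hZ
  obtain ⟨x, hxZ, hx⟩ := Z.exists_min_image (fun z => G.dist w z) ⟨a, by simp [hZ]⟩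
  have ha := hx a (by simp [hZ])
  have hb := hx b (by simp [hZ])
  have hcc := hx c (by simp [hZ])
  have hd := hx d (by simp [hZ])
  have ha' := hx a' (by simp [hZ])
  have hd' := hx d' (by simp [hZ])
  by_cases h1 : G.dist w b = G.dist w x
  · apply twins_case_b hc hab hac had hbc hbd hcd a'b a'c a'd a'a na' d'a d'b d'c d'd nd' hR w
    all_goals rw [G.dist_comm (u := b) (v := w)]; omega
  by_cases h2 : G.dist w c = G.dist w x
  · apply twins_case_b hc hac hab had hbc.symm hcd hbd a'c a'b a'd a'a na' d'a d'c d'b d'd nd'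
      hR.s23 w
    all_goals rw [G.dist_comm (u := c) (v := w)]; omega
  -- now b and c are far
  have hxb : G.Adj x b ∧ G.Adj x c ∧ RC G a0 b0 c0 x b c := by
    have hRd : RC G a0 b0 c0 d b c := by
      refine hR.move had (gp_eq hbc ?_ ?_)
      · rw [dist_eq_one_iff_adj.mpr hbd.symm, dist_eq_one_iff_adj.mpr hcd.symm]
      · rw [dist_eq_one_iff_adj.mpr hbd.symm]; norm_num
    simp only [hZ, mem_insert, mem_singleton] at hxZ
    rcases hxZ with rfl | rfl | rfl | rfl | rfl | rfl
    · exact ⟨hab, hac, hR⟩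
    · exact absurd rfl h1
    · exact absurd rfl h2
    · exact ⟨hbd.symm, hcd.symm, hRd⟩
    · refine ⟨a'b, a'c, hRd.move a'd.symm (gp_eq hbc ?_ ?_)⟩
      · rw [dist_eq_one_iff_adj.mpr a'b, dist_eq_one_iff_adj.mpr a'c]
      · rw [dist_eq_one_iff_adj.mpr a'b]; norm_num
    · refine ⟨d'b, d'c, hR.move d'a.symm (gp_eq hbc ?_ ?_)⟩
      · rw [dist_eq_one_iff_adj.mpr d'b, dist_eq_one_iff_adj.mpr d'c]
      · rw [dist_eq_one_iff_adj.mpr d'b]; norm_num
  obtain ⟨hxb, hxc, hRx⟩ := hxb
  obtain ⟨v, v0, vm, vadj, vd⟩ := geo hc x w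
  have far : ∀ z, G.Adj x z → G.dist w x < G.dist w z → ∀ j, j ≤ G.dist x w →
      G.dist (v j) z = j + 1 := by
    intro z hz hlt j hj
    have e1 := vd 0 j (by omega) hj
    have e2 := vd j _ hj le_rfl
    rw [v0] at e1
    rw [vm] at e2
    have e3 := hc.dist_triangle (u := v j) (v := x) (w := z)
    have e4 := hc.dist_triangle (u := w) (v := v j) (w := z)
    rw [G.dist_comm (u := v j) (v := x)] at e3
    rw [G.dist_comm (u := w) (v := v j)] at e4
    rw [G.dist_comm (u := w) (v := x)] at hlt
    have e5 := dist_eq_one_iff_adj.mpr hz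
    omega
  have r := carry v 0 (G.dist x w) (fun j _ h2 => vadj j (by omega))
    (fun j _ h3 => gp_eq hbc (by rw [far b hxb (by omega) j (by omega),
      far c hxc (by omega) j (by omega)]) (by rw [far b hxb (by omega) j (by omega)]; omega))
    (by rw [v0]; exact hRx)
  rw [Nat.zero_add, vm] at r
  exact ⟨b, c, r⟩

/-- A `K_5` reaches everything. -/
lemma reach_K5 (hc : G.Connected) {a0 b0 c0 : V} (K : Finset V)
    (hK : ∀ p ∈ K, ∀ q ∈ K, p ≠ q → G.Adj p q) (hcard : K.card = 5)
    (hR : ∀ x ∈ K, ∀ y ∈ K, ∀ z ∈ K, x ≠ y → x ≠ z → y ≠ z → RC G a0 b0 c0 x y z) (w : V) :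
    Reached G a0 b0 c0 w := by
  classical
  by_contra hnr
  obtain ⟨x, hxK, hx⟩ := K.exists_min_image (fun z => G.dist w z)
    (card_pos.mp (by omega))
  obtain ⟨v, v0, vm, vadj, vd⟩ := geo hc x w
  set m := G.dist x w with hm
  have hmin : ∀ p ∈ K, m ≤ G.dist w p := by
    intro p hp
    have := hx p hp
    rw [G.dist_comm (u := w) (v := x)] at this
    exact this
  have hend : ∀ p q, RC G a0 b0 c0 (v m) p q → False := by
    intro p q h
    rw [vm] at h
    exact hnr ⟨p, q, h⟩
  have bound : ∀ p ∈ K, p ≠ x → ∀ j, j ≤ m → j ≤ G.dist (v j) p ∧ G.dist (v j) p ≤ j + 1 := by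
    intro p hp hpx j hj
    have h1 := vd 0 j (by omega) hj
    have h2 := vd j m hj le_rfl
    rw [v0] at h1
    rw [vm] at h2
    have h3 := hc.dist_triangle (u := v j) (v := x) (w := p)
    have h4 := hc.dist_triangle (u := w) (v := v j) (w := p)
    rw [G.dist_comm (u := v j) (v := x)] at h3
    rw [G.dist_comm (u := w) (v := v j)] at h4
    have h5 := dist_eq_one_iff_adj.mpr (hK x hxK p hp hpx.symm)
    have h6 := hmin p hp
    omega
  have hjx : ∀ j, j ≤ m → G.dist (v j) x = j := by
    intro j hj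
    have h1 := vd 0 j (by omega) hj
    rw [v0, G.dist_comm] at h1
    omega
  have mono : ∀ p ∈ K, p ≠ x → ∀ i j, i ≤ j → j ≤ m → G.dist (v i) p = i →
      G.dist (v j) p = j := by
    intro p hp hpx i j hij hj hi
    have h1 := vd i j hij hj
    have h2 := hc.dist_triangle (u := v j) (v := v i) (w := p)
    rw [G.dist_comm (u := v j) (v := v i)] at h2
    have h3 := (bound p hp hpx j hj).1
    omega
  -- threshold times
  have hτ : ∀ p ∈ K, p ≠ x → ∃ t, t ≤ m + 1 ∧ ∀ j, j ≤ m → (G.dist (v j) p = j + 1 ↔ j < t) := by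
    intro p hp hpx
    have hex : ∃ t, t = m + 1 ∨ (t ≤ m ∧ G.dist (v t) p = t) := ⟨m + 1, Or.inl rfl⟩
    refine ⟨Nat.find hex, ?_, ?_⟩
    · exact Nat.find_le (Or.inl rfl)
    · intro j hj
      constructor
      · intro h
        by_contra hcon
        push Not at hcon
        rcases Nat.find_spec hex with h1 | ⟨h1, h2⟩
        · omega
        · have := mono p hp hpx _ j hcon hj h2
          omega
      · intro h
        have h1 := Nat.find_min hex h
        push Not at h1
        have h2 := h1.2 hj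
        have h3 := bound p hp hpx j hj
        omega
  choose! τ hτ1 hτ2 using hτ
  -- equal thresholds are impossible
  have hne : ∀ p ∈ K, p ≠ x → ∀ q ∈ K, q ≠ x → p ≠ q → τ p ≠ τ q := by
    intro p hp hpx q hq hqx hpq heq
    have hdd : ∀ j, j ≤ m → G.dist (v j) p = G.dist (v j) q := by
      intro j hj
      have h1 := hτ2 p hp hpx j hj
      have h2 := hτ2 q hq hqx j hj
      have h3 := bound p hp hpx j hj
      have h4 := bound q hq hqx j hj
      rw [heq] at h1
      by_cases h : j < τ q
      · have := h1.mpr h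
        have := h2.mpr h
        omega
      · have h5 : ¬ G.dist (v j) p = j + 1 := fun h' => h (h1.mp h')
        have h6 : ¬ G.dist (v j) q = j + 1 := fun h' => h (h2.mp h')
        omega
    have r := carry v 0 m (fun j _ h2 => vadj j (by omega))
      (fun j h1 h2 => gp_eq (hK p hp q hq hpq) (hdd j (by omega))
        (by have := (bound p hp hpx j (by omega)).1; omega))
      (by rw [v0]; exact hR x hxK p hp q hq hpx.symm hqx.symm hpq)
    rw [Nat.zero_add] at r
    exact hend _ _ r
  have hpos : ∀ p ∈ K, p ≠ x → 0 < τ p := by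
    intro p hp hpx
    have h1 := (hτ2 p hp hpx 0 (by omega)).mp (by
      rw [v0]
      exact dist_eq_one_iff_adj.mpr (hK x hxK p hp hpx.symm))
    exact h1
  -- order the vertices by threshold
  have c1 : (K.erase x).card = 4 := by rw [card_erase_of_mem hxK, hcard]
  obtain ⟨d, hd, hdmax⟩ := (K.erase x).exists_max_image τ (card_pos.mp (by omega))
  have c2 : ((K.erase x).erase d).card = 3 := by rw [card_erase_of_mem hd, c1]
  obtain ⟨c, hcc, hcmax⟩ := ((K.erase x).erase d).exists_max_image τ (card_pos.mp (by omega))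
  have c3 : (((K.erase x).erase d).erase c).card = 2 := by rw [card_erase_of_mem hcc, c2]
  obtain ⟨p₁, p₂, hp12, hp⟩ := card_eq_two.mp c3
  have hp₁ : p₁ ∈ ((K.erase x).erase d).erase c := by rw [hp]; simp
  have hp₂ : p₂ ∈ ((K.erase x).erase d).erase c := by rw [hp]; simp
  have m1 := hcmax p₁ (mem_of_mem_erase hp₁)
  have m2 := hcmax p₂ (mem_of_mem_erase hp₂)
  have m3 := hdmax c (mem_of_mem_erase hcc)
  simp only [mem_erase] at hd hcc hp₁ hp₂
  obtain ⟨hdx, hdK⟩ := hd
  obtain ⟨hcd, hcx, hcK⟩ := hcc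
  obtain ⟨hp₁c, hp₁d, hp₁x, hp₁K⟩ := hp₁
  obtain ⟨hp₂c, hp₂d, hp₂x, hp₂K⟩ := hp₂
  have n1 := hne p₁ hp₁K hp₁x c hcK hcx hp₁c
  have n2 := hne p₂ hp₂K hp₂x c hcK hcx hp₂c
  have n3 := hne c hcK hcx d hdK hdx hcd
  have n4 := hne p₁ hp₁K hp₁x p₂ hp₂K hp₂x hp12
  have q1 := hpos p₁ hp₁K hp₁x
  have q2 := hpos p₂ hp₂K hp₂x
  have t1 := hτ1 d hdK hdx
  set j := τ c with hj
  have hj3 : 3 ≤ j := by omega
  have hjm : j ≤ m := by omega
  -- distances at z = v (j-1) and w' = v j
  have zc : G.dist (v (j-1)) c = j := by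
    have := (hτ2 c hcK hcx (j-1) (by omega)).mpr (by omega)
    omega
  have zd : G.dist (v (j-1)) d = j := by
    have := (hτ2 d hdK hdx (j-1) (by omega)).mpr (by omega)
    omega
  have wc : G.dist (v j) c = j := by
    have h1 : ¬ G.dist (v j) c = j + 1 := fun h => by
      have := (hτ2 c hcK hcx j hjm).mp h
      omega
    have := bound c hcK hcx j hjm
    omega
  have wd : G.dist (v j) d = j + 1 := (hτ2 d hdK hdx j hjm).mpr (by omega)
  have zp : G.dist (v (j-1)) p₁ = j - 1 := by
    have h1 : ¬ G.dist (v (j-1)) p₁ = j - 1 + 1 := fun h => by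
      have := (hτ2 p₁ hp₁K hp₁x (j-1) (by omega)).mp h
      omega
    have := bound p₁ hp₁K hp₁x (j-1) (by omega)
    omega
  have wp : G.dist (v j) p₁ = j := mono p₁ hp₁K hp₁x (j-1) j (by omega) hjm zp
  have zx := hjx (j-1) (by omega)
  have wx := hjx j hjm
  have zw : G.Adj (v (j-1)) (v j) := by
    have := vadj (j-1) (by omega)
    have e : j - 1 + 1 = j := by omega
    rwa [e] at this
  have acd := hK c hcK d hdK hcd
  -- z with c, d
  have rz : RC G a0 b0 c0 (v (j-1)) c d := by
    have r := carry v 0 (j-1) (fun i _ h2 => vadj i (by omega))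
      (fun i h1 h2 => by
        have f1 := (hτ2 c hcK hcx i (by omega)).mpr (by omega)
        have f2 := (hτ2 d hdK hdx i (by omega)).mpr (by omega)
        exact gp_eq acd (by omega) (by omega))
      (by rw [v0]; exact hR x hxK c hcK d hdK hcx.symm hdx.symm hcd)
    rw [Nat.zero_add] at r
    exact r
  -- the geodesic from c to w'
  obtain ⟨g, g0, gm, gadj, gd⟩ := geo hc c (v j)
  have hl : G.dist c (v j) = j := by rw [G.dist_comm]; exact wc
  rw [hl] at gm gadj gd
  have hcs : G.Adj c (g 1) := by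
    have := gadj 0 (by omega)
    rwa [g0] at this
  have ws : G.dist (v j) (g 1) = j - 1 := by
    have := gd 1 j (by omega) le_rfl
    rw [gm, G.dist_comm] at this
    exact this
  have zs1 : j - 1 ≤ G.dist (v (j-1)) (g 1) := by
    have h1 := hc.dist_triangle (u := v (j-1)) (v := g 1) (w := c)
    rw [dist_eq_one_iff_adj.mpr hcs.symm] at h1
    omega
  have zs2 : G.dist (v (j-1)) (g 1) ≤ j := by
    have h1 := hc.dist_triangle (u := v (j-1)) (v := v j) (w := g 1)
    rw [dist_eq_one_iff_adj.mpr zw] at h1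
    omega
  -- final carry for a near pair c, c'
  have finish : ∀ c', c' ∈ K → c' ≠ c → (∀ i, j ≤ i → i ≤ m → G.dist (v i) c' = i) →
      RC G a0 b0 c0 (v j) c c' → False := by
    intro c' hc'K hc'c hnear hr
    have r := carry v j (m - j) (fun i _ h2 => vadj i (by omega))
      (fun i h1 h2 => by
        have f1 := mono c hcK hcx j i (by omega) (by omega) wc
        have f2 := hnear i (by omega) (by omega)
        exact gp_eq (hK c hcK c' hc'K hc'c.symm) (by omega) (by omega)) hr
    have e : j + (m - j) = m := by omega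
    rw [e] at r
    exact hend _ _ r
  by_cases hcase : G.Adj (g 1) x ∧ G.Adj (g 1) p₁
  · -- near pair c, x along g
    obtain ⟨sx, sp⟩ := hcase
    have acx := hK c hcK x hxK hcx
    have r1 := hR p₁ hp₁K c hcK x hxK hp₁c hp₁x hcx
    have r2 : RC G a0 b0 c0 (g 1) c x := by
      refine r1.move sp.symm (gp_eq acx ?_ ?_)
      · rw [dist_eq_one_iff_adj.mpr hcs.symm, dist_eq_one_iff_adj.mpr sx]
      · rw [dist_eq_one_iff_adj.mpr hcs.symm]; norm_num
    have r3 := carry g 1 (j-1) (fun i _ h2 => gadj i (by omega))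
      (fun i h1 h2 => by
        have f1 : G.dist (g i) c = i := by
          have := gd 0 i (by omega) (by omega)
          rw [g0, G.dist_comm] at this
          omega
        have f2 : G.dist (g i) x = i := by
          have e1 := gd 1 i (by omega) (by omega)
          have e2 := hc.dist_triangle (u := g i) (v := g 1) (w := x)
          rw [G.dist_comm (u := g i) (v := g 1), dist_eq_one_iff_adj.mpr sx] at e2
          have e3 := gd i j (by omega) le_rfl
          rw [gm] at e3
          have e4 := hc.dist_triangle (u := v j) (v := g i) (w := x)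
          rw [G.dist_comm (u := v j) (v := g i)] at e4
          omega
        exact gp_eq acx (by omega) (by omega)) r2
    have e : 1 + (j - 1) = j := by omega
    rw [e, gm] at r3
    exact finish x hxK hcx.symm (fun i _ h2 => hjx i h2) r3
  · -- a vertex c' not adjacent to g 1
    have hc' : ∃ c' ∈ K, c' ≠ c ∧ c' ≠ d ∧ ¬ G.Adj (g 1) c' ∧ G.dist (v (j-1)) c' = j - 1 ∧
        (∀ i, j ≤ i → i ≤ m → G.dist (v i) c' = i) := by
      rw [not_and_or] at hcase
      rcases hcase with h | h
      · exact ⟨x, hxK, hcx.symm, hdx.symm, h, zx, fun i _ h2 => hjx i h2⟩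
      · exact ⟨p₁, hp₁K, hp₁c, hp₁d, h, zp, fun i h1 h2 => mono p₁ hp₁K hp₁x j i h1 h2 wp⟩
    obtain ⟨c', hc'K, hc'c, hc'd, hnadj, zc', hnear⟩ := hc'
    have wc' := hnear j le_rfl hjm
    have acc' := hK c hcK c' hc'K hc'c.symm
    have adc' := hK d hdK c' hc'K hc'd.symm
    have hs_ne : g 1 ≠ c' := by
      intro h; rw [h] at ws; omega
    have dsc' : G.dist (g 1) c' = 2 := dist_two hs_ne hnadj hcs.symm acc'
    have hs_ned : g 1 ≠ d := by
      intro h; rw [h] at ws; omega
    have hnsd : ¬ G.Adj (g 1) d := by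
      intro h
      have h1 := hc.dist_triangle (u := v j) (v := g 1) (w := d)
      rw [dist_eq_one_iff_adj.mpr h] at h1
      omega
    have dsd : G.dist (g 1) d = 2 := dist_two hs_ned hnsd hcs.symm acd
    have r1 : RC G a0 b0 c0 (v (j-1)) (g 1) d :=
      rz.move2 hcs (gp_two dsd (by omega) (by omega) (by omega) (by omega) (by omega))
    have r2 : RC G a0 b0 c0 (v (j-1)) (g 1) c' :=
      r1.move3 adc' (gp_two dsc' (by omega) (by omega) (by omega) (by omega) (by omega))
    have r3 : RC G a0 b0 c0 (v j) (g 1) c' :=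
      r2.move zw (gp_two dsc' (by omega) (by omega) (by omega) (by omega) (by omega))
    have r4 : RC G a0 b0 c0 (v j) c c' :=
      r3.move2 hcs.symm (gp_eq acc' (by omega) (by omega))
    exact finish c' hc'K hc'c hnear r4

end Pool.Agent.V11146.Mob
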