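import Mathlib

set_option autoImplicit false

namespace Pool.Agent.V11146.Frust

open Finset SimpleGraph

/-- The number of edges of `G` with both ends in `S`. -/
noncomputable def edgesIn {V : Type} (G : SimpleGraph V) (S : Finset V) : ℕ :=
  Set.ncard {e : Sym2 V | e ∈ G.edgeSet ∧ ∀ v ∈ e, v ∈ S}

/-- `f(G)`: the number of triples of vertices inducing an odd number of edges. -/
noncomputable def frustrated {V : Type} (G : SimpleGraph V) : ℕ :=
  Set.ncard {S : Finset V | S.card = 3 ∧ Odd (edgesIn G S)}

section
variable {V : Type} [Fintype V] [DecidableEq V] (G : SimpleGraph V) [DecidableRel G.Adj]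

lemma edgesIn_eq (S : Finset V) :
    edgesIn G S = (G.edgeFinset.filter (fun e => ∀ v ∈ e, v ∈ S)).card := by
  unfold edgesIn
  rw [← Set.ncard_coe_finset]
  congr 1
  ext e
  simp

lemma edgesIn_triple {a b c : V} (hab : a ≠ b) (hac : a ≠ c) (hbc : b ≠ c) :
    edgesIn G {a, b, c} = (if G.Adj a b then 1 else 0) + (if G.Adj a c then 1 else 0) +
      (if G.Adj b c then 1 else 0) := by
  have h : G.edgeFinset.filter (fun e => ∀ v ∈ e, v ∈ ({a, b, c} : Finset V)) =
      ({s(a, b), s(a, c), s(b, c)} : Finset (Sym2 V)).filter (fun e => e ∈ G.edgeSet) := by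
    ext e
    induction e with
    | _ x y =>
      simp only [mem_filter, mem_edgeFinset, mem_edgeSet, Sym2.mem_iff, mem_insert, mem_singleton,
        forall_eq_or_imp, forall_eq]
      constructor
      · rintro ⟨h1, h2, h3⟩
        refine ⟨?_, h1⟩
        have hne := h1.ne
        rcases h2 with rfl | rfl | rfl <;> rcases h3 with rfl | rfl | rfl <;>
          first
          | exact absurd rfl hne
          | simp [Sym2.eq_swap]
      · rintro ⟨h1, h2⟩
        refine ⟨h2, ?_⟩
        rcases h1 with h1 | h1 | h1 <;> rw [Sym2.eq_iff] at h1 <;>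
          rcases h1 with ⟨rfl, rfl⟩ | ⟨rfl, rfl⟩ <;> simp
  rw [edgesIn_eq, h, card_filter]
  rw [sum_insert, sum_insert, sum_singleton]
  · simp only [mem_edgeSet]
    ring
  · simp only [mem_singleton, Sym2.eq_iff]
    tauto
  · simp only [mem_insert, mem_singleton, Sym2.eq_iff]
    tauto

lemma edgesIn_le {S : Finset V} (hS : S.card = 3) : edgesIn G S ≤ 3 := by
  obtain ⟨a, b, c, hab, hac, hbc, rfl⟩ := card_eq_three.mp hS
  rw [edgesIn_triple G hab hac hbc]
  split_ifs <;> omega

/-- the triples with at least two edges. -/
noncomputable def cher : Finset (Finset V) :=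
  (powersetCard 3 univ).filter (fun S => 2 ≤ edgesIn G S)

lemma mem_cher {S : Finset V} :
    S ∈ cher G ↔ ∃ x y z, y ≠ z ∧ G.Adj x y ∧ G.Adj x z ∧ S = {x, y, z} := by
  unfold cher
  rw [mem_filter, mem_powersetCard]
  constructor
  · rintro ⟨⟨_, h3⟩, h2⟩
    obtain ⟨a, b, c, hab, hac, hbc, rfl⟩ := card_eq_three.mp h3
    rw [edgesIn_triple G hab hac hbc] at h2
    by_cases h1 : G.Adj a b
    · by_cases h2' : G.Adj a c
      · exact ⟨a, b, c, hbc, h1, h2', rfl⟩
      · by_cases h3' : G.Adj b c
        · refine ⟨b, a, c, hac, h1.symm, h3', ?_⟩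
          ext x; simp; tauto
        · simp [h1, h2', h3'] at h2
    · by_cases h2' : G.Adj a c
      · by_cases h3' : G.Adj b c
        · refine ⟨c, a, b, hab, h2'.symm, h3'.symm, ?_⟩
          ext x; simp; tauto
        · simp [h1, h2', h3'] at h2
      · simp only [h1, h2', if_false] at h2
        split_ifs at h2 <;> omega
  · rintro ⟨x, y, z, hyz, hxy, hxz, rfl⟩
    refine ⟨⟨subset_univ _, ?_⟩, ?_⟩
    · rw [card_eq_three]
      exact ⟨x, y, z, hxy.ne, hxz.ne, hyz, rfl⟩
    · rw [edgesIn_triple G hxy.ne hxz.ne hyz]
      simp [hxy, hxz]

lemma card_triples_through {a b : V} (hab : a ≠ b) :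
    ((powersetCard 3 (univ : Finset V)).filter (fun S => a ∈ S ∧ b ∈ S)).card =
      Fintype.card V - 2 := by
  have h : (powersetCard 3 (univ : Finset V)).filter (fun S => a ∈ S ∧ b ∈ S) =
      (univ \ {a, b}).image (fun x => ({a, b, x} : Finset V)) := by
    ext S
    simp only [mem_filter, mem_powersetCard, mem_image, mem_sdiff, mem_univ, true_and,
      mem_insert, mem_singleton, not_or]
    constructor
    · rintro ⟨⟨_, h3⟩, ha, hb⟩
      have h1 : ({a, b} : Finset V) ⊆ S := by
        intro x hx
        simp only [mem_insert, mem_singleton] at hx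
        rcases hx with rfl | rfl <;> assumption
      have h2 : (S \ {a, b}).card = 1 := by
        rw [card_sdiff_of_subset h1, h3, card_pair hab]
      obtain ⟨x, hx⟩ := card_eq_one.mp h2
      have hx' : x ∈ S \ {a, b} := by rw [hx]; simp
      simp only [mem_sdiff, mem_insert, mem_singleton, not_or] at hx'
      refine ⟨x, hx'.2, ?_⟩
      ext y
      have := Finset.ext_iff.mp hx y
      simp only [mem_sdiff, mem_insert, mem_singleton, not_or] at this
      simp only [mem_insert, mem_singleton]
      constructor
      · rintro (rfl | rfl | rfl)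
        · exact ha
        · exact hb
        · exact hx'.1
      · intro hy
        by_cases h4 : y = a
        · exact Or.inl h4
        · by_cases h5 : y = b
          · exact Or.inr (Or.inl h5)
          · exact Or.inr (Or.inr (this.mp ⟨hy, h4, h5⟩))
    · rintro ⟨x, ⟨hxa, hxb⟩, rfl⟩
      refine ⟨⟨subset_univ _, ?_⟩, by simp, by simp⟩
      rw [card_eq_three]
      exact ⟨a, b, x, hab, Ne.symm hxa, Ne.symm hxb, rfl⟩
  rw [h, card_image_of_injOn, card_sdiff_of_subset (subset_univ _), card_pair hab, card_univ]
  intro x hx y hy hxy
  simp only [coe_sdiff, coe_univ, coe_insert, coe_singleton, Set.mem_sdiff, Set.mem_univ,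
    Set.mem_insert_iff, Set.mem_singleton_iff, not_or, true_and] at hx hy
  have := Finset.ext_iff.mp hxy x
  simp only [mem_insert, mem_singleton, or_true, true_iff] at this
  tauto

lemma sum_edgesIn :
    ∑ S ∈ powersetCard 3 (univ : Finset V), edgesIn G S =
      G.edgeFinset.card * (Fintype.card V - 2) := by
  simp only [edgesIn_eq, card_filter]
  rw [sum_comm]
  rw [sum_const_nat (m := Fintype.card V - 2)]
  intro e he
  induction e with
  | _ a b =>
    have hab : a ≠ b := by
      have : G.Adj a b := by simpa using he
      exact this.ne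
    rw [← card_triples_through hab, card_filter]
    apply sum_congr rfl
    intro S _
    congr 1
    simp

/-- `f(G) + 2 c(G) = t (n-2)`. -/
lemma frustrated_add :
    frustrated G + 2 * (cher G).card = G.edgeFinset.card * (Fintype.card V - 2) := by
  have h1 : frustrated G = ((powersetCard 3 (univ : Finset V)).filter
      (fun S => Odd (edgesIn G S))).card := by
    unfold frustrated
    rw [← Set.ncard_coe_finset]
    congr 1
    ext S
    simp
  rw [h1, ← sum_edgesIn]
  unfold cher
  rw [card_filter, card_filter, mul_sum, ← sum_add_distrib]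
  apply sum_congr rfl
  intro S hS
  have h3 := edgesIn_le G (mem_powersetCard.mp hS).2
  generalize edgesIn G S = m at h3
  interval_cases m
  · simp
  · simp
  · have : ¬ Odd 2 := by decide
    simp [this]
  · have : Odd 3 := by decide
    simp [this]

/-- the triples formed by `x` and two neighbours of `x`. -/
def centre (x : V) : Finset (Finset V) := (powersetCard 2 (G.neighborFinset x)).image (insert x)

lemma card_centre (x : V) : (centre G x).card = (G.degree x).choose 2 := by
  unfold centre
  rw [card_image_of_injOn, card_powersetCard, card_neighborFinset_eq_degree]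
  intro A hA B hB hAB
  rw [mem_coe, mem_powersetCard] at hA hB
  have hxA : x ∉ A := fun h => by simpa using hA.1 h
  have hxB : x ∉ B := fun h => by simpa using hB.1 h
  have := congrArg (fun S => S.erase x) hAB
  simpa [erase_insert hxA, erase_insert hxB] using this

lemma mem_centre {x : V} {S : Finset V} :
    S ∈ centre G x ↔ ∃ y z, y ≠ z ∧ G.Adj x y ∧ G.Adj x z ∧ S = {x, y, z} := by
  unfold centre
  rw [mem_image]
  constructor
  · rintro ⟨A, hA, rfl⟩
    rw [mem_powersetCard] at hA
    obtain ⟨y, z, hyz, rfl⟩ := card_eq_two.mp hA.2
    refine ⟨y, z, hyz, ?_, ?_, rfl⟩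
    · have := hA.1 (mem_insert_self y {z}); simpa using this
    · have := hA.1 (mem_insert_of_mem (mem_singleton_self z)); simpa using this
  · rintro ⟨y, z, hyz, hy, hz, rfl⟩
    refine ⟨{y, z}, ?_, rfl⟩
    rw [mem_powersetCard, card_pair hyz]
    refine ⟨?_, rfl⟩
    intro w hw
    simp only [mem_insert, mem_singleton] at hw
    rcases hw with rfl | rfl <;> simpa

lemma cher_eq : cher G = univ.biUnion (centre G) := by
  ext S
  rw [mem_cher, mem_biUnion]
  simp only [mem_univ, true_and, mem_centre]

lemma choose_le_cher (x : V) : (G.degree x).choose 2 ≤ (cher G).card := by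
  rw [← card_centre, cher_eq]
  apply card_le_card
  exact subset_biUnion_of_mem (centre G) (mem_univ x)

lemma cher_le_sum : (cher G).card ≤ ∑ x, (G.degree x).choose 2 := by
  rw [cher_eq]
  refine card_biUnion_le.trans ?_
  simp only [card_centre]
  exact le_rfl

lemma cher_eq_sum (hG : ∀ x y z, G.Adj x y → G.Adj x z → ¬ G.Adj y z) :
    (cher G).card = ∑ x, (G.degree x).choose 2 := by
  rw [cher_eq, card_biUnion]
  · simp only [card_centre]
  · intro x _ x' _ hne
    change Disjoint _ _
    rw [Finset.disjoint_left]
    intro S h1 h2
    rw [mem_centre] at h1 h2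
    obtain ⟨y, z, hyz, hy, hz, rfl⟩ := h1
    obtain ⟨y', z', hyz', hy', hz', h⟩ := h2
    have hx'S : x' ∈ ({x, y, z} : Finset V) := by rw [h]; simp
    have hxS : x ∈ ({x', y', z'} : Finset V) := by rw [← h]; simp
    have hyS : y ∈ ({x', y', z'} : Finset V) := by rw [← h]; simp
    have hzS : z ∈ ({x', y', z'} : Finset V) := by rw [← h]; simp
    have hadj : ∀ w ∈ ({x', y', z'} : Finset V), w ≠ x' → G.Adj x' w := by
      intro w hw hne'
      simp only [mem_insert, mem_singleton] at hw
      rcases hw with rfl | rfl | rfl
      · exact absurd rfl hne'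
      · exact hy'
      · exact hz'
    simp only [mem_insert, mem_singleton] at hx'S
    rcases hx'S with h1 | h1 | h1
    · exact hne h1.symm
    · subst h1
      exact hG x x' z hy hz (hadj z hzS (Ne.symm hyz))
    · subst h1
      exact hG x x' y hz hy (hadj y hyS hyz)

lemma two_choose (d : ℕ) : 2 * d.choose 2 = d * (d - 1) := by
  rw [Nat.choose_two_right]
  exact Nat.mul_div_cancel' (Nat.even_mul_pred_self d).two_dvd

lemma cher_le_maxdeg {D : ℕ} (hD : ∀ x, G.degree x ≤ D) :
    (cher G).card ≤ G.edgeFinset.card * (D - 1) := by
  have h1 := cher_le_sum G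
  have h2 : 2 * ∑ x, (G.degree x).choose 2 ≤ (∑ x, G.degree x) * (D - 1) := by
    rw [mul_sum, sum_mul]
    apply sum_le_sum
    intro x _
    rw [two_choose]
    exact Nat.mul_le_mul_left _ (Nat.sub_le_sub_right (hD x) 1)
  rw [sum_degrees_eq_twice_card_edges] at h2
  nlinarith

/-- edges avoiding `v`. -/
def away (v : V) : Finset (Sym2 V) := G.edgeFinset.filter (fun e => v ∉ e)

lemma card_away (v : V) : (away G v).card + G.degree v = G.edgeFinset.card := by
  have h : G.degree v = (G.edgeFinset.filter (fun e => v ∈ e)).card := by
    rw [← card_incidenceFinset_eq_degree]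
    congr 1
    ext e
    simp [mem_incidenceFinset, incidenceSet]
  rw [h]
  unfold away
  rw [add_comm]
  exact card_filter_add_card_filter_not (s := G.edgeFinset) (p := fun e => v ∈ e)

lemma cher_le (v : V) :
    (cher G).card ≤ (G.degree v).choose 2 + (away G v).card + (away G v).card.choose 2 := by
  have hsub : cher G ⊆ centre G v ∪
      ((away G v).image (fun e => insert v e.toFinset)) ∪
      ((powersetCard 2 (away G v)).image (fun P => P.biUnion (fun e => e.toFinset))) := by
    intro S hS
    rw [mem_cher] at hS
    obtain ⟨x, y, z, hyz, hy, hz, rfl⟩ := hS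
    by_cases hvx : v = x
    · subst hvx
      rw [mem_union, mem_union]
      left; left
      rw [mem_centre]
      exact ⟨y, z, hyz, hy, hz, rfl⟩
    · by_cases hvy : v = y
      · subst hvy
        rw [mem_union, mem_union]
        left; right
        rw [mem_image]
        refine ⟨s(x, z), ?_, ?_⟩
        · unfold away
          rw [mem_filter]
          refine ⟨by simpa using hz, ?_⟩
          simp only [Sym2.mem_iff, not_or]
          exact ⟨hvx, hyz⟩
        · ext w
          simp only [mem_insert, Sym2.mem_toFinset, Sym2.mem_iff, mem_singleton]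
          tauto
      · by_cases hvz : v = z
        · subst hvz
          rw [mem_union, mem_union]
          left; right
          rw [mem_image]
          refine ⟨s(x, y), ?_, ?_⟩
          · unfold away
            rw [mem_filter]
            refine ⟨by simpa using hy, ?_⟩
            simp only [Sym2.mem_iff, not_or]
            exact ⟨hvx, hvy⟩
          · ext w
            simp only [mem_insert, Sym2.mem_toFinset, Sym2.mem_iff, mem_singleton]
            tauto
        · rw [mem_union]
          right
          rw [mem_image]
          refine ⟨{s(x, y), s(x, z)}, ?_, ?_⟩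
          · rw [mem_powersetCard]
            constructor
            · intro e he
              simp only [mem_insert, mem_singleton] at he
              unfold away
              rw [mem_filter]
              rcases he with rfl | rfl
              · refine ⟨by simpa using hy, ?_⟩
                simp only [Sym2.mem_iff, not_or]
                exact ⟨hvx, hvy⟩
              · refine ⟨by simpa using hz, ?_⟩
                simp only [Sym2.mem_iff, not_or]
                exact ⟨hvx, hvz⟩
            · rw [card_pair]
              intro h
              rw [Sym2.eq_iff] at h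
              rcases h with h | h
              · exact hyz h.2
              · exact hz.ne h.1
          · ext w
            simp only [mem_biUnion, mem_insert, mem_singleton, Sym2.mem_toFinset]
            constructor
            · rintro ⟨e, rfl | rfl, h⟩
              · rw [Sym2.mem_iff] at h; tauto
              · rw [Sym2.mem_iff] at h; tauto
            · rintro (rfl | rfl | rfl)
              · exact ⟨s(w, y), Or.inl rfl, by simp⟩
              · exact ⟨s(x, w), Or.inl rfl, by simp⟩
              · exact ⟨s(x, w), Or.inr rfl, by simp⟩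
  refine (card_le_card hsub).trans ?_
  refine (card_union_le _ _).trans ?_
  refine Nat.add_le_add ((card_union_le _ _).trans ?_) ?_
  · rw [card_centre]
    exact Nat.add_le_add_left card_image_le _
  · refine card_image_le.trans ?_
    rw [card_powersetCard]

end

end Pool.Agent.V11146.Frust
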