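import Mathlib

set_option autoImplicit false

namespace Pool.Agent.V11146.Sample

open Finset SimpleGraph

open Classical in
/-- indicator of an ordered clique. -/
noncomputable def ind {V : Type} (G : SimpleGraph V) (k : ℕ) (f : Fin k → V) : ℝ :=
  if ∀ a b, a ≠ b → G.Adj (f a) (f b) then 1 else 0

/-- number of ordered `k`-cliques (as a real number). -/
noncomputable def oc {V : Type} [Fintype V] (G : SimpleGraph V) (k : ℕ) : ℝ := ∑ f : Fin k → V, ind G k f

lemma ind_nonneg {V : Type} (G : SimpleGraph V) (k : ℕ) (f : Fin k → V) : 0 ≤ ind G k f := by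
  unfold ind; split_ifs <;> norm_num

lemma ind_le_one {V : Type} (G : SimpleGraph V) (k : ℕ) (f : Fin k → V) : ind G k f ≤ 1 := by
  unfold ind; split_ifs <;> norm_num

lemma oc_nonneg {V : Type} [Fintype V] (G : SimpleGraph V) (k : ℕ) : 0 ≤ oc G k :=
  sum_nonneg (fun f _ => ind_nonneg G k f)

lemma oc_le {V : Type} [Fintype V] (G : SimpleGraph V) (k : ℕ) :
    oc G k ≤ (Fintype.card V : ℝ) ^ k := by
  classical
  unfold oc
  calc ∑ f : Fin k → V, ind G k f ≤ ∑ f : Fin k → V, (1:ℝ) := sum_le_sum (fun f _ => ind_le_one G k f)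
    _ = (Fintype.card V : ℝ) ^ k := by simp

/-- marginals of a uniformly random function. -/
lemma sum_comp_inj {I J U : Type} [Fintype I] [Fintype J] [Fintype U] [DecidableEq I]
    [DecidableEq J] (κ : J → I) (hκ : Function.Injective κ) (g : (J → U) → ℝ) :
    (Fintype.card U : ℝ) ^ (Fintype.card J) * ∑ φ : I → U, g (φ ∘ κ) =
      (Fintype.card U : ℝ) ^ (Fintype.card I) * ∑ ψ : J → U, g ψ := by
  classical
  have h1 : ∑ φ : I → U, g (φ ∘ κ) =
      ∑ x : ({i // i ∈ Set.range κ} → U) × ({i // ¬ i ∈ Set.range κ} → U),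
        g (fun j => x.1 ⟨κ j, j, rfl⟩) := by
    apply Fintype.sum_equiv (Equiv.piEquivPiSubtypeProd (fun i => i ∈ Set.range κ) (fun _ => U))
    intro φ
    rfl
  have h2 : ∑ α : {i // i ∈ Set.range κ} → U, g (fun j => α ⟨κ j, j, rfl⟩) = ∑ ψ : J → U, g ψ := by
    apply Fintype.sum_equiv ((Equiv.ofInjective κ hκ).symm.arrowCongr (Equiv.refl U))
    intro α
    rfl
  rw [h1, Fintype.sum_prod_type]
  simp only [sum_const, card_univ, nsmul_eq_mul]
  rw [← mul_sum, h2, ← mul_assoc]
  congr 1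
  rw [Fintype.card_fun, Nat.cast_pow, ← pow_add]
  congr 1
  have h3 : Fintype.card {i // ¬ i ∈ Set.range κ} = Fintype.card I - Fintype.card J := by
    rw [Fintype.card_subtype_compl]
    congr 1
    rw [← Set.card_range_of_injective hκ]
  have h4 : Fintype.card J ≤ Fintype.card I := Fintype.card_le_of_injective κ hκ
  omega

/-- the number of non-injective functions is small. -/
lemma card_noninj (I J : Type) [Fintype I] [Fintype J] [DecidableEq I] [DecidableEq J] :
    (Fintype.card I : ℝ) * (((univ : Finset (J → I)).filter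
      (fun κ => ¬ Function.Injective κ)).card : ℝ) ≤
      (Fintype.card J : ℝ) ^ 2 * (Fintype.card I : ℝ) ^ (Fintype.card J) := by
  classical
  rcases Nat.eq_zero_or_pos (Fintype.card J) with h0 | hJ
  · have : IsEmpty J := Fintype.card_eq_zero_iff.mp h0
    have h1 : ((univ : Finset (J → I)).filter (fun κ => ¬ Function.Injective κ)) = ∅ := by
      ext κ
      simp only [mem_filter, mem_univ, true_and, notMem_empty, iff_false, not_not]
      exact Function.injective_of_subsingleton κ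
    rw [h1]
    simp
  · have hsub : ((univ : Finset (J → I)).filter (fun κ => ¬ Function.Injective κ)) ⊆
        (univ : Finset (J × J)).biUnion (fun p =>
          (univ : Finset (J → I)).filter (fun κ => p.1 ≠ p.2 ∧ κ p.1 = κ p.2)) := by
      intro κ hκ
      simp only [mem_filter, mem_univ, true_and, Function.Injective, not_forall] at hκ
      obtain ⟨a, b, hab, hne⟩ := hκ
      simp only [mem_biUnion, mem_filter, mem_univ, true_and]
      exact ⟨(a, b), hne, hab⟩
    have hb : ∀ p : J × J, ((univ : Finset (J → I)).filter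
        (fun κ => p.1 ≠ p.2 ∧ κ p.1 = κ p.2)).card ≤
        (Fintype.card I) ^ (Fintype.card J - 1) := by
      rintro ⟨a, b⟩
      have : (Fintype.card I) ^ (Fintype.card J - 1) =
          (univ : Finset ({j // j ≠ b} → I)).card := by
        rw [card_univ, Fintype.card_fun]
        congr 1
        simp
      rw [this]
      apply card_le_card_of_injOn (fun κ j => κ j.1) (fun _ _ => mem_univ _)
      intro κ hκ κ' hκ' h
      simp only [ne_eq, coe_filter, mem_univ, true_and, Set.mem_ofPred_eq] at hκ hκ'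
      ext j
      by_cases hj : j = b
      · subst hj
        rw [← hκ.2, ← hκ'.2]
        exact congrFun h ⟨a, hκ.1⟩
      · exact congrFun h ⟨j, hj⟩
    have h1 : ((univ : Finset (J → I)).filter (fun κ => ¬ Function.Injective κ)).card ≤
        (Fintype.card J) ^ 2 * (Fintype.card I) ^ (Fintype.card J - 1) := by
      refine (card_le_card hsub).trans (card_biUnion_le.trans ?_)
      refine (sum_le_sum (fun p _ => hb p)).trans ?_
      rw [sum_const, card_univ, Fintype.card_prod, smul_eq_mul, sq]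
    have h2 : (Fintype.card I) * ((univ : Finset (J → I)).filter
        (fun κ => ¬ Function.Injective κ)).card ≤
        (Fintype.card J) ^ 2 * (Fintype.card I) ^ (Fintype.card J) := by
      calc _ ≤ (Fintype.card I) * ((Fintype.card J) ^ 2 * (Fintype.card I) ^ (Fintype.card J - 1)) :=
            Nat.mul_le_mul_left _ h1
        _ = (Fintype.card J) ^ 2 * (Fintype.card I) ^ (Fintype.card J - 1 + 1) := by ring
        _ = _ := by rw [Nat.sub_add_cancel hJ]
    exact_mod_cast h2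

section
variable {U : Type} [Fintype U] [Nonempty U] (G : SimpleGraph U)

omit [Fintype U] [Nonempty U] in
lemma oc_comap_eq {M : ℕ} (k : ℕ) (φ : Fin M → U) :
    oc (G.comap φ) k = ∑ κ : Fin k → Fin M, ind G k (φ ∘ κ) := rfl

/-- lower bound for the average number of ordered cliques. -/
lemma lower (k M : ℕ) :
    (Fintype.card U : ℝ) ^ M * oc G k * ((M : ℝ) ^ k -
      (((univ : Finset (Fin k → Fin M)).filter (fun κ => ¬ Function.Injective κ)).card : ℝ)) ≤
      (Fintype.card U : ℝ) ^ k * ∑ φ : Fin M → U, oc (G.comap φ) k := by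
  classical
  simp only [oc_comap_eq]
  rw [sum_comm, mul_sum]
  have h1 : (M : ℝ) ^ k = (((univ : Finset (Fin k → Fin M)).filter
      (fun κ => Function.Injective κ)).card : ℝ) + (((univ : Finset (Fin k → Fin M)).filter
      (fun κ => ¬ Function.Injective κ)).card : ℝ) := by
    have := card_filter_add_card_filter_not (s := (univ : Finset (Fin k → Fin M)))
      (p := fun κ => Function.Injective κ)
    rw [card_univ, Fintype.card_fun, Fintype.card_fin, Fintype.card_fin] at this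
    exact_mod_cast this.symm
  have h2 : ∑ κ ∈ (univ : Finset (Fin k → Fin M)).filter (fun κ => Function.Injective κ),
      (Fintype.card U : ℝ) ^ k * ∑ φ : Fin M → U, ind G k (φ ∘ κ) =
      (((univ : Finset (Fin k → Fin M)).filter (fun κ => Function.Injective κ)).card : ℝ) *
        ((Fintype.card U : ℝ) ^ M * oc G k) := by
    rw [← nsmul_eq_mul, ← sum_const]
    apply sum_congr rfl
    intro κ hκ
    have := sum_comp_inj (U := U) κ (mem_filter.mp hκ).2 (ind G k)
    rw [Fintype.card_fin, Fintype.card_fin] at this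
    exact this
  have h3 : ∑ κ ∈ (univ : Finset (Fin k → Fin M)).filter (fun κ => Function.Injective κ),
      (Fintype.card U : ℝ) ^ k * ∑ φ : Fin M → U, ind G k (φ ∘ κ) ≤
      ∑ κ : Fin k → Fin M, (Fintype.card U : ℝ) ^ k * ∑ φ : Fin M → U, ind G k (φ ∘ κ) := by
    apply sum_le_sum_of_subset_of_nonneg (filter_subset _ _)
    intro κ _ _
    exact mul_nonneg (by positivity) (sum_nonneg (fun φ _ => ind_nonneg _ _ _))
  rw [h1]
  calc _ = (((univ : Finset (Fin k → Fin M)).filter (fun κ => Function.Injective κ)).card : ℝ) *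
        ((Fintype.card U : ℝ) ^ M * oc G k) := by ring
    _ ≤ _ := by rw [← h2]; exact h3

open Classical in
/-- upper bound for the average number of ordered cliques. -/
lemma upper (k M : ℕ) :
    (Fintype.card U : ℝ) ^ k * ((((univ : Finset (Fin M → U)).filter
      (fun φ => ¬ (G.comap φ).CliqueFree k)).card : ℝ)) ≤
      (Fintype.card U : ℝ) ^ M * oc G k * (M : ℝ) ^ k := by
  classical
  have h1 : ((((univ : Finset (Fin M → U)).filter
      (fun φ => ¬ (G.comap φ).CliqueFree k)).card : ℝ)) ≤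
      ∑ φ : Fin M → U, ∑ κ ∈ (univ : Finset (Fin k → Fin M)).filter
        (fun κ => Function.Injective κ), ind G k (φ ∘ κ) := by
    rw [card_filter]
    push_cast
    apply sum_le_sum
    intro φ _
    split_ifs with h
    · exact sum_nonneg (fun κ _ => ind_nonneg _ _ _)
    · let e := SimpleGraph.topEmbeddingOfNotCliqueFree h
      have h2 : (fun a => e a) ∈ (univ : Finset (Fin k → Fin M)).filter
          (fun κ => Function.Injective κ) := by
        rw [mem_filter]
        exact ⟨mem_univ _, e.injective⟩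
      have h3 : ind G k (φ ∘ (fun a => e a)) = 1 := by
        unfold ind
        rw [if_pos]
        intro a b hab
        have h4 : (G.comap φ).Adj (e a) (e b) := by
          rw [e.map_adj_iff]
          exact hab
        exact h4
      rw [← h3]
      exact single_le_sum (f := fun κ : Fin k → Fin M => ind G k (φ ∘ κ))
        (fun κ _ => ind_nonneg _ _ _) h2
  have h2 : ∑ κ ∈ (univ : Finset (Fin k → Fin M)).filter (fun κ => Function.Injective κ),
      (Fintype.card U : ℝ) ^ k * ∑ φ : Fin M → U, ind G k (φ ∘ κ) =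
      (((univ : Finset (Fin k → Fin M)).filter (fun κ => Function.Injective κ)).card : ℝ) *
        ((Fintype.card U : ℝ) ^ M * oc G k) := by
    rw [← nsmul_eq_mul, ← sum_const]
    apply sum_congr rfl
    intro κ hκ
    have := sum_comp_inj (U := U) κ (mem_filter.mp hκ).2 (ind G k)
    rw [Fintype.card_fin, Fintype.card_fin] at this
    exact this
  have h3 : (((univ : Finset (Fin k → Fin M)).filter (fun κ => Function.Injective κ)).card : ℝ)
      ≤ (M : ℝ) ^ k := by
    have : ((univ : Finset (Fin k → Fin M)).filter (fun κ => Function.Injective κ)).card ≤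
        (univ : Finset (Fin k → Fin M)).card := card_filter_le _ _
    rw [card_univ, Fintype.card_fun, Fintype.card_fin, Fintype.card_fin] at this
    exact_mod_cast this
  calc _ ≤ (Fintype.card U : ℝ) ^ k * ∑ φ : Fin M → U,
        ∑ κ ∈ (univ : Finset (Fin k → Fin M)).filter
        (fun κ => Function.Injective κ), ind G k (φ ∘ κ) :=
        mul_le_mul_of_nonneg_left h1 (by positivity)
    _ = ∑ κ ∈ (univ : Finset (Fin k → Fin M)).filter (fun κ => Function.Injective κ),
      (Fintype.card U : ℝ) ^ k * ∑ φ : Fin M → U, ind G k (φ ∘ κ) := by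
        rw [sum_comm, mul_sum]
    _ = _ := h2
    _ ≤ (M : ℝ) ^ k * ((Fintype.card U : ℝ) ^ M * oc G k) :=
        mul_le_mul_of_nonneg_right h3 (mul_nonneg (by positivity) (oc_nonneg _ _))
    _ = _ := by ring

/-- upper bound for the average of a power of the number of ordered edges. -/
lemma upper_pow (s M : ℕ) (hM : 0 < M) :
    (Fintype.card U : ℝ) ^ (s * 2) * ∑ φ : Fin M → U, oc (G.comap φ) 2 ^ s ≤
      (Fintype.card U : ℝ) ^ M * ((M : ℝ) ^ (s * 2) * oc G 2 ^ s +
        (Fintype.card U : ℝ) ^ (s * 2) * (((s * 2 : ℕ) : ℝ) ^ 2 * (M : ℝ) ^ (s * 2) / M)) := by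
  classical
  -- the indicator of `s` ordered edges
  let g : (Fin s × Fin 2 → U) → ℝ := fun ψ => ∏ a : Fin s, ind G 2 (fun b => ψ (a, b))
  have g0 : ∀ ψ, 0 ≤ g ψ := fun ψ => prod_nonneg (fun a _ => ind_nonneg _ _ _)
  have g1 : ∀ ψ, g ψ ≤ 1 := fun ψ => prod_le_one (fun a _ => ind_nonneg _ _ _)
    (fun a _ => ind_le_one _ _ _)
  have hsum : ∑ ψ, g ψ = oc G 2 ^ s := by
    unfold oc
    rw [Fintype.sum_pow]
    exact Fintype.sum_equiv (Equiv.curry (Fin s) (Fin 2) U) _ _ (fun ψ => rfl)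
  have hexp : ∀ φ : Fin M → U, oc (G.comap φ) 2 ^ s =
      ∑ κ : Fin s × Fin 2 → Fin M, g (φ ∘ κ) := by
    intro φ
    rw [oc_comap_eq, Fintype.sum_pow]
    exact (Fintype.sum_equiv (Equiv.curry (Fin s) (Fin 2) (Fin M)) _ _ (fun ψ => rfl)).symm
  simp only [hexp]
  rw [sum_comm, mul_sum]
  rw [← sum_filter_add_sum_filter_not (univ : Finset (Fin s × Fin 2 → Fin M))
    (fun κ => Function.Injective κ)]
  have hcJ : Fintype.card (Fin s × Fin 2) = s * 2 := by simp
  have h2 : ∑ κ ∈ (univ : Finset (Fin s × Fin 2 → Fin M)).filter (fun κ => Function.Injective κ),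
      (Fintype.card U : ℝ) ^ (s * 2) * ∑ φ : Fin M → U, g (φ ∘ κ) =
      (((univ : Finset (Fin s × Fin 2 → Fin M)).filter
        (fun κ => Function.Injective κ)).card : ℝ) *
        ((Fintype.card U : ℝ) ^ M * oc G 2 ^ s) := by
    rw [← nsmul_eq_mul, ← sum_const]
    apply sum_congr rfl
    intro κ hκ
    have := sum_comp_inj (U := U) κ (mem_filter.mp hκ).2 g
    rw [Fintype.card_fin, hcJ, hsum] at this
    exact this
  have h3 : (((univ : Finset (Fin s × Fin 2 → Fin M)).filter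
      (fun κ => Function.Injective κ)).card : ℝ) ≤ (M : ℝ) ^ (s * 2) := by
    have : ((univ : Finset (Fin s × Fin 2 → Fin M)).filter
      (fun κ => Function.Injective κ)).card ≤
        (univ : Finset (Fin s × Fin 2 → Fin M)).card := card_filter_le _ _
    rw [card_univ, Fintype.card_fun, Fintype.card_fin, hcJ] at this
    exact_mod_cast this
  have h4 : ∑ κ ∈ (univ : Finset (Fin s × Fin 2 → Fin M)).filter
      (fun κ => ¬ Function.Injective κ),
      (Fintype.card U : ℝ) ^ (s * 2) * ∑ φ : Fin M → U, g (φ ∘ κ) ≤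
      (((univ : Finset (Fin s × Fin 2 → Fin M)).filter
        (fun κ => ¬ Function.Injective κ)).card : ℝ) *
        ((Fintype.card U : ℝ) ^ (s * 2) * (Fintype.card U : ℝ) ^ M) := by
    rw [← nsmul_eq_mul, ← sum_const]
    apply sum_le_sum
    intro κ _
    apply mul_le_mul_of_nonneg_left _ (by positivity)
    calc ∑ φ : Fin M → U, g (φ ∘ κ) ≤ ∑ φ : Fin M → U, (1:ℝ) := sum_le_sum (fun φ _ => g1 _)
      _ = (Fintype.card U : ℝ) ^ M := by simp
  have h5 := card_noninj (Fin M) (Fin s × Fin 2)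
  rw [Fintype.card_fin, hcJ] at h5
  have hM' : (0:ℝ) < M := by exact_mod_cast hM
  have h6 : (((univ : Finset (Fin s × Fin 2 → Fin M)).filter
        (fun κ => ¬ Function.Injective κ)).card : ℝ) ≤
        ((s * 2 : ℕ) : ℝ) ^ 2 * (M : ℝ) ^ (s * 2) / M := by
    rw [le_div_iff₀ hM']
    linarith
  rw [h2]
  have hoc : 0 ≤ (Fintype.card U : ℝ) ^ M * oc G 2 ^ s :=
    mul_nonneg (by positivity) (pow_nonneg (oc_nonneg _ _) _)
  have hUU : 0 ≤ ((Fintype.card U : ℝ) ^ (s * 2) * (Fintype.card U : ℝ) ^ M) := by positivity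
  calc _ ≤ (M : ℝ) ^ (s * 2) * ((Fintype.card U : ℝ) ^ M * oc G 2 ^ s) +
        ((s * 2 : ℕ) : ℝ) ^ 2 * (M : ℝ) ^ (s * 2) / M *
        ((Fintype.card U : ℝ) ^ (s * 2) * (Fintype.card U : ℝ) ^ M) :=
        add_le_add (mul_le_mul_of_nonneg_right h3 hoc)
          (h4.trans (mul_le_mul_of_nonneg_right h6 hUU))
    _ = _ := by ring

/-- The sampling inequality. -/
lemma key (s r M : ℕ) (hM : 0 < M) (hsM : s ^ 2 ≤ M) (Λ : ℝ) (hΛ : 0 ≤ Λ)
    (H : ∀ K : SimpleGraph (Fin M), K.CliqueFree (r + 1) → oc K s ^ 2 ≤ Λ * oc K 2 ^ s) :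
    (1 - (s:ℝ) ^ 2 / M) ^ 2 * (oc G s / (Fintype.card U : ℝ) ^ s) ^ 2 ≤
      Λ * ((oc G 2 / (Fintype.card U : ℝ) ^ 2) ^ s + ((s * 2 : ℕ) : ℝ) ^ 2 / M) +
      (M : ℝ) ^ (r + 1) * (oc G (r + 1) / (Fintype.card U : ℝ) ^ (r + 1)) := by
  classical
  set N : ℝ := (Fintype.card U : ℝ) with hN
  have hN0 : 0 < N := by rw [hN]; exact_mod_cast Fintype.card_pos
  have hM' : (0:ℝ) < M := by exact_mod_cast hM
  -- lower bound
  have h1 := lower G s M
  rw [← hN] at h1
  have h2 := card_noninj (Fin M) (Fin s)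
  rw [Fintype.card_fin, Fintype.card_fin] at h2
  set B : ℝ := (((univ : Finset (Fin s → Fin M)).filter
    (fun κ => ¬ Function.Injective κ)).card : ℝ) with hB
  have h3 : B ≤ (s:ℝ) ^ 2 / M * (M:ℝ) ^ s := by
    rw [div_mul_eq_mul_div, le_div_iff₀ hM']
    linarith
  set Z : ℝ := ∑ φ : Fin M → U, oc (G.comap φ) s with hZ
  have h4 : N ^ M * oc G s * ((1 - (s:ℝ) ^ 2 / M) * (M:ℝ) ^ s) ≤ N ^ s * Z := by
    refine le_trans ?_ h1
    apply mul_le_mul_of_nonneg_left _ (mul_nonneg (by positivity) (oc_nonneg _ _))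
    linarith
  -- Cauchy-Schwarz
  have h5 : Z ^ 2 ≤ N ^ M * ∑ φ : Fin M → U, oc (G.comap φ) s ^ 2 := by
    have := sq_sum_le_card_mul_sum_sq (s := (univ : Finset (Fin M → U)))
      (f := fun φ => oc (G.comap φ) s)
    rw [card_univ, Fintype.card_fun, Fintype.card_fin] at this
    push_cast at this
    exact this
  -- pointwise bound
  have h6 : ∑ φ : Fin M → U, oc (G.comap φ) s ^ 2 ≤
      Λ * ∑ φ : Fin M → U, oc (G.comap φ) 2 ^ s +
      (M:ℝ) ^ (s * 2) * ((((univ : Finset (Fin M → U)).filter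
      (fun φ => ¬ (G.comap φ).CliqueFree (r+1))).card : ℝ)) := by
    rw [card_filter]
    push_cast
    rw [mul_sum, mul_sum, ← sum_add_distrib]
    apply sum_le_sum
    intro φ _
    split_ifs with h
    · have := H (G.comap φ) h
      linarith
    · have h7 : oc (G.comap φ) s ≤ (M:ℝ) ^ s := by
        have := oc_le (G.comap φ) s
        rwa [Fintype.card_fin] at this
      have h8 : oc (G.comap φ) s ^ 2 ≤ ((M:ℝ) ^ s) ^ 2 :=
        pow_le_pow_left₀ (oc_nonneg _ _) h7 2
      rw [← pow_mul] at h8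
      have h9 : 0 ≤ Λ * oc (G.comap φ) 2 ^ s := mul_nonneg hΛ (pow_nonneg (oc_nonneg _ _) _)
      linarith
  have h7 := upper_pow G s M hM
  rw [← hN] at h7
  have h8 := upper G (r+1) M
  rw [← hN] at h8
  set Y : ℝ := ∑ φ : Fin M → U, oc (G.comap φ) s ^ 2 with hY
  set X : ℝ := ∑ φ : Fin M → U, oc (G.comap φ) 2 ^ s with hX
  set C : ℝ := ((((univ : Finset (Fin M → U)).filter
      (fun φ => ¬ (G.comap φ).CliqueFree (r+1))).card : ℝ)) with hC
  -- normalise
  have hNM : 0 < N ^ M := by positivity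
  have k1 : X / N ^ M ≤ (M:ℝ) ^ (s * 2) * ((oc G 2 / N ^ 2) ^ s + ((s * 2 : ℕ) : ℝ) ^ 2 / M) := by
    rw [div_le_iff₀ hNM]
    have e1 : N ^ (s * 2) * X ≤ N ^ (s * 2) * ((M:ℝ) ^ (s * 2) *
        ((oc G 2 / N ^ 2) ^ s + ((s * 2 : ℕ) : ℝ) ^ 2 / M) * N ^ M) := by
      refine h7.trans (le_of_eq ?_)
      rw [div_pow, ← pow_mul, mul_comm 2 s]
      field_simp
    exact le_of_mul_le_mul_left e1 (by positivity)
  have k2 : C / N ^ M ≤ (M:ℝ) ^ (r+1) * (oc G (r+1) / N ^ (r+1)) := by
    rw [div_le_iff₀ hNM]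
    have e1 : N ^ (r+1) * C ≤ N ^ (r+1) * ((M:ℝ) ^ (r+1) * (oc G (r+1) / N ^ (r+1)) * N ^ M) := by
      refine h8.trans (le_of_eq ?_)
      field_simp
    exact le_of_mul_le_mul_left e1 (by positivity)
  have k3 : (1 - (s:ℝ) ^ 2 / M) * (oc G s / N ^ s) * (M:ℝ) ^ s ≤ Z / N ^ M := by
    rw [le_div_iff₀ hNM]
    have e1 : N ^ s * ((1 - (s:ℝ) ^ 2 / M) * (oc G s / N ^ s) * (M:ℝ) ^ s * N ^ M) ≤ N ^ s * Z := by
      refine le_trans (le_of_eq ?_) h4
      field_simp
    exact le_of_mul_le_mul_left e1 (by positivity)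
  have hd0 : 0 ≤ 1 - (s:ℝ) ^ 2 / M := by
    rw [sub_nonneg, div_le_one hM']
    exact_mod_cast hsM
  have hz0 : 0 ≤ oc G s / N ^ s := div_nonneg (oc_nonneg _ _) (by positivity)
  have k4 : ((1 - (s:ℝ) ^ 2 / M) * (oc G s / N ^ s) * (M:ℝ) ^ s) ^ 2 ≤ (Z / N ^ M) ^ 2 :=
    pow_le_pow_left₀ (by positivity) k3 2
  have k5 : (Z / N ^ M) ^ 2 ≤ Y / N ^ M := by
    rw [div_pow, div_le_div_iff₀ (by positivity) hNM]
    calc Z ^ 2 * N ^ M ≤ (N ^ M * Y) * N ^ M := mul_le_mul_of_nonneg_right h5 hNM.le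
      _ = Y * (N ^ M) ^ 2 := by ring
  have k6 : Y / N ^ M ≤ Λ * (X / N ^ M) + (M:ℝ) ^ (s * 2) * (C / N ^ M) := by
    rw [div_le_iff₀ hNM]
    refine h6.trans (le_of_eq ?_)
    field_simp
  have hMs : (0:ℝ) < (M:ℝ) ^ (s * 2) := by positivity
  have k7 : (M:ℝ) ^ (s * 2) * ((1 - (s:ℝ) ^ 2 / M) ^ 2 * (oc G s / N ^ s) ^ 2) ≤
      (M:ℝ) ^ (s * 2) * (Λ * ((oc G 2 / N ^ 2) ^ s + ((s * 2 : ℕ) : ℝ) ^ 2 / M) +
      (M : ℝ) ^ (r + 1) * (oc G (r + 1) / N ^ (r + 1))) := by
    calc _ = ((1 - (s:ℝ) ^ 2 / M) * (oc G s / N ^ s) * (M:ℝ) ^ s) ^ 2 := by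
            rw [pow_mul]; ring
      _ ≤ _ := k4.trans (k5.trans k6)
      _ ≤ Λ * ((M:ℝ) ^ (s * 2) * ((oc G 2 / N ^ 2) ^ s + ((s * 2 : ℕ) : ℝ) ^ 2 / M)) +
          (M:ℝ) ^ (s * 2) * ((M:ℝ) ^ (r+1) * (oc G (r+1) / N ^ (r+1))) :=
          add_le_add (mul_le_mul_of_nonneg_left k1 hΛ) (mul_le_mul_of_nonneg_left k2 hMs.le)
      _ = _ := by ring
  exact le_of_mul_le_mul_left k7 hMs

end

end Pool.Agent.V11146.Sample
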