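import Mathlib
import Pool.Agent.V11146.Sample

set_option autoImplicit false

namespace Pool.Agent.V11146.Sample

open Finset SimpleGraph

/-- the number of `k`-element cliques. -/
noncomputable def cliqueCount {V : Type} (G : SimpleGraph V) (k : ℕ) : ℕ :=
  Set.ncard {S : Finset V | G.IsNClique k S}

lemma ind_comp {V W : Type} (G : SimpleGraph V) (φ : W → V) (k : ℕ) (f : Fin k → W) :
    ind (G.comap φ) k f = ind G k (φ ∘ f) := rfl

lemma oc_eq_card {V : Type} [Fintype V] [DecidableEq V] (G : SimpleGraph V) [DecidableRel G.Adj]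
    (k : ℕ) : oc G k = (((univ : Finset (Fin k → V)).filter
      (fun f => ∀ a b, a ≠ b → G.Adj (f a) (f b))).card : ℝ) := by
  unfold oc ind
  rw [card_filter]
  push_cast
  apply sum_congr rfl
  intro f _
  congr

lemma injective_of_clique {V : Type} (G : SimpleGraph V) {k : ℕ} {f : Fin k → V}
    (hf : ∀ a b, a ≠ b → G.Adj (f a) (f b)) : Function.Injective f := by
  intro a b hab
  by_contra hne
  exact (hf a b hne).ne hab

/-- `oc G k = k! * (number of cliques)`. -/
lemma oc_eq_factorial {V : Type} [Fintype V] (G : SimpleGraph V) (k : ℕ) :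
    oc G k = (k.factorial : ℝ) * (cliqueCount G k : ℝ) := by
  classical
  rw [oc_eq_card]
  have h1 : cliqueCount G k = ((univ : Finset (Finset V)).filter (fun S => G.IsNClique k S)).card := by
    unfold cliqueCount
    rw [← Set.ncard_coe_finset]
    congr 1
    ext S
    simp
  rw [h1]
  have h2 : ((univ : Finset (Fin k → V)).filter (fun f => ∀ a b, a ≠ b → G.Adj (f a) (f b))).card =
      ((univ : Finset (Finset V)).filter (fun S => G.IsNClique k S)).card * k.factorial := by
    rw [card_eq_sum_card_fiberwise (f := fun f => univ.image f)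
      (t := (univ : Finset (Finset V)).filter (fun S => G.IsNClique k S))]
    · rw [sum_const_nat (m := k.factorial)]
      intro S hS
      rw [mem_filter, isNClique_iff] at hS
      obtain ⟨_, hS1, hS2⟩ := hS
      have h3 : ((univ : Finset (Fin k → V)).filter
          (fun f => ∀ a b, a ≠ b → G.Adj (f a) (f b))).filter (fun f => univ.image f = S) =
          (univ : Finset (Fin k ≃ S)).image (fun σ a => (σ a).1) := by
        ext f
        simp only [mem_filter, mem_univ, true_and, mem_image]
        constructor
        · rintro ⟨hf, himg⟩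
          have hinj := injective_of_clique G hf
          have hmem : ∀ a, f a ∈ S := by
            intro a; rw [← himg]; exact mem_image_of_mem _ (mem_univ a)
          refine ⟨Equiv.ofBijective (fun a => ⟨f a, hmem a⟩) ⟨?_, ?_⟩, ?_⟩
          · intro a b hab
            exact hinj (by simpa using hab)
          · rintro ⟨v, hv⟩
            rw [← himg, mem_image] at hv
            obtain ⟨a, _, ha⟩ := hv
            exact ⟨a, by simpa using ha⟩
          · rfl
        · rintro ⟨σ, rfl⟩
          constructor
          · intro a b hab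
            apply hS1 (σ a).2 (σ b).2
            intro h
            exact hab (σ.injective (Subtype.ext h))
          · ext v
            simp only [mem_image, mem_univ, true_and]
            constructor
            · rintro ⟨a, rfl⟩; exact (σ a).2
            · intro hv
              exact ⟨σ.symm ⟨v, hv⟩, by simp⟩
      rw [h3, card_image_of_injective, card_univ, Fintype.card_equiv
        (Fintype.equivOfCardEq (by simp [hS2])), Fintype.card_fin]
      intro σ τ h
      ext a
      exact congrFun h a
    · intro f hf
      simp only [coe_filter, mem_univ, true_and, Set.mem_ofPred_eq] at hf ⊢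
      rw [isNClique_iff]
      constructor
      · intro x hx y hy hxy
        simp only [coe_image, coe_univ, Set.image_univ, Set.mem_range] at hx hy
        obtain ⟨a, rfl⟩ := hx
        obtain ⟨b, rfl⟩ := hy
        exact hf a b (fun h => hxy (by rw [h]))
      · rw [card_image_of_injective _ (injective_of_clique G hf), card_univ, Fintype.card_fin]
  rw [h2]
  push_cast
  ring

lemma cliqueFree_iff {V : Type} (G : SimpleGraph V) (k : ℕ) :
    G.CliqueFree k ↔ ∀ f : Fin k → V, ¬ (∀ a b, a ≠ b → G.Adj (f a) (f b)) := by
  classical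
  constructor
  · intro h f hf
    apply h (univ.image f)
    rw [isNClique_iff]
    constructor
    · intro x hx y hy hxy
      simp only [coe_image, coe_univ, Set.image_univ, Set.mem_range] at hx hy
      obtain ⟨a, rfl⟩ := hx
      obtain ⟨b, rfl⟩ := hy
      exact hf a b (fun h => hxy (by rw [h]))
    · rw [card_image_of_injective _ (injective_of_clique G hf), card_univ, Fintype.card_fin]
  · intro h
    by_contra hcon
    let e := SimpleGraph.topEmbeddingOfNotCliqueFree hcon
    apply h (fun a => e a)
    intro a b hab
    have : G.Adj (e a) (e b) := by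
      rw [e.map_adj_iff]
      exact hab
    exact this

lemma oc_two {V : Type} [Fintype V] [DecidableEq V] (G : SimpleGraph V) [DecidableRel G.Adj] :
    oc G 2 = ∑ x, ∑ y, (if G.Adj x y then (1:ℝ) else 0) := by
  rw [← Fintype.sum_prod_type']
  unfold oc
  apply Fintype.sum_equiv (finTwoArrowEquiv V)
  intro f
  unfold ind
  have : (∀ a b : Fin 2, a ≠ b → G.Adj (f a) (f b)) ↔ G.Adj (f 0) (f 1) := by
    constructor
    · intro h; exact h 0 1 (by decide)
    · intro h a b hab
      fin_cases a <;> fin_cases b
      · exact absurd rfl hab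
      · exact h
      · exact h.symm
      · exact absurd rfl hab
  simp only [this]
  simp [finTwoArrowEquiv]

lemma oc_two_degree {V : Type} [Fintype V] [DecidableEq V] (G : SimpleGraph V)
    [DecidableRel G.Adj] : oc G 2 = ∑ x, (G.degree x : ℝ) := by
  rw [oc_two]
  apply sum_congr rfl
  intro x _
  rw [← card_neighborFinset_eq_degree, neighborFinset_eq_filter, card_filter]
  push_cast
  rfl

lemma oc_two_edges {V : Type} [Fintype V] (G : SimpleGraph V) :
    oc G 2 = 2 * (G.edgeSet.ncard : ℝ) := by
  classical
  rw [oc_two_degree]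
  have h1 := G.sum_degrees_eq_twice_card_edges
  have h2 : G.edgeSet.ncard = G.edgeFinset.card := by
    rw [← Set.ncard_coe_finset]; simp
  rw [h2]
  exact_mod_cast h1

/-- Truncation: few ordered cliques use a vertex of small degree. -/
lemma trunc {V : Type} [Fintype V] [DecidableEq V] (G : SimpleGraph V) [DecidableRel G.Adj]
    (s : ℕ) (hs : 2 ≤ s) (τ : ℝ) (hτ : 0 ≤ τ) :
    oc G s ≤ oc (G.comap (Subtype.val : {v : V // τ ≤ (G.degree v : ℝ)} → V)) s +
      s * (τ ^ (s - 2) * oc G 2) := by
  classical
  set Hi := {v : V // τ ≤ (G.degree v : ℝ)} with hHi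
  have hsplit : oc G s = ∑ f ∈ (univ : Finset (Fin s → V)).filter
      (fun f => ∀ a, τ ≤ (G.degree (f a) : ℝ)), ind G s f + ∑ f ∈ (univ : Finset (Fin s → V)).filter
      (fun f => ¬ ∀ a, τ ≤ (G.degree (f a) : ℝ)), ind G s f := by
    unfold oc
    rw [sum_filter_add_sum_filter_not]
  have h1 : ∑ f ∈ (univ : Finset (Fin s → V)).filter
      (fun f => ∀ a, τ ≤ (G.degree (f a) : ℝ)), ind G s f =
      oc (G.comap (Subtype.val : Hi → V)) s := by
    have himg : (univ : Finset (Fin s → V)).filter
      (fun f => ∀ a, τ ≤ (G.degree (f a) : ℝ)) =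
      (univ : Finset (Fin s → Hi)).image (fun g a => (g a).1) := by
      ext f
      simp only [mem_filter, mem_univ, true_and, mem_image]
      constructor
      · intro h
        exact ⟨fun a => ⟨f a, h a⟩, rfl⟩
      · rintro ⟨g, rfl⟩ a
        exact (g a).2
    rw [himg, sum_image]
    · rfl
    · intro g _ g' _ h
      ext a
      exact congrFun h a
  have h2 : ∑ f ∈ (univ : Finset (Fin s → V)).filter
      (fun f => ¬ ∀ a, τ ≤ (G.degree (f a) : ℝ)), ind G s f ≤ s * (τ ^ (s - 2) * oc G 2) := by
    have h3 : ∑ f ∈ (univ : Finset (Fin s → V)).filter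
      (fun f => ¬ ∀ a, τ ≤ (G.degree (f a) : ℝ)), ind G s f ≤
      ((((univ : Finset (Fin s)) ×ˢ ((univ : Finset V).filter (fun v => (G.degree v : ℝ) < τ))).biUnion
        (fun p => Fintype.piFinset (fun b => if b = p.1 then {p.2} else G.neighborFinset p.2))).card
          : ℝ) := by
      rw [sum_filter]
      rw [show ((((univ : Finset (Fin s)) ×ˢ ((univ : Finset V).filter
        (fun v => (G.degree v : ℝ) < τ))).biUnion
        (fun p => Fintype.piFinset (fun b => if b = p.1 then {p.2} else G.neighborFinset p.2))).card
          : ℝ) = ∑ f : Fin s → V, if f ∈ (((univ : Finset (Fin s)) ×ˢ ((univ : Finset V).filter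
        (fun v => (G.degree v : ℝ) < τ))).biUnion
        (fun p => Fintype.piFinset (fun b => if b = p.1 then {p.2} else G.neighborFinset p.2)))
        then (1:ℝ) else 0 by
          rw [sum_ite_mem, univ_inter]; simp]
      apply sum_le_sum
      intro f _
      by_cases hf : ∀ a, τ ≤ (G.degree (f a) : ℝ)
      · rw [if_neg (not_not.mpr hf)]
        split_ifs <;> norm_num
      · rw [if_pos hf]
        by_cases hc : ∀ a b, a ≠ b → G.Adj (f a) (f b)
        · rw [if_pos]
          · exact ind_le_one _ _ _
          · push Not at hf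
            obtain ⟨a, ha⟩ := hf
            rw [mem_biUnion]
            refine ⟨(a, f a), ?_, ?_⟩
            · simp [ha]
            · rw [Fintype.mem_piFinset]
              intro b
              by_cases hb : b = a
              · simp [hb]
              · simp only [hb, if_false, mem_neighborFinset]
                exact hc a b (Ne.symm hb)
        · have : ind G s f = 0 := by
            unfold ind
            rw [if_neg hc]
          rw [this]
          split_ifs <;> norm_num
    have h4 : ((((univ : Finset (Fin s)) ×ˢ ((univ : Finset V).filter (fun v => (G.degree v : ℝ) < τ))).biUnion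
        (fun p => Fintype.piFinset (fun b => if b = p.1 then {p.2} else G.neighborFinset p.2))).card
          : ℝ) ≤ ∑ p ∈ ((univ : Finset (Fin s)) ×ˢ ((univ : Finset V).filter
            (fun v => (G.degree v : ℝ) < τ))), (G.degree p.2 : ℝ) ^ (s - 1) := by
      have h5 := card_biUnion_le (s := ((univ : Finset (Fin s)) ×ˢ ((univ : Finset V).filter
            (fun v => (G.degree v : ℝ) < τ)))) (t := (fun p : Fin s × V => Fintype.piFinset
              (fun b => if b = p.1 then {p.2} else G.neighborFinset p.2)))
      have h6 : ∀ p : Fin s × V, (Fintype.piFinset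
          (fun b => if b = p.1 then {p.2} else G.neighborFinset p.2)).card =
          (G.degree p.2) ^ (s - 1) := by
        intro p
        rw [Fintype.card_piFinset, ← mul_prod_erase univ _ (mem_univ p.1)]
        simp only [if_true, card_singleton, one_mul]
        rw [prod_congr rfl (g := fun _ => G.degree p.2)]
        · rw [prod_const, card_erase_of_mem (mem_univ _), card_univ, Fintype.card_fin]
        · intro b hb
          rw [mem_erase] at hb
          rw [if_neg hb.1, card_neighborFinset_eq_degree]
      simp only [h6] at h5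
      exact_mod_cast h5
    refine h3.trans (h4.trans ?_)
    rw [sum_product]
    have hconst : ∑ _x : Fin s, ∑ v ∈ (univ : Finset V).filter (fun v => (G.degree v : ℝ) < τ),
        (G.degree v : ℝ) ^ (s - 1) = s * ∑ v ∈ (univ : Finset V).filter
          (fun v => (G.degree v : ℝ) < τ), (G.degree v : ℝ) ^ (s - 1) := by
      rw [sum_const, card_univ, Fintype.card_fin, nsmul_eq_mul]
    refine (le_of_eq hconst).trans ?_
    apply mul_le_mul_of_nonneg_left _ (by positivity)
    rw [oc_two_degree, mul_sum]
    calc ∑ v ∈ (univ : Finset V).filter (fun v => (G.degree v : ℝ) < τ), (G.degree v : ℝ) ^ (s - 1)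
        ≤ ∑ v ∈ (univ : Finset V).filter (fun v => (G.degree v : ℝ) < τ),
          τ ^ (s - 2) * (G.degree v : ℝ) := by
          apply sum_le_sum
          intro v hv
          have hv' := (mem_filter.mp hv).2
          have : s - 1 = (s - 2) + 1 := by omega
          rw [this, pow_succ]
          exact mul_le_mul_of_nonneg_right (pow_le_pow_left₀ (by positivity) hv'.le _)
            (by positivity)
      _ ≤ _ := by
          apply sum_le_sum_of_subset_of_nonneg (filter_subset _ _)
          intro v _ _
          positivity
  rw [hsplit, h1]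
  linarith

lemma card_high {V : Type} [Fintype V] [DecidableEq V] (G : SimpleGraph V) [DecidableRel G.Adj]
    (τ : ℝ) : (Fintype.card {v : V // τ ≤ (G.degree v : ℝ)} : ℝ) * τ ≤ oc G 2 := by
  classical
  rw [oc_two_degree, Fintype.card_subtype]
  calc _ = ∑ v ∈ (univ : Finset V).filter (fun v => τ ≤ (G.degree v : ℝ)), τ := by simp
    _ ≤ ∑ v ∈ (univ : Finset V).filter (fun v => τ ≤ (G.degree v : ℝ)), (G.degree v : ℝ) :=
        sum_le_sum (fun v hv => (mem_filter.mp hv).2)
    _ ≤ _ := sum_le_sum_of_subset_of_nonneg (filter_subset _ _) (fun _ _ _ => by positivity)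

lemma oc_comap_le {V W : Type} [Fintype V] [Fintype W] (G : SimpleGraph V) (φ : W → V)
    (hφ : Function.Injective φ) (k : ℕ) : oc (G.comap φ) k ≤ oc G k := by
  classical
  have h1 : oc (G.comap φ) k = ∑ f ∈ (univ : Finset (Fin k → W)).image (fun g a => φ (g a)),
      ind G k f := by
    rw [sum_image]
    · rfl
    · intro g _ g' _ h
      ext a
      exact hφ (congrFun h a)
  rw [h1]
  unfold oc
  exact sum_le_sum_of_subset_of_nonneg (subset_univ _) (fun _ _ _ => ind_nonneg _ _ _)

/-- A general upper bound for the number of cliques. -/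
lemma oc_sq_le {V : Type} [Fintype V] (G : SimpleGraph V) (s : ℕ) (hs : 2 ≤ s) :
    oc G s ^ 2 ≤ (1 + (s:ℝ)) ^ 2 * oc G 2 ^ s := by
  classical
  have hW := oc_nonneg G 2
  set W := oc G 2 with hWd
  set R := Real.sqrt W with hR
  have hR0 : 0 ≤ R := Real.sqrt_nonneg _
  have hRR : R ^ 2 = W := Real.sq_sqrt hW
  rcases hR0.eq_or_lt with h0 | hpos
  · have hW0 : W = 0 := by rw [← hRR, ← h0]; ring
    have h1 : oc G s = 0 := by
      unfold oc
      apply sum_eq_zero
      intro f _
      unfold ind
      rw [if_neg]
      intro hf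
      have hadj : G.Adj (f ⟨0, by omega⟩) (f ⟨1, by omega⟩) := hf _ _ (by simp)
      have h2 : (1:ℝ) ≤ W := by
        rw [hWd, oc_two]
        have : ∀ x y, 0 ≤ (if G.Adj x y then (1:ℝ) else 0) := by
          intro x y; split_ifs <;> norm_num
        calc (1:ℝ) = (if G.Adj (f ⟨0, by omega⟩) (f ⟨1, by omega⟩) then (1:ℝ) else 0) := by
              rw [if_pos hadj]
          _ ≤ ∑ y, (if G.Adj (f ⟨0, by omega⟩) y then (1:ℝ) else 0) :=
              single_le_sum (f := fun y => (if G.Adj (f ⟨0, by omega⟩) y then (1:ℝ) else 0))
                (fun y _ => this _ y) (mem_univ _)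
          _ ≤ _ := single_le_sum (f := fun x => ∑ y, (if G.Adj x y then (1:ℝ) else 0))
                (fun x _ => sum_nonneg (fun y _ => this x y)) (mem_univ _)
      linarith
    rw [h1]
    have : 0 ≤ (1 + (s:ℝ)) ^ 2 * W ^ s := by positivity
    simpa using this
  · have h1 := trunc G s hs R hR0
    have h2 := card_high G R
    have h3 := oc_le (G.comap (Subtype.val : {v : V // R ≤ (G.degree v : ℝ)} → V)) s
    have h4 : (Fintype.card {v : V // R ≤ (G.degree v : ℝ)} : ℝ) ≤ R := by
      rw [← hWd, ← hRR] at h2
      nlinarith
    have h5 : (Fintype.card {v : V // R ≤ (G.degree v : ℝ)} : ℝ) ^ s ≤ R ^ s :=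
      pow_le_pow_left₀ (by positivity) h4 s
    have h6 : R ^ (s - 2) * W = R ^ s := by
      rw [← hRR, ← pow_add]
      congr 1
      omega
    rw [← hWd, h6] at h1
    have h7 : oc G s ≤ (1 + (s:ℝ)) * R ^ s := by linarith
    calc oc G s ^ 2 ≤ ((1 + (s:ℝ)) * R ^ s) ^ 2 := pow_le_pow_left₀ (oc_nonneg _ _) h7 2
      _ = (1 + (s:ℝ)) ^ 2 * W ^ s := by
          rw [mul_pow, ← hRR, ← pow_mul, ← pow_mul, mul_comm 2 s]

end Pool.Agent.V11146.Sample
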