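import Mathlib
import Pool.Agent.V11146.Trunc

set_option autoImplicit false

namespace Pool.Agent.V11146.Sample

open Finset SimpleGraph

/-- blow-up of `H` by `t`, together with `q` disjoint edges. -/
def big {V : Type} (H : SimpleGraph V) (t q : ℕ) :
    SimpleGraph ((V × Fin t) ⊕ (Fin q × Bool)) where
  Adj x y := match x, y with
    | Sum.inl x, Sum.inl y => H.Adj x.1 y.1
    | Sum.inr x, Sum.inr y => x.1 = y.1 ∧ x.2 ≠ y.2
    | _, _ => False
  symm := ⟨by
    rintro (x | x) (y | y) h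
    · exact SimpleGraph.Adj.symm h
    · exact h
    · exact h
    · exact ⟨h.1.symm, h.2.symm⟩⟩
  loopless := ⟨by
    rintro (x | x) h
    · exact H.loopless.irrefl _ h
    · exact h.2 rfl⟩

lemma big_ll {V : Type} (H : SimpleGraph V) (t q : ℕ) (x y : V × Fin t) :
    (big H t q).Adj (Sum.inl x) (Sum.inl y) ↔ H.Adj x.1 y.1 := Iff.rfl

lemma big_rr {V : Type} (H : SimpleGraph V) (t q : ℕ) (x y : Fin q × Bool) :
    (big H t q).Adj (Sum.inr x) (Sum.inr y) ↔ x.1 = y.1 ∧ x.2 ≠ y.2 := Iff.rfl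

lemma big_lr {V : Type} (H : SimpleGraph V) (t q : ℕ) (x : V × Fin t) (y : Fin q × Bool) :
    (big H t q).Adj (Sum.inl x) (Sum.inr y) ↔ False := Iff.rfl

lemma big_rl {V : Type} (H : SimpleGraph V) (t q : ℕ) (x : V × Fin t) (y : Fin q × Bool) :
    (big H t q).Adj (Sum.inr y) (Sum.inl x) ↔ False := Iff.rfl

lemma big_oc_two {V : Type} [Fintype V] (H : SimpleGraph V) (t q : ℕ) :
    oc (big H t q) 2 = (t:ℝ) ^ 2 * oc H 2 + 2 * q := by
  classical
  rw [oc_two, oc_two]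
  simp only [Fintype.sum_sum_type, big_ll, big_lr, big_rl, big_rr, if_false, sum_const_zero,
    add_zero, zero_add]
  congr 1
  · rw [Fintype.sum_prod_type]
    have : ∀ x : V, ∀ i : Fin t, ∑ y : V × Fin t, (if H.Adj (x, i).1 y.1 then (1:ℝ) else 0) =
        t * ∑ y, (if H.Adj x y then (1:ℝ) else 0) := by
      intro x i
      rw [Fintype.sum_prod_type, mul_sum]
      apply sum_congr rfl
      intro y _
      change (∑ _z : Fin t, if H.Adj x y then (1:ℝ) else 0) = _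
      rw [sum_const, card_univ, Fintype.card_fin, nsmul_eq_mul]
    simp only [this]
    simp only [sum_const, card_univ, Fintype.card_fin, nsmul_eq_mul]
    rw [← mul_sum, ← mul_sum]
    ring
  · have : ∀ x : Fin q × Bool, ∑ y : Fin q × Bool, (if x.1 = y.1 ∧ x.2 ≠ y.2 then (1:ℝ) else 0)
        = 1 := by
      rintro ⟨z, s⟩
      rw [Finset.sum_eq_single (z, !s)]
      · simp
      · rintro ⟨z', s'⟩ _ h
        by_cases h1 : z = z'
        · subst h1
          have : s' = s := by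
            cases s <;> cases s' <;> simp_all
          simp [this]
        · simp [h1]
      · intro h; exact absurd (mem_univ _) h
    simp only [this]
    simp
    ring

lemma big_oc {V : Type} [Fintype V] (H : SimpleGraph V) (t q s : ℕ) :
    (t:ℝ) ^ s * oc H s ≤ oc (big H t q) s := by
  classical
  have h1 : (t:ℝ) ^ s * oc H s = ∑ p : (Fin s → V) × (Fin s → Fin t), ind H s p.1 := by
    rw [Fintype.sum_prod_type]
    simp only [sum_const, card_univ, Fintype.card_fun, Fintype.card_fin, nsmul_eq_mul]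
    rw [← mul_sum]
    push_cast
    rfl
  let Φ : (Fin s → V) × (Fin s → Fin t) → (Fin s → (V × Fin t) ⊕ (Fin q × Bool)) :=
    fun p a => Sum.inl (p.1 a, p.2 a)
  have hΦ : Function.Injective Φ := by
    rintro ⟨f, c⟩ ⟨f', c'⟩ h
    have : ∀ a, f a = f' a ∧ c a = c' a := by
      intro a
      have := congrFun h a
      simpa [Φ] using this
    ext a
    · exact (this a).1
    · exact congrArg Fin.val (this a).2
  have h2 : ∑ p : (Fin s → V) × (Fin s → Fin t), ind H s p.1 =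
      ∑ F ∈ (univ : Finset ((Fin s → V) × (Fin s → Fin t))).image Φ, ind (big H t q) s F := by
    rw [sum_image (fun x _ y _ h => hΦ h)]
    rfl
  rw [h1, h2]
  unfold oc
  exact sum_le_sum_of_subset_of_nonneg (subset_univ _) (fun _ _ _ => ind_nonneg _ _ _)

lemma big_cliqueFree {V : Type} (H : SimpleGraph V) (t q k : ℕ) (hk : 3 ≤ k)
    (hH : H.CliqueFree k) : (big H t q).CliqueFree k := by
  rw [cliqueFree_iff] at hH ⊢
  intro f hf
  have h0 : ∀ a, a ≠ (⟨0, by omega⟩ : Fin k) → (big H t q).Adj (f ⟨0, by omega⟩) (f a) :=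
    fun a ha => hf _ _ ha.symm
  cases hf0 : f ⟨0, by omega⟩ with
  | inl x =>
    have hall : ∀ a, ∃ y, f a = Sum.inl y := by
      intro a
      by_cases ha : a = ⟨0, by omega⟩
      · exact ⟨x, by rw [ha, hf0]⟩
      · have := h0 a ha
        rw [hf0] at this
        cases hfa : f a with
        | inl y => exact ⟨y, rfl⟩
        | inr y => rw [hfa] at this; exact this.elim
    choose g hg using hall
    apply hH (fun a => (g a).1)
    intro a b hab
    have := hf a b hab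
    rw [hg a, hg b] at this
    exact this
  | inr x =>
    have h1 := h0 ⟨1, by omega⟩ (by simp)
    have h2 := h0 ⟨2, by omega⟩ (by simp)
    have h3 := hf ⟨1, by omega⟩ ⟨2, by omega⟩ (by simp)
    rw [hf0] at h1 h2
    cases hf1 : f ⟨1, by omega⟩ with
    | inl y => rw [hf1] at h1; exact h1
    | inr y =>
      cases hf2 : f ⟨2, by omega⟩ with
      | inl z => rw [hf2] at h2; exact h2
      | inr z =>
        rw [hf1] at h1 h3
        rw [hf2] at h2 h3
        obtain ⟨_, a1⟩ := h1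
        obtain ⟨_, a2⟩ := h2
        obtain ⟨_, a3⟩ := h3
        cases hx : x.2 <;> cases hy : y.2 <;> cases hz : z.2 <;> simp_all

/-- the possible numbers of `K_s` in a `K_k`-free graph with `m` edges. -/
def mexSet (s k m : ℕ) : Set ℕ :=
  {c : ℕ | ∃ (n : ℕ) (G : SimpleGraph (Fin n)), G.edgeSet.ncard = m ∧ G.CliqueFree k ∧
    cliqueCount G s = c}

/-- `mex_{K_s}(m, K_k)`. -/
noncomputable def mex (s k m : ℕ) : ℕ := sSup (mexSet s k m)

lemma edges_congr {V W : Type} [Fintype V] [Fintype W] (G : SimpleGraph V) (e : W ≃ V) :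
    oc (G.comap e) 2 = oc G 2 := by
  apply le_antisymm (oc_comap_le G e e.injective 2)
  have h := oc_comap_le (G.comap e) e.symm e.symm.injective 2
  have h2 : (G.comap e).comap e.symm = G := by
    ext x y
    simp
  rwa [h2] at h

lemma oc_congr {V W : Type} [Fintype V] [Fintype W] (G : SimpleGraph V) (e : W ≃ V) (k : ℕ) :
    oc (G.comap e) k = oc G k := by
  apply le_antisymm (oc_comap_le G e e.injective k)
  have h := oc_comap_le (G.comap e) e.symm e.symm.injective k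
  have h2 : (G.comap e).comap e.symm = G := by
    ext x y
    simp
  rwa [h2] at h

lemma bddAbove_mexSet (s k m : ℕ) (hs : 2 ≤ s) : BddAbove (mexSet s k m) := by
  refine ⟨⌈(1 + (s:ℝ)) ^ 2 * (2 * (m:ℝ)) ^ s⌉₊, ?_⟩
  rintro c ⟨n, G, hm, _, rfl⟩
  have h1 := oc_sq_le G s hs
  rw [oc_two_edges, hm, oc_eq_factorial] at h1
  have h2 : ((cliqueCount G s : ℕ) : ℝ) ≤ (1 + (s:ℝ)) ^ 2 * (2 * (m:ℝ)) ^ s := by
    rcases Nat.eq_zero_or_pos (cliqueCount G s) with h0 | h0
    · rw [h0, Nat.cast_zero]; positivity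
    · have h3 : (1:ℝ) ≤ cliqueCount G s := by exact_mod_cast h0
      have h4 : (1:ℝ) ≤ (s.factorial : ℝ) := by exact_mod_cast Nat.succ_le_of_lt (Nat.factorial_pos s)
      have h5 : (cliqueCount G s : ℝ) ≤ (s.factorial : ℝ) * (cliqueCount G s : ℝ) := by nlinarith
      have h6 : (1:ℝ) ≤ (s.factorial : ℝ) * (cliqueCount G s : ℝ) := h3.trans h5
      nlinarith
  have h3 : ((cliqueCount G s : ℕ) : ℝ) ≤ ((⌈(1 + (s:ℝ)) ^ 2 * (2 * (m:ℝ)) ^ s⌉₊ : ℕ) : ℝ) :=
    h2.trans (Nat.le_ceil _)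
  exact_mod_cast h3

/-- any `K_k`-free graph on any finite vertex type gives a lower bound for `mex`. -/
lemma le_mex {V : Type} [Fintype V] (G : SimpleGraph V) (s k m : ℕ) (hs : 2 ≤ s)
    (hm : oc G 2 = 2 * m) (hG : G.CliqueFree k) :
    oc G s ≤ (s.factorial : ℝ) * (mex s k m : ℝ) := by
  classical
  obtain ⟨e⟩ : Nonempty (Fin (Fintype.card V) ≃ V) := ⟨(Fintype.equivFin V).symm⟩
  have h1 : cliqueCount (G.comap e) s ∈ mexSet s k m := by
    refine ⟨_, G.comap e, ?_, ?_, rfl⟩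
    · have h2 := edges_congr G e
      rw [oc_two_edges, hm] at h2
      have h3 : (((G.comap e).edgeSet.ncard : ℕ) : ℝ) = ((m : ℕ) : ℝ) := by linarith
      exact_mod_cast h3
    · rw [cliqueFree_iff] at hG ⊢
      intro f hf
      exact hG (fun a => e (f a)) hf
  have h2 : cliqueCount (G.comap e) s ≤ mex s k m := le_csSup (bddAbove_mexSet s k m hs) h1
  rw [← oc_congr G e s, oc_eq_factorial]
  have h3 : ((cliqueCount (G.comap e) s : ℕ) : ℝ) ≤ ((mex s k m : ℕ) : ℝ) := by exact_mod_cast h2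
  exact mul_le_mul_of_nonneg_left h3 (by positivity)

/-- normalised ratios. -/
def ratios (s k : ℕ) : Set ℝ :=
  {x : ℝ | ∃ (n : ℕ) (K : SimpleGraph (Fin n)), K.CliqueFree k ∧ 0 < oc K 2 ∧
    x = oc K s ^ 2 / oc K 2 ^ s}

lemma bdd_ratios (s k : ℕ) (hs : 2 ≤ s) : BddAbove (ratios s k) := by
  refine ⟨(1 + (s:ℝ)) ^ 2, ?_⟩
  rintro x ⟨n, K, _, h0, rfl⟩
  rw [div_le_iff₀ (by positivity)]
  exact oc_sq_le K s hs

lemma ratios_nonempty (s k : ℕ) (hk : 3 ≤ k) : (ratios s k).Nonempty := by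
  refine ⟨_, 2, ⊤, ?_, ?_, rfl⟩
  · rw [cliqueFree_iff]
    intro f hf
    have := injective_of_clique _ hf
    have := Fintype.card_le_of_injective f this
    simp at this
    omega
  · rw [oc_two]
    norm_num [Fin.sum_univ_two]

noncomputable def Lam (s k : ℕ) : ℝ := sSup (ratios s k)

lemma Lam_nonneg (s k : ℕ) (hs : 2 ≤ s) (hk : 3 ≤ k) : 0 ≤ Lam s k := by
  obtain ⟨x, hx⟩ := ratios_nonempty s k hk
  refine le_trans ?_ (le_csSup (bdd_ratios s k hs) hx)
  obtain ⟨n, K, _, h0, rfl⟩ := hx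
  positivity

lemma le_Lam (s k : ℕ) (hs : 2 ≤ s) {n : ℕ} (K : SimpleGraph (Fin n)) (hK : K.CliqueFree k) :
    oc K s ^ 2 ≤ Lam s k * oc K 2 ^ s := by
  rcases (oc_nonneg K 2).eq_or_lt with h0 | h0
  · have := oc_sq_le K s hs
    rw [← h0, zero_pow (by omega), mul_zero] at this ⊢
    exact this
  · rw [← div_le_iff₀ (by positivity)]
    exact le_csSup (bdd_ratios s k hs) ⟨n, K, hK, h0, rfl⟩

/-- The extremal number is asymptotically at least its supremum. -/
lemma mex_lower (s k : ℕ) (hs : 2 ≤ s) (hk : 3 ≤ k) (ε : ℝ) (hε : 0 < ε) :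
    ∃ m₀ : ℕ, ∀ m : ℕ, m₀ ≤ m →
      (Lam s k - ε) * (2 * (m:ℝ)) ^ s ≤ ((s.factorial : ℝ) * (mex s k m : ℝ)) ^ 2 := by
  classical
  obtain ⟨x, ⟨n, K, hK, hK0, rfl⟩, hx⟩ := exists_lt_of_lt_csSup (ratios_nonempty s k hk)
    (show Lam s k - ε / 2 < sSup (ratios s k) by unfold Lam; linarith)
  set W := oc K 2 with hW
  set L := Lam s k with hL
  have hL0 : 0 ≤ L := Lam_nonneg s k hs hk
  have hWe : W = 2 * ((K.edgeSet.ncard : ℕ) : ℝ) := by rw [hW]; exact oc_two_edges K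
  set e := K.edgeSet.ncard with he
  have he0 : 0 < e := by
    have : (0:ℝ) < (e:ℝ) := by linarith
    exact_mod_cast this
  rw [lt_div_iff₀ (by positivity)] at hx
  obtain ⟨T, hT⟩ := exists_nat_ge (2 * s * L / (ε / 2))
  refine ⟨e * (T + 1) ^ 2, ?_⟩
  intro m hm
  set t := Nat.sqrt (m / e) with ht
  have ht1 : t ^ 2 ≤ m / e := Nat.sqrt_le' _
  have ht2 : m / e < (t + 1) ^ 2 := Nat.lt_succ_sqrt' _
  have ht3 : e * t ^ 2 ≤ m := by
    calc e * t ^ 2 ≤ e * (m / e) := Nat.mul_le_mul_left _ ht1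
      _ ≤ m := Nat.mul_div_le m e
  have ht4 : m < e * (t + 1) ^ 2 := by
    rw [mul_comm]
    exact (Nat.div_lt_iff_lt_mul he0).mp ht2
  have hTt : T ≤ t := by
    by_contra hcon
    push Not at hcon
    have : (t + 1) ^ 2 ≤ (T + 1) ^ 2 := Nat.pow_le_pow_left (by omega) 2
    have : e * (t + 1) ^ 2 ≤ e * (T + 1) ^ 2 := Nat.mul_le_mul_left _ this
    omega
  set q := m - e * t ^ 2 with hq
  have h1 : oc (big K t q) 2 = 2 * (m:ℝ) := by
    rw [big_oc_two, ← hW, hWe]
    have : (m:ℝ) = e * (t:ℝ) ^ 2 + q := by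
      rw [hq, Nat.cast_sub ht3]
      push_cast
      ring
    rw [this]
    ring
  have h2 := le_mex (big K t q) s k m hs h1 (big_cliqueFree K t q k hk hK)
  have h3 := (big_oc K t q s).trans h2
  have h4 : 0 ≤ (t:ℝ) ^ s * oc K s := mul_nonneg (by positivity) (oc_nonneg _ _)
  have h5 : ((t:ℝ) ^ s * oc K s) ^ 2 ≤ ((s.factorial : ℝ) * (mex s k m : ℝ)) ^ 2 :=
    pow_le_pow_left₀ h4 h3 2
  rcases le_or_gt L ε with hle | hgt
  · have : (L - ε) * (2 * (m:ℝ)) ^ s ≤ 0 :=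
      mul_nonpos_of_nonpos_of_nonneg (by linarith) (by positivity)
    have h6 : 0 ≤ ((s.factorial : ℝ) * (mex s k m : ℝ)) ^ 2 := sq_nonneg _
    linarith
  · refine le_trans ?_ h5
    have h6 : (2 * (m:ℝ)) ^ s ≤ (W * ((t:ℝ) + 1) ^ 2) ^ s := by
      apply pow_le_pow_left₀ (by positivity)
      have : (m:ℝ) ≤ e * ((t:ℝ) + 1) ^ 2 := by exact_mod_cast ht4.le
      rw [hWe]
      linarith
    have hbern : 1 - 2 * (s:ℝ) / ((t:ℝ) + 1) ≤ ((t:ℝ) / ((t:ℝ) + 1)) ^ (2 * s) := by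
      have := one_add_mul_le_pow (R := ℝ) (a := -(1 / ((t:ℝ) + 1))) (by
        have : 1 / ((t:ℝ) + 1) ≤ 1 := by
          rw [div_le_one (by positivity)]
          have : (0:ℝ) ≤ t := by positivity
          linarith
        linarith) (2 * s)
      have e1 : (1:ℝ) + -(1 / ((t:ℝ) + 1)) = (t:ℝ) / ((t:ℝ) + 1) := by
        field_simp
        ring
      rw [e1] at this
      refine le_trans (le_of_eq ?_) this
      push_cast
      ring
    have h7 : L - ε ≤ (L - ε / 2) * ((t:ℝ) / ((t:ℝ) + 1)) ^ (2 * s) := by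
      have h8 : 2 * s * L / ((t:ℝ) + 1) ≤ ε / 2 := by
        rw [div_le_iff₀ (by positivity)]
        rw [div_le_iff₀ (by positivity)] at hT
        have : (T:ℝ) ≤ t := by exact_mod_cast hTt
        nlinarith
      have h9 : (L - ε / 2) * (1 - 2 * (s:ℝ) / ((t:ℝ) + 1)) ≤
          (L - ε / 2) * ((t:ℝ) / ((t:ℝ) + 1)) ^ (2 * s) :=
        mul_le_mul_of_nonneg_left hbern (by linarith)
      have h10 : 0 ≤ (ε / 2) * (2 * (s:ℝ) / ((t:ℝ) + 1)) := by positivity
      have h11 : (L - ε / 2) * (1 - 2 * (s:ℝ) / ((t:ℝ) + 1)) =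
          L - ε / 2 - 2 * s * L / ((t:ℝ) + 1) + (ε / 2) * (2 * (s:ℝ) / ((t:ℝ) + 1)) := by
        ring
      linarith
    calc (L - ε) * (2 * (m:ℝ)) ^ s ≤ (L - ε) * (W * ((t:ℝ) + 1) ^ 2) ^ s :=
          mul_le_mul_of_nonneg_left h6 (by linarith)
      _ ≤ ((L - ε / 2) * ((t:ℝ) / ((t:ℝ) + 1)) ^ (2 * s)) * (W * ((t:ℝ) + 1) ^ 2) ^ s :=
          mul_le_mul_of_nonneg_right h7 (by positivity)
      _ = (t:ℝ) ^ (2 * s) * ((L - ε / 2) * W ^ s) := by
          rw [div_pow, mul_pow, ← pow_mul]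
          have : ((t:ℝ) + 1) ^ (2 * s) ≠ 0 := by positivity
          field_simp
      _ ≤ (t:ℝ) ^ (2 * s) * oc K s ^ 2 := mul_le_mul_of_nonneg_left hx.le (by positivity)
      _ = ((t:ℝ) ^ s * oc K s) ^ 2 := by rw [mul_pow, ← pow_mul, mul_comm 2 s]

end Pool.Agent.V11146.Sample
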