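import Mathlib

set_option autoImplicit false

namespace Pool.Agent.V11146.Bal

open Finset SimpleGraph Filter Topology

/-- A family of graphs on `Fin n` is balanced if `A \ A'` and `A' \ A` are isomorphic (as graphs on
the full vertex set) for all members `A, A'`. -/
def Balanced {n : ℕ} (F : Finset (SimpleGraph (Fin n))) : Prop :=
  ∀ A ∈ F, ∀ A' ∈ F, Nonempty ((A \ A') ≃g (A' \ A))

/-- `a(n)`: the largest size of a balanced family of graphs on `[n]`. -/
noncomputable def a (n : ℕ) : ℕ :=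
  sSup {k : ℕ | ∃ F : Finset (SimpleGraph (Fin n)), Balanced F ∧ F.card = k}

lemma bdd (n : ℕ) :
    BddAbove {k : ℕ | ∃ F : Finset (SimpleGraph (Fin n)), Balanced F ∧ F.card = k} := by
  classical
  refine ⟨Fintype.card (SimpleGraph (Fin n)), ?_⟩
  rintro k ⟨F, _, rfl⟩
  exact Finset.card_le_univ F

/-! ### Lower bound -/

/-- The graph of a choice `S`. -/
def G {n : ℕ} (S : Finset (Sym2 (Fin n))) : SimpleGraph (Fin n) where
  Adj x y := x ≠ y ∧ (((x : ℕ) + y + 1 < n ∧ s(x, y) ∈ S) ∨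
    (n < (x : ℕ) + y + 1 ∧ s(Fin.rev x, Fin.rev y) ∉ S))
  symm := ⟨by
    rintro x y ⟨h, h'⟩
    refine ⟨h.symm, ?_⟩
    rw [Sym2.eq_swap, Sym2.eq_swap (a := Fin.rev y)]
    rcases h' with ⟨h1, h2⟩ | ⟨h1, h2⟩
    · left; exact ⟨by omega, h2⟩
    · right; exact ⟨by omega, h2⟩⟩
  loopless := ⟨by
    rintro x ⟨h, _⟩
    exact h rfl⟩

lemma G_adj {n : ℕ} (S : Finset (Sym2 (Fin n))) (x y : Fin n) :
    (G S).Adj x y ↔ x ≠ y ∧ (((x : ℕ) + y + 1 < n ∧ s(x, y) ∈ S) ∨
    (n < (x : ℕ) + y + 1 ∧ s(Fin.rev x, Fin.rev y) ∉ S)) := Iff.rfl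

lemma key {n : ℕ} (S T : Finset (Sym2 (Fin n))) (x y : Fin n) :
    (G T \ G S).Adj (Fin.rev x) (Fin.rev y) ↔ (G S \ G T).Adj x y := by
  rw [sdiff_adj, sdiff_adj, G_adj, G_adj, G_adj, G_adj, Fin.rev_rev, Fin.rev_rev]
  have hx := x.isLt
  have hy := y.isLt
  have h1 : ((Fin.rev x : Fin n) : ℕ) = n - (x + 1) := Fin.val_rev x
  have h2 : ((Fin.rev y : Fin n) : ℕ) = n - (y + 1) := Fin.val_rev y
  have h3 : Fin.rev x ≠ Fin.rev y ↔ x ≠ y := by
    rw [Ne, Ne, Fin.rev_inj]
  rw [h3, h1, h2]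
  by_cases hxy : x ≠ y
  · rcases lt_trichotomy ((x : ℕ) + y + 1) n with h | h | h
    · have e1 : ¬ (n - ((x : ℕ) + 1) + (n - ((y : ℕ) + 1)) + 1 < n) := by omega
      have e2 : n < n - ((x : ℕ) + 1) + (n - ((y : ℕ) + 1)) + 1 := by omega
      have e3 : ¬ (n < (x : ℕ) + y + 1) := by omega
      simp only [e1, e2, e3, h, hxy, false_and, true_and, or_false, false_or, not_not,
        ne_eq, not_false_eq_true, Classical.not_not]
      tauto
    · have e1 : ¬ (n - ((x : ℕ) + 1) + (n - ((y : ℕ) + 1)) + 1 < n) := by omega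
      have e2 : ¬ (n < n - ((x : ℕ) + 1) + (n - ((y : ℕ) + 1)) + 1) := by omega
      have e3 : ¬ (n < (x : ℕ) + y + 1) := by omega
      have e4 : ¬ ((x : ℕ) + y + 1 < n) := by omega
      simp only [e1, e2, e3, e4, false_and, or_false, and_false]
    · have e1 : (n - ((x : ℕ) + 1) + (n - ((y : ℕ) + 1)) + 1 < n) := by omega
      have e2 : ¬ (n < n - ((x : ℕ) + 1) + (n - ((y : ℕ) + 1)) + 1) := by omega
      have e4 : ¬ ((x : ℕ) + y + 1 < n) := by omega
      simp only [e1, e2, e4, h, hxy, false_and, true_and, or_false, false_or, not_not,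
        ne_eq, not_false_eq_true, Classical.not_not]
      tauto
  · simp only [hxy, false_and]

lemma balanced_image {n : ℕ} (O : Finset (Sym2 (Fin n))) : by
    classical exact Balanced (O.powerset.image G) := by
  classical
  intro A hA A' hA'
  rw [Finset.mem_image] at hA hA'
  obtain ⟨S, _, rfl⟩ := hA
  obtain ⟨T, _, rfl⟩ := hA'
  exact ⟨⟨Fin.revPerm, fun {x y} => key S T x y⟩⟩

/-- Representatives. -/
def P (n : ℕ) : Finset (Fin n × Fin n) :=
  (univ : Finset (Fin n × Fin n)).filter (fun p => p.1 < p.2 ∧ (p.1 : ℕ) + p.2 + 1 < n)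

lemma sum_eq (n : ℕ) : ∑ x ∈ range n, (n - (x + 1) - x - 1) = (n - 1) ^ 2 / 4 := by
  induction n using Nat.twoStepInduction with
  | zero => simp
  | one => simp
  | more n ih _ =>
    rw [Finset.sum_range_succ']
    have e : ∑ x ∈ range (n + 1), (n + 2 - (x + 1 + 1) - (x + 1) - 1) =
        ∑ x ∈ range n, (n - (x + 1) - x - 1) := by
      rw [Finset.sum_range_succ]
      have : n + 2 - (n + 1 + 1) - (n + 1) - 1 = 0 := by omega
      rw [this, add_zero]
      apply Finset.sum_congr rfl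
      intro x _
      omega
    have e2 : n + 2 = n + 1 + 1 := rfl
    rw [e, ih]
    rcases n with _ | n
    · norm_num
    · have : (n + 1 + 2 - 1) ^ 2 = (n + 1 - 1) ^ 2 + 4 * (n + 1) := by
        have h1 : n + 1 + 2 - 1 = n + 2 := by omega
        have h2 : n + 1 - 1 = n := by omega
        rw [h1, h2]; ring
      rw [this]
      omega

lemma card_P (n : ℕ) : (P n).card = (n - 1) ^ 2 / 4 := by
  rw [← sum_eq, P, ← Finset.univ_product_univ, Finset.card_filter, Finset.sum_product,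
    ← Fin.sum_univ_eq_sum_range (fun x => n - (x + 1) - x - 1)]
  apply Finset.sum_congr rfl
  intro x _
  rw [← Finset.card_filter]
  have : (univ : Finset (Fin n)).filter (fun y => x < y ∧ (x : ℕ) + y + 1 < n) =
      Finset.Ioo x (Fin.rev x) := by
    ext y
    simp only [Finset.mem_filter, Finset.mem_univ, true_and, Finset.mem_Ioo]
    have h1 : ((Fin.rev x : Fin n) : ℕ) = n - (x + 1) := Fin.val_rev x
    have := x.isLt
    rw [Fin.lt_def, Fin.lt_def, h1]
    omega
  rw [this, Fin.card_Ioo, Fin.val_rev]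

lemma lower (n : ℕ) : 2 ^ ((n - 1) ^ 2 / 4) ≤ a n := by
  classical
  apply le_csSup (bdd n)
  set O : Finset (Sym2 (Fin n)) := (P n).image (fun p => s(p.1, p.2)) with hO
  have hOc : O.card = (n - 1) ^ 2 / 4 := by
    rw [hO, Finset.card_image_of_injOn, card_P]
    rintro ⟨x, y⟩ hx ⟨x', y'⟩ hx' h
    simp only [P, Finset.coe_filter, Set.mem_ofPred_eq, Finset.mem_univ, true_and] at hx hx'
    simp only [Sym2.eq_iff] at h
    rcases h with ⟨h1, h2⟩ | ⟨h1, h2⟩
    · rw [h1, h2]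
    · subst h1; subst h2
      exact absurd hx.1 (not_lt.2 hx'.1.le)
  refine ⟨O.powerset.image G, balanced_image O, ?_⟩
  rw [Finset.card_image_of_injOn, Finset.card_powerset, hOc]
  intro S hS T hT hST
  rw [Finset.mem_coe, Finset.mem_powerset] at hS hT
  have aux : ∀ S T : Finset (Sym2 (Fin n)), S ⊆ O → G S = G T → S ⊆ T := by
    intro S T hS hST e he
    have he' := hS he
    rw [hO, Finset.mem_image] at he'
    obtain ⟨⟨x, y⟩, hp, rfl⟩ := he'
    simp only [P, Finset.mem_filter, Finset.mem_univ, true_and] at hp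
    have h1 : (G S).Adj x y := (G_adj S x y).2 ⟨ne_of_lt hp.1, Or.inl ⟨hp.2, he⟩⟩
    rw [hST, G_adj] at h1
    rcases h1.2 with h | h
    · exact h.2
    · exact absurd h.1 (by omega)
  exact subset_antisymm (aux S T hS hST) (aux T S hT hST.symm)

/-! ### Upper bound -/

lemma card_le_of_disjoint {n : ℕ} (X : Finset (Sym2 (Fin n))) (p : Equiv.Perm (Fin n))
    (hX : ∀ e ∈ X, ¬ e.IsDiag) (h : ∀ e ∈ X, Sym2.map p e ∉ X) : X.card ≤ n.choose 2 / 2 := by
  classical
  have hinj : Function.Injective (Sym2.map p) := Sym2.map.injective p.injective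
  have hd : Disjoint X (X.image (Sym2.map p)) := by
    rw [Finset.disjoint_right]
    intro e he he'
    rw [Finset.mem_image] at he
    obtain ⟨f, hf, rfl⟩ := he
    exact h f hf he'
  have hsub : X ∪ X.image (Sym2.map p) ⊆
      (univ : Finset (Sym2 (Fin n))).filter (fun e => ¬ e.IsDiag) := by
    intro e he
    rw [Finset.mem_filter]
    refine ⟨Finset.mem_univ _, ?_⟩
    rw [Finset.mem_union] at he
    rcases he with he | he
    · exact hX e he
    · rw [Finset.mem_image] at he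
      obtain ⟨f, hf, rfl⟩ := he
      have := hX f hf
      revert this
      induction f with
      | _ x y =>
        rw [Sym2.map_mk, Sym2.mk_isDiag_iff, Sym2.mk_isDiag_iff]
        exact fun h1 h2 => h1 (p.injective h2)
  have hc := Finset.card_le_card hsub
  rw [Finset.card_union_of_disjoint hd, Finset.card_image_of_injective _ hinj] at hc
  have : ((univ : Finset (Sym2 (Fin n))).filter (fun e => ¬ e.IsDiag)).card = n.choose 2 := by
    rw [← Fintype.card_subtype, Sym2.card_subtype_not_diag, Fintype.card_fin]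
  omega

lemma upper_F {n : ℕ} (F : Finset (SimpleGraph (Fin n))) (hF : Balanced F) :
    F.card ≤ n.factorial * 2 ^ (n.choose 2 / 2) := by
  classical
  rcases F.eq_empty_or_nonempty with rfl | ⟨A, hA⟩
  · simp
  have hchoose : ∀ B : SimpleGraph (Fin n), ∃ p : Equiv.Perm (Fin n), B ∈ F →
      ∀ x y, (B \ A).Adj (p x) (p y) ↔ (A \ B).Adj x y := by
    intro B
    by_cases hB : B ∈ F
    · obtain ⟨φ⟩ := hF A hA B hB
      exact ⟨φ.toEquiv, fun _ x y => φ.map_rel_iff⟩
    · exact ⟨1, fun h => absurd h hB⟩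
  choose p hp using hchoose
  let X : Equiv.Perm (Fin n) → Finset (Sym2 (Fin n)) := fun q =>
    univ.filter (fun e => e ∈ A.edgeSet ∧ Sym2.map q e ∉ A.edgeSet)
  let T : Finset (Σ _ : Equiv.Perm (Fin n), Finset (Sym2 (Fin n))) :=
    univ.sigma (fun q => (X q).powerset)
  let f : SimpleGraph (Fin n) → (Σ _ : Equiv.Perm (Fin n), Finset (Sym2 (Fin n))) :=
    fun B => ⟨p B, univ.filter (fun e => e ∈ (A \ B).edgeSet)⟩
  have hmaps : ∀ B ∈ F, f B ∈ T := by
    intro B hB
    rw [Finset.mem_sigma]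
    refine ⟨Finset.mem_univ _, ?_⟩
    rw [Finset.mem_powerset]
    intro e he
    have he' : e ∈ (A \ B).edgeSet := (Finset.mem_filter.1 he).2
    refine Finset.mem_filter.2 ⟨Finset.mem_univ _, ?_⟩
    revert he'
    induction e with
    | _ x y =>
      intro he'
      rw [mem_edgeSet] at he'
      rw [Sym2.map_mk, mem_edgeSet, mem_edgeSet]
      have h2 := (hp B hB x y).2 he'
      rw [sdiff_adj] at he' h2
      exact ⟨he'.1, h2.2⟩
  have hinj : Set.InjOn f (F : Set (SimpleGraph (Fin n))) := by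
    intro B hB C hC hBC
    rw [Finset.mem_coe] at hB hC
    have h1 : p B = p C := congrArg Sigma.fst hBC
    have h2 : (univ.filter (fun e => e ∈ (A \ B).edgeSet)) =
        (univ.filter (fun e => e ∈ (A \ C).edgeSet)) := by
      have := hBC
      simp only [f, Sigma.mk.injEq, heq_eq_eq] at this
      exact this.2
    have h3 : ∀ x y, (A \ B).Adj x y ↔ (A \ C).Adj x y := by
      intro x y
      have := Finset.ext_iff.1 h2 s(x, y)
      simpa [Finset.mem_filter] using this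
    have h4 : ∀ x y, (B \ A).Adj x y ↔ (C \ A).Adj x y := by
      intro x y
      have e1 := hp B hB ((p B).symm x) ((p B).symm y)
      have e2 := hp C hC ((p B).symm x) ((p B).symm y)
      rw [← h1] at e2
      rw [Equiv.apply_symm_apply, Equiv.apply_symm_apply] at e1 e2
      rw [e1, e2]
      exact h3 _ _
    ext x y
    have a1 := h3 x y
    have a2 := h4 x y
    simp only [sdiff_adj] at a1 a2
    tauto
  have hcard := Finset.card_le_card_of_injOn f hmaps hinj
  refine hcard.trans ?_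
  rw [Finset.card_sigma]
  have hle : ∀ q ∈ (univ : Finset (Equiv.Perm (Fin n))), ((X q).powerset).card ≤
      2 ^ (n.choose 2 / 2) := by
    intro q _
    rw [Finset.card_powerset]
    apply Nat.pow_le_pow_right (by norm_num)
    apply card_le_of_disjoint (X q) q
    · intro e he
      exact A.not_isDiag_of_mem_edgeSet (Finset.mem_filter.1 he).2.1
    · intro e he he'
      exact (Finset.mem_filter.1 he).2.2 (Finset.mem_filter.1 he').2.1
  refine (Finset.sum_le_card_nsmul _ _ _ hle).trans ?_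
  rw [Finset.card_univ, Fintype.card_perm, Fintype.card_fin, smul_eq_mul]

lemma upper (n : ℕ) : a n ≤ n.factorial * 2 ^ (n.choose 2 / 2) := by
  have hne : {k : ℕ | ∃ F : Finset (SimpleGraph (Fin n)), Balanced F ∧ F.card = k}.Nonempty :=
    ⟨0, ∅, fun A hA => absurd hA (Finset.notMem_empty _), rfl⟩
  apply csSup_le hne
  rintro k ⟨F, hF, rfl⟩
  exact upper_F F hF

lemma a_pos (n : ℕ) : 0 < a n := lt_of_lt_of_le (by positivity) (lower n)

/-! ### Asymptotics -/

lemma log_lower (n : ℕ) (hn : 1 ≤ n) :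
    ((n : ℝ) - 1) ^ 2 / 4 - 1 ≤ Real.logb 2 (a n) := by
  have h1 : ((2 : ℝ) ^ ((n - 1) ^ 2 / 4 : ℕ)) ≤ (a n : ℝ) := by exact_mod_cast lower n
  have h2 : (((n - 1) ^ 2 / 4 : ℕ) : ℝ) ≤ Real.logb 2 (a n) := by
    rw [Real.le_logb_iff_rpow_le (by norm_num) (by exact_mod_cast a_pos n), Real.rpow_natCast]
    exact h1
  have h3 : (n - 1) ^ 2 ≤ 4 * ((n - 1) ^ 2 / 4) + 4 := by omega
  have h4 : ((n : ℝ) - 1) ^ 2 ≤ 4 * (((n - 1) ^ 2 / 4 : ℕ) : ℝ) + 4 := by
    have : (((n - 1) ^ 2 : ℕ) : ℝ) ≤ ((4 * ((n - 1) ^ 2 / 4) + 4 : ℕ) : ℝ) := by exact_mod_cast h3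
    push_cast [Nat.cast_sub hn] at this ⊢
    exact this
  linarith

lemma log_upper (n : ℕ) (hn : 1 ≤ n) :
    Real.logb 2 (a n) ≤ n * Real.logb 2 n + (n : ℝ) * ((n : ℝ) - 1) / 4 := by
  have h1 : (a n : ℝ) ≤ (n : ℝ) ^ n * 2 ^ (n.choose 2 / 2 : ℕ) := by
    have h := (upper n).trans (Nat.mul_le_mul_right _ (Nat.factorial_le_pow n))
    exact_mod_cast h
  have hn0 : (0 : ℝ) < n := by exact_mod_cast hn
  have h2 : Real.logb 2 (a n) ≤ Real.logb 2 ((n : ℝ) ^ n * 2 ^ (n.choose 2 / 2 : ℕ)) :=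
    Real.logb_le_logb_of_le (by norm_num) (by exact_mod_cast a_pos n) h1
  rw [Real.logb_mul (by positivity) (by positivity), Real.logb_pow, Real.logb_pow,
    Real.logb_self_eq_one (by norm_num), mul_one] at h2
  have h3 : ((n.choose 2 / 2 : ℕ) : ℝ) ≤ (n : ℝ) * ((n : ℝ) - 1) / 4 := by
    have h4 : 2 * (n.choose 2 / 2) ≤ n.choose 2 := Nat.mul_div_le _ _
    have h5 : (n.choose 2 : ℝ) = (n : ℝ) * ((n : ℝ) - 1) / 2 := Nat.cast_choose_two ℝ n
    have h6 : (2 : ℝ) * ((n.choose 2 / 2 : ℕ) : ℝ) ≤ (n.choose 2 : ℝ) := by exact_mod_cast h4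
    linarith
  linarith

lemma limit : Tendsto (fun n : ℕ => Real.logb 2 (a n) / (n : ℝ) ^ 2) atTop (𝓝 (1 / 4)) := by
  have hinv : Tendsto (fun n : ℕ => ((n : ℝ))⁻¹) atTop (𝓝 0) :=
    tendsto_inv_atTop_zero.comp tendsto_natCast_atTop_atTop
  have hlog : Tendsto (fun n : ℕ => Real.log (n : ℝ) / (n : ℝ)) atTop (𝓝 0) := by
    have := Real.isLittleO_log_id_atTop.tendsto_div_nhds_zero
    exact this.comp tendsto_natCast_atTop_atTop
  have hlow : Tendsto (fun n : ℕ => (1 - ((n : ℝ))⁻¹) ^ 2 / 4 - ((n : ℝ))⁻¹ ^ 2) atTop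
      (𝓝 (1 / 4)) := by
    have h := (((tendsto_const_nhds (x := (1 : ℝ))).sub hinv).pow 2).div_const 4
    have h' := h.sub (hinv.pow 2)
    simpa using h'
  have hup : Tendsto (fun n : ℕ => Real.log (n : ℝ) / (n : ℝ) / Real.log 2 +
      (1 - ((n : ℝ))⁻¹) / 4) atTop (𝓝 (1 / 4)) := by
    have h := (hlog.div_const (Real.log 2)).add
      (((tendsto_const_nhds (x := (1 : ℝ))).sub hinv).div_const 4)
    simpa using h
  refine tendsto_of_tendsto_of_tendsto_of_le_of_le' hlow hup ?_ ?_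
  · filter_upwards [eventually_ge_atTop 1] with n hn
    have hn0 : (0 : ℝ) < n := by exact_mod_cast hn
    rw [le_div_iff₀ (by positivity)]
    have h := log_lower n hn
    have e : ((1 - ((n : ℝ))⁻¹) ^ 2 / 4 - ((n : ℝ))⁻¹ ^ 2) * (n : ℝ) ^ 2 =
        ((n : ℝ) - 1) ^ 2 / 4 - 1 := by
      field_simp
    rw [e]
    exact h
  · filter_upwards [eventually_ge_atTop 1] with n hn
    have hn0 : (0 : ℝ) < n := by exact_mod_cast hn
    rw [div_le_iff₀ (by positivity)]
    have h := log_upper n hn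
    have hl2 : Real.log 2 ≠ 0 := (Real.log_pos (by norm_num)).ne'
    have e : (Real.log (n : ℝ) / (n : ℝ) / Real.log 2 + (1 - ((n : ℝ))⁻¹) / 4) * (n : ℝ) ^ 2 =
        n * Real.logb 2 n + (n : ℝ) * ((n : ℝ) - 1) / 4 := by
      unfold Real.logb
      field_simp
    rw [e]
    exact h

end Pool.Agent.V11146.Bal
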