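import Mathlib

set_option autoImplicit false

namespace Pool.Agent.V11146.HalfDense

open Finset

/-- bilinear form of a real matrix -/
noncomputable def B {n : ℕ} (A : Fin n → Fin n → ℝ) (x y : Fin n → ℝ) : ℝ :=
  ∑ i, ∑ j, A i j * x i * y j

/-- ordered count of the matrix on a pair of sets -/
noncomputable def E {n : ℕ} (A : Fin n → Fin n → ℝ) (U Z : Finset (Fin n)) : ℝ :=
  ∑ i ∈ U, ∑ j ∈ Z, A i j

section
variable {n : ℕ} {A : Fin n → Fin n → ℝ}

lemma B_add_left (x x' y : Fin n → ℝ) : B A (x + x') y = B A x y + B A x' y := by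
  simp only [B, Pi.add_apply, ← Finset.sum_add_distrib]
  refine Finset.sum_congr rfl fun i _ => Finset.sum_congr rfl fun j _ => by ring

lemma B_add_right (x y y' : Fin n → ℝ) : B A x (y + y') = B A x y + B A x y' := by
  simp only [B, Pi.add_apply, ← Finset.sum_add_distrib]
  refine Finset.sum_congr rfl fun i _ => Finset.sum_congr rfl fun j _ => by ring

lemma B_smul_left (t : ℝ) (x y : Fin n → ℝ) : B A (t • x) y = t * B A x y := by
  simp only [B, Pi.smul_apply, smul_eq_mul, Finset.mul_sum]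
  refine Finset.sum_congr rfl fun i _ => Finset.sum_congr rfl fun j _ => by ring

lemma B_smul_right (t : ℝ) (x y : Fin n → ℝ) : B A x (t • y) = t * B A x y := by
  simp only [B, Pi.smul_apply, smul_eq_mul, Finset.mul_sum]
  refine Finset.sum_congr rfl fun i _ => Finset.sum_congr rfl fun j _ => by ring

lemma B_comm (hA : ∀ i j, A i j = A j i) (x y : Fin n → ℝ) : B A x y = B A y x := by
  simp only [B]
  rw [Finset.sum_comm]
  refine Finset.sum_congr rfl fun i _ => Finset.sum_congr rfl fun j _ => ?_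
  rw [hA j i]; ring

lemma B_quad (hA : ∀ i j, A i j = A j i) (t : ℝ) (x v : Fin n → ℝ) :
    B A (x + t • v) (x + t • v) = B A x x + 2 * t * B A x v + t ^ 2 * B A v v := by
  rw [B_add_left, B_add_right, B_add_right, B_smul_left, B_smul_right, B_smul_left, B_smul_right,
    B_comm hA v x]
  ring

lemma B_single_single (a b : Fin n) :
    B A (Pi.single a 1) (Pi.single b 1) = A a b := by
  simp only [B]
  rw [Finset.sum_eq_single a]
  · rw [Finset.sum_eq_single b]
    · simp
    · intro j _ hj; simp [Pi.single_eq_of_ne hj]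
    · simp
  · intro i _ hi; simp [Pi.single_eq_of_ne hi]
  · simp

lemma B_diff (hA : ∀ i j, A i j = A j i) (h0 : ∀ i, A i i = 0) (hp : ∀ i j, 0 ≤ A i j) (a b : Fin n) :
    B A (Pi.single a 1 - Pi.single b 1) (Pi.single a 1 - Pi.single b 1) ≤ 0 := by
  have h : (Pi.single a 1 - Pi.single b 1 : Fin n → ℝ) =
      Pi.single a 1 + (-1 : ℝ) • Pi.single b 1 := by
    simp [sub_eq_add_neg]
  rw [h, B_quad hA, B_single_single, B_single_single, B_single_single, h0, h0]
  have := hp a b
  nlinarith

/-- Pipage rounding. -/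
lemma rounding (hA : ∀ i j, A i j = A j i) (h0 : ∀ i, A i i = 0) (hp : ∀ i j, 0 ≤ A i j) :
    ∀ (m : ℕ) (x : Fin n → ℝ), (∀ i, |x i| ≤ 1) → (∑ i, x i = 0) →
      (Finset.univ.filter fun i => x i ≠ 1 ∧ x i ≠ -1).card = m →
      ∃ x' : Fin n → ℝ, (∀ i, x' i = 1 ∨ x' i = -1) ∧ |∑ i, x' i| < 2 ∧
        B A x' x' ≤ B A x x := by
  intro m
  induction m using Nat.strong_induction_on with
  | _ m ih =>
  intro x hx hs hm
  by_cases h1 : 1 < m
  · -- two fractional coordinates
    rw [← hm, Finset.one_lt_card] at h1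
    obtain ⟨a, ha, b, hb, hab⟩ := h1
    simp only [Finset.mem_filter, Finset.mem_univ, true_and] at ha hb
    have hxa := abs_le.1 (hx a)
    have hxb := abs_le.1 (hx b)
    have ha1 : x a < 1 := lt_of_le_of_ne hxa.2 ha.1
    have ha2 : -1 < x a := lt_of_le_of_ne hxa.1 (Ne.symm ha.2)
    have hb1 : x b < 1 := lt_of_le_of_ne hxb.2 hb.1
    have hb2 : -1 < x b := lt_of_le_of_ne hxb.1 (Ne.symm hb.2)
    set v : Fin n → ℝ := Pi.single a 1 - Pi.single b 1 with hv
    have hva : v a = 1 := by simp [hv, hab]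
    have hvb : v b = -1 := by simp [hv, hab]
    have hvo : ∀ i, i ≠ a → i ≠ b → v i = 0 := by
      intro i h1 h2; simp [hv, Pi.single_eq_of_ne h1, Pi.single_eq_of_ne h2]
    have hvs : ∑ i, v i = 0 := by
      simp [hv]
    have hvv : B A v v ≤ 0 := B_diff hA h0 hp a b
    -- general step
    have key : ∀ t : ℝ, |x a + t| ≤ 1 → |x b - t| ≤ 1 →
        ((x a + t = 1 ∨ x a + t = -1) ∨ (x b - t = 1 ∨ x b - t = -1)) →
        B A (x + t • v) (x + t • v) ≤ B A x x →
        ∃ x' : Fin n → ℝ, (∀ i, x' i = 1 ∨ x' i = -1) ∧ |∑ i, x' i| < 2 ∧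
        B A x' x' ≤ B A x x := by
      intro t hta htb hor hle
      have hval : ∀ i, (x + t • v) i = x i + t * v i := by intro i; simp
      have hlt : (Finset.univ.filter fun i => (x + t • v) i ≠ 1 ∧ (x + t • v) i ≠ -1).card < m := by
        rw [← hm]
        apply Finset.card_lt_card
        rw [Finset.ssubset_iff_subset_ne]
        constructor
        · intro i hi
          simp only [Finset.mem_filter, Finset.mem_univ, true_and] at hi ⊢
          by_cases hia : i = a
          · subst hia; exact ha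
          · by_cases hib : i = b
            · subst hib; exact hb
            · rw [hval, hvo i hia hib] at hi
              simpa using hi
        · intro heq
          have haa : a ∈ (Finset.univ.filter fun i => x i ≠ 1 ∧ x i ≠ -1) := by
            simpa using ha
          have hbb : b ∈ (Finset.univ.filter fun i => x i ≠ 1 ∧ x i ≠ -1) := by
            simpa using hb
          rw [← heq] at haa hbb
          simp only [Finset.mem_filter, Finset.mem_univ, true_and, hval, hva, hvb, mul_one] at haa hbb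
          rcases hor with (h | h) | (h | h)
          · exact haa.1 h
          · exact haa.2 h
          · apply hbb.1; linarith
          · apply hbb.2; linarith
      obtain ⟨x', hx'1, hx'2, hx'3⟩ := ih _ hlt (x + t • v) (by
        intro i
        rw [hval]
        by_cases hia : i = a
        · subst hia; rw [hva]; simpa using hta
        · by_cases hib : i = b
          · subst hib; rw [hvb]; rw [show x i + t * -1 = x i - t by ring]; exact htb
          · rw [hvo i hia hib]; simpa using hx i) (by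
        simp only [hval, Finset.sum_add_distrib, ← Finset.mul_sum, hvs, hs]; simp) rfl
      exact ⟨x', hx'1, hx'2, hx'3.trans hle⟩
    by_cases hB : B A x v ≤ 0
    · -- move in the positive direction
      rcases le_total (1 - x a) (1 + x b) with h | h
      · apply key (1 - x a)
        · simp
        · rw [abs_le]; constructor <;> linarith
        · left; left; ring
        · rw [B_quad hA]
          have : 0 ≤ 1 - x a := by linarith
          nlinarith [mul_nonneg this (neg_nonneg.2 hB), mul_nonneg (sq_nonneg (1 - x a)) (neg_nonneg.2 hvv)]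
      · apply key (1 + x b)
        · rw [abs_le]; constructor <;> linarith
        · rw [abs_le]; constructor <;> linarith
        · right; right; ring
        · rw [B_quad hA]
          have : 0 ≤ 1 + x b := by linarith
          nlinarith [mul_nonneg this (neg_nonneg.2 hB), mul_nonneg (sq_nonneg (1 + x b)) (neg_nonneg.2 hvv)]
    · push Not at hB
      rcases le_total (1 + x a) (1 - x b) with h | h
      · apply key (-(1 + x a))
        · rw [abs_le]; constructor <;> linarith
        · rw [abs_le]; constructor <;> linarith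
        · left; right; ring
        · rw [B_quad hA]
          have : 0 ≤ 1 + x a := by linarith
          nlinarith [mul_nonneg this hB.le, mul_nonneg (sq_nonneg (1 + x a)) (neg_nonneg.2 hvv)]
      · apply key (-(1 - x b))
        · rw [abs_le]; constructor <;> linarith
        · rw [abs_le]; constructor <;> linarith
        · right; left; ring
        · rw [B_quad hA]
          have : 0 ≤ 1 - x b := by linarith
          nlinarith [mul_nonneg this hB.le, mul_nonneg (sq_nonneg (1 - x b)) (neg_nonneg.2 hvv)]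
  · -- at most one fractional coordinate
    rcases Nat.lt_or_ge m 1 with hm0 | hm1
    · have : m = 0 := by omega
      rw [this, Finset.card_eq_zero, Finset.filter_eq_empty_iff] at hm
      refine ⟨x, ?_, ?_, le_rfl⟩
      · intro i
        have := hm (Finset.mem_univ i)
        tauto
      · rw [hs]; norm_num
    · have hm' : m = 1 := by omega
      rw [hm', Finset.card_eq_one] at hm
      obtain ⟨v, hv⟩ := hm
      have hvm : x v ≠ 1 ∧ x v ≠ -1 := by
        have : v ∈ (Finset.univ.filter fun i => x i ≠ 1 ∧ x i ≠ -1) := by rw [hv]; simp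
        simpa using this
      have ho : ∀ i, i ≠ v → x i = 1 ∨ x i = -1 := by
        intro i hi
        by_contra hcon
        push Not at hcon
        have : i ∈ (Finset.univ.filter fun i => x i ≠ 1 ∧ x i ≠ -1) := by simpa using hcon
        rw [hv] at this
        exact hi (by simpa using this)
      have hxv := abs_le.1 (hx v)
      have hv1 : x v < 1 := lt_of_le_of_ne hxv.2 hvm.1
      have hv2 : -1 < x v := lt_of_le_of_ne hxv.1 (Ne.symm hvm.2)
      have hbb : B A (Pi.single v 1) (Pi.single v 1) = 0 := by rw [B_single_single, h0]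
      have key : ∀ t : ℝ, (x v + t = 1 ∨ x v + t = -1) → t * B A x (Pi.single v 1) ≤ 0 →
          ∃ x' : Fin n → ℝ, (∀ i, x' i = 1 ∨ x' i = -1) ∧ |∑ i, x' i| < 2 ∧
            B A x' x' ≤ B A x x := by
        intro t ht hle
        refine ⟨x + t • Pi.single v 1, ?_, ?_, ?_⟩
        · intro i
          by_cases hi : i = v
          · subst hi; simpa using ht
          · simp [Pi.single_eq_of_ne hi, ho i hi]
        · have : ∑ i, (x + t • (Pi.single v 1 : Fin n → ℝ)) i = t := by
            simp only [Pi.add_apply, Pi.smul_apply, smul_eq_mul, Finset.sum_add_distrib, hs,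
              ← Finset.mul_sum]
            simp
          rw [this, abs_lt]
          rcases ht with ht | ht <;> constructor <;> linarith
        · rw [B_quad hA, hbb]
          nlinarith
      by_cases hB : B A x (Pi.single v 1) ≤ 0
      · apply key (1 - x v)
        · left; ring
        · nlinarith
      · push Not at hB
        apply key (-1 - x v)
        · right; ring
        · nlinarith

/-- indicator -/
noncomputable def ind {n : ℕ} (U : Finset (Fin n)) : Fin n → ℝ := fun i => if i ∈ U then 1 else 0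

lemma B_ind (U Z : Finset (Fin n)) : B A (ind U) (ind Z) = E A U Z := by
  simp only [B, E, ind]
  rw [← Finset.sum_filter_add_sum_filter_not Finset.univ (fun i => i ∈ U)]
  have h2 : ∑ x ∈ Finset.univ.filter (fun i => ¬ i ∈ U), ∑ j, A x j * (if x ∈ U then (1:ℝ) else 0) *
      (if j ∈ Z then 1 else 0) = 0 := by
    apply Finset.sum_eq_zero
    intro i hi
    simp only [Finset.mem_filter, Finset.mem_univ, true_and] at hi
    simp [hi]
  rw [h2, add_zero]
  have : Finset.univ.filter (fun i => i ∈ U) = U := by ext; simp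
  rw [this]
  refine Finset.sum_congr rfl fun i hi => ?_
  simp [hi]

lemma sum_ind (U : Finset (Fin n)) : ∑ i, ind U i = U.card := by
  simp [ind]

lemma E_mono (hp : ∀ i j, 0 ≤ A i j) {U U' Z Z' : Finset (Fin n)} (h : U ⊆ U') (h' : Z ⊆ Z') :
    E A U Z ≤ E A U' Z' := by
  unfold E
  calc ∑ i ∈ U, ∑ j ∈ Z, A i j ≤ ∑ i ∈ U, ∑ j ∈ Z', A i j := by
        refine Finset.sum_le_sum fun i _ => Finset.sum_le_sum_of_subset_of_nonneg h' fun j _ _ => hp i j
    _ ≤ ∑ i ∈ U', ∑ j ∈ Z', A i j := by
        refine Finset.sum_le_sum_of_subset_of_nonneg h fun i _ _ => Finset.sum_nonneg fun j _ => hp i j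

lemma E_le_card (h1 : ∀ i j, A i j ≤ 1) (U Z : Finset (Fin n)) : E A U Z ≤ U.card * Z.card := by
  unfold E
  calc ∑ i ∈ U, ∑ j ∈ Z, A i j ≤ ∑ i ∈ U, ∑ j ∈ Z, (1:ℝ) :=
        Finset.sum_le_sum fun i _ => Finset.sum_le_sum fun j _ => h1 i j
    _ = U.card * Z.card := by simp

lemma E_union (hA : ∀ i j, A i j = A j i) {U Z : Finset (Fin n)} (h : Disjoint U Z) :
    E A (U ∪ Z) (U ∪ Z) = E A U U + E A Z Z + 2 * E A U Z := by
  have h3 : E A Z U = E A U Z := by
    unfold E; rw [Finset.sum_comm]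
    refine Finset.sum_congr rfl fun i _ => Finset.sum_congr rfl fun j _ => hA _ _
  have : E A (U ∪ Z) (U ∪ Z) = E A U U + E A U Z + (E A Z U + E A Z Z) := by
    unfold E
    rw [Finset.sum_union h]
    simp only [Finset.sum_union h, Finset.sum_add_distrib]
  rw [this, h3]; ring

/-- the quadratic form is bounded below on full balanced sign vectors -/
lemma full_bound (hA : ∀ i j, A i j = A j i) (hp : ∀ i j, 0 ≤ A i j) {L M : ℝ}
    (hL : ∀ W : Finset (Fin n), W.card = n / 2 → L ≤ E A W W) (hM : E A univ univ ≤ M)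
    (x : Fin n → ℝ) (hx : ∀ i, x i = 1 ∨ x i = -1) (hs : |∑ i, x i| < 2) :
    4 * L - M ≤ B A x x := by
  set W : Finset (Fin n) := univ.filter fun i => x i = 1 with hW
  have hi : x = ind W + (-1 : ℝ) • ind Wᶜ := by
    ext i
    simp only [ind, Pi.add_apply, Pi.smul_apply, smul_eq_mul, Finset.mem_compl]
    rcases hx i with h | h
    · have : i ∈ W := by simp [hW, h]
      simp [this, h]
    · have : i ∉ W := by simp [hW, h]; norm_num
      simp [this, h]
  have hQ : B A x x = E A W W + E A Wᶜ Wᶜ - 2 * E A W Wᶜ := by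
    rw [hi, B_quad hA, B_ind, B_ind, B_ind]; ring
  have hT : E A univ univ = E A W W + E A Wᶜ Wᶜ + 2 * E A W Wᶜ := by
    rw [← E_union hA disjoint_compl_right]; simp
  have hge : ∀ W' : Finset (Fin n), n / 2 ≤ W'.card → L ≤ E A W' W' := by
    intro W' hW'
    obtain ⟨W0, h0, h1⟩ := Finset.exists_subset_card_eq hW'
    exact (hL W0 h1).trans (E_mono hp h0 h0)
  have hsum : (∑ i, x i) = (W.card : ℝ) - (Wᶜ.card : ℝ) := by
    rw [hi]
    simp only [Pi.add_apply, Pi.smul_apply, smul_eq_mul, Finset.sum_add_distrib,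
      ← Finset.mul_sum, sum_ind]
    ring
  have hcc : W.card + Wᶜ.card = n := by
    have := Finset.card_add_card_compl W
    simp at this ⊢
  rw [hsum, abs_lt] at hs
  have h1 : (W.card : ℤ) - Wᶜ.card < 2 := by exact_mod_cast hs.2
  have h2 : (-2 : ℤ) < (W.card : ℤ) - Wᶜ.card := by exact_mod_cast hs.1
  have a1 := hge W (by omega)
  have a2 := hge Wᶜ (by omega)
  rw [hQ]
  linarith

lemma psd (hA : ∀ i j, A i j = A j i) (h0 : ∀ i, A i i = 0) (hp : ∀ i j, 0 ≤ A i j) {K : ℝ}
    (hK : ∀ x : Fin n → ℝ, (∀ i, x i = 1 ∨ x i = -1) → |∑ i, x i| < 2 → -K ≤ B A x x)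
    (hn : 0 < n) {U Z : Finset (Fin n)} (h : Disjoint U Z) :
    -K * (n:ℝ) ^ 2 ≤ (Z.card:ℝ) ^ 2 * E A U U + (U.card:ℝ) ^ 2 * E A Z Z
      - 2 * U.card * Z.card * E A U Z := by
  have hn' : (0:ℝ) < n := by exact_mod_cast hn
  set x : Fin n → ℝ := ((Z.card:ℝ) / n) • ind U + (-((U.card:ℝ) / n)) • ind Z with hx
  have hu : (U.card : ℝ) ≤ n := by
    have := Finset.card_le_univ U; simp at this; exact_mod_cast this
  have hz : (Z.card : ℝ) ≤ n := by
    have := Finset.card_le_univ Z; simp at this; exact_mod_cast this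
  have hu0 : (0:ℝ) ≤ U.card := Nat.cast_nonneg _
  have hz0 : (0:ℝ) ≤ Z.card := Nat.cast_nonneg _
  obtain ⟨x', h1, h2, h3⟩ := rounding (A := A) hA h0 hp _ x (by
    intro i
    simp only [hx, ind, Pi.add_apply, Pi.smul_apply, smul_eq_mul]
    by_cases hi : i ∈ U
    · have : i ∉ Z := Finset.disjoint_left.1 h hi
      simp only [hi, this, if_true, if_false, mul_one, mul_zero, add_zero]
      rw [abs_of_nonneg (by positivity), div_le_one hn']; exact hz
    · by_cases hj : i ∈ Z
      · simp only [hi, hj, if_true, if_false, mul_one, mul_zero, zero_add]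
        rw [abs_neg, abs_of_nonneg (by positivity), div_le_one hn']; exact hu
      · simp [hi, hj]) (by
    simp only [hx, ind, Pi.add_apply, Pi.smul_apply, smul_eq_mul, Finset.sum_add_distrib,
      ← Finset.mul_sum]
    simp
    ring) rfl
  have h4 := hK x' h1 h2
  have h5 : B A x x = ((Z.card:ℝ) / n) ^ 2 * E A U U + ((U.card:ℝ) / n) ^ 2 * E A Z Z
      - 2 * ((U.card:ℝ) / n) * (Z.card / n) * E A U Z := by
    rw [hx, B_quad hA, B_smul_left, B_smul_right, B_smul_left, B_ind, B_ind, B_ind]
    ring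
  have h6 : -K ≤ B A x x := h4.trans h3
  rw [h5] at h6
  have h7 := mul_le_mul_of_nonneg_right h6 (sq_nonneg (n:ℝ))
  refine h7.trans (le_of_eq ?_)
  field_simp

set_option maxHeartbeats 2000000 in
/-- density increment step, in real-variable form -/
lemma increment (hA : ∀ i j, A i j = A j i) (h1 : ∀ i j, A i j ≤ 1) (hp : ∀ i j, 0 ≤ A i j)
    {K c ρ θ γ : ℝ} (hc : 0 < c) (hρ : 0 < ρ) (hθ : 0 < θ) (hcγ : c ≤ γ) (hn : 0 < n)
    (hpsd : ∀ U Z : Finset (Fin n), Disjoint U Z → -K * (n:ℝ) ^ 2 ≤ (Z.card:ℝ) ^ 2 * E A U U +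
      (U.card:ℝ) ^ 2 * E A Z Z - 2 * U.card * Z.card * E A U Z)
    (hKb : K * (n:ℝ)^2 ≤ c * (ρ / 4) * (c / 4) ^ 2 * ρ * θ ^ 4 * (n:ℝ) ^ 4)
    {J U : Finset (Fin n)} (hUJ : U ⊆ J) (hJ : θ * n ≤ J.card) (hD : γ * (J.card:ℝ) ^ 2 ≤ E A J J)
    (hU : ρ * J.card ≤ U.card) (hUd : E A U U ≤ c / 2 * (U.card:ℝ) ^ 2) :
    (c / 4) * J.card ≤ ((J \ U).card : ℝ) ∧
      γ * (1 + ρ / 4) * ((J \ U).card:ℝ) ^ 2 ≤ E A (J \ U) (J \ U) := by
  have hn' : (0:ℝ) < n := by exact_mod_cast hn
  set Z := J \ U with hZ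
  have hdis : Disjoint U Z := Finset.disjoint_sdiff
  have hun : U ∪ Z = J := Finset.union_sdiff_of_subset hUJ
  have hcard : (J.card : ℝ) = U.card + Z.card := by
    rw [← hun, Finset.card_union_of_disjoint hdis]; push_cast; ring
  set j : ℝ := (J.card : ℝ) with hj
  set u : ℝ := (U.card : ℝ) with hu
  set z : ℝ := (Z.card : ℝ) with hz
  have hj0 : 0 < j := lt_of_lt_of_le (by positivity) hJ
  have hu0 : 0 < u := lt_of_lt_of_le (by positivity) hU
  have hz0 : 0 ≤ z := Nat.cast_nonneg _
  have hE := E_union (A := A) hA hdis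
  rw [hun] at hE
  have hUZ : E A U Z ≤ u * z := E_le_card h1 U Z
  have hZZ : E A Z Z ≤ z * z := E_le_card h1 Z Z
  have hUU0 : 0 ≤ E A U U := Finset.sum_nonneg fun i _ => Finset.sum_nonneg fun j _ => hp i j
  -- size of Z
  have hsz : (c / 4) * j ≤ z := by
    have e1 : E A J J ≤ c / 2 * u ^ 2 + z * z + 2 * (u * z) := by rw [hE]; linarith
    have e2 : c * j ^ 2 ≤ γ * j ^ 2 := mul_le_mul_of_nonneg_right hcγ (sq_nonneg _)
    have e3 : c * j ^ 2 ≤ c / 2 * u ^ 2 + z * z + 2 * (u * z) := by linarith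
    have e4 : c / 2 * u ^ 2 ≤ c / 2 * j ^ 2 := by
      apply mul_le_mul_of_nonneg_left _ (by positivity)
      nlinarith
    have e5 : z * z + 2 * (u * z) ≤ 2 * j * z := by nlinarith
    have e6 : c / 2 * j ^ 2 ≤ 2 * j * z := by linarith
    nlinarith
  refine ⟨hsz, ?_⟩
  have hz1 : 0 < z := lt_of_lt_of_le (by positivity) hsz
  have hP := hpsd U Z hdis
  change -K * (n:ℝ) ^ 2 ≤ z ^ 2 * E A U U + u ^ 2 * E A Z Z - 2 * u * z * E A U Z at hP
  -- E(J,J) * (u z) ≤ j (z E(U,U) + u E(Z,Z)) + K n^2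
  have hmain : E A J J * (u * z) ≤ j * (z * E A U U + u * E A Z Z) + K * (n:ℝ) ^ 2 := by
    rw [hE, hcard]
    have e : (u + z) * (z * E A U U + u * E A Z Z) + K * (n:ℝ) ^ 2 -
        (E A U U + E A Z Z + 2 * E A U Z) * (u * z) =
        z ^ 2 * E A U U + u ^ 2 * E A Z Z - 2 * u * z * E A U Z + K * (n:ℝ) ^ 2 := by ring
    linarith
  have g0 : 0 < γ := lt_of_lt_of_le hc hcγ
  have hUd' : E A U U ≤ γ / 2 * u ^ 2 := hUd.trans (by
    apply mul_le_mul_of_nonneg_right _ (sq_nonneg _); linarith)
  -- K n^2 bound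
  have hKz : K * (n:ℝ)^2 ≤ γ * (ρ / 4) * z ^ 2 * (u * j) := by
    refine hKb.trans ?_
    have s1 : (c / 4) ^ 2 * j ^ 2 ≤ z ^ 2 := by
      have := mul_self_le_mul_self (by positivity) hsz
      nlinarith
    have s2 : ρ * j ^ 2 ≤ u * j := by nlinarith
    have s3 : θ ^ 4 * (n:ℝ) ^ 4 ≤ j ^ 4 := by
      have := pow_le_pow_left₀ (by positivity) hJ 4
      rwa [mul_pow] at this
    calc c * (ρ / 4) * (c / 4) ^ 2 * ρ * θ ^ 4 * (n:ℝ) ^ 4
        = (c * (ρ / 4)) * ((c / 4) ^ 2 * ρ * (θ ^ 4 * (n:ℝ) ^ 4)) := by ring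
      _ ≤ (γ * (ρ / 4)) * ((c / 4) ^ 2 * ρ * j ^ 4) := by
          apply mul_le_mul
          · exact mul_le_mul_of_nonneg_right hcγ (by positivity)
          · exact mul_le_mul_of_nonneg_left s3 (by positivity)
          · positivity
          · positivity
      _ = (γ * (ρ / 4)) * (((c / 4) ^ 2 * j ^ 2) * (ρ * j ^ 2)) := by ring
      _ ≤ (γ * (ρ / 4)) * (z ^ 2 * (u * j)) := by
          apply mul_le_mul_of_nonneg_left _ (by positivity)
          apply mul_le_mul s1 s2 (by positivity) (by positivity)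
      _ = _ := by ring
  -- combine
  have c1 : γ * j ^ 2 * (u * z) ≤ j * (z * (γ / 2 * u ^ 2) + u * E A Z Z) +
      γ * (ρ / 4) * z ^ 2 * (u * j) := by
    have a1 : γ * j ^ 2 * (u * z) ≤ E A J J * (u * z) :=
      mul_le_mul_of_nonneg_right hD (by positivity)
    have a2 : j * (z * E A U U + u * E A Z Z) ≤ j * (z * (γ / 2 * u ^ 2) + u * E A Z Z) := by
      apply mul_le_mul_of_nonneg_left _ hj0.le
      have := mul_le_mul_of_nonneg_left hUd' hz1.le
      linarith
    linarith
  -- divide by j*u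
  have c2 : γ * j * z ≤ z * (γ / 2 * u) + E A Z Z + γ * (ρ / 4) * z ^ 2 := by
    have hju : 0 < j * u := by positivity
    by_contra hcon
    push Not at hcon
    have h9 := mul_lt_mul_of_pos_left hcon hju
    have e1 : j * u * (γ * j * z) = γ * j ^ 2 * (u * z) := by ring
    have e2 : j * u * (z * (γ / 2 * u) + E A Z Z + γ * (ρ / 4) * z ^ 2) =
      j * (z * (γ / 2 * u ^ 2) + u * E A Z Z) + γ * (ρ / 4) * z ^ 2 * (u * j) := by ring
    linarith
  have c3 : ρ * z ≤ u := by
    have : ρ * z ≤ ρ * j := by apply mul_le_mul_of_nonneg_left _ hρ.le; linarith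
    linarith
  have c4 : γ * z * (ρ * z) ≤ γ * z * u := mul_le_mul_of_nonneg_left c3 (by positivity)
  rw [hcard] at c2
  have e1 : γ * (u + z) * z = γ * z * u + γ * z ^ 2 := by ring
  have e2 : z * (γ / 2 * u) = γ * z * u / 2 := by ring
  have e3 : γ * z * (ρ * z) = γ * ρ * z ^ 2 := by ring
  have e4 : γ * (1 + ρ / 4) * z ^ 2 = γ * z ^ 2 + γ * ρ * z ^ 2 / 4 := by ring
  have e5 : γ * (ρ / 4) * z ^ 2 = γ * ρ * z ^ 2 / 4 := by ring
  linarith

/-- a locally dense set contains a clique -/
lemma clique_of_locally_dense (G : SimpleGraph (Fin n))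
    (hAG : ∀ i j, A i j = 1 ∧ G.Adj i j ∨ A i j = 0 ∧ ¬ G.Adj i j)
    {d : ℝ} (hd : 0 < d) (hd1 : d ≤ 1) :
    ∀ (k : ℕ) (J : Finset (Fin n)), J.Nonempty →
      (∀ U ⊆ J, d ^ k * J.card ≤ U.card → d * (U.card : ℝ) ^ 2 ≤ E A U U) →
      ∃ s ⊆ J, G.IsNClique k s := by
  classical
  intro k
  induction k with
  | zero => intro J _ _; exact ⟨∅, by simp, by simp [SimpleGraph.isNClique_iff]⟩
  | succ k ih =>
    intro J hJ hU
    have hj : (0:ℝ) < J.card := by exact_mod_cast hJ.card_pos
    have h1 := hU J subset_rfl (by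
      have : d ^ (k+1) ≤ 1 := pow_le_one₀ hd.le hd1
      nlinarith)
    obtain ⟨v, hv, hdeg⟩ : ∃ v ∈ J, d * J.card ≤ ∑ j ∈ J, A v j := by
      by_contra hcon
      push Not at hcon
      have : E A J J < ∑ i ∈ J, d * (J.card : ℝ) := Finset.sum_lt_sum_of_nonempty hJ hcon
      simp at this
      nlinarith
    set J' := J.filter fun j => G.Adj v j with hJ'
    have hsum : ∑ j ∈ J, A v j = J'.card := by
      rw [hJ', Finset.card_filter]
      push_cast
      refine Finset.sum_congr rfl fun j _ => ?_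
      rcases hAG v j with h | h <;> simp [h.1, h.2]
    rw [hsum] at hdeg
    have hJ'n : J'.Nonempty := by
      rw [← Finset.card_pos]
      have : (0:ℝ) < J'.card := lt_of_lt_of_le (by positivity) hdeg
      exact_mod_cast this
    obtain ⟨s, hs, hsc⟩ := ih J' hJ'n (by
      intro U hUJ' hUc
      apply hU U (hUJ'.trans (Finset.filter_subset _ _))
      refine le_trans ?_ hUc
      rw [pow_succ, mul_assoc]
      exact mul_le_mul_of_nonneg_left hdeg (by positivity))
    refine ⟨insert v s, ?_, ?_⟩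
    · intro x hx
      rcases Finset.mem_insert.1 hx with h | h
      · rw [h]; exact hv
      · exact Finset.filter_subset _ _ (hs h)
    · apply hsc.insert
      intro b hb
      exact (Finset.mem_filter.1 (hs hb)).2

/-- real adjacency matrix -/
noncomputable def adjR {n : ℕ} (G : SimpleGraph (Fin n)) (i j : Fin n) : ℝ := by
  classical exact if G.Adj i j then 1 else 0

lemma E_eq_ncard {n : ℕ} (G : SimpleGraph (Fin n)) (W : Finset (Fin n)) :
    E (adjR G) W W =
      2 * (({e : Sym2 (Fin n) | e ∈ G.edgeSet ∧ ∀ v ∈ e, v ∈ W}).ncard : ℝ) := by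
  classical
  let G' : SimpleGraph (Fin n) :=
    { Adj := fun i j => G.Adj i j ∧ i ∈ W ∧ j ∈ W
      symm := ⟨fun i j h => ⟨h.1.symm, h.2.2, h.2.1⟩⟩
      loopless := ⟨fun i h => G.loopless.irrefl i h.1⟩ }
  have hset : {e : Sym2 (Fin n) | e ∈ G.edgeSet ∧ ∀ v ∈ e, v ∈ W} = G'.edgeSet := by
    ext e
    induction e using Sym2.ind with
    | _ a b => simp [G', SimpleGraph.mem_edgeSet]
  rw [hset]
  have h1 := G'.sum_degrees_eq_twice_card_edges
  have h2 : (G'.edgeSet.ncard : ℝ) = (G'.edgeFinset.card : ℝ) := by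
    rw [← SimpleGraph.coe_edgeFinset, Set.ncard_coe_finset]
  rw [h2]
  have h3 : (2 * (G'.edgeFinset.card : ℝ)) = ∑ v, (G'.degree v : ℝ) := by exact_mod_cast h1.symm
  rw [h3]
  have h4 : ∀ v, (G'.degree v : ℝ) = ∑ j, (if G'.Adj v j then (1:ℝ) else 0) := by
    intro v
    rw [← SimpleGraph.card_neighborFinset_eq_degree, SimpleGraph.neighborFinset_eq_filter,
      Finset.card_filter]
    push_cast
    rfl
  simp only [h4, E]
  rw [← Finset.sum_subset (Finset.subset_univ W)]
  · refine Finset.sum_congr rfl fun i hi => ?_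
    rw [← Finset.sum_subset (Finset.subset_univ W)]
    · refine Finset.sum_congr rfl fun j hj => ?_
      simp [adjR, G', hi, hj]
    · intro j _ hj
      simp [G', hj]
  · intro i _ hi
    apply Finset.sum_eq_zero
    intro j _
    simp [G', hi]

end

end Pool.Agent.V11146.HalfDense
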