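import Mathlib

set_option autoImplicit false

namespace Pool.Agent.V11146.SSat

open Finset

/-- One block: a finite set with a labelling of pairs in which every dense subset contains a
transversal whose pairs carry the prescribed codes. -/
lemma tree_one (V : Type) [Fintype V] [DecidableEq V] (T : ℕ) :
    ∃ (Y : Type) (_ : Fintype Y), Fintype.card Y = Fintype.card V ^ T ∧
      ∀ code : V → V → ℕ, (∀ v w, code v w = code w v) →
        ∃ lab : Y → Y → ℕ, (∀ x y, lab x y = lab y x) ∧
          ∀ H : Finset Y, (Fintype.card V - 1) ^ T < H.card →
            ∃ Q : V → Y, Function.Injective Q ∧ (∀ v, Q v ∈ H) ∧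
              ∀ v w, v ≠ w → lab (Q v) (Q w) = code v w := by
  classical
  induction T with
  | zero =>
    refine ⟨Unit, inferInstance, by simp, ?_⟩
    intro code _
    refine ⟨fun _ _ => 0, fun _ _ => rfl, ?_⟩
    intro H hH
    exfalso
    have := H.card_le_univ
    simp at hH this
    omega
  | succ T ih =>
    obtain ⟨Y, hY, hcard, hlab⟩ := ih
    refine ⟨V × Y, inferInstance, by rw [Fintype.card_prod, hcard, pow_succ, mul_comm], ?_⟩
    intro code hcode
    obtain ⟨lab, hsymm, hrich⟩ := hlab code hcode
    refine ⟨fun p q => if p.1 = q.1 then lab p.2 q.2 else code p.1 q.1, ?_, ?_⟩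
    · intro p q
      by_cases h : p.1 = q.1
      · simp [h, hsymm p.2 q.2]
      · have h' : ¬ q.1 = p.1 := fun e => h e.symm
        simp [h, h', hcode p.1 q.1]
    · intro H hH
      -- fibres
      let Fib : V → Finset Y := fun v => univ.filter (fun y => (v, y) ∈ H)
      by_cases hne : ∀ v, (Fib v).Nonempty
      · choose y hy using hne
        refine ⟨fun v => (v, y v), ?_, ?_, ?_⟩
        · intro v w h
          exact (Prod.mk.inj h).1
        · intro v
          have := hy v
          simp only [Fib, mem_filter, mem_univ, true_and] at this
          exact this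
        · intro v w hvw
          simp [hvw]
      · push Not at hne
        obtain ⟨v0, hv0⟩ := hne
        have hsum : H.card = ∑ v, (Fib v).card := by
          rw [← Finset.card_sigma]
          refine Finset.card_bij (fun p _ => ⟨p.1, p.2⟩) ?_ ?_ ?_
          · rintro ⟨v, y⟩ hp
            simp [Fib, hp]
          · rintro ⟨v, y⟩ _ ⟨w, z⟩ _ h
            simp at h
            simp [h]
          · rintro ⟨v, y⟩ hp
            simp only [mem_sigma, mem_univ, Fib, mem_filter, true_and] at hp
            exact ⟨(v, y), hp, rfl⟩
        have hsum2 : H.card = ∑ v ∈ univ.erase v0, (Fib v).card := by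
          rw [hsum, ← Finset.add_sum_erase _ _ (mem_univ v0), hv0, card_empty, zero_add]
        have : ∃ v, (Fintype.card V - 1) ^ T < (Fib v).card := by
          by_contra hcon
          push Not at hcon
          have h1 : H.card ≤ ∑ _v ∈ univ.erase v0, (Fintype.card V - 1) ^ T := by
            rw [hsum2]
            exact Finset.sum_le_sum (fun v _ => hcon v)
          rw [Finset.sum_const, Finset.card_erase_of_mem (mem_univ v0), card_univ, smul_eq_mul,
            ← pow_succ'] at h1
          omega
        obtain ⟨v, hv⟩ := this
        obtain ⟨Q, hQ1, hQ2, hQ3⟩ := hrich (Fib v) hv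
        refine ⟨fun w => (v, Q w), ?_, ?_, ?_⟩
        · intro w w' h
          exact hQ1 (Prod.mk.inj h).2
        · intro w
          have := hQ2 w
          simp only [Fib, mem_filter, mem_univ, true_and] at this
          exact this
        · intro w w' hww
          simpa using hQ3 w w' hww

/-- Many blocks: a finite set with a labelling of pairs such that for every block `b ∈ B` every
`η`-dense subset contains a transversal with the codes of that block. -/
lemma tree_many (V : Type) [Fintype V] [Nonempty V] (η : ℝ) (hη : 0 < η)
    (B : Finset (ℕ × ℕ)) :
    ∃ (X : Type) (_ : Fintype X), Nonempty X ∧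
      ∀ code : ℕ × ℕ → V → V → ℕ, (∀ b v w, code b v w = code b w v) →
        ∃ lab : X → X → ℕ, (∀ x y, lab x y = lab y x) ∧
          ∀ b ∈ B, ∀ H : Finset X, η * Fintype.card X ≤ H.card →
            ∃ Q : V → X, Function.Injective Q ∧ (∀ v, Q v ∈ H) ∧
              ∀ v w, v ≠ w → lab (Q v) (Q w) = code b v w := by
  classical
  induction B using Finset.induction_on with
  | empty =>
    refine ⟨Unit, inferInstance, inferInstance, ?_⟩
    intro code _
    exact ⟨fun _ _ => 0, fun _ _ => rfl, by simp⟩
  | insert b0 B hb0 ih =>
    obtain ⟨X, hX, hXne, hlab⟩ := ih
    have hk : 0 < Fintype.card V := Fintype.card_pos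
    -- choose T
    obtain ⟨T, hT⟩ : ∃ T : ℕ, (((Fintype.card V - 1 : ℕ) : ℝ)) ^ T <
        η * (Fintype.card V : ℝ) ^ T := by
      have hlt : ((Fintype.card V - 1 : ℕ) : ℝ) / (Fintype.card V : ℝ) < 1 := by
        rw [div_lt_one (by exact_mod_cast hk)]
        exact_mod_cast Nat.sub_lt hk one_pos
      obtain ⟨T, hT⟩ := exists_pow_lt_of_lt_one hη hlt
      refine ⟨T, ?_⟩
      rw [div_pow, div_lt_iff₀ (by positivity)] at hT
      exact hT
    obtain ⟨Y, hY, hYcard, hYlab⟩ := tree_one V T
    refine ⟨Y × X, inferInstance, ?_, ?_⟩
    · have : 0 < Fintype.card Y := by rw [hYcard]; positivity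
      have := Fintype.card_pos_iff.1 this
      infer_instance
    · intro code hcode
      obtain ⟨labX, hsX, hrX⟩ := hlab code hcode
      obtain ⟨labY, hsY, hrY⟩ := hYlab (code b0) (hcode b0)
      refine ⟨fun p q => if p.1 = q.1 then labX p.2 q.2 else labY p.1 q.1, ?_, ?_⟩
      · intro p q
        by_cases h : p.1 = q.1
        · simp [h, hsX p.2 q.2]
        · have h' : ¬ q.1 = p.1 := fun e => h e.symm
          simp [h, h', hsY p.1 q.1]
      · intro b hb H hH
        rw [Finset.mem_insert] at hb
        have hcardP : (Fintype.card (Y × X) : ℝ) = (Fintype.card Y : ℝ) * Fintype.card X := by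
          rw [Fintype.card_prod]; push_cast; ring
        let Fib : Y → Finset X := fun y => univ.filter (fun x => (y, x) ∈ H)
        have hsum : H.card = ∑ y, (Fib y).card := by
          rw [← Finset.card_sigma]
          refine Finset.card_bij (fun p _ => ⟨p.1, p.2⟩) ?_ ?_ ?_
          · rintro ⟨v, y⟩ hp
            simp [Fib, hp]
          · rintro ⟨v, y⟩ _ ⟨w, z⟩ _ h
            simp at h
            simp [h]
          · rintro ⟨v, y⟩ hp
            simp only [mem_sigma, mem_univ, Fib, mem_filter, true_and] at hp
            exact ⟨(v, y), hp, rfl⟩
        by_cases hbB : b ∈ B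
        · -- some fibre is dense
          have hYpos : 0 < Fintype.card Y := by rw [hYcard]; positivity
          have : ∃ y, η * Fintype.card X ≤ (Fib y).card := by
            by_contra hcon
            push Not at hcon
            have hne : (univ : Finset Y).Nonempty := by
              have := Fintype.card_pos_iff.1 hYpos
              exact univ_nonempty
            have h1 : (H.card : ℝ) < ∑ _y : Y, η * Fintype.card X := by
              rw [hsum]
              push_cast
              exact Finset.sum_lt_sum_of_nonempty hne (fun y _ => hcon y)
            rw [Finset.sum_const, card_univ, nsmul_eq_mul] at h1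
            rw [hcardP] at hH
            nlinarith
          obtain ⟨y, hy⟩ := this
          obtain ⟨Q, hQ1, hQ2, hQ3⟩ := hrX b hbB (Fib y) hy
          refine ⟨fun w => (y, Q w), ?_, ?_, ?_⟩
          · intro w w' h
            exact hQ1 (Prod.mk.inj h).2
          · intro w
            have := hQ2 w
            simp only [Fib, mem_filter, mem_univ, true_and] at this
            exact this
          · intro w w' hww
            simpa using hQ3 w w' hww
        · have hbb : b = b0 := by tauto
          subst hbb
          -- project
          let H1 : Finset Y := H.image Prod.fst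
          have hH1 : H.card ≤ H1.card * Fintype.card X := by
            calc H.card ≤ (H1 ×ˢ (univ : Finset X)).card := by
                  apply Finset.card_le_card
                  intro p hp
                  rw [Finset.mem_product]
                  exact ⟨Finset.mem_image_of_mem _ hp, mem_univ _⟩
              _ = H1.card * Fintype.card X := by rw [Finset.card_product, card_univ]
          have hXpos : (0 : ℝ) < Fintype.card X := by exact_mod_cast Fintype.card_pos
          have h2 : (Fintype.card V - 1) ^ T < H1.card := by
            have h3 : η * ((Fintype.card Y : ℝ) * Fintype.card X) ≤ H1.card * Fintype.card X := by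
              rw [← hcardP]
              refine hH.trans ?_
              exact_mod_cast hH1
            have h4 : η * (Fintype.card Y : ℝ) ≤ H1.card := by
              have : (η * (Fintype.card Y : ℝ)) * Fintype.card X ≤ H1.card * Fintype.card X := by
                calc _ = η * ((Fintype.card Y : ℝ) * Fintype.card X) := by ring
                  _ ≤ _ := h3
              exact le_of_mul_le_mul_right this hXpos
            rw [hYcard] at h4
            push_cast at h4
            have h5 := hT.trans_le h4
            exact_mod_cast h5
          obtain ⟨Q, hQ1, hQ2, hQ3⟩ := hrY H1 h2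
          have hex : ∀ v, ∃ x : X, (Q v, x) ∈ H := by
            intro v
            have := hQ2 v
            simp only [H1, mem_image, Prod.exists, exists_and_right, exists_eq_right] at this
            exact this
          choose x hx using hex
          refine ⟨fun v => (Q v, x v), ?_, hx, ?_⟩
          · intro v w h
            exact hQ1 (Prod.mk.inj h).1
          · intro v w hvw
            have : ¬ Q v = Q w := fun e => hvw (hQ1 e)
            simp only [this, if_false]
            exact hQ3 v w hvw

end Pool.Agent.V11146.SSat
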