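import Pool.Agent.V11146.SSat1

set_option autoImplicit false

namespace Pool.Agent.V11146.SSat

open Finset

/-- Index type of the family of codes: `r` rounds of `q` bits. -/
def Idx (q : ℕ) : ℕ → Type
  | 0 => Unit
  | r + 1 => (Fin q → Bool) × Idx q r

instance instIdx (q : ℕ) : (r : ℕ) → Fintype (Idx q r)
  | 0 => inferInstanceAs (Fintype Unit)
  | r + 1 => by
    haveI := instIdx q r
    exact inferInstanceAs (Fintype ((Fin q → Bool) × Idx q r))

lemma card_Idx (q r : ℕ) : Fintype.card (Idx q r) = 2 ^ (q * r) := by
  induction r with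
  | zero => simp [Idx]
  | succ r ih =>
    have : Fintype.card (Idx q (r + 1)) = Fintype.card ((Fin q → Bool) × Idx q r) := rfl
    rw [this, Fintype.card_prod, ih, Fintype.card_fun, Fintype.card_fin, Fintype.card_bool,
      ← pow_add]
    congr 1
    ring

/-- The pattern found for a pair of codes. -/
def Pat {V X : Type} (D : ℕ) (A B : V → ℕ) (C : V → V → ℕ) (lab : X → X → ℕ)
    (f g : X → ℕ) : Prop :=
  ∃ r β : ℕ, ∃ Q : V → X, Function.Injective Q ∧
    (∀ v, f (Q v) / D ^ r = D * β + A v) ∧ (∀ v, g (Q v) / D ^ r = D * β + B v) ∧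
    ∀ v w, v ≠ w → lab (Q v) (Q w) = (D * β + C v w) * D ^ r

section
variable {V X : Type} [Fintype V] [Fintype X] (D d : ℕ) (A B : V → ℕ) (C : V → V → ℕ)
  (lab : X → X → ℕ) (η : ℝ)

lemma greedy (hXpos : 0 < Fintype.card X)
    (hη : 2 * η * (D : ℝ) ^ d ≤ 1) (hη0 : 0 < η)
    (hrich : ∀ b ∈ (range d) ×ˢ (range (D ^ d)), ∀ H : Finset X, η * Fintype.card X ≤ H.card →
      ∃ Q : V → X, Function.Injective Q ∧ (∀ v, Q v ∈ H) ∧
        ∀ v w, v ≠ w → lab (Q v) (Q w) = (D * b.2 + C v w) * D ^ b.1)
    (P : X → ℕ) (M : ℕ) (hM : M ≤ D ^ d) (hP : ∀ x, P x < M) (r : ℕ) (hr : r < d) (q : ℕ)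
    (hq : 2 * Fintype.card V * q ≤ Fintype.card X) :
    ∃ Q : Fin q × V → X, Function.Injective Q ∧ ∀ j, ∃ β, (∀ v, P (Q (j, v)) = β) ∧
      ∀ v w, v ≠ w → lab (Q (j, v)) (Q (j, w)) = (D * β + C v w) * D ^ r := by
  classical
  induction q with
  | zero =>
    refine ⟨fun p => p.1.elim0, ?_, fun j => j.elim0⟩
    intro p
    exact p.1.elim0
  | succ q ih =>
    obtain ⟨Q, hQ1, hQ2⟩ := ih (by
      refine le_trans ?_ hq
      apply Nat.mul_le_mul_left
      omega)
    let R : Finset X := univ \ univ.image Q
    have hU : (univ.image Q).card = q * Fintype.card V := by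
      rw [Finset.card_image_of_injective _ hQ1, card_univ, Fintype.card_prod, Fintype.card_fin]
    have hR : Fintype.card X ≤ 2 * R.card := by
      have h1 : R.card = Fintype.card X - q * Fintype.card V := by
        rw [Finset.card_sdiff_of_subset (Finset.subset_univ _), hU, card_univ]
      have h2 : 2 * (q * Fintype.card V) ≤ Fintype.card X := by
        refine le_trans ?_ hq
        nlinarith
      omega
    have hsum : R.card = ∑ β ∈ range M, (R.filter (fun x => P x = β)).card := by
      rw [Finset.card_eq_sum_card_fiberwise (f := P) (t := range M)]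
      intro x _
      simpa using hP x
    have hex : ∃ β ∈ range M, η * Fintype.card X ≤ ((R.filter (fun x => P x = β)).card : ℝ) := by
      by_contra hcon
      push Not at hcon
      have hMpos : (range M).Nonempty := by
        obtain ⟨x⟩ := Fintype.card_pos_iff.1 hXpos
        exact ⟨P x, by simpa using hP x⟩
      have h1 : (R.card : ℝ) < ∑ _β ∈ range M, η * Fintype.card X := by
        rw [hsum]
        push_cast
        exact Finset.sum_lt_sum_of_nonempty hMpos hcon
      rw [Finset.sum_const, card_range, nsmul_eq_mul] at h1
      have h2 : (Fintype.card X : ℝ) ≤ 2 * R.card := by exact_mod_cast hR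
      have h3 : (M : ℝ) ≤ (D : ℝ) ^ d := by exact_mod_cast hM
      have h4 : (0 : ℝ) < Fintype.card X := by exact_mod_cast hXpos
      have h5 : (M : ℝ) * (η * Fintype.card X) ≤ (D : ℝ) ^ d * (η * Fintype.card X) :=
        mul_le_mul_of_nonneg_right h3 (by positivity)
      have h6 : 2 * ((D : ℝ) ^ d * (η * Fintype.card X)) ≤ Fintype.card X := by
        calc 2 * ((D : ℝ) ^ d * (η * Fintype.card X)) = (2 * η * (D : ℝ) ^ d) * Fintype.card X := by
              ring
          _ ≤ 1 * Fintype.card X := mul_le_mul_of_nonneg_right hη h4.le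
          _ = _ := one_mul _
      linarith
    obtain ⟨β, hβ, hdense⟩ := hex
    obtain ⟨Q', hQ'1, hQ'2, hQ'3⟩ := hrich (r, β) (by
      rw [Finset.mem_product]
      exact ⟨by simpa using hr, by
        rw [mem_range] at hβ ⊢
        exact hβ.trans_le hM⟩) _ hdense
    refine ⟨fun p => Fin.cases (Q' p.2) (fun j => Q (j, p.2)) p.1, ?_, ?_⟩
    · rintro ⟨i, v⟩ ⟨j, w⟩ h
      induction i using Fin.cases with
      | zero =>
        induction j using Fin.cases with
        | zero =>
          simp only [Fin.cases_zero] at h
          rw [hQ'1 h]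
        | succ j =>
          simp only [Fin.cases_zero, Fin.cases_succ] at h
          exfalso
          have := hQ'2 v
          rw [mem_filter] at this
          have h' := this.1
          simp only [R, mem_sdiff, mem_univ, true_and, mem_image, not_exists] at h'
          exact h' (j, w) h.symm
      | succ i =>
        induction j using Fin.cases with
        | zero =>
          simp only [Fin.cases_zero, Fin.cases_succ] at h
          exfalso
          have := hQ'2 w
          rw [mem_filter] at this
          have h' := this.1
          simp only [R, mem_sdiff, mem_univ, true_and, mem_image, not_exists] at h'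
          exact h' (i, v) h
        | succ j =>
          simp only [Fin.cases_succ] at h
          have := hQ1 h
          simp only [Prod.mk.injEq] at this
          rw [this.1, this.2]
    · intro j
      induction j using Fin.cases with
      | zero =>
        refine ⟨β, ?_, ?_⟩
        · intro v
          have := hQ'2 v
          rw [mem_filter] at this
          simpa using this.2
        · intro v w hvw
          simpa using hQ'3 v w hvw
      | succ j =>
        obtain ⟨β', h1, h2⟩ := hQ2 j
        exact ⟨β', fun v => by simpa using h1 v, fun v w hvw => by simpa using h2 v w hvw⟩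

lemma family (hXpos : 0 < Fintype.card X) (hD : 0 < D)
    (hη : 2 * η * (D : ℝ) ^ d ≤ 1) (hη0 : 0 < η)
    (hA : ∀ v, A v < D) (hB : ∀ v, B v < D)
    (hrich : ∀ b ∈ (range d) ×ˢ (range (D ^ d)), ∀ H : Finset X, η * Fintype.card X ≤ H.card →
      ∃ Q : V → X, Function.Injective Q ∧ (∀ v, Q v ∈ H) ∧
        ∀ v w, v ≠ w → lab (Q v) (Q w) = (D * b.2 + C v w) * D ^ b.1)
    (q : ℕ) (hq : 2 * Fintype.card V * q ≤ Fintype.card X) (r : ℕ) :
    ∀ i, i + r = d → ∀ P : X → ℕ, (∀ x, P x < D ^ i) →
      ∃ F : Idx q r → X → ℕ, (∀ s x, F s x / D ^ r = P x) ∧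
        ∀ s s', s ≠ s' → Pat D A B C lab (F s) (F s') ∨ Pat D A B C lab (F s') (F s) := by
  classical
  induction r with
  | zero =>
    intro i _ P _
    refine ⟨fun _ => P, fun s x => by simp, ?_⟩
    intro s s' h
    exact absurd (Subsingleton.elim (α := Unit) s s') h
  | succ r ih =>
    intro i hi P hP
    obtain ⟨Q, hQ1, hQ2⟩ := greedy D d C lab η hXpos hη hη0 hrich P (D ^ i)
      (Nat.pow_le_pow_right hD (by omega)) hP r (by omega) q hq
    -- the next state
    let dig : (Fin q → Bool) → X → ℕ := fun b =>
      Function.extend Q (fun p => if b p.1 then B p.2 else A p.2) (fun _ => 0)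
    have hdig : ∀ b x, dig b x < D := by
      intro b x
      by_cases hx : ∃ p, Q p = x
      · obtain ⟨p, rfl⟩ := hx
        simp only [dig, hQ1.extend_apply]
        split_ifs
        · exact hB _
        · exact hA _
      · simp only [dig]
        rw [Function.extend_apply' _ _ _ hx]
        exact hD
    have hstep : ∀ b x, D * P x + dig b x < D ^ (i + 1) := by
      intro b x
      have h1 := hP x
      have h2 := hdig b x
      calc D * P x + dig b x < D * P x + D := by omega
        _ = D * (P x + 1) := by ring
        _ ≤ D * D ^ i := Nat.mul_le_mul_left _ h1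
        _ = D ^ (i + 1) := by ring
    have hF := fun b : Fin q → Bool => ih (i + 1) (by omega) (fun x => D * P x + dig b x) (hstep b)
    choose F hF1 hF2 using hF
    refine ⟨fun s => F s.1 s.2, ?_, ?_⟩
    · intro s x
      rw [pow_succ, ← Nat.div_div_eq_div_mul]
      show F s.1 s.2 x / D ^ r / D = P x
      rw [hF1 s.1 s.2 x, Nat.mul_add_div hD, Nat.div_eq_of_lt (hdig _ _), add_zero]
    · rintro ⟨b, s⟩ ⟨b', s'⟩ hne
      by_cases hb : b = b'
      · subst hb
        have hs : s ≠ s' := fun e => hne (by rw [e])
        exact hF2 b s s' hs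
      · -- differ at some bit
        have : ∃ j, b j ≠ b' j := by
          by_contra hcon
          push Not at hcon
          exact hb (funext hcon)
        obtain ⟨j, hj⟩ := this
        obtain ⟨β, hβ1, hβ2⟩ := hQ2 j
        have key : ∀ (c c' : Fin q → Bool) (t t' : Idx q r), c j = false → c' j = true →
            Pat D A B C lab (F c t) (F c' t') := by
          intro c c' t t' hc hc'
          refine ⟨r, β, fun v => Q (j, v), ?_, ?_, ?_, ?_⟩
          · intro v w h
            exact (Prod.mk.inj (hQ1 h)).2
          · intro v
            rw [hF1 c t, hβ1 v]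
            simp only [dig, hQ1.extend_apply, hc]
            simp
          · intro v
            rw [hF1 c' t', hβ1 v]
            simp only [dig, hQ1.extend_apply, hc']
            simp
          · intro v w hvw
            exact hβ2 v w hvw
        rcases hbj : b j with _ | _
        · left
          exact key b b' s s' hbj (by
            rcases hb' : b' j with _ | _
            · exact absurd (hbj.trans hb'.symm) hj
            · rfl)
        · right
          exact key b' b s' s (by
            rcases hb' : b' j with _ | _
            · rfl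
            · exact absurd (hbj.trans hb'.symm) hj) hbj

end

end Pool.Agent.V11146.SSat
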