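import Mathlib

set_option autoImplicit false

/-! Edge-ordered graphs and the semisaturation function `ssat_e(n, G)`. -/

namespace Pool.Agent.V11146.SSat

/-- An edge-ordered graph: a simple graph with a labelling of its edges by distinct reals. -/
structure EOGraph (V : Type) where
  /-- the underlying graph -/
  graph : SimpleGraph V
  /-- the labelling -/
  label : Sym2 V → ℝ
  /-- distinct edges have distinct labels -/
  inj : Set.InjOn label graph.edgeSet

/-- `f` embeds the edge-ordered graph `(G, l)` in the edge-ordered graph `(H, l')`, as a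
subgraph, preserving the order of the edges. -/
def IsCopy {V W : Type} (G : SimpleGraph V) (l : Sym2 V → ℝ) (H : SimpleGraph W)
    (l' : Sym2 W → ℝ) (f : V → W) : Prop :=
  Function.Injective f ∧ (∀ x y, G.Adj x y → H.Adj (f x) (f y)) ∧
    ∀ e ∈ G.edgeSet, ∀ e' ∈ G.edgeSet, l e < l e' → l' (e.map f) < l' (e'.map f)

/-- `H` `e`-semisaturates `G`: for every non-edge `uv` of `H` and every real `r` that is not the
label of an edge of `H`, adding `uv` with label `r` creates a copy of `G` that uses `uv`. -/
def Semisaturates {V W : Type} (H : EOGraph W) (G : EOGraph V) : Prop := by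
  classical
  exact ∀ u v : W, u ≠ v → ¬ H.graph.Adj u v → ∀ r : ℝ, (∀ e ∈ H.graph.edgeSet, H.label e ≠ r) →
    ∃ f : V → W, IsCopy G.graph G.label (H.graph ⊔ SimpleGraph.edge u v)
      (Function.update H.label s(u, v) r) f ∧ ∃ e ∈ G.graph.edgeSet, e.map f = s(u, v)

/-- The semisaturation function `ssat_e(n, G)`. -/
noncomputable def ssatE (n : ℕ) {V : Type} (G : EOGraph V) : ℕ :=
  sInf {k | ∃ H : EOGraph (Fin n), Semisaturates H G ∧ H.graph.edgeSet.ncard = k}

end Pool.Agent.V11146.SSat
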