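import Pool.Agent.V11146.SSat2
import Pool.Agent.V11146.SSatDef

set_option autoImplicit false

namespace Pool.Agent.V11146.SSat

open Finset

/-- The gadget: a set `X` of hubs, a labelling of pairs of hubs, and `2 ^ (q d)` code functions
(`q = ⌊|X| / 2k⌋`), any two of which exhibit the pattern. -/
lemma gadget (V : Type) [Fintype V] (hV : 2 ≤ Fintype.card V) (D d : ℕ) (hD : 0 < D)
    (hd : 0 < d) :
    ∃ (X : Type) (_ : Fintype X), 4 * Fintype.card V ≤ Fintype.card X ∧
      ∀ (A B : V → ℕ) (C : V → V → ℕ), (∀ v, A v < D) → (∀ v, B v < D) →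
        (∀ v w, C v w = C w v) →
        ∃ lab : X → X → ℕ, (∀ x y, lab x y = lab y x) ∧
          ∃ F : Idx (Fintype.card X / (2 * Fintype.card V)) d → X → ℕ,
            ∀ s s', s ≠ s' → Pat D A B C lab (F s) (F s') ∨ Pat D A B C lab (F s') (F s) := by
  classical
  have hVne : Nonempty V := Fintype.card_pos_iff.1 (by omega)
  have hk : (0 : ℝ) < Fintype.card V := by
    have : 0 < Fintype.card V := by omega
    exact_mod_cast this
  have hDr : (0 : ℝ) < (D : ℝ) ^ d := by positivity
  set η : ℝ := min (1 / (2 * (D : ℝ) ^ d)) (1 / (8 * Fintype.card V)) with hηdef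
  have hη0 : 0 < η := lt_min (by positivity) (by positivity)
  have hη1 : 2 * η * (D : ℝ) ^ d ≤ 1 := by
    have h1 : η ≤ 1 / (2 * (D : ℝ) ^ d) := min_le_left _ _
    calc 2 * η * (D : ℝ) ^ d ≤ 2 * (1 / (2 * (D : ℝ) ^ d)) * (D : ℝ) ^ d := by gcongr
      _ = 1 := by field_simp
  have hη2 : η ≤ 1 / (8 * Fintype.card V) := min_le_right _ _
  obtain ⟨X, hX, hXne, hlab⟩ := tree_many V η hη0 ((range d) ×ˢ (range (D ^ d)))
  have hXpos : 0 < Fintype.card X := Fintype.card_pos
  have hcard : 4 * Fintype.card V ≤ Fintype.card X := by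
    by_contra hcon
    push Not at hcon
    obtain ⟨lab, _, hr⟩ := hlab (fun _ _ _ => 0) (fun _ _ _ => rfl)
    obtain ⟨x⟩ := hXne
    obtain ⟨Q, hQ1, hQ2, _⟩ := hr (0, 0) (by
      rw [mem_product]
      exact ⟨by simpa using hd, by simpa using pow_pos hD d⟩) {x} (by
        rw [card_singleton]
        have h1 : (Fintype.card X : ℝ) < 4 * Fintype.card V := by exact_mod_cast hcon
        have h2 : η * Fintype.card X ≤ 1 / (8 * Fintype.card V) * (4 * Fintype.card V) := by
          apply mul_le_mul hη2 h1.le (by positivity) (by positivity)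
        have h3 : (1 : ℝ) / (8 * Fintype.card V) * (4 * Fintype.card V) = 1 / 2 := by
          field_simp; norm_num
        push_cast
        linarith)
    have h1 : ∀ v w : V, v = w := by
      intro v w
      apply hQ1
      have := hQ2 v
      have h' := hQ2 w
      rw [mem_singleton] at this h'
      rw [this, h']
    have h2 : Fintype.card V ≤ 1 := Fintype.card_le_one_iff.2 h1
    omega
  refine ⟨X, hX, hcard, ?_⟩
  intro A B C hA hB hC
  obtain ⟨lab, hsymm, hrich⟩ := hlab (fun b v w => (D * b.2 + C v w) * D ^ b.1)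
    (fun b v w => by simp only [hC v w])
  refine ⟨lab, hsymm, ?_⟩
  obtain ⟨F, _, hF⟩ := family D d A B C lab η hXpos hD hη1 hη0 hA hB hrich
    (Fintype.card X / (2 * Fintype.card V)) (Nat.mul_div_le _ _) d 0 (by omega) (fun _ => 0)
    (fun _ => by simp)
  exact ⟨F, hF⟩

section core

variable {V : Type} [Fintype V] (G : EOGraph V)

open Classical in
/-- position of an edge in the order `ε · label`. -/
noncomputable def pos (ε : ℝ) (e : Sym2 V) : ℕ :=
  (G.graph.edgeSet.toFinset.filter (fun e' => ε * G.label e' < ε * G.label e)).card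

open Classical in
lemma pos_lt (ε : ℝ) (e : Sym2 V) : pos G ε e < G.graph.edgeSet.toFinset.card + 1 := by
  unfold pos
  exact Nat.lt_succ_of_le (Finset.card_filter_le _ _)

lemma pos_mono (ε : ℝ) (e e' : Sym2 V) (he : e ∈ G.graph.edgeSet)
    (h : ε * G.label e < ε * G.label e') : pos G ε e < pos G ε e' := by
  classical
  unfold pos
  apply Finset.card_lt_card
  rw [Finset.ssubset_iff_of_subset]
  · refine ⟨e, ?_, ?_⟩
    · simp only [mem_filter, Set.mem_toFinset]
      exact ⟨he, h⟩
    · simp
  · intro x hx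
    simp only [mem_filter] at hx ⊢
    exact ⟨hx.1, hx.2.trans h⟩

end core

end Pool.Agent.V11146.SSat
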