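import Pool.Agent.V11146.SSat3

set_option autoImplicit false

namespace Pool.Agent.V11146.SSat

open Finset

open Classical in
/-- Adding `uv` with label `r` to `H` creates a copy of `G` using `uv`. -/
def Good {V W : Type} (H : EOGraph W) (G : EOGraph V) (u v : W) (r : ℝ) : Prop :=
  ∃ f : V → W, IsCopy G.graph G.label (H.graph ⊔ SimpleGraph.edge u v)
      (Function.update H.label s(u, v) r) f ∧ ∃ e ∈ G.graph.edgeSet, e.map f = s(u, v)

lemma Good.symm {V W : Type} {H : EOGraph W} {G : EOGraph V} {u v : W} {r : ℝ}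
    (h : Good H G u v r) : Good H G v u r := by
  unfold Good at h ⊢
  rw [SimpleGraph.edge_comm v u, Sym2.eq_swap (a := v) (b := u)]
  exact h

lemma semisaturates_iff {V W : Type} (H : EOGraph W) (G : EOGraph V) :
    Semisaturates H G ↔ ∀ u v : W, u ≠ v → ¬ H.graph.Adj u v → ∀ r : ℝ,
      (∀ e ∈ H.graph.edgeSet, H.label e ≠ r) → Good H G u v r := Iff.rfl

lemma copy_core {V W : Type} [Fintype V] (G : EOGraph V) (ε : ℝ) (hε : ε = 1 ∨ ε = -1)
    (a b : V) (hab : G.graph.Adj a b)
    (hmin : ∀ e ∈ G.graph.edgeSet, e ≠ s(a, b) → ε * G.label s(a, b) < ε * G.label e)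
    (H : EOGraph W) (u v : W) (huv : u ≠ v) (r : ℝ) (hr : ε * r ≤ 0) (N β : ℕ)
    (f : V → W) (hf : Function.Injective f) (ha : f a = u) (hb : f b = v)
    (hadj : ∀ x y, G.graph.Adj x y → s(x, y) ≠ s(a, b) → H.graph.Adj (f x) (f y))
    (hcode : ∀ e ∈ G.graph.edgeSet, e ≠ s(a, b) → ∃ c : ℕ,
      (c : ℝ) < ε * H.label (e.map f) ∧ ε * H.label (e.map f) < c + 1 ∧
        c / N = β + pos G ε e) :
    Good H G u v r := by
  classical
  have hmapne : ∀ e : Sym2 V, e ≠ s(a, b) → e.map f ≠ s(u, v) := by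
    intro e he h
    apply he
    apply Sym2.map.injective hf
    rw [h, Sym2.map_mk, ha, hb]
  have key : ∀ e ∈ G.graph.edgeSet, ∀ e' ∈ G.graph.edgeSet, ε * G.label e < ε * G.label e' →
      ε * Function.update H.label s(u, v) r (e.map f) <
        ε * Function.update H.label s(u, v) r (e'.map f) := by
    intro e he e' he' hlt
    by_cases h' : e' = s(a, b)
    · subst h'
      by_cases h : e = s(a, b)
      · subst h
        exact absurd hlt (lt_irrefl _)
      · exact absurd (hmin e he h) (not_lt.2 hlt.le)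
    · obtain ⟨c', hc1', hc2', hc3'⟩ := hcode e' he' h'
      by_cases h : e = s(a, b)
      · subst h
        have h1 : (s(a, b) : Sym2 V).map f = s(u, v) := by rw [Sym2.map_mk, ha, hb]
        rw [h1, Function.update_self, Function.update_of_ne (hmapne e' h')]
        have : (0 : ℝ) ≤ c' := Nat.cast_nonneg _
        linarith
      · obtain ⟨c, hc1, hc2, hc3⟩ := hcode e he h
        rw [Function.update_of_ne (hmapne e h), Function.update_of_ne (hmapne e' h')]
        have hp := pos_mono G ε e e' he hlt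
        have hc : c < c' := by
          by_contra hcon
          push Not at hcon
          have := Nat.div_le_div_right (c := N) hcon
          omega
        have : (c : ℝ) + 1 ≤ c' := by exact_mod_cast hc
        linarith
  refine ⟨f, ⟨hf, ?_, ?_⟩, s(a, b), hab, by rw [Sym2.map_mk, ha, hb]⟩
  · intro x y hxy
    by_cases h : s(x, y) = s(a, b)
    · rw [SimpleGraph.sup_adj, SimpleGraph.edge_adj]
      right
      rw [Sym2.eq_iff] at h
      rcases h with ⟨rfl, rfl⟩ | ⟨rfl, rfl⟩
      · exact ⟨Or.inl ⟨ha, hb⟩, by rw [ha, hb]; exact huv⟩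
      · exact ⟨Or.inr ⟨hb, ha⟩, by rw [ha, hb]; exact huv.symm⟩
    · exact Or.inl (hadj x y hxy h)
  · intro e he e' he' hlt
    rcases hε with rfl | rfl
    · have := key e he e' he' (by linarith)
      linarith
    · have := key e' he' e he (by linarith)
      linarith

section construct

/-- sign of a zone -/
def sg (z : Bool) : ℝ := if z then 1 else -1

lemma sg_cases (z : Bool) : sg z = 1 ∨ sg z = -1 := by
  cases z <;> simp [sg]

/-- integer part of the label of code `c` in zone `z` -/
def sgn (z : Bool) (c : ℕ) : ℤ := if z then (c : ℤ) else -(c : ℤ) - 1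

variable {X O T : Type} [DecidableEq T]

/-- integer parts of the labels -/
def kap (lab : Bool → X → X → ℕ) (cw : Bool → O → T → X → ℕ) :
    (Bool × T × X) ⊕ O → (Bool × T × X) ⊕ O → ℤ
  | Sum.inl (z, j, x), Sum.inl (z', j', y) => if z = z' ∧ j = j' then sgn z (lab z x y) else 0
  | Sum.inl (z, j, x), Sum.inr u => sgn z (cw z u j x)
  | Sum.inr u, Sum.inl (z, j, x) => sgn z (cw z u j x)
  | Sum.inr _, Sum.inr _ => 0

lemma kap_symm (lab : Bool → X → X → ℕ) (hlab : ∀ z x y, lab z x y = lab z y x)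
    (cw : Bool → O → T → X → ℕ) (p p' : (Bool × T × X) ⊕ O) :
    kap lab cw p p' = kap lab cw p' p := by
  rcases p with ⟨z, j, x⟩ | u <;> rcases p' with ⟨z', j', y⟩ | v <;> simp only [kap]
  by_cases h : z = z' ∧ j = j'
  · obtain ⟨rfl, rfl⟩ := h
    simp [hlab z x y]
  · have h' : ¬ (z' = z ∧ j' = j) := fun e => h ⟨e.1.symm, e.2.symm⟩
    simp [h, h']

variable {W : Type} [Fintype W]

/-- fractional parts of the labels: distinct numbers in `(0, 1)` -/
noncomputable def iot (W : Type) [Fintype W] (e : Sym2 W) : ℝ := by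
  classical
  exact 1 / (2 + (Fintype.equivFin (Sym2 W) e : ℕ))

lemma iot_pos (e : Sym2 W) : 0 < iot W e := by
  unfold iot
  positivity

lemma iot_lt (e : Sym2 W) : iot W e < 1 := by
  classical
  unfold iot
  have h : (0 : ℝ) ≤ ((Fintype.equivFin (Sym2 W) e : ℕ) : ℝ) := Nat.cast_nonneg _
  rw [div_lt_one (by linarith)]
  linarith

lemma iot_inj (e e' : Sym2 W) (h : iot W e = iot W e') : e = e' := by
  classical
  unfold iot at h
  have h1 : (0 : ℝ) ≤ ((Fintype.equivFin (Sym2 W) e : ℕ) : ℝ) := Nat.cast_nonneg _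
  have h2 : (0 : ℝ) ≤ ((Fintype.equivFin (Sym2 W) e' : ℕ) : ℝ) := Nat.cast_nonneg _
  rw [div_eq_div_iff (by linarith) (by linarith)] at h
  have h3 : ((Fintype.equivFin (Sym2 W) e : ℕ) : ℝ) = ((Fintype.equivFin (Sym2 W) e' : ℕ) : ℝ) := by
    linarith
  have h4 : (Fintype.equivFin (Sym2 W) e : ℕ) = (Fintype.equivFin (Sym2 W) e' : ℕ) := by
    exact_mod_cast h3
  exact (Fintype.equivFin (Sym2 W)).injective (Fin.ext h4)

/-- the host graph: complete split graph -/
def hostG (E : W ≃ (Bool × T × X) ⊕ O) : SimpleGraph W where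
  Adj p p' := p ≠ p' ∧ ¬ ((E p).isRight = true ∧ (E p').isRight = true)
  symm := ⟨fun p p' h => ⟨h.1.symm, fun h' => h.2 ⟨h'.2, h'.1⟩⟩⟩
  loopless := ⟨fun p h => h.1 rfl⟩

/-- the integer parts of the labels of the host -/
def hostK (E : W ≃ (Bool × T × X) ⊕ O) (lab : Bool → X → X → ℕ)
    (hlab : ∀ z x y, lab z x y = lab z y x) (cw : Bool → O → T → X → ℕ) : Sym2 W → ℤ :=
  Sym2.lift ⟨fun p p' => kap lab cw (E p) (E p'), fun p p' => kap_symm lab hlab cw _ _⟩

/-- the host -/
noncomputable def host (E : W ≃ (Bool × T × X) ⊕ O) (lab : Bool → X → X → ℕ)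
    (hlab : ∀ z x y, lab z x y = lab z y x) (cw : Bool → O → T → X → ℕ) : EOGraph W where
  graph := hostG E
  label := fun e => hostK E lab hlab cw e + iot W e
  inj := by
    intro e _ e' _ h
    have h1 := iot_pos e
    have h2 := iot_lt e
    have h3 := iot_pos e'
    have h4 := iot_lt e'
    simp only at h
    have h5 : hostK E lab hlab cw e = hostK E lab hlab cw e' := by
      rcases lt_trichotomy (hostK E lab hlab cw e) (hostK E lab hlab cw e') with h5 | h5 | h5
      · have : ((hostK E lab hlab cw e : ℤ) : ℝ) + 1 ≤ hostK E lab hlab cw e' := by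
          exact_mod_cast h5
        linarith
      · exact h5
      · have : ((hostK E lab hlab cw e' : ℤ) : ℝ) + 1 ≤ hostK E lab hlab cw e := by
          exact_mod_cast h5
        linarith
    rw [h5] at h
    exact iot_inj _ _ (by linarith)

lemma sgn_label (z : Bool) (c : ℕ) (i : ℝ) (h0 : 0 < i) (h1 : i < 1) :
    (c : ℝ) < sg z * (((sgn z c : ℤ) : ℝ) + i) ∧ sg z * (((sgn z c : ℤ) : ℝ) + i) < c + 1 := by
  cases z
  · simp only [sg, sgn, Bool.false_eq_true, if_false]
    push_cast
    constructor <;> linarith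
  · simp only [sg, sgn, if_true]
    push_cast
    constructor <;> linarith

end construct

end Pool.Agent.V11146.SSat
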