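import Pool.Agent.V11146.SSat4

set_option autoImplicit false

namespace Pool.Agent.V11146.SSat

open Finset

section construct

variable {V X O T : Type} [Fintype V] [DecidableEq T] {W : Type} [Fintype W]

/-- One pair of ordinary vertices, one zone. -/
lemma zone_good (G : EOGraph V) (z : Bool) (a b : V) (hab : G.graph.Adj a b)
    (hmin : ∀ e ∈ G.graph.edgeSet, e ≠ s(a, b) → sg z * G.label s(a, b) < sg z * G.label e)
    (E : W ≃ (Bool × T × X) ⊕ O) (lab : Bool → X → X → ℕ)
    (hlab : ∀ z x y, lab z x y = lab z y x) (cw : Bool → O → T → X → ℕ)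
    (u v : O) (huv : u ≠ v) (r : ℝ) (hr : sg z * r ≤ 0) (D : ℕ) (hD : 0 < D) (j : T)
    (hpat : Pat D (fun x => pos G (sg z) s(a, x)) (fun x => pos G (sg z) s(b, x))
      (fun x y => pos G (sg z) s(x, y)) (lab z) (cw z u j) (cw z v j)) :
    Good (host E lab hlab cw) G (E.symm (Sum.inr u)) (E.symm (Sum.inr v)) r := by
  classical
  obtain ⟨R, β, Q, hQ, h1, h2, h3⟩ := hpat
  have hne : a ≠ b := hab.ne
  set f : V → W := fun x => E.symm (if x = a then Sum.inr u else if x = b then Sum.inr v
    else Sum.inl (z, j, Q x)) with hf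
  have hfa : f a = E.symm (Sum.inr u) := by simp [hf]
  have hfb : f b = E.symm (Sum.inr v) := by simp [hf, hne.symm]
  have hfx : ∀ x, x ≠ a → x ≠ b → f x = E.symm (Sum.inl (z, j, Q x)) := by
    intro x hxa hxb
    simp [hf, hxa, hxb]
  have hfinj : Function.Injective f := by
    intro x y hxy
    simp only [hf] at hxy
    have hxy := E.symm.injective hxy
    by_cases hxa : x = a
    · by_cases hya : y = a
      · rw [hxa, hya]
      · by_cases hyb : y = b
        · simp [hxa, hyb, hne.symm] at hxy
          exact absurd hxy huv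
        · simp [hxa, hya, hyb] at hxy
    · by_cases hxb : x = b
      · by_cases hya : y = a
        · simp [hxb, hya, hne.symm] at hxy
          exact absurd hxy.symm huv
        · by_cases hyb : y = b
          · rw [hxb, hyb]
          · simp [hxb, hne.symm, hya, hyb] at hxy
      · by_cases hya : y = a
        · simp [hxa, hxb, hya] at hxy
        · by_cases hyb : y = b
          · simp [hxa, hxb, hyb, hne.symm] at hxy
          · simp [hxa, hxb, hya, hyb] at hxy
            exact hQ hxy
  have huvW : E.symm (Sum.inr u) ≠ E.symm (Sum.inr v) := by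
    intro h
    have := E.symm.injective h
    simp at this
    exact huv this
  refine copy_core G (sg z) (sg_cases z) a b hab hmin (host E lab hlab cw) _ _ huvW r hr
    (D ^ R) (D * β) f hfinj hfa hfb ?_ ?_
  · intro x y hxy hs
    show f x ≠ f y ∧ ¬ ((E (f x)).isRight = true ∧ (E (f y)).isRight = true)
    refine ⟨fun h => hxy.ne (hfinj h), ?_⟩
    rintro ⟨hx, hy⟩
    have hx' : x = a ∨ x = b := by
      by_contra hcon
      push Not at hcon
      rw [hfx x hcon.1 hcon.2] at hx
      simp at hx
    have hy' : y = a ∨ y = b := by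
      by_contra hcon
      push Not at hcon
      rw [hfx y hcon.1 hcon.2] at hy
      simp at hy
    rcases hx' with rfl | rfl <;> rcases hy' with rfl | rfl
    · exact hxy.ne rfl
    · exact hs rfl
    · exact hs Sym2.eq_swap
    · exact hxy.ne rfl
  · -- codes
    have main : ∀ x y : V, G.graph.Adj x y → s(x, y) ≠ s(a, b) → x ≠ y → (y ≠ a ∧ y ≠ b) →
        ∃ c : ℕ, (c : ℝ) < sg z * (host E lab hlab cw).label ((s(x, y) : Sym2 V).map f) ∧
          sg z * (host E lab hlab cw).label ((s(x, y) : Sym2 V).map f) < c + 1 ∧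
          c / D ^ R = D * β + pos G (sg z) s(x, y) := by
      intro x y hxy hs hxyne hy
      rw [Sym2.map_mk]
      have hlabel : (host E lab hlab cw).label s(f x, f y) =
          ((kap lab cw (E (f x)) (E (f y)) : ℤ) : ℝ) + iot W s(f x, f y) := rfl
      rw [hlabel, hfx y hy.1 hy.2]
      by_cases hxa : x = a
      · subst hxa
        rw [hfa]
        simp only [Equiv.apply_symm_apply, kap]
        obtain ⟨k1, k2⟩ := sgn_label z (cw z u j (Q y)) _
          (iot_pos s(E.symm (Sum.inr u), E.symm (Sum.inl (z, j, Q y))))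
          (iot_lt s(E.symm (Sum.inr u), E.symm (Sum.inl (z, j, Q y))))
        exact ⟨_, k1, k2, h1 y⟩
      · by_cases hxb : x = b
        · subst hxb
          rw [hfb]
          simp only [Equiv.apply_symm_apply, kap]
          obtain ⟨k1, k2⟩ := sgn_label z (cw z v j (Q y)) _
            (iot_pos s(E.symm (Sum.inr v), E.symm (Sum.inl (z, j, Q y))))
            (iot_lt s(E.symm (Sum.inr v), E.symm (Sum.inl (z, j, Q y))))
          exact ⟨_, k1, k2, h2 y⟩
        · rw [hfx x hxa hxb]
          simp only [Equiv.apply_symm_apply, kap, and_self, if_true]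
          obtain ⟨k1, k2⟩ := sgn_label z (lab z (Q x) (Q y)) _
            (iot_pos s(E.symm (Sum.inl (z, j, Q x)), E.symm (Sum.inl (z, j, Q y))))
            (iot_lt s(E.symm (Sum.inl (z, j, Q x)), E.symm (Sum.inl (z, j, Q y))))
          refine ⟨_, k1, k2, ?_⟩
          rw [h3 x y hxyne]
          have hDpos : 0 < D ^ R := pow_pos hD R
          exact Nat.mul_div_cancel _ hDpos
    intro e
    induction e with
    | _ x y =>
      intro he hs
      have hxy : G.graph.Adj x y := he
      by_cases hy : y ≠ a ∧ y ≠ b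
      · exact main x y hxy hs hxy.ne hy
      · have hx : x ≠ a ∧ x ≠ b := by
          by_contra hcon
          have hx' : x = a ∨ x = b := by
            by_contra h
            push Not at h
            exact hcon h
          have hy' : y = a ∨ y = b := by
            by_contra h
            push Not at h
            exact hy h
          rcases hx' with rfl | rfl <;> rcases hy' with rfl | rfl
          · exact hxy.ne rfl
          · exact hs rfl
          · exact hs Sym2.eq_swap
          · exact hxy.ne rfl
        have := main y x hxy.symm (by rw [Sym2.eq_swap]; exact hs) hxy.ne.symm hx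
        rw [Sym2.eq_swap (a := y) (b := x)] at this
        exact this

/-- The host semisaturates `G`. -/
lemma host_semi (G : EOGraph V) (ab : Bool → V × V)
    (hab : ∀ z, G.graph.Adj (ab z).1 (ab z).2)
    (hmin : ∀ z, ∀ e ∈ G.graph.edgeSet, e ≠ s((ab z).1, (ab z).2) →
      sg z * G.label s((ab z).1, (ab z).2) < sg z * G.label e)
    (E : W ≃ (Bool × T × X) ⊕ O) (lab : Bool → X → X → ℕ)
    (hlab : ∀ z x y, lab z x y = lab z y x) (cw : Bool → O → T → X → ℕ)
    (D : ℕ) (hD : 0 < D)
    (hpat : ∀ z u v, u ≠ v → ∃ j, Pat D (fun x => pos G (sg z) s((ab z).1, x))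
        (fun x => pos G (sg z) s((ab z).2, x))
        (fun x y => pos G (sg z) s(x, y)) (lab z) (cw z u j) (cw z v j) ∨
      Pat D (fun x => pos G (sg z) s((ab z).1, x))
        (fun x => pos G (sg z) s((ab z).2, x))
        (fun x y => pos G (sg z) s(x, y)) (lab z) (cw z v j) (cw z u j)) :
    Semisaturates (host E lab hlab cw) G := by
  rw [semisaturates_iff]
  intro p p' hpp hnadj r _
  have hr : ∃ z, sg z * r ≤ 0 := by
    rcases le_total r 0 with h | h
    · exact ⟨true, by simp [sg]; exact h⟩
    · exact ⟨false, by simp [sg]; exact h⟩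
  obtain ⟨z, hz⟩ := hr
  have hboth : (E p).isRight = true ∧ (E p').isRight = true := by
    by_contra hcon
    exact hnadj ⟨hpp, hcon⟩
  obtain ⟨hp, hp'⟩ := hboth
  rw [Sum.isRight_iff] at hp hp'
  obtain ⟨u, hu⟩ := hp
  obtain ⟨v, hv⟩ := hp'
  have hpu : p = E.symm (Sum.inr u) := by rw [← hu, Equiv.symm_apply_apply]
  have hpv : p' = E.symm (Sum.inr v) := by rw [← hv, Equiv.symm_apply_apply]
  have huv : u ≠ v := by
    rintro rfl
    exact hpp (hpu.trans hpv.symm)
  obtain ⟨j, hj | hj⟩ := hpat z u v huv
  · rw [hpu, hpv]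
    exact zone_good G z _ _ (hab z) (hmin z) E lab hlab cw u v huv r hz D hD j hj
  · rw [hpu, hpv]
    exact (zone_good G z _ _ (hab z) (hmin z) E lab hlab cw v u huv.symm r hz D hD j hj).symm

end construct

/-- The extreme edges. -/
lemma exists_ext {V : Type} [Fintype V] (G : EOGraph V) (hG : G.graph ≠ ⊥) (z : Bool) :
    ∃ p : V × V, G.graph.Adj p.1 p.2 ∧ ∀ e ∈ G.graph.edgeSet, e ≠ s(p.1, p.2) →
      sg z * G.label s(p.1, p.2) < sg z * G.label e := by
  classical
  have hne : G.graph.edgeSet.toFinset.Nonempty := by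
    rw [Set.toFinset_nonempty]
    exact SimpleGraph.edgeSet_nonempty.2 hG
  obtain ⟨e, he, hmin⟩ := Finset.exists_min_image _ (fun e => sg z * G.label e) hne
  rw [Set.mem_toFinset] at he
  induction e with
  | _ a b =>
    refine ⟨(a, b), he, ?_⟩
    intro e' he' hne'
    have h1 := hmin e' (Set.mem_toFinset.2 he')
    refine lt_of_le_of_ne h1 ?_
    intro h
    apply hne'
    have hs : sg z ≠ 0 := by cases z <;> simp [sg]
    exact (G.inj he he' (mul_left_cancel₀ hs h)).symm

/-- number of edges of the host -/
lemma host_edges {X T : Type} [Fintype X] [Fintype T] [DecidableEq T] {O W : Type} [Fintype W]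
    (E : W ≃ (Bool × T × X) ⊕ O) :
    (hostG E).edgeSet.ncard ≤ (2 * Fintype.card T * Fintype.card X) * Fintype.card W := by
  classical
  have hsub : (hostG E).edgeSet ⊆
      (fun q : (Bool × T × X) × W => s(E.symm (Sum.inl q.1), q.2)) '' Set.univ := by
    intro e he
    induction e with
    | _ p p' =>
      have h : p ≠ p' ∧ ¬ ((E p).isRight = true ∧ (E p').isRight = true) := he
      by_cases hp : (E p).isRight = true
      · have hp' : ¬ (E p').isRight = true := fun h' => h.2 ⟨hp, h'⟩
        rw [Bool.not_eq_true, Sum.isRight_eq_false, Sum.isLeft_iff] at hp'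
        obtain ⟨y, hy⟩ := hp'
        refine ⟨(y, p), Set.mem_univ _, ?_⟩
        simp only
        rw [← hy, Equiv.symm_apply_apply, Sym2.eq_swap]
      · rw [Bool.not_eq_true, Sum.isRight_eq_false, Sum.isLeft_iff] at hp
        obtain ⟨y, hy⟩ := hp
        refine ⟨(y, p'), Set.mem_univ _, ?_⟩
        simp only
        rw [← hy, Equiv.symm_apply_apply]
  calc (hostG E).edgeSet.ncard
      ≤ ((fun q : (Bool × T × X) × W => s(E.symm (Sum.inl q.1), q.2)) '' Set.univ).ncard :=
        Set.ncard_le_ncard hsub (Set.toFinite _)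
    _ ≤ (Set.univ : Set ((Bool × T × X) × W)).ncard := Set.ncard_image_le (Set.toFinite _)
    _ = _ := by
        rw [Set.ncard_univ, Nat.card_eq_fintype_card]
        simp only [Fintype.card_prod, Fintype.card_bool]
        ring

end Pool.Agent.V11146.SSat
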