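import Pool.Agent.V11146.SSat5

set_option autoImplicit false

namespace Pool.Agent.V11146.SSat

open Finset

/-- Finite upper bound. -/
lemma upper (g : ℕ) (G : EOGraph (Fin g)) (hG : G.graph ≠ ⊥) (d : ℕ) (hd : 0 < d) :
    ∃ m : ℕ, 4 * g ≤ m ∧ ∀ n t : ℕ, n ≤ (2 ^ (m / (2 * g) * d)) ^ t → 2 * t * m ≤ n →
      ssatE n G ≤ (2 * t * m) * n := by
  classical
  -- two vertices
  have hg : 2 ≤ g := by
    obtain ⟨p, hp, _⟩ := exists_ext G hG true
    have := hp.ne
    by_contra hcon
    have : p.1 = p.2 := by
      apply Fin.ext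
      have h1 := p.1.isLt
      have h2 := p.2.isLt
      omega
    exact hp.ne this
  set D : ℕ := G.graph.edgeSet.toFinset.card + 1 with hD
  have hDpos : 0 < D := Nat.succ_pos _
  obtain ⟨X, hX, hcard, hgad⟩ := gadget (Fin g) (by simpa using hg) D d hDpos hd
  rw [Fintype.card_fin] at hcard hgad
  choose ab hab hmin using fun z => exists_ext G hG z
  refine ⟨Fintype.card X, hcard, ?_⟩
  intro n t hn hsn
  choose lab hlab F hF using fun z : Bool => hgad (fun x => pos G (sg z) s((ab z).1, x))
    (fun x => pos G (sg z) s((ab z).2, x)) (fun x y => pos G (sg z) s(x, y))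
    (fun x => pos_lt G (sg z) _) (fun x => pos_lt G (sg z) _)
    (fun x y => by rw [Sym2.eq_swap])
  -- the codewords
  have hinj : ∃ w : Fin (n - 2 * t * Fintype.card X) →
      (Fin t → Idx (Fintype.card X / (2 * g)) d), Function.Injective w := by
    have : Fintype.card (Fin (n - 2 * t * Fintype.card X)) ≤
        Fintype.card (Fin t → Idx (Fintype.card X / (2 * g)) d) := by
      rw [Fintype.card_fin, Fintype.card_fun, Fintype.card_fin, card_Idx]
      exact (Nat.sub_le _ _).trans hn
    obtain ⟨w⟩ := Function.Embedding.nonempty_of_card_le this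
    exact ⟨w, w.injective⟩
  obtain ⟨w, hw⟩ := hinj
  have hE : Nonempty (Fin n ≃ (Bool × Fin t × X) ⊕ Fin (n - 2 * t * Fintype.card X)) := by
    rw [← Fintype.card_eq]
    simp only [Fintype.card_sum, Fintype.card_prod, Fintype.card_bool, Fintype.card_fin]
    have : 2 * (t * Fintype.card X) = 2 * t * Fintype.card X := by ring
    omega
  obtain ⟨E⟩ := hE
  have hsemi := host_semi G ab hab hmin E lab hlab (fun z u j => F z (w u j)) D hDpos (by
    intro z u v huv
    have hne : w u ≠ w v := fun h => huv (hw h)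
    obtain ⟨j, hj⟩ := Function.ne_iff.1 hne
    exact ⟨j, hF z _ _ hj⟩)
  have hle : ssatE n G ≤ (hostG E).edgeSet.ncard := by
    apply Nat.sInf_le
    exact ⟨_, hsemi, rfl⟩
  refine hle.trans ?_
  have := host_edges E
  rw [Fintype.card_fin, Fintype.card_fin] at this
  exact this

open Filter Topology

/-- **Main theorem.** -/
theorem ssat_little (g : ℕ) (G : EOGraph (Fin g)) (hG : G.graph ≠ ⊥) :
    Tendsto (fun n : ℕ => (ssatE n G : ℝ) / (n * Real.log n)) atTop (𝓝 0) := by
  have hlog : Tendsto (fun n : ℕ => Real.log n) atTop atTop :=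
    Real.tendsto_log_atTop.comp tendsto_natCast_atTop_atTop
  have hlogn : Tendsto (fun n : ℕ => (n : ℝ) / Real.log n) atTop atTop := by
    have h := Real.isLittleO_log_id_atTop.comp_tendsto tendsto_natCast_atTop_atTop
    have h2 : Tendsto (fun n : ℕ => Real.log n / (n : ℝ)) atTop (𝓝 0) := by
      exact h.tendsto_div_nhds_zero
    have h3 : Tendsto (fun n : ℕ => Real.log n / (n : ℝ)) atTop (𝓝[>] 0) := by
      rw [tendsto_nhdsWithin_iff]
      refine ⟨h2, ?_⟩
      filter_upwards [eventually_gt_atTop 1] with n hn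
      have hn' : (1 : ℝ) < n := by exact_mod_cast hn
      exact div_pos (Real.log_pos hn') (by linarith)
    have h4 := h3.inv_tendsto_nhdsGT_zero
    refine h4.congr ?_
    intro n
    simp
  rw [Metric.tendsto_atTop]
  intro ε hε
  have hl2 : 0 < Real.log 2 := Real.log_pos (by norm_num)
  -- choose `d`
  obtain ⟨d0, hd0⟩ := exists_nat_gt (16 * g / (ε * Real.log 2))
  set d : ℕ := d0 + 1 with hd
  have hdpos : 0 < d := Nat.succ_pos _
  have hdlarge : 8 * g / (d * Real.log 2) < ε / 2 := by
    rw [div_lt_iff₀ (by positivity)] at hd0 ⊢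
    have : (d : ℝ) = d0 + 1 := by rw [hd]; push_cast; ring
    rw [this]
    nlinarith [mul_pos hε hl2]
  obtain ⟨m, hm, hup⟩ := upper g G hG d hdpos
  have hg : 2 ≤ g := by
    obtain ⟨p, hp, _⟩ := exists_ext G hG true
    by_contra hcon
    have : p.1 = p.2 := by
      apply Fin.ext
      have h1 := p.1.isLt
      have h2 := p.2.isLt
      omega
    exact hp.ne this
  set q : ℕ := m / (2 * g) with hq
  have hq1 : 1 ≤ q := by
    rw [hq, Nat.one_le_div_iff (by omega)]
    omega
  have hqm : (m : ℝ) ≤ 4 * g * q := by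
    have h1 : m < 2 * g * (q + 1) := by
      rw [hq]
      exact Nat.lt_mul_div_succ m (by omega)
    have h2 : m ≤ 4 * g * q := by nlinarith
    exact_mod_cast h2
  have hb : 1 < 2 ^ (q * d) := by
    apply Nat.one_lt_two_pow
    positivity
  have ev1 : ∀ᶠ n : ℕ in atTop, 4 * m / (ε) < Real.log n := hlog.eventually_gt_atTop _
  have ev2 : ∀ᶠ n : ℕ in atTop, 2 * m + ε < (n : ℝ) / Real.log n := hlogn.eventually_gt_atTop _
  have ev3 : ∀ᶠ n : ℕ in atTop, ε < (n : ℝ) / Real.log n := hlogn.eventually_gt_atTop _
  obtain ⟨N, hN⟩ := eventually_atTop.1 ((ev1.and ev2).and (ev3.and (eventually_gt_atTop 1)))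
  refine ⟨N, fun n hn => ?_⟩
  obtain ⟨⟨h1, h2⟩, h3, h4⟩ := hN n hn
  have hn1 : (1 : ℝ) < n := by exact_mod_cast h4
  have hln : 0 < Real.log n := Real.log_pos hn1
  have hn0 : (0 : ℝ) < n := by linarith
  set t : ℕ := Nat.clog (2 ^ (q * d)) n with ht
  have ht1 : n ≤ (2 ^ (q * d)) ^ t := Nat.le_pow_clog hb n
  have htpos : 1 ≤ t := by
    rw [ht]
    exact Nat.clog_pos hb (by omega)
  have ht2 : (2 ^ (q * d)) ^ (t - 1) < n := by
    have := Nat.pow_pred_clog_lt_self hb (x := n) (by omega)
    simpa [ht, Nat.pred_eq_sub_one] using this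
  have ht3 : ((t : ℝ) - 1) * (q * d * Real.log 2) < Real.log n := by
    have h5 : (((2 : ℝ) ^ (q * d)) ^ (t - 1)) < n := by exact_mod_cast ht2
    have h6 := Real.log_lt_log (by positivity) h5
    rw [Real.log_pow, Real.log_pow] at h6
    rw [Nat.cast_sub htpos] at h6
    push_cast at h6
    linarith
  have hqd : (0 : ℝ) < q * d * Real.log 2 := by
    have : (0 : ℝ) < q := by exact_mod_cast hq1
    have : (0 : ℝ) < d := by exact_mod_cast hdpos
    positivity
  have hs : (2 * t * m : ℝ) / Real.log n < ε := by
    have hgpos : (0 : ℝ) < g := by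
      have : 0 < g := by omega
      exact_mod_cast this
    have hdr : (0 : ℝ) < d := by exact_mod_cast hdpos
    have hqr : (0 : ℝ) < q := by exact_mod_cast hq1
    have ht4 : (t : ℝ) < Real.log n / (q * d * Real.log 2) + 1 := by
      have : (t : ℝ) - 1 < Real.log n / (q * d * Real.log 2) := by
        rw [lt_div_iff₀ hqd]
        exact ht3
      linarith
    rw [div_lt_iff₀ hln]
    have hmpos : (0 : ℝ) < m := by
      have : 0 < m := by omega
      exact_mod_cast this
    have h5 : (2 * t * m : ℝ) < 2 * m * (Real.log n / (q * d * Real.log 2) + 1) := by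
      have := mul_lt_mul_of_pos_left ht4 (by positivity : (0 : ℝ) < 2 * m)
      linarith
    have h6 : 2 * m * (Real.log n / (q * d * Real.log 2)) ≤
        8 * g / (d * Real.log 2) * Real.log n := by
      have e1 : 2 * m * (Real.log n / (q * d * Real.log 2)) =
          (2 * m / q) * (Real.log n / (d * Real.log 2)) := by
        field_simp
      have e2 : 8 * g / (d * Real.log 2) * Real.log n =
          (8 * g) * (Real.log n / (d * Real.log 2)) := by
        field_simp
      rw [e1, e2]
      apply mul_le_mul_of_nonneg_right _ (by positivity)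
      rw [div_le_iff₀ hqr]
      linarith
    have h7 : 8 * g / (d * Real.log 2) * Real.log n < ε / 2 * Real.log n :=
      mul_lt_mul_of_pos_right hdlarge hln
    have h8 : 2 * (m : ℝ) < ε / 2 * Real.log n := by
      rw [div_lt_iff₀ hε] at h1
      linarith
    linarith
  have hsn : 2 * t * m ≤ n := by
    have h5 : (2 * t * m : ℝ) < ε * Real.log n := by
      rwa [div_lt_iff₀ hln] at hs
    have h6 : ε * Real.log n < n := by
      rwa [lt_div_iff₀ hln] at h3
    have h7 : ((2 * t * m : ℕ) : ℝ) < (n : ℝ) := by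
      push_cast
      linarith
    have : 2 * t * m < n := by exact_mod_cast h7
    exact this.le
  have hle := hup n t ht1 hsn
  rw [Real.dist_eq, sub_zero, abs_of_nonneg (by positivity)]
  calc (ssatE n G : ℝ) / (n * Real.log n) ≤ ((2 * t * m : ℕ) * n : ℝ) / (n * Real.log n) := by
        apply div_le_div_of_nonneg_right _ (by positivity)
        exact_mod_cast hle
    _ = (2 * t * m : ℝ) / Real.log n := by
        push_cast
        field_simp
    _ < ε := hs

/-- If `G` has no edges then only complete graphs semisaturate it. -/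
lemma edgeless (g : ℕ) (G : EOGraph (Fin g)) (hG : G.graph = ⊥) (n : ℕ) :
    ssatE n G = n.choose 2 := by
  classical
  have hval : ∀ k, (∃ H : EOGraph (Fin n), Semisaturates H G ∧ H.graph.edgeSet.ncard = k) ↔
      k = n.choose 2 := by
    intro k
    constructor
    · rintro ⟨H, hH, rfl⟩
      have htop : H.graph = ⊤ := by
        rw [eq_top_iff]
        intro u v huv
        by_contra hcon
        obtain ⟨r, hr⟩ : ∃ r : ℝ, ∀ e ∈ H.graph.edgeSet, H.label e ≠ r := by
          obtain ⟨r, hr⟩ := Infinite.exists_notMem_finset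
            ((univ : Finset (Sym2 (Fin n))).image H.label)
          refine ⟨r, fun e _ he => hr ?_⟩
          rw [mem_image]
          exact ⟨e, mem_univ _, he⟩
        obtain ⟨f, _, e, he, _⟩ := hH u v huv.ne hcon r hr
        rw [hG] at he
        simp at he
      rw [htop, Set.ncard_eq_toFinset_card']
      have := SimpleGraph.card_edgeFinset_top_eq_card_choose_two (V := Fin n)
      rw [Fintype.card_fin] at this
      rw [← this]
      congr 1
    · rintro rfl
      refine ⟨⟨⊤, iot (Fin n), fun e _ e' _ h => iot_inj e e' h⟩, ?_, ?_⟩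
      · intro u v huv hnadj
        exact absurd huv hnadj
      · rw [Set.ncard_eq_toFinset_card']
        have := SimpleGraph.card_edgeFinset_top_eq_card_choose_two (V := Fin n)
        rw [Fintype.card_fin] at this
        rw [← this]
        congr 1
  unfold ssatE
  have : {k | ∃ H : EOGraph (Fin n), Semisaturates H G ∧ H.graph.edgeSet.ncard = k} =
      {n.choose 2} := by
    ext k
    rw [Set.mem_ofPred_eq, hval k, Set.mem_singleton_iff]
  rw [this, csInf_singleton]

end Pool.Agent.V11146.SSat
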