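import Mathlib

set_option autoImplicit false

namespace Pool.Agent.V11146.Xor

open Finset Filter Asymptotics

/-- The `k`-element subsets of `[n]`. -/
abbrev KSet (n k : ℕ) : Type := {s : Finset (Fin n) // s.card = k}

/-- The Kneser graph `KG(n,k)`. -/
def kneser (n k : ℕ) : SimpleGraph (KSet n k) where
  Adj X Y := X ≠ Y ∧ Disjoint X.1 Y.1
  symm := ⟨fun _ _ h => ⟨h.1.symm, h.2.symm⟩⟩
  loopless := ⟨fun _ h => h.1 rfl⟩

/-- The `l`-th xor-power of a graph: distinct tuples are adjacent iff they are adjacent in an odd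
number of coordinates. -/
def xorPower {V : Type} (G : SimpleGraph V) (l : ℕ) : SimpleGraph (Fin l → V) where
  Adj x y := x ≠ y ∧ Odd {i : Fin l | G.Adj (x i) (y i)}.ncard
  symm := ⟨fun x y h => ⟨h.1.symm, by
    have : {i : Fin l | G.Adj (y i) (x i)} = {i : Fin l | G.Adj (x i) (y i)} := by
      ext i; simp [G.adj_comm]
    rw [this]; exact h.2⟩⟩
  loopless := ⟨fun _ h => h.1 rfl⟩

/-- `f_l(n,k)`: the clique number of the `l`-th xor-power of `KG(n,k)`. -/
noncomputable def f (l n k : ℕ) : ℕ := (xorPower (kneser n k) l).cliqueNum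

/-- The edges of `K_4` on `p, q, r, t` in the order `pq, pr, qr, pt, qt, rt`; entry `s` lists the
edges whose colour contains `s`. -/
def tab : Fin 5 → Fin 3 → Fin 6 :=
  ![![0, 1, 2], ![0, 4, 4], ![5, 4, 3], ![5, 2, 2], ![1, 3, 3]]

/-- A triangle of equalities: any two imply the third. -/
def tri (a b c : Bool) : Bool := (!(a && b) || c) && (!(a && c) || b) && (!(b && c) || a)

lemma comb : ∀ P : Fin 6 → Bool,
    tri (P 0) (P 1) (P 2) = true → tri (P 0) (P 3) (P 4) = true → tri (P 1) (P 3) (P 5) = true →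
    tri (P 2) (P 4) (P 5) = true → (P 3 && P 4 && P 5) = false →
    Odd ((univ : Finset (Fin 5)).filter (fun s => ∀ i : Fin 3, P (tab s i) = false)).card := by
  decide +kernel

variable {N : ℕ}

/-- The six linear forms. -/
def phi (e : Fin 6) (a : Fin 3 → ZMod N) : ZMod N :=
  ![a 0 - a 1, a 0 - a 2, a 1 - a 2, a 0, a 1, a 2] e

open Classical in
/-- Parity of the number of coordinates in which `a` and `b` are separated. -/
lemma parity (a b : Fin 3 → ZMod N) (hab : a ≠ b) :
    Odd ((univ : Finset (Fin 5)).filter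
      (fun s => ∀ i : Fin 3, phi (tab s i) a ≠ phi (tab s i) b)).card := by
  have h := comb (fun e => decide (phi e a = phi e b)) ?_ ?_ ?_ ?_ ?_
  · simpa using h
  all_goals simp only [tri, phi, Matrix.cons_val_zero, Matrix.cons_val_one, Matrix.cons_val]
  · by_cases h1 : a 0 - a 1 = b 0 - b 1 <;> by_cases h2 : a 0 - a 2 = b 0 - b 2 <;>
      by_cases h3 : a 1 - a 2 = b 1 - b 2 <;> simp [h1, h2, h3]
    · exact h3 (by linear_combination h2 - h1)
    · exact h2 (by linear_combination h1 + h3)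
    · exact h1 (by linear_combination h2 - h3)
  · by_cases h1 : a 0 - a 1 = b 0 - b 1 <;> by_cases h2 : a 0 = b 0 <;>
      by_cases h3 : a 1 = b 1 <;> simp [h1, h2, h3]
  · by_cases h1 : a 0 - a 2 = b 0 - b 2 <;> by_cases h2 : a 0 = b 0 <;>
      by_cases h3 : a 2 = b 2 <;> simp [h1, h2, h3]
  · by_cases h1 : a 1 - a 2 = b 1 - b 2 <;> by_cases h2 : a 1 = b 1 <;>
      by_cases h3 : a 2 = b 2 <;> simp [h1, h2, h3]
  · by_contra hc
    apply hab
    simp at hc
    funext i
    fin_cases i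
    · exact hc.1
    · exact hc.2.1
    · exact hc.2.2

/-- The padded table. -/
def g (k : ℕ) (s : Fin 5) (j : Fin k) : Fin 6 :=
  if h : (j : ℕ) < 3 then tab s ⟨j, h⟩ else tab s 0

/-- The label of `(j, z)`. -/
def lab (n k : ℕ) [NeZero N] (h : k * N ≤ n) (j : Fin k) (z : ZMod N) : Fin n :=
  ⟨j * N + z.val, by
    have h1 : z.val < N := z.val_lt
    have h2 : (j : ℕ) + 1 ≤ k := j.isLt
    calc (j : ℕ) * N + z.val < (j : ℕ) * N + N := by omega
      _ = ((j : ℕ) + 1) * N := by ring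
      _ ≤ k * N := Nat.mul_le_mul_right _ h2
      _ ≤ n := h⟩

lemma lab_inj (n k : ℕ) [NeZero N] (h : k * N ≤ n) {j j' : Fin k} {z z' : ZMod N}
    (e : lab n k h j z = lab n k h j' z') : j = j' ∧ z = z' := by
  have e' : (j : ℕ) * N + z.val = (j' : ℕ) * N + z'.val := congrArg Fin.val e
  have h1 : z.val < N := z.val_lt
  have h2 : z'.val < N := z'.val_lt
  have hN : 0 < N := Nat.pos_of_ne_zero (NeZero.ne N)
  have e1 : (j : ℕ) = j' := by
    have a1 : ((j : ℕ) * N + z.val) / N = j := by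
      rw [mul_comm, Nat.mul_add_div hN, Nat.div_eq_of_lt h1, add_zero]
    have a2 : ((j' : ℕ) * N + z'.val) / N = j' := by
      rw [mul_comm, Nat.mul_add_div hN, Nat.div_eq_of_lt h2, add_zero]
    rw [← a1, ← a2, e']
  refine ⟨Fin.ext e1, ZMod.val_injective N ?_⟩
  rw [e1] at e'
  omega

/-- The tuples. -/
def tup (n k : ℕ) [NeZero N] (h : k * N ≤ n) (a : Fin 3 → ZMod N) (s : Fin 5) : KSet n k :=
  ⟨univ.image (fun j : Fin k => lab n k h j (phi (g k s j) a)), by
    rw [Finset.card_image_of_injective, Finset.card_univ, Fintype.card_fin]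
    intro j j' e
    exact (lab_inj n k h e).1⟩

lemma tup_disj (n k : ℕ) [NeZero N] (h : k * N ≤ n) (hk : 3 ≤ k) (a b : Fin 3 → ZMod N)
    (s : Fin 5) : Disjoint (tup n k h a s).1 (tup n k h b s).1 ↔
      ∀ i : Fin 3, phi (tab s i) a ≠ phi (tab s i) b := by
  constructor
  · intro hd i hi
    have hik : (i : ℕ) < k := lt_of_lt_of_le i.isLt hk
    have hg : g k s ⟨i, hik⟩ = tab s i := by
      unfold g
      rw [dif_pos i.isLt]
    have m1 : lab n k h ⟨i, hik⟩ (phi (g k s ⟨i, hik⟩) a) ∈ (tup n k h a s).1 :=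
      Finset.mem_image_of_mem _ (Finset.mem_univ _)
    have m2 : lab n k h ⟨i, hik⟩ (phi (g k s ⟨i, hik⟩) b) ∈ (tup n k h b s).1 :=
      Finset.mem_image_of_mem _ (Finset.mem_univ _)
    rw [hg] at m1 m2
    rw [hi] at m1
    exact (Finset.disjoint_left.1 hd m1) m2
  · intro hi
    rw [Finset.disjoint_left]
    intro x hx hx'
    simp only [tup, Finset.mem_image, Finset.mem_univ, true_and] at hx hx'
    obtain ⟨j, rfl⟩ := hx
    obtain ⟨j', e⟩ := hx'
    obtain ⟨rfl, e2⟩ := lab_inj n k h e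
    unfold g at e2
    split_ifs at e2 with hj
    · exact hi _ e2.symm
    · exact hi _ e2.symm

lemma tup_adj (n k : ℕ) [NeZero N] (h : k * N ≤ n) (hk : 3 ≤ k) (a b : Fin 3 → ZMod N)
    (hab : a ≠ b) : (xorPower (kneser n k) 5).Adj (tup n k h a) (tup n k h b) := by
  classical
  have hkn : ∀ s, (kneser n k).Adj (tup n k h a s) (tup n k h b s) ↔
      Disjoint (tup n k h a s).1 (tup n k h b s).1 := by
    intro s
    constructor
    · exact fun h => h.2
    · intro hd
      refine ⟨?_, hd⟩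
      intro he
      rw [he, disjoint_self] at hd
      have := (tup n k h b s).2
      rw [hd, Finset.bot_eq_empty, Finset.card_empty] at this
      omega
  have hset : {s : Fin 5 | (kneser n k).Adj (tup n k h a s) (tup n k h b s)} =
      ((univ : Finset (Fin 5)).filter
        (fun s => ∀ i : Fin 3, phi (tab s i) a ≠ phi (tab s i) b) : Finset (Fin 5)) := by
    ext s
    simp only [Set.mem_ofPred_eq, Finset.coe_filter, Finset.mem_univ, true_and]
    rw [hkn s, tup_disj n k h hk]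
  have hodd : Odd {s : Fin 5 | (kneser n k).Adj (tup n k h a s) (tup n k h b s)}.ncard := by
    rw [hset, Set.ncard_coe_finset]
    exact parity a b hab
  refine ⟨?_, hodd⟩
  intro he
  have hempty : {s : Fin 5 | (kneser n k).Adj (tup n k h a s) (tup n k h b s)} = ∅ := by
    ext s
    simp only [Set.mem_ofPred_eq, Set.mem_empty_iff_false, iff_false]
    intro hs
    exact hs.1 (congrFun he s)
  rw [hempty] at hodd
  simp at hodd

lemma lower_N (n k : ℕ) [NeZero N] (h : k * N ≤ n) (hk : 3 ≤ k) : N ^ 3 ≤ f 5 n k := by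
  classical
  have hinj : Function.Injective (tup (N := N) n k h) := by
    intro a b he
    by_contra hab
    exact (tup_adj n k h hk a b hab).1 he
  have hcl : (xorPower (kneser n k) 5).IsClique
      (((univ : Finset (Fin 3 → ZMod N)).image (tup n k h) : Finset (Fin 5 → KSet n k)) :
        Set (Fin 5 → KSet n k)) := by
    intro x hx y hy hxy
    rw [Finset.mem_coe, Finset.mem_image] at hx hy
    obtain ⟨a, _, rfl⟩ := hx
    obtain ⟨b, _, rfl⟩ := hy
    exact tup_adj n k h hk a b (fun e => hxy (by rw [e]))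
  have := hcl.card_le_cliqueNum
  rw [Finset.card_image_of_injective _ hinj, Finset.card_univ, Fintype.card_fun, Fintype.card_fin,
    ZMod.card] at this
  exact this

lemma lower (n k : ℕ) (hk : 3 ≤ k) : (n / k) ^ 3 ≤ f 5 n k := by
  rcases Nat.eq_zero_or_pos (n / k) with h0 | h0
  · rw [h0]; positivity
  · have : NeZero (n / k) := ⟨h0.ne'⟩
    exact lower_N (N := n / k) n k (Nat.mul_div_le n k) hk

lemma not_bigO (k : ℕ) (hk : 3 ≤ k) :
    ¬ (fun n : ℕ => (f 5 n k : ℝ)) =O[atTop] (fun n : ℕ => (n : ℝ) ^ 2) := by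
  intro h
  obtain ⟨C, hC⟩ := h.bound
  rw [Filter.eventually_atTop] at hC
  obtain ⟨n0, hn0⟩ := hC
  have hk0 : (0 : ℝ) < k := by exact_mod_cast (by omega : 0 < k)
  obtain ⟨M, hM⟩ := exists_nat_gt (|C| * (k : ℝ) ^ 2)
  set N := M + n0 + 1 with hN
  have hge : n0 ≤ k * N := by nlinarith
  have h1 := hn0 (k * N) hge
  have h2 : N ^ 3 ≤ f 5 (k * N) k := by
    have := lower (k * N) k hk
    rwa [Nat.mul_div_cancel_left N (by omega)] at this
  have h3 : ((N : ℝ)) ^ 3 ≤ (f 5 (k * N) k : ℝ) := by exact_mod_cast h2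
  rw [Real.norm_of_nonneg (by positivity), Real.norm_of_nonneg (by positivity)] at h1
  have h4 : (N : ℝ) ^ 3 ≤ C * (k : ℝ) ^ 2 * (N : ℝ) ^ 2 := by
    refine (h3.trans h1).trans (le_of_eq ?_)
    push_cast
    ring
  have hNpos : (0 : ℝ) < N := by rw [hN]; positivity
  have h5 : (N : ℝ) ≤ C * (k : ℝ) ^ 2 := by
    have h6 : (N : ℝ) * (N : ℝ) ^ 2 ≤ (C * (k : ℝ) ^ 2) * (N : ℝ) ^ 2 := by
      calc (N : ℝ) * (N : ℝ) ^ 2 = (N : ℝ) ^ 3 := by ring
        _ ≤ _ := h4
    exact le_of_mul_le_mul_right h6 (by positivity)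
  have h7 : C * (k : ℝ) ^ 2 ≤ |C| * (k : ℝ) ^ 2 :=
    mul_le_mul_of_nonneg_right (le_abs_self C) (by positivity)
  have h8 : (M : ℝ) ≤ N := by rw [hN]; push_cast; linarith [(Nat.cast_nonneg n0 : (0:ℝ) ≤ n0)]
  linarith

end Pool.Agent.V11146.Xor
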